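import Pool.Agent.Lib.BedD.SpecA

/-!
# MP_6f050a_an, theorem D: the quadratic coefficient of one step
-/

set_option autoImplicit false

open scoped Topology
open Set Filter Metric

namespace Pool.Agent.Lib.BedD

namespace sAcQAux

theorem f_zero {x ℓ r C₀ : ℝ} {f : ℕ → E2 → E2} {L : ℕ → E2 ≃L[ℂ] E2} (h : SeqE x ℓ r C₀ f L)
    (m : ℕ) : f m 0 = 0 := by
  have := h.contr m 0 (mem_ball_self h.r_pos)
  rw [norm_zero, mul_zero] at this
  exact norm_le_zero_iff.1 this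

theorem N_le {x ℓ r C₀ : ℝ} {f : ℕ → E2 → E2} {L : ℕ → E2 ≃L[ℂ] E2} (h : SeqE x ℓ r C₀ f L)
    (m : ℕ) {w : E2} (hw : w ∈ ball (0 : E2) r) : ‖f m w - L m w‖ ≤ C₀ * ‖w‖ ^ 2 := by
  have := h.quad m w hw 0 (mem_ball_self h.r_pos)
  rw [f_zero h, map_zero, sub_zero, sub_zero, norm_zero, add_zero, sub_zero] at this
  calc ‖f m w - L m w‖ ≤ C₀ * ‖w‖ * ‖w‖ := this
    _ = _ := by ring

end sAcQAux

open sAcQAux in
theorem sAcQ : S_AcQ := by
  intro hTay x ℓ r C₀ f L hS m Λ u v hF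
  have hr := hS.r_pos
  have hC := hS.C_pos
  have hu : ‖Λ u‖ ≤ Real.exp (-(eA Λ)) := by
    have := le_eA Λ u
    rwa [hF.nu, mul_one] at this
  have hin : ∀ X : ℂ, X ∈ ball (0 : ℂ) (r * Real.exp (eA Λ)) → X • Λ u ∈ ball (0 : E2) r := by
    intro X hX
    rw [mem_ball_zero_iff] at hX ⊢
    rw [norm_smul]
    calc ‖X‖ * ‖Λ u‖ ≤ ‖X‖ * Real.exp (-(eA Λ)) := mul_le_mul_of_nonneg_left hu (norm_nonneg _)
      _ < r * Real.exp (eA Λ) * Real.exp (-(eA Λ)) :=
          mul_lt_mul_of_pos_right hX (Real.exp_pos _)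
      _ = r := by rw [mul_assoc, ← Real.exp_add, add_neg_cancel, Real.exp_zero, mul_one]
  have hb : 0 ≤ bb x ℓ C₀ * Real.exp (eB Λ - 2 * eA Λ) := by
    unfold bb
    positivity
  obtain ⟨q, hq, hq2⟩ := hTay
    (fun X => inner ℂ v (Λ.symm ((L m).symm (f m (X • Λ u) - L m (X • Λ u)))))
    (r * Real.exp (eA Λ)) (bb x ℓ C₀ * Real.exp (eB Λ - 2 * eA Λ)) (by positivity) hb (by
      have h1 : DifferentiableOn ℂ (fun X : ℂ => f m (X • Λ u))
          (ball 0 (r * Real.exp (eA Λ))) :=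
        (hS.diff m).comp ((differentiable_id.smul_const (Λ u)).differentiableOn) hin
      have h2 : DifferentiableOn ℂ (fun X : ℂ => L m (X • Λ u))
          (ball 0 (r * Real.exp (eA Λ))) :=
        ((L m).differentiable.comp (differentiable_id.smul_const (Λ u))).differentiableOn
      have h3 := h1.sub h2
      have h4 : Differentiable ℂ (fun z : E2 => (innerSL ℂ v) (Λ.symm ((L m).symm z))) :=
        (innerSL ℂ v).differentiable.comp (Λ.symm.differentiable.comp (L m).symm.differentiable)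
      exact h4.comp_differentiableOn h3) (by
      intro X hX
      have hX1 := hin X hX
      have h1 := N_le hS m hX1
      have h2 : ‖X • Λ u‖ ≤ ‖X‖ * Real.exp (-(eA Λ)) := by
        rw [norm_smul]
        exact mul_le_mul_of_nonneg_left hu (norm_nonneg _)
      have h3 : ‖X • Λ u‖ ^ 2 ≤ (‖X‖ * Real.exp (-(eA Λ))) ^ 2 :=
        pow_le_pow_left₀ (norm_nonneg _) h2 2
      show ‖inner ℂ v (Λ.symm ((L m).symm (f m (X • Λ u) - L m (X • Λ u))))‖ ≤ _
      calc ‖inner ℂ v (Λ.symm ((L m).symm (f m (X • Λ u) - L m (X • Λ u))))‖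
          ≤ ‖Λ.symm ((L m).symm (f m (X • Λ u) - L m (X • Λ u)))‖ := hF.le_v _
        _ ≤ Real.exp (eB Λ) * ‖(L m).symm (f m (X • Λ u) - L m (X • Λ u))‖ := symm_le Λ _
        _ ≤ Real.exp (eB Λ) * (Real.exp (x * ℓ) * ‖f m (X • Λ u) - L m (X • Λ u)‖) :=
            mul_le_mul_of_nonneg_left (hS.pin.symm m _) (Real.exp_pos _).le
        _ ≤ Real.exp (eB Λ) * (Real.exp (x * ℓ) * (C₀ * (‖X‖ * Real.exp (-(eA Λ))) ^ 2)) := by
            apply mul_le_mul_of_nonneg_left _ (Real.exp_pos _).le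
            apply mul_le_mul_of_nonneg_left _ (Real.exp_pos _).le
            exact h1.trans (mul_le_mul_of_nonneg_left h3 hC.le)
        _ = bb x ℓ C₀ * (Real.exp (eB Λ) * Real.exp (-(eA Λ)) * Real.exp (-(eA Λ))) *
            ‖X‖ ^ 2 := by
            unfold bb
            ring
        _ = bb x ℓ C₀ * Real.exp (eB Λ - 2 * eA Λ) * ‖X‖ ^ 2 := by
            rw [← Real.exp_add, ← Real.exp_add]
            congr 3
            ring)
  refine ⟨q, hq, fun X hX => ?_⟩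
  have h1 := hq2 X (by rw [mem_ball_zero_iff]; exact hX)
  refine h1.trans (le_of_eq ?_)
  have h2 : Real.exp (eB Λ - 3 * eA Λ) = Real.exp (eB Λ - 2 * eA Λ) / Real.exp (eA Λ) := by
    rw [← Real.exp_sub]
    congr 1
    ring
  rw [h2]
  have h3 := (Real.exp_pos (eA Λ)).ne'
  field_simp

end Pool.Agent.Lib.BedD
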