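import Pool.Agent.Lib.BedD.SpecA

/-!
# MP_6f050a_an, theorem D: one step, the accuracy
-/

set_option autoImplicit false

open scoped Topology
open Set Filter Metric

namespace Pool.Agent.Lib.BedD

namespace sAcSAux

variable {x ℓ r C₀ : ℝ} {f : ℕ → E2 → E2} {L : ℕ → E2 ≃L[ℂ] E2}

theorem f_zero (hS : SeqE x ℓ r C₀ f L) (m : ℕ) : f m 0 = 0 := by
  have h := hS.contr m 0 (mem_ball_self hS.r_pos)
  rw [norm_zero, mul_zero] at h
  exact norm_le_zero_iff.mp h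

theorem N_le (hS : SeqE x ℓ r C₀ f L) (m : ℕ) (w : E2) (hw : w ∈ ball (0 : E2) r) :
    ‖f m w - L m w‖ ≤ C₀ * ‖w‖ ^ 2 := by
  have h := hS.quad m w hw 0 (mem_ball_self hS.r_pos)
  rw [f_zero hS, map_zero, sub_zero, sub_zero, norm_zero, add_zero, sub_zero] at h
  rw [pow_two, ← mul_assoc]
  exact h

theorem bb_nonneg (hS : SeqE x ℓ r C₀ f L) : 0 ≤ bb x ℓ C₀ :=
  mul_nonneg hS.C_pos.le (Real.exp_pos _).le

theorem split (f : ℕ → E2 → E2) (L : ℕ → E2 ≃L[ℂ] E2) (m : ℕ) (Λ : E2 ≃L[ℂ] E2) (z : E2) :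
    Λ.symm ((L m).symm (f m (Λ z))) = z + Λ.symm ((L m).symm (f m (Λ z) - L m (Λ z))) := by
  rw [map_sub, map_sub, (L m).symm_apply_apply, Λ.symm_apply_apply]
  abel

/-- The numbers: `B - 2A - h ≤ -P - η A`. -/
theorem num1 (x A B P : ℝ) : B - 2 * A - pp (P + (B - gam x * A)) ≤ -P - eta x * A := by
  have h := le_pp (P + (B - gam x * A))
  rw [gam_eq] at h ⊢
  nlinarith

theorem num2 {x A B P : ℝ} (hx : x < 3) (hA : 0 ≤ A) (h : B + P ≤ x * A) :
    B - 3 * A ≤ -P - eta x * A := by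
  unfold eta
  nlinarith

theorem lam_z {u v : E2} (hf : Fr u v) (Λ : E2 ≃L[ℂ] E2) (z : E2) :
    Λ z - (inner ℂ u z : ℂ) • Λ u = (inner ℂ v z : ℂ) • Λ v := by
  conv_lhs => rw [hf.expand z]
  rw [map_add, map_smul, map_smul, hf.inner_u]
  abel

end sAcSAux

open sAcSAux in
theorem sAcS : S_AcS := by
  intro x ℓ r C₀ f L hS m Λ u v q P G c R hf hP hG hc hR hA hBP hv hu hq h1 h2 z hX hY
  have hb0 : 0 ≤ bb x ℓ C₀ := bb_nonneg hS
  have hC0 : 0 ≤ C₀ := hS.C_pos.le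
  have hr : 0 < r := hS.r_pos
  have hn1 := num1 x (eA Λ) (eB Λ) P
  have hn2 := num2 hS.pin.x_lt hA hBP
  have hh0 := pp_nonneg (P + (eB Λ - gam x * eA Λ))
  generalize pp (P + (eB Λ - gam x * eA Λ)) = h at *
  generalize hAe : eA Λ = A at *
  generalize hBe : eB Λ = B at *
  have hcR : 0 ≤ c * R ^ 2 := by positivity
  have hR2 : R ≤ c * R ^ 2 := by nlinarith
  have hc0 : 0 ≤ c := by linarith
  -- the vectors
  have hd : ‖Λ z - (inner ℂ u z : ℂ) • Λ u‖ ≤ 6 * R ^ 2 * c * Real.exp (-A - h) := by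
    rw [lam_z hf, norm_smul]
    calc ‖(inner ℂ v z : ℂ)‖ * ‖Λ v‖ ≤ (6 * R ^ 2 * Real.exp G) * (c * Real.exp (-A - G - h)) := by
          gcongr
      _ = 6 * R ^ 2 * c * (Real.exp G * Real.exp (-A - G - h)) := by ring
      _ = 6 * R ^ 2 * c * Real.exp (-A - h) := by
          rw [← Real.exp_add]
          congr 2
          ring
  have hXu : ‖(inner ℂ u z : ℂ) • Λ u‖ ≤ 2 * R * Real.exp (-A) := by
    rw [norm_smul]
    have h3 := le_eA Λ u
    rw [hf.nu, mul_one, hAe] at h3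
    gcongr
  have hexp : Real.exp (-A - h) ≤ Real.exp (-A) := by
    rw [Real.exp_le_exp]
    linarith
  have hz : ‖Λ z‖ ≤ 8 * c * R ^ 2 * Real.exp (-A) := by
    have e1 : Λ z = (Λ z - (inner ℂ u z : ℂ) • Λ u) + (inner ℂ u z : ℂ) • Λ u := by abel
    rw [e1]
    refine (norm_add_le _ _).trans ?_
    have h3 : 6 * R ^ 2 * c * Real.exp (-A - h) ≤ 6 * R ^ 2 * c * Real.exp (-A) := by gcongr
    have h4 : 2 * R * Real.exp (-A) ≤ 2 * (c * R ^ 2) * Real.exp (-A) := by gcongr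
    calc _ ≤ 6 * R ^ 2 * c * Real.exp (-A) + 2 * (c * R ^ 2) * Real.exp (-A) :=
          add_le_add (hd.trans h3) (hXu.trans h4)
      _ = 8 * c * R ^ 2 * Real.exp (-A) := by ring
  have hzb : Λ z ∈ ball (0 : E2) r := by
    rw [mem_ball_zero_iff]
    exact hz.trans_lt h1
  have hXb : (inner ℂ u z : ℂ) • Λ u ∈ ball (0 : E2) r := by
    rw [mem_ball_zero_iff]
    refine (hXu.trans ?_).trans_lt h1
    have h4 : 2 * R ≤ 8 * c * R ^ 2 := by nlinarith
    gcongr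
  have hLN : ∀ w w' : E2, ‖(L m).symm (w - w')‖ ≤ Real.exp (x * ℓ) * ‖w - w'‖ := fun w w' =>
    hS.pin.symm m (w - w')
  refine ⟨hz, ?_, ?_⟩
  · rw [split f L m Λ z, inner_add_right, add_sub_cancel_left]
    have h3 : ‖(L m).symm (f m (Λ z) - L m (Λ z))‖ ≤
        bb x ℓ C₀ * (64 * c ^ 2 * R ^ 4 * (Real.exp (-A) * Real.exp (-A))) := by
      calc ‖(L m).symm (f m (Λ z) - L m (Λ z))‖
          ≤ Real.exp (x * ℓ) * ‖f m (Λ z) - L m (Λ z)‖ := hLN _ _
        _ ≤ Real.exp (x * ℓ) * (C₀ * (8 * c * R ^ 2 * Real.exp (-A)) ^ 2) := by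
            have h5 := N_le hS m (Λ z) hzb
            gcongr
            refine h5.trans ?_
            gcongr
        _ = bb x ℓ C₀ * (64 * c ^ 2 * R ^ 4 * (Real.exp (-A) * Real.exp (-A))) := by
            unfold bb
            ring
    calc ‖(inner ℂ u (Λ.symm ((L m).symm (f m (Λ z) - L m (Λ z)))) : ℂ)‖
        ≤ c * Real.exp (B - G - h) * ‖(L m).symm (f m (Λ z) - L m (Λ z))‖ := hu _
      _ ≤ c * Real.exp (B - G - h) *
          (bb x ℓ C₀ * (64 * c ^ 2 * R ^ 4 * (Real.exp (-A) * Real.exp (-A)))) := by gcongr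
      _ = 64 * bb x ℓ C₀ * c ^ 3 * R ^ 4 *
          (Real.exp (B - G - h) * (Real.exp (-A) * Real.exp (-A))) := by ring
      _ ≤ 64 * bb x ℓ C₀ * c ^ 3 * R ^ 4 * Real.exp (-P - eta x * A - G) := by
          rw [← Real.exp_add, ← Real.exp_add]
          gcongr
          linarith
  · have e1 : (inner ℂ v (Λ.symm ((L m).symm (f m (Λ z)))) : ℂ) - inner ℂ v z -
        q * (inner ℂ u z) ^ 2 =
        (inner ℂ v (Λ.symm ((L m).symm ((f m (Λ z) - L m (Λ z)) -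
          (f m ((inner ℂ u z : ℂ) • Λ u) - L m ((inner ℂ u z : ℂ) • Λ u))))) : ℂ) +
        (inner ℂ v (Λ.symm ((L m).symm (f m ((inner ℂ u z : ℂ) • Λ u) -
          L m ((inner ℂ u z : ℂ) • Λ u)))) - q * (inner ℂ u z) ^ 2) := by
      rw [split f L m Λ z, inner_add_right]
      rw [map_sub (L m).symm (f m (Λ z) - L m (Λ z)), map_sub Λ.symm, inner_sub_right]
      ring
    rw [e1]
    have h3 : ‖(inner ℂ v (Λ.symm ((L m).symm ((f m (Λ z) - L m (Λ z)) -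
          (f m ((inner ℂ u z : ℂ) • Λ u) - L m ((inner ℂ u z : ℂ) • Λ u))))) : ℂ)‖ ≤
        60 * bb x ℓ C₀ * c ^ 2 * R ^ 4 * Real.exp (-P - eta x * A) := by
      refine (hf.le_v _).trans ((symm_le Λ _).trans ?_)
      rw [hBe]
      have h4 := hS.quad m (Λ z) hzb ((inner ℂ u z : ℂ) • Λ u) hXb
      have h5 : ‖Λ z‖ + ‖(inner ℂ u z : ℂ) • Λ u‖ ≤ 10 * c * R ^ 2 * Real.exp (-A) := by
        have h6 : 2 * R * Real.exp (-A) ≤ 2 * (c * R ^ 2) * Real.exp (-A) := by gcongr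
        calc _ ≤ 8 * c * R ^ 2 * Real.exp (-A) + 2 * (c * R ^ 2) * Real.exp (-A) :=
              add_le_add hz (hXu.trans h6)
          _ = 10 * c * R ^ 2 * Real.exp (-A) := by ring
      calc Real.exp B * ‖(L m).symm ((f m (Λ z) - L m (Λ z)) -
            (f m ((inner ℂ u z : ℂ) • Λ u) - L m ((inner ℂ u z : ℂ) • Λ u)))‖
          ≤ Real.exp B * (Real.exp (x * ℓ) * ‖(f m (Λ z) - L m (Λ z)) -
            (f m ((inner ℂ u z : ℂ) • Λ u) - L m ((inner ℂ u z : ℂ) • Λ u))‖) := by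
            gcongr
            exact hLN _ _
        _ ≤ Real.exp B * (Real.exp (x * ℓ) * (C₀ * (10 * c * R ^ 2 * Real.exp (-A)) *
            (6 * R ^ 2 * c * Real.exp (-A - h)))) := by
            gcongr
            refine h4.trans ?_
            gcongr
        _ = 60 * bb x ℓ C₀ * c ^ 2 * R ^ 4 *
            (Real.exp B * (Real.exp (-A) * Real.exp (-A - h))) := by
            unfold bb
            ring
        _ ≤ 60 * bb x ℓ C₀ * c ^ 2 * R ^ 4 * Real.exp (-P - eta x * A) := by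
            rw [← Real.exp_add, ← Real.exp_add]
            gcongr
            linarith
    have h4 : ‖(inner ℂ v (Λ.symm ((L m).symm (f m ((inner ℂ u z : ℂ) • Λ u) -
          L m ((inner ℂ u z : ℂ) • Λ u)))) : ℂ) - q * (inner ℂ u z) ^ 2‖ ≤
        16 * bb x ℓ C₀ / r * R ^ 3 * Real.exp (-P - eta x * A) := by
      refine (hq _ (hX.trans_lt h2)).trans ?_
      calc 2 * bb x ℓ C₀ / r * Real.exp (B - 3 * A) * ‖(inner ℂ u z : ℂ)‖ ^ 3
          ≤ 2 * bb x ℓ C₀ / r * Real.exp (-P - eta x * A) * (2 * R) ^ 3 := by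
            gcongr
        _ = 16 * bb x ℓ C₀ / r * R ^ 3 * Real.exp (-P - eta x * A) := by ring
    calc _ ≤ 60 * bb x ℓ C₀ * c ^ 2 * R ^ 4 * Real.exp (-P - eta x * A) +
          16 * bb x ℓ C₀ / r * R ^ 3 * Real.exp (-P - eta x * A) :=
          (norm_add_le _ _).trans (add_le_add h3 h4)
      _ = (60 * bb x ℓ C₀ * c ^ 2 * R ^ 4 + 16 * bb x ℓ C₀ / r * R ^ 3) *
          Real.exp (-P - eta x * A) := by ring

end Pool.Agent.Lib.BedD
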