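import Pool.Agent.Lib.BedD.SpecA

/-!
# MP_6f050a_an, theorem D: the map of a stage is very close to a quadratic shear
-/

set_option autoImplicit false

open scoped Topology
open Set Filter Metric

namespace Pool.Agent.Lib.BedD

namespace sAccAux

/-- the numerical estimates of one step -/
theorem num {b r c n R E g : ℝ} (hb : 0 < b) (hr : 0 < r) (hc : 1 ≤ c) (hn : 1 ≤ n)
    (hR : 1 ≤ R) (hE : 0 < E) (hg : 0 < g) (hg1 : g ≤ 1) :
    64 * b * (c * n) ^ 3 * R ^ 4 * (E * g) ≤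
      (400 * b * c ^ 3 + 16 * b / r) * n ^ 3 * R ^ 5 * E ∧
    (60 * b * (c * n) ^ 2 * R ^ 4 + 16 * b / r * R ^ 3) * E + 256 * b * (c * n) ^ 3 * R ^ 5 * E ≤
      (400 * b * c ^ 3 + 16 * b / r) * n ^ 3 * R ^ 5 * E := by
  have hc0 : 0 < c := by linarith
  have hn0 : 0 < n := by linarith
  have hR0 : 0 < R := by linarith
  have hT : 0 < b * c ^ 3 * n ^ 3 * R ^ 5 * E := by positivity
  have hU : 0 < b / r * n ^ 3 * R ^ 5 * E := by positivity
  have hR4 : R ^ 4 ≤ R ^ 5 := pow_le_pow_right₀ hR (by norm_num)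
  have hR3 : R ^ 3 ≤ R ^ 5 := pow_le_pow_right₀ hR (by norm_num)
  have hn2 : n ^ 2 ≤ n ^ 3 := pow_le_pow_right₀ hn (by norm_num)
  have hn3 : 1 ≤ n ^ 3 := one_le_pow₀ hn
  have hc2 : c ^ 2 ≤ c ^ 3 := pow_le_pow_right₀ hc (by norm_num)
  have e0 : (400 * b * c ^ 3 + 16 * b / r) * n ^ 3 * R ^ 5 * E =
      400 * (b * c ^ 3 * n ^ 3 * R ^ 5 * E) + 16 * (b / r * n ^ 3 * R ^ 5 * E) := by ring
  have e1 : 64 * b * (c * n) ^ 3 * R ^ 4 * (E * g) ≤ 64 * (b * c ^ 3 * n ^ 3 * R ^ 5 * E) := by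
    have h1 : R ^ 4 * g ≤ R ^ 5 * 1 := mul_le_mul hR4 hg1 hg.le (by positivity)
    calc 64 * b * (c * n) ^ 3 * R ^ 4 * (E * g) =
        64 * (b * c ^ 3 * n ^ 3 * E) * (R ^ 4 * g) := by ring
      _ ≤ 64 * (b * c ^ 3 * n ^ 3 * E) * (R ^ 5 * 1) :=
          mul_le_mul_of_nonneg_left h1 (by positivity)
      _ = _ := by ring
  have e2 : 60 * b * (c * n) ^ 2 * R ^ 4 * E ≤ 60 * (b * c ^ 3 * n ^ 3 * R ^ 5 * E) := by
    have h1 : c ^ 2 * n ^ 2 * R ^ 4 ≤ c ^ 3 * n ^ 3 * R ^ 5 :=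
      mul_le_mul (mul_le_mul hc2 hn2 (by positivity) (by positivity)) hR4 (by positivity)
        (by positivity)
    calc 60 * b * (c * n) ^ 2 * R ^ 4 * E = 60 * b * E * (c ^ 2 * n ^ 2 * R ^ 4) := by ring
      _ ≤ 60 * b * E * (c ^ 3 * n ^ 3 * R ^ 5) := mul_le_mul_of_nonneg_left h1 (by positivity)
      _ = _ := by ring
  have e3 : 16 * b / r * R ^ 3 * E ≤ 16 * (b / r * n ^ 3 * R ^ 5 * E) := by
    have h1 : 1 * R ^ 3 ≤ n ^ 3 * R ^ 5 := mul_le_mul hn3 hR3 (by positivity) (by positivity)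
    calc 16 * b / r * R ^ 3 * E = 16 * (b / r * E) * (1 * R ^ 3) := by ring
      _ ≤ 16 * (b / r * E) * (n ^ 3 * R ^ 5) := mul_le_mul_of_nonneg_left h1 (by positivity)
      _ = _ := by ring
  have e4 : 256 * b * (c * n) ^ 3 * R ^ 5 * E = 256 * (b * c ^ 3 * n ^ 3 * R ^ 5 * E) := by ring
  constructor
  · rw [e0]
    linarith
  · rw [e0, add_mul, e4]
    linarith

/-- the abstract induction over the steps -/
theorem ind {X Y Q q : ℕ → ℂ} {δ R n : ℝ} {N : ℕ} (hδ : 0 ≤ δ) (hQ0 : Q 0 = 0)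
    (hQ : ∀ k, Q (k + 1) = Q k + q k) (hN : (N : ℝ) ≤ n) (hn : n * δ ≤ 1) (hR : 1 ≤ R)
    (hX0 : ‖X 0‖ ≤ R) (hY0 : ‖Y 0‖ ≤ R)
    (step : ∀ k, k < N → ∃ g : ℝ, 1 ≤ g ∧ ‖Q k‖ ≤ g ∧ ‖Q (k + 1)‖ ≤ g ∧
      (‖X k‖ ≤ 2 * R → ‖Y k‖ ≤ 6 * R ^ 2 * g → ∃ d₁ d₂ : ℝ, ‖X (k + 1) - X k‖ ≤ d₁ ∧
        ‖Y (k + 1) - Y k - q k * X k ^ 2‖ ≤ d₂ ∧ d₁ ≤ δ ∧ d₂ + g * (d₁ * (4 * R)) ≤ δ)) :
    ∀ k, k ≤ N → ‖X k - X 0‖ ≤ k * δ ∧ ‖Y k - Q k * X k ^ 2 - Y 0‖ ≤ k * δ := by
  have hkn : ∀ k : ℕ, k ≤ N → (k : ℝ) * δ ≤ 1 := by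
    intro k hk
    have h1 : (k : ℝ) ≤ N := by exact_mod_cast hk
    exact (mul_le_mul_of_nonneg_right (h1.trans hN) hδ).trans hn
  have hX2 : ∀ k : ℕ, k ≤ N → ‖X k - X 0‖ ≤ k * δ → ‖X k‖ ≤ 2 * R := by
    intro k hk h
    have h1 : ‖X k‖ ≤ ‖X k - X 0‖ + ‖X 0‖ := by
      calc ‖X k‖ = ‖(X k - X 0) + X 0‖ := by rw [sub_add_cancel]
        _ ≤ _ := norm_add_le _ _
    have h2 := hkn k hk
    linarith
  intro k
  induction k with
  | zero =>
    intro _
    simp [hQ0]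
  | succ k ih =>
    intro hk
    obtain ⟨i1, i2⟩ := ih (by omega)
    obtain ⟨g, hg, hQk, hQk1, hst⟩ := step k (by omega)
    have hXk := hX2 k (by omega) i1
    have hYk : ‖Y k‖ ≤ 6 * R ^ 2 * g := by
      have h1 : ‖Y k‖ ≤ ‖Y k - Q k * X k ^ 2 - Y 0‖ + ‖Q k‖ * ‖X k‖ ^ 2 + ‖Y 0‖ := by
        have e : Y k = (Y k - Q k * X k ^ 2 - Y 0) + Q k * X k ^ 2 + Y 0 := by ring
        calc ‖Y k‖ = ‖(Y k - Q k * X k ^ 2 - Y 0) + Q k * X k ^ 2 + Y 0‖ := by rw [← e]
          _ ≤ ‖Y k - Q k * X k ^ 2 - Y 0‖ + ‖Q k * X k ^ 2‖ + ‖Y 0‖ := norm_add₃_le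
          _ = _ := by rw [norm_mul, norm_pow]
      have h2 : ‖Q k‖ * ‖X k‖ ^ 2 ≤ g * (2 * R) ^ 2 :=
        mul_le_mul hQk (pow_le_pow_left₀ (norm_nonneg _) hXk 2) (by positivity) (by linarith)
      have h3 := hkn k (by omega)
      have h4 : R ≤ R ^ 2 * g := by
        have h5 : R * 1 ≤ R * (R * g) :=
          mul_le_mul_of_nonneg_left (one_le_mul_of_one_le_of_one_le hR hg) (by linarith)
        calc R = R * 1 := by ring
          _ ≤ R * (R * g) := h5
          _ = _ := by ring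
      nlinarith
    obtain ⟨d₁, d₂, hd1, hd2, hd3, hd4⟩ := hst hXk hYk
    have hX1 : ‖X (k + 1) - X 0‖ ≤ ((k + 1 : ℕ) : ℝ) * δ := by
      calc ‖X (k + 1) - X 0‖ = ‖(X (k + 1) - X k) + (X k - X 0)‖ := by rw [sub_add_sub_cancel]
        _ ≤ ‖X (k + 1) - X k‖ + ‖X k - X 0‖ := norm_add_le _ _
        _ ≤ δ + k * δ := add_le_add (hd1.trans hd3) i1
        _ = _ := by push_cast; ring
    refine ⟨hX1, ?_⟩
    have hXk1 := hX2 (k + 1) hk hX1
    have e : Y (k + 1) - Q (k + 1) * X (k + 1) ^ 2 - Y 0 =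
        (Y k - Q k * X k ^ 2 - Y 0) + (Y (k + 1) - Y k - q k * X k ^ 2) -
          Q (k + 1) * ((X (k + 1) - X k) * (X (k + 1) + X k)) := by
      rw [hQ]
      ring
    have h5 : ‖Q (k + 1) * ((X (k + 1) - X k) * (X (k + 1) + X k))‖ ≤ g * (d₁ * (4 * R)) := by
      rw [norm_mul, norm_mul]
      have h6 : ‖X (k + 1) + X k‖ ≤ 4 * R := (norm_add_le _ _).trans (by linarith)
      exact mul_le_mul hQk1 (mul_le_mul hd1 h6 (norm_nonneg _) ((norm_nonneg _).trans hd1))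
        (by positivity) (by linarith)
    calc ‖Y (k + 1) - Q (k + 1) * X (k + 1) ^ 2 - Y 0‖
        ≤ ‖Y k - Q k * X k ^ 2 - Y 0‖ + ‖Y (k + 1) - Y k - q k * X k ^ 2‖ +
          ‖Q (k + 1) * ((X (k + 1) - X k) * (X (k + 1) + X k))‖ := by
          rw [e]
          exact (norm_sub_le _ _).trans (add_le_add (norm_add_le _ _) le_rfl)
      _ ≤ k * δ + d₂ + g * (d₁ * (4 * R)) := add_le_add (add_le_add i2 hd2) h5
      _ ≤ k * δ + δ := by linarith
      _ = _ := by push_cast; ring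

/-- the maximum of a function on an interval -/
theorem exmax (g : ℕ → ℝ) {s m : ℕ} (h : s ≤ m) :
    ∃ k, s ≤ k ∧ k ≤ m ∧ ∀ i, s ≤ i → i ≤ m → g i ≤ g k := by
  obtain ⟨k, hk, hk'⟩ := Finset.exists_max_image (Finset.Icc s m) g
    ⟨s, Finset.mem_Icc.mpr ⟨le_rfl, h⟩⟩
  rw [Finset.mem_Icc] at hk
  exact ⟨k, hk.1, hk.2, fun i h1 h2 => hk' i (Finset.mem_Icc.mpr ⟨h1, h2⟩)⟩

end sAccAux

open sAccAux in
theorem sAcc : S_Acc := by
  intro hSlo hAcS hAcQ x ℓ r C₀ f L hS C₅ s M P ρ u v hG j R hR h1 h2 h3 h4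
  have hslp := hSlo x ℓ L hS.pin (M j)
  have hη : 0 < eta x := by
    have := hS.pin.x_lt
    unfold eta
    linarith
  have hb : 0 < bb x ℓ C₀ := mul_pos hS.C_pos (Real.exp_pos _)
  have hCC : 1 ≤ CC x ℓ := by
    unfold CC
    exact Real.one_le_exp (mul_nonneg (by linarith [hS.pin.x_gt]) hS.pin.ℓ_pos.le)
  have hn1 : 1 ≤ nn s j := by
    have h := hG.lt j
    have h' : (s j : ℝ) ≤ s (j + 1) := by exact_mod_cast h.le
    unfold nn
    linarith
  have hlt := hG.lt j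
  have haj : ∀ k, aa L s M j ≤ LA L (M j) (s j + k) := by
    intro k
    have h := hslp.A_add (s j) k
    have h' : 0 ≤ ℓ * (k : ℝ) := mul_nonneg hS.pin.ℓ_pos.le (Nat.cast_nonneg k)
    unfold aa
    linarith
  have ha1 : 1 ≤ aa L s M j := hG.one_le j
  -- the coefficients
  have hq := fun m => hAcQ x ℓ r C₀ f L hS m (La L (M j) m) (u j) (v j) (hG.fr j)
  choose q hq1 hq2 using hq
  -- the sums
  have hsum : ∀ (H : ℝ) (k : ℕ), s j + k ≤ s (j + 1) →
      (∀ i, i < k → GG x (LA L (M j)) (LB L (M j)) (s j + i) ≤ H) →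
      ‖∑ i ∈ Finset.range k, q (s j + i)‖ ≤ Real.exp H := by
    intro H k hk hH
    have hterm : ∀ i ∈ Finset.range k, ‖q (s j + i)‖ ≤
        bb x ℓ C₀ * (Real.exp H * Real.exp (-(eta x * aa L s M j))) := by
      intro i hi
      refine (hq1 (s j + i)).trans (mul_le_mul_of_nonneg_left ?_ hb.le)
      rw [← Real.exp_add, Real.exp_le_exp]
      have e1 := hH i (Finset.mem_range.mp hi)
      have e2 := haj i
      have e3 : eta x * aa L s M j ≤ eta x * LA L (M j) (s j + i) :=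
        mul_le_mul_of_nonneg_left e2 hη.le
      have e4 : eB (La L (M j) (s j + i)) - 2 * eA (La L (M j) (s j + i)) =
          GG x (LA L (M j)) (LB L (M j)) (s j + i) - eta x * LA L (M j) (s j + i) := by
        rw [show GG x (LA L (M j)) (LB L (M j)) (s j + i) =
          eB (La L (M j) (s j + i)) - gam x * eA (La L (M j) (s j + i)) from rfl,
          show LA L (M j) (s j + i) = eA (La L (M j) (s j + i)) from rfl, gam_eq]
        ring
      rw [e4]
      linarith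
    have hcard : (k : ℝ) ≤ nn s j := by
      have h : ((s j + k : ℕ) : ℝ) ≤ s (j + 1) := by exact_mod_cast hk
      push_cast at h
      unfold nn
      linarith
    calc ‖∑ i ∈ Finset.range k, q (s j + i)‖ ≤ ∑ i ∈ Finset.range k, ‖q (s j + i)‖ :=
          norm_sum_le _ _
      _ ≤ ∑ _i ∈ Finset.range k, bb x ℓ C₀ * (Real.exp H * Real.exp (-(eta x * aa L s M j))) :=
          Finset.sum_le_sum hterm
      _ = k * (bb x ℓ C₀ * (Real.exp H * Real.exp (-(eta x * aa L s M j)))) := by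
          rw [Finset.sum_const, Finset.card_range, nsmul_eq_mul]
      _ ≤ nn s j * (bb x ℓ C₀ * (Real.exp H * Real.exp (-(eta x * aa L s M j)))) :=
          mul_le_mul_of_nonneg_right hcard (by positivity)
      _ = (bb x ℓ C₀ * nn s j * Real.exp (-(eta x * aa L s M j))) * Real.exp H := by ring
      _ ≤ 1 * Real.exp H := mul_le_mul_of_nonneg_right h1 (Real.exp_pos _).le
      _ = _ := one_mul _
  have hN : s j + (s (j + 1) - s j) = s (j + 1) := by omega
  refine ⟨∑ i ∈ Finset.range (s (j + 1) - s j), q (s j + i), hsum _ _ hN.le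
    (fun i hi => hG.g_le j _ (by omega) (by omega)), fun z hz => ⟨?_, ?_⟩⟩
  · -- the domain
    have e1 := le_eA (La L (M j) (s j)) z
    have e2 : Real.exp (-(eA (La L (M j) (s j)))) * ‖z‖ ≤ Real.exp (-(aa L s M j)) * R :=
      mul_le_mul_of_nonneg_left hz (Real.exp_pos _).le
    have e3 : R ≤ 8 * (CC x ℓ * nn s j) * R ^ 2 := by
      have e4 : 1 ≤ CC x ℓ * nn s j := one_le_mul_of_one_le_of_one_le hCC hn1
      have e5 : 1 * (1 * R) ≤ 8 * (CC x ℓ * nn s j) * (R * R) :=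
        mul_le_mul (by linarith) (mul_le_mul_of_nonneg_right hR (by linarith)) (by linarith)
          (by linarith)
      calc R = 1 * (1 * R) := by ring
        _ ≤ 8 * (CC x ℓ * nn s j) * (R * R) := e5
        _ = _ := by ring
    have e6 : Real.exp (-(aa L s M j)) * R ≤
        8 * (CC x ℓ * nn s j) * R ^ 2 * Real.exp (-(aa L s M j)) := by
      rw [mul_comm]
      exact mul_le_mul_of_nonneg_right e3 (Real.exp_pos _).le
    show ‖La L (M j) (s j) z‖ < r
    linarith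
  · rintro z' hz'
    obtain ⟨ζ, hζ⟩ : ∃ ζ : ℕ → E2, ∀ k, ζ k = (La L (M j) (s j + k)).symm
        (orbE f (s j) k (La L (M j) (s j) z)) := ⟨_, fun _ => rfl⟩
    have hζ0 : ζ 0 = z := by
      rw [hζ, orbE_zero]
      exact (La L (M j) (s j)).symm_apply_apply z
    have hζs : ∀ k, ζ (k + 1) = (La L (M j) (s j + k)).symm ((L (s j + k)).symm
        (f (s j + k) (La L (M j) (s j + k) (ζ k)))) := by
      intro k
      rw [hζ (k + 1), orbE_succ, ← Nat.add_assoc, La_succ_symm, hζ k,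
        (La L (M j) (s j + k)).apply_symm_apply]
    have hζN : ζ (s (j + 1) - s j) = z' := by
      rw [hζ, hN, hz']
    obtain ⟨E, hE⟩ : ∃ E : ℝ, E = Real.exp (-(P j) - eta x * aa L s M j) := ⟨_, rfl⟩
    have hE0 : 0 < E := by rw [hE]; exact Real.exp_pos _
    obtain ⟨δ, hδ⟩ : ∃ δ : ℝ, δ = C4 x ℓ r C₀ * nn s j ^ 3 * R ^ 5 * E := ⟨_, rfl⟩
    have hr := hS.r_pos
    have hC4 : 0 < C4 x ℓ r C₀ := by
      unfold C4
      positivity
    have hδ0 : 0 < δ := by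
      rw [hδ]
      have : 0 < nn s j := by linarith
      have : 0 < R := by linarith
      positivity
    have hnδ : nn s j * δ ≤ 1 := by
      have e1 : E ≤ Real.exp (-(eta x * aa L s M j)) := by
        rw [hE, Real.exp_le_exp]
        linarith [hG.P_nonneg j]
      have e2 : 0 ≤ C4 x ℓ r C₀ * nn s j ^ 4 * R ^ 5 := by
        have : 0 < nn s j := by linarith
        have : 0 < R := by linarith
        positivity
      calc nn s j * δ = C4 x ℓ r C₀ * nn s j ^ 4 * R ^ 5 * E := by rw [hδ]; ring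
        _ ≤ C4 x ℓ r C₀ * nn s j ^ 4 * R ^ 5 * Real.exp (-(eta x * aa L s M j)) :=
            mul_le_mul_of_nonneg_left e1 e2
        _ ≤ 1 := h4
    have hNn : ((s (j + 1) - s j : ℕ) : ℝ) ≤ nn s j := by
      rw [Nat.cast_sub hlt.le]
      unfold nn
      linarith
    have key := ind (X := fun k => inner ℂ (u j) (ζ k)) (Y := fun k => inner ℂ (v j) (ζ k))
      (Q := fun k => ∑ i ∈ Finset.range k, q (s j + i)) (q := fun k => q (s j + k)) (δ := δ)
      (R := R) (n := nn s j) (N := s (j + 1) - s j) hδ0.le (by simp)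
      (fun k => Finset.sum_range_succ _ _) hNn hnδ hR
      (by
        show ‖(inner ℂ (u j) (ζ 0) : ℂ)‖ ≤ R
        rw [hζ0]
        exact ((hG.fr j).le_u z).trans hz)
      (by
        show ‖(inner ℂ (v j) (ζ 0) : ℂ)‖ ≤ R
        rw [hζ0]
        exact ((hG.fr j).le_v z).trans hz) ?_ (s (j + 1) - s j) le_rfl
    · obtain ⟨k1, k2⟩ := key
      simp only [hζ0, hζN] at k1 k2
      have e1 : ((s (j + 1) - s j : ℕ) : ℝ) * δ ≤ nn s j * δ :=
        mul_le_mul_of_nonneg_right hNn hδ0.le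
      calc _ ≤ nn s j * δ + nn s j * δ := add_le_add (k1.trans e1) (k2.trans e1)
        _ = _ := by rw [hδ, hE]; ring
    · intro k hk
      obtain ⟨k₀, hk1, hk2, hk3⟩ := exmax (GG x (LA L (M j)) (LB L (M j)))
        (s := s j) (m := s j + k) (by omega)
      obtain ⟨G, hGd⟩ : ∃ G : ℝ, G = pp (GG x (LA L (M j)) (LB L (M j)) k₀) := ⟨_, rfl⟩
      have hG0 : 0 ≤ G := by rw [hGd]; exact pp_nonneg _
      have hle : ∀ i, i < k + 1 → GG x (LA L (M j)) (LB L (M j)) (s j + i) ≤ G := by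
        intro i hi
        rw [hGd]
        exact (hk3 _ (by omega) (by omega)).trans (le_pp _)
      refine ⟨Real.exp G, Real.one_le_exp hG0,
        hsum G k (by omega) (fun i hi => hle i (by omega)), hsum G (k + 1) (by omega) hle, ?_⟩
      intro hX hY
      have hA := haj k
      have hmono : Real.exp (-(eA (La L (M j) (s j + k)))) ≤ Real.exp (-(aa L s M j)) := by
        rw [Real.exp_le_exp]
        exact neg_le_neg hA
      have hc1 : 1 ≤ CC x ℓ * nn s j := one_le_mul_of_one_le_of_one_le hCC hn1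
      have hres := hAcS x ℓ r C₀ f L hS (s j + k) (La L (M j) (s j + k)) (u j) (v j)
        (q (s j + k)) (P j) G (CC x ℓ * nn s j) R (hG.fr j) (hG.P_nonneg j) hG0 hc1 hR
        (by
          show 0 ≤ LA L (M j) (s j + k)
          linarith)
        (hG.BP j (s j + k) (by omega))
        (by
          rw [hGd]
          exact hG.dv j k₀ (s j + k) hk1 hk2 (by omega))
        (by
          intro w
          rw [hGd]
          exact hG.du j k₀ (s j + k) hk1 hk2 (by omega) w)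
        (hq2 (s j + k))
        (lt_of_le_of_lt (mul_le_mul_of_nonneg_left hmono (by positivity)) h2)
        (lt_of_lt_of_le h3 (mul_le_mul_of_nonneg_left (Real.exp_le_exp.mpr hA) hr.le))
        (ζ k) hX hY
      obtain ⟨-, r1, r2⟩ := hres
      rw [← hζs k] at r1 r2
      have hEm : Real.exp (-(P j) - eta x * eA (La L (M j) (s j + k))) ≤ E := by
        rw [hE, Real.exp_le_exp]
        have : eta x * aa L s M j ≤ eta x * eA (La L (M j) (s j + k)) :=
          mul_le_mul_of_nonneg_left hA hη.le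
        linarith
      have hEG : Real.exp (-(P j) - eta x * eA (La L (M j) (s j + k)) - G) ≤
          E * Real.exp (-G) := by
        rw [sub_eq_add_neg (-(P j) - eta x * eA (La L (M j) (s j + k))) G, Real.exp_add]
        exact mul_le_mul_of_nonneg_right hEm (Real.exp_pos _).le
      obtain ⟨n1, n2⟩ := num (b := bb x ℓ C₀) (r := r) (c := CC x ℓ) (n := nn s j) (R := R)
        (E := E) (g := Real.exp (-G)) hb hr hCC hn1 hR hE0 (Real.exp_pos _)
        (Real.exp_le_one_iff.mpr (by linarith))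
      have hGG : Real.exp G * Real.exp (-G) = 1 := by
        rw [← Real.exp_add, add_neg_cancel, Real.exp_zero]
      refine ⟨64 * bb x ℓ C₀ * (CC x ℓ * nn s j) ^ 3 * R ^ 4 * (E * Real.exp (-G)),
        (60 * bb x ℓ C₀ * (CC x ℓ * nn s j) ^ 2 * R ^ 4 + 16 * bb x ℓ C₀ / r * R ^ 3) * E,
        r1.trans (mul_le_mul_of_nonneg_left hEG (by positivity)),
        r2.trans (mul_le_mul_of_nonneg_left hEm (by positivity)), ?_, ?_⟩
      · rw [hδ]
        exact n1
      · rw [hδ]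
        have e1 : Real.exp G * (64 * bb x ℓ C₀ * (CC x ℓ * nn s j) ^ 3 * R ^ 4 *
            (E * Real.exp (-G)) * (4 * R)) = 256 * bb x ℓ C₀ * (CC x ℓ * nn s j) ^ 3 * R ^ 5 * E := by
          calc _ = (Real.exp G * Real.exp (-G)) *
              (256 * bb x ℓ C₀ * (CC x ℓ * nn s j) ^ 3 * R ^ 5 * E) := by ring
            _ = _ := by rw [hGG, one_mul]
        rw [e1]
        exact n2

end Pool.Agent.Lib.BedD
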