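import Pool.Agent.Lib.BedD.Defs

/-!
# Stable manifolds in dimension two: basic facts
-/

set_option autoImplicit false

open scoped Topology
open Set Filter Metric

namespace Pool.Agent.Lib.BedD

/-! ## The exponents of a linear map -/

theorem nrm_pos (T : E2 ≃L[ℂ] E2) : 0 < ‖(T : E2 →L[ℂ] E2)‖ := by
  rw [norm_pos_iff]
  intro h
  have h1 : T (EuclideanSpace.single 0 1) = 0 := by
    have := DFunLike.congr_fun h (EuclideanSpace.single 0 1 : E2)
    simpa using this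
  have h2 : (EuclideanSpace.single 0 1 : E2) = 0 := by
    simpa using h1
  have h3 := congrArg (fun z : E2 => z 0) h2
  simp at h3

theorem exp_eA (T : E2 ≃L[ℂ] E2) : Real.exp (-(eA T)) = ‖(T : E2 →L[ℂ] E2)‖ := by
  rw [eA, neg_neg, Real.exp_log (nrm_pos T)]

theorem exp_eB (T : E2 ≃L[ℂ] E2) : Real.exp (eB T) = ‖(T.symm : E2 →L[ℂ] E2)‖ := by
  rw [eB, Real.exp_log (nrm_pos T.symm)]

theorem le_eA (T : E2 ≃L[ℂ] E2) (z : E2) : ‖T z‖ ≤ Real.exp (-(eA T)) * ‖z‖ := by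
  rw [exp_eA]
  exact (T : E2 →L[ℂ] E2).le_opNorm z

theorem symm_le (T : E2 ≃L[ℂ] E2) (w : E2) : ‖T.symm w‖ ≤ Real.exp (eB T) * ‖w‖ := by
  rw [exp_eB]
  exact (T.symm : E2 →L[ℂ] E2).le_opNorm w

theorem low_eB (T : E2 ≃L[ℂ] E2) (z : E2) : Real.exp (-(eB T)) * ‖z‖ ≤ ‖T z‖ := by
  have h := symm_le T (T z)
  rw [T.symm_apply_apply] at h
  rw [Real.exp_neg, inv_mul_le_iff₀ (Real.exp_pos _)]
  exact h

theorem eA_ge (T : E2 ≃L[ℂ] E2) (a : ℝ) (h : ∀ z, ‖T z‖ ≤ Real.exp (-a) * ‖z‖) : a ≤ eA T := by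
  have h1 : ‖(T : E2 →L[ℂ] E2)‖ ≤ Real.exp (-a) :=
    ContinuousLinearMap.opNorm_le_bound _ (Real.exp_pos _).le h
  rw [← exp_eA, Real.exp_le_exp] at h1
  linarith

theorem eB_le (T : E2 ≃L[ℂ] E2) (b : ℝ) (h : ∀ z, Real.exp (-b) * ‖z‖ ≤ ‖T z‖) : eB T ≤ b := by
  have h1 : ‖(T.symm : E2 →L[ℂ] E2)‖ ≤ Real.exp b := by
    refine ContinuousLinearMap.opNorm_le_bound _ (Real.exp_pos _).le fun w => ?_
    have h2 := h (T.symm w)
    rw [T.apply_symm_apply, Real.exp_neg, inv_mul_le_iff₀ (Real.exp_pos _)] at h2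
    exact h2
  rw [← exp_eB, Real.exp_le_exp] at h1
  exact h1

/-- The first standard unit vector. -/
theorem exists_unit : ∃ z : E2, ‖z‖ = 1 := ⟨EuclideanSpace.single 0 1, by simp⟩

theorem eA_le_of (T : E2 ≃L[ℂ] E2) (a : ℝ) (z : E2) (hz : ‖z‖ = 1) (h : Real.exp (-a) ≤ ‖T z‖) :
    eA T ≤ a := by
  have h1 := le_eA T z
  rw [hz, mul_one] at h1
  have h2 := h.trans h1
  rw [Real.exp_le_exp] at h2
  linarith

theorem eB_ge_of (T : E2 ≃L[ℂ] E2) (b : ℝ) (z : E2) (hz : ‖z‖ = 1) (h : ‖T z‖ ≤ Real.exp (-b)) :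
    b ≤ eB T := by
  have h1 := low_eB T z
  rw [hz, mul_one] at h1
  have h2 := h1.trans h
  rw [Real.exp_le_exp] at h2
  linarith

theorem eA_le_eB (T : E2 ≃L[ℂ] E2) : eA T ≤ eB T := by
  obtain ⟨z, hz⟩ := exists_unit
  have h1 := le_eA T z
  have h2 := low_eB T z
  rw [hz, mul_one] at h1 h2
  have h3 := h2.trans h1
  rw [Real.exp_le_exp] at h3
  linarith

/-! ## Products and orbits -/

theorem La_zero (L : ℕ → E2 ≃L[ℂ] E2) (M : E2 ≃L[ℂ] E2) : La L M 0 = M := rfl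

theorem La_succ_apply (L : ℕ → E2 ≃L[ℂ] E2) (M : E2 ≃L[ℂ] E2) (m : ℕ) (z : E2) :
    La L M (m + 1) z = L m (La L M m z) := rfl

theorem La_succ_symm (L : ℕ → E2 ≃L[ℂ] E2) (M : E2 ≃L[ℂ] E2) (m : ℕ) (w : E2) :
    (La L M (m + 1)).symm w = (La L M m).symm ((L m).symm w) := rfl

theorem Lp_zero (L : ℕ → E2 ≃L[ℂ] E2) (j : ℕ) (z : E2) : Lp L j 0 z = z := rfl

theorem Lp_succ (L : ℕ → E2 ≃L[ℂ] E2) (j k : ℕ) (z : E2) :
    Lp L j (k + 1) z = L (j + k) (Lp L j k z) := rfl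

theorem La_add (L : ℕ → E2 ≃L[ℂ] E2) (M : E2 ≃L[ℂ] E2) (j k : ℕ) (z : E2) :
    La L M (j + k) z = Lp L j k (La L M j z) := by
  induction k with
  | zero => rfl
  | succ k ih => rw [← Nat.add_assoc, La_succ_apply, ih, Lp_succ]

theorem Lp_add (L : ℕ → E2 ≃L[ℂ] E2) (j k i : ℕ) (z : E2) :
    Lp L j (k + i) z = Lp L (j + k) i (Lp L j k z) := by
  induction i with
  | zero => rfl
  | succ i ih => rw [← Nat.add_assoc, Lp_succ, ih, Lp_succ, Nat.add_assoc]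

theorem La_congr (L : ℕ → E2 ≃L[ℂ] E2) (M M' : E2 ≃L[ℂ] E2) (z z' : E2) (h : M' z' = M z)
    (m : ℕ) : La L M' m z' = La L M m z := by
  induction m with
  | zero => exact h
  | succ m ih => rw [La_succ_apply, ih, La_succ_apply]

theorem orbE_zero (f : ℕ → E2 → E2) (m : ℕ) (z : E2) : orbE f m 0 z = z := rfl

theorem orbE_succ (f : ℕ → E2 → E2) (m i : ℕ) (z : E2) :
    orbE f m (i + 1) z = f (m + i) (orbE f m i z) := rfl

theorem orbE_add (f : ℕ → E2 → E2) (m i k : ℕ) (z : E2) :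
    orbE f m (i + k) z = orbE f (m + i) k (orbE f m i z) := by
  induction k with
  | zero => rfl
  | succ k ih => rw [← Nat.add_assoc, orbE_succ, ih, orbE_succ, Nat.add_assoc]

theorem orbE_succ' (f : ℕ → E2 → E2) (m i : ℕ) (z : E2) :
    orbE f m (i + 1) z = orbE f (m + 1) i (f m z) := by
  rw [Nat.add_comm i 1, orbE_add]
  rfl

theorem bk_zero (T : ℕ → E2 → E2) (l : ℕ) (z : E2) : bk T 0 l z = z := rfl

theorem bk_succ (T : ℕ → E2 → E2) (i l : ℕ) (z : E2) : bk T (i + 1) l z = T l (bk T i (l + 1) z) :=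
  rfl

theorem bk_add (T : ℕ → E2 → E2) (i k l : ℕ) (z : E2) :
    bk T (i + k) l z = bk T i l (bk T k (l + i) z) := by
  induction i generalizing l with
  | zero => simp [bk]
  | succ i ih =>
    rw [show i + 1 + k = (i + k) + 1 by ring, bk_succ, ih, bk_succ,
      show l + 1 + i = l + (i + 1) by ring]

theorem bk_succ' (T : ℕ → E2 → E2) (i l : ℕ) (z : E2) :
    bk T (i + 1) l z = bk T i l (T (l + i) z) := by
  rw [bk_add]
  rfl

/-! ## Orthonormal frames -/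

theorem Rm_apply (u v : E2) (a : ℂ) (z : E2) :
    Rm u v a z = inner ℂ u z • u + (a * inner ℂ v z) • v := by
  simp [Rm, smul_smul]

theorem norm_sq_two (z : E2) : ‖z‖ ^ 2 = ‖z 0‖ ^ 2 + ‖z 1‖ ^ 2 := by
  rw [EuclideanSpace.norm_sq_eq, Fin.sum_univ_two]

theorem inner_two (z w : E2) : inner ℂ z w = w 0 * (starRingEnd ℂ) (z 0) +
    w 1 * (starRingEnd ℂ) (z 1) := by
  rw [PiLp.inner_apply, Fin.sum_univ_two]
  rfl

/-- The identity of Lagrange. -/
theorem lagrange (z w : E2) : ‖wd z w‖ ^ 2 + ‖(inner ℂ z w : ℂ)‖ ^ 2 = ‖z‖ ^ 2 * ‖w‖ ^ 2 := by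
  have key : ∀ a b c d : ℂ, ‖a * d - b * c‖ ^ 2 +
      ‖c * (starRingEnd ℂ) a + d * (starRingEnd ℂ) b‖ ^ 2 =
      (‖a‖ ^ 2 + ‖b‖ ^ 2) * (‖c‖ ^ 2 + ‖d‖ ^ 2) := by
    intro a b c d
    simp only [← Complex.normSq_eq_norm_sq, Complex.normSq_apply, Complex.sub_re, Complex.sub_im,
      Complex.mul_re, Complex.mul_im, Complex.add_re, Complex.add_im, Complex.conj_re,
      Complex.conj_im]
    ring
  rw [norm_sq_two z, norm_sq_two w, inner_two]
  exact key (z 0) (z 1) (w 0) (w 1)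

theorem wd_le (z w : E2) : ‖wd z w‖ ≤ ‖z‖ * ‖w‖ := by
  have h := lagrange z w
  have h1 : ‖wd z w‖ ^ 2 ≤ (‖z‖ * ‖w‖) ^ 2 := by
    nlinarith [sq_nonneg ‖(inner ℂ z w : ℂ)‖]
  exact le_of_sq_le_sq h1 (by positivity)
where
  le_of_sq_le_sq {a b : ℝ} (h : a ^ 2 ≤ b ^ 2) (hb : 0 ≤ b) : a ≤ b := abs_le_of_sq_le_sq' h hb |>.2

theorem wd_add_left (a b c : E2) : wd (a + b) c = wd a c + wd b c := by
  simp only [wd, PiLp.add_apply]
  ring

theorem wd_add_right (a b c : E2) : wd a (b + c) = wd a b + wd a c := by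
  simp only [wd, PiLp.add_apply]
  ring

theorem wd_smul_left (t : ℂ) (a b : E2) : wd (t • a) b = t * wd a b := by
  simp only [wd, PiLp.smul_apply, smul_eq_mul]
  ring

theorem wd_smul_right (t : ℂ) (a b : E2) : wd a (t • b) = t * wd a b := by
  simp only [wd, PiLp.smul_apply, smul_eq_mul]
  ring

theorem wd_self (a : E2) : wd a a = 0 := by
  simp only [wd]
  ring

theorem wd_swap (a b : E2) : wd a b = -wd b a := by
  simp only [wd]
  ring

/-- The relation of Plücker. -/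
theorem plucker (a b c : E2) : wd a b • c + wd b c • a + wd c a • b = 0 := by
  ext i
  fin_cases i
  · simp [wd]
    ring
  · simp [wd]
    ring

/-- The sine of the angle satisfies the triangle inequality. -/
theorem wd_tri (a b c : E2) (ha : ‖a‖ = 1) (hb : ‖b‖ = 1) (hc : ‖c‖ = 1) :
    ‖wd a c‖ ≤ ‖wd a b‖ + ‖wd b c‖ := by
  have h := plucker a b c
  have h1 : wd c a • b = -(wd a b • c + wd b c • a) := by
    rw [eq_neg_iff_add_eq_zero, add_comm]
    exact h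
  have h2 : ‖wd c a • b‖ = ‖wd a c‖ := by
    rw [norm_smul, hb, mul_one, wd_swap, norm_neg]
  rw [← h2, h1, norm_neg]
  refine (norm_add_le _ _).trans ?_
  rw [norm_smul, norm_smul, ha, hc, mul_one, mul_one]

theorem Fr.swap {u v : E2} (h : Fr u v) : Fr v u := by
  refine ⟨h.nv, h.nu, ?_⟩
  rw [← inner_conj_symm, h.uv, map_zero]

theorem Fr.wd_eq {u v : E2} (h : Fr u v) : ‖wd u v‖ = 1 := by
  have h1 := lagrange u v
  rw [h.uv, h.nu, h.nv] at h1
  have h2 : ‖wd u v‖ ^ 2 = 1 := by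
    simpa using h1
  nlinarith [norm_nonneg (wd u v)]

theorem Fr.expand {u v : E2} (h : Fr u v) (z : E2) :
    z = (inner ℂ u z : ℂ) • u + (inner ℂ v z : ℂ) • v := by
  have huv : wd u v ≠ 0 := by
    intro h0
    have := h.wd_eq
    rw [h0, norm_zero] at this
    exact zero_ne_one this
  have hp := plucker u v z
  -- `z = - (wd v z • u + wd z u • v) / wd u v`
  have hz : wd u v • z = (-(wd v z)) • u + (-(wd z u)) • v := by
    have e1 : wd u v • z = -(wd v z • u + wd z u • v) := by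
      rw [eq_neg_iff_add_eq_zero, ← add_assoc]
      exact hp
    rw [e1, neg_add, neg_smul, neg_smul]
  have hzz : z = ((wd u v)⁻¹ * (-(wd v z))) • u + ((wd u v)⁻¹ * (-(wd z u))) • v := by
    rw [← smul_smul, ← smul_smul, ← smul_add, ← hz, smul_smul, inv_mul_cancel₀ huv, one_smul]
  have huu : inner ℂ u u = (1 : ℂ) := by
    rw [inner_self_eq_norm_sq_to_K, h.nu]
    simp
  have hvv : inner ℂ v v = (1 : ℂ) := by
    rw [inner_self_eq_norm_sq_to_K, h.nv]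
    simp
  have hu : inner ℂ u z = (wd u v)⁻¹ * (-(wd v z)) := by
    conv_lhs => rw [hzz]
    rw [inner_add_right, inner_smul_right, inner_smul_right, huu, h.uv]
    ring
  have hv : inner ℂ v z = (wd u v)⁻¹ * (-(wd z u)) := by
    conv_lhs => rw [hzz]
    rw [inner_add_right, inner_smul_right, inner_smul_right, hvv, h.swap.uv]
    ring
  rw [hu, hv]
  exact hzz

theorem Fr.inner_uu {u v : E2} (h : Fr u v) : inner ℂ u u = (1 : ℂ) := by
  rw [inner_self_eq_norm_sq_to_K, h.nu]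
  simp

/-- The coordinates of `α u + β v`. -/
theorem Fr.inner_u {u v : E2} (h : Fr u v) (α β : ℂ) : inner ℂ u (α • u + β • v) = α := by
  rw [inner_add_right, inner_smul_right, inner_smul_right, h.inner_uu, h.uv]
  ring

theorem Fr.inner_v {u v : E2} (h : Fr u v) (α β : ℂ) : inner ℂ v (α • u + β • v) = β := by
  rw [inner_add_right, inner_smul_right, inner_smul_right, h.swap.inner_uu, h.swap.uv]
  ring

theorem Fr.norm_sq {u v : E2} (h : Fr u v) (z : E2) :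
    ‖z‖ ^ 2 = ‖(inner ℂ u z : ℂ)‖ ^ 2 + ‖(inner ℂ v z : ℂ)‖ ^ 2 := by
  have h1 := lagrange u z
  rw [h.nu] at h1
  have h2 : ‖wd u z‖ = ‖(inner ℂ v z : ℂ)‖ := by
    conv_lhs => rw [h.expand z]
    rw [wd_add_right, wd_smul_right, wd_smul_right, wd_self, mul_zero, zero_add, norm_mul,
      h.wd_eq, mul_one]
  rw [h2] at h1
  linarith

theorem Fr.norm_wd_u {u v : E2} (h : Fr u v) (z : E2) : ‖wd u z‖ = ‖(inner ℂ v z : ℂ)‖ := by
  conv_lhs => rw [h.expand z]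
  rw [wd_add_right, wd_smul_right, wd_smul_right, wd_self, mul_zero, zero_add, norm_mul,
    h.wd_eq, mul_one]

theorem Fr.norm_wd_v {u v : E2} (h : Fr u v) (z : E2) : ‖wd v z‖ = ‖(inner ℂ u z : ℂ)‖ :=
  h.swap.norm_wd_u z

theorem Fr.le_u {u v : E2} (h : Fr u v) (z : E2) : ‖(inner ℂ u z : ℂ)‖ ≤ ‖z‖ := by
  have := norm_inner_le_norm (𝕜 := ℂ) u z
  rwa [h.nu, one_mul] at this

theorem Fr.le_v {u v : E2} (h : Fr u v) (z : E2) : ‖(inner ℂ v z : ℂ)‖ ≤ ‖z‖ := h.swap.le_u z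

theorem Fr.norm_le {u v : E2} (h : Fr u v) (z : E2) :
    ‖z‖ ≤ ‖(inner ℂ u z : ℂ)‖ + ‖(inner ℂ v z : ℂ)‖ := by
  conv_lhs => rw [h.expand z]
  refine (norm_add_le _ _).trans ?_
  rw [norm_smul, norm_smul, h.nu, h.nv, mul_one, mul_one]

/-! ## Numbers -/

theorem pp_nonneg (a : ℝ) : 0 ≤ pp a := le_max_right _ _

theorem le_pp (a : ℝ) : a ≤ pp a := le_max_left _ _

theorem pp_le {a b : ℝ} (h : a ≤ b) (hb : 0 ≤ b) : pp a ≤ b := max_le h hb

theorem pp_mono {a b : ℝ} (h : a ≤ b) : pp a ≤ pp b := max_le_max h le_rfl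

theorem pp_of_nonneg {a : ℝ} (h : 0 ≤ a) : pp a = a := max_eq_left h

theorem pp_of_nonpos {a : ℝ} (h : a ≤ 0) : pp a = 0 := max_eq_right h

theorem gam_eq (x : ℝ) : gam x = 2 - eta x := by
  unfold gam eta
  ring

theorem Pin.symm {x ℓ : ℝ} {L : ℕ → E2 ≃L[ℂ] E2} (h : Pin x ℓ L) (n : ℕ) (w : E2) :
    ‖(L n).symm w‖ ≤ Real.exp (x * ℓ) * ‖w‖ := by
  have h1 := h.low n ((L n).symm w)
  rw [(L n).apply_symm_apply, Real.exp_neg, inv_mul_le_iff₀ (Real.exp_pos _)] at h1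
  exact h1

theorem Slp.A_add {x ℓ : ℝ} {A B : ℕ → ℝ} (h : Slp x ℓ A B) (m k : ℕ) :
    A m + ℓ * k ≤ A (m + k) := by
  induction k with
  | zero => simp
  | succ k ih =>
    have := h.A_ge (m + k)
    rw [← Nat.add_assoc]
    push_cast
    linarith

/-- `B - x A` is nonincreasing. -/
theorem Slp.I1 {x ℓ : ℝ} {A B : ℕ → ℝ} (h : Slp x ℓ A B) (hx : 0 ≤ x) {m n : ℕ} (hmn : m ≤ n) :
    B n - x * A n ≤ B m - x * A m := by
  induction n, hmn using Nat.le_induction with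
  | base => exact le_rfl
  | succ n hn ih =>
    have h1 := h.A_ge n
    have h2 := h.B_le n
    nlinarith

/-- `x B - A` is nondecreasing. -/
theorem Slp.I2 {x ℓ : ℝ} {A B : ℕ → ℝ} (h : Slp x ℓ A B) (hx : 0 ≤ x) {m n : ℕ} (hmn : m ≤ n) :
    x * B m - A m ≤ x * B n - A n := by
  induction n, hmn using Nat.le_induction with
  | base => exact le_rfl
  | succ n hn ih =>
    have h1 := h.A_le n
    have h2 := h.B_ge n
    nlinarith

end Pool.Agent.Lib.BedD
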