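import Pool.Agent.Lib.Bed.DefsM

/-!
# Stable manifolds in dimension two, uniform pinching with the exponent three (MP_6f050a_an): definitions

`E2` is `ℂ²` with the Euclidean norm.  Only forward sequences.
-/

set_option autoImplicit false

open scoped Topology
open Set Filter Metric

namespace Pool.Agent.Lib.BedD

/-- `ℂ²` with the Euclidean norm. -/
abbrev E2 : Type := EuclideanSpace ℂ (Fin 2)

/-- The determinant of two vectors. -/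
def wd (z w : E2) : ℂ := z 0 * w 1 - z 1 * w 0

/-- `(u, v)` is an orthonormal basis of `E2`. -/
structure Fr (u v : E2) : Prop where
  nu : ‖u‖ = 1
  nv : ‖v‖ = 1
  uv : inner ℂ u v = 0

/-- The linear map `u ↦ u`, `v ↦ a v`. -/
noncomputable def Rm (u v : E2) (a : ℂ) : E2 →L[ℂ] E2 :=
  (innerSL ℂ u).smulRight u + a • (innerSL ℂ v).smulRight v

/-- `e^{-eA T}` is the norm of `T`. -/
noncomputable def eA (T : E2 ≃L[ℂ] E2) : ℝ := -Real.log ‖(T : E2 →L[ℂ] E2)‖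

/-- `e^{eB T}` is the norm of `T⁻¹`. -/
noncomputable def eB (T : E2 ≃L[ℂ] E2) : ℝ := Real.log ‖(T.symm : E2 →L[ℂ] E2)‖

/-- `(u, v)` is a singular frame of `T`. -/
structure SFr (T : E2 ≃L[ℂ] E2) (u v : E2) : Prop where
  fr : Fr u v
  Tu : ‖T u‖ = Real.exp (-(eA T))
  Tv : ‖T v‖ = Real.exp (-(eB T))
  orth : inner ℂ (T u) (T v) = 0

/-- A sequence of linear maps, pinched with the exponent `x`. -/
structure Pin (x ℓ : ℝ) (L : ℕ → E2 ≃L[ℂ] E2) : Prop where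
  ℓ_pos : 0 < ℓ
  x_gt : 2 < x
  x_lt : x < 3
  up : ∀ n z, ‖L n z‖ ≤ Real.exp (-ℓ) * ‖z‖
  low : ∀ n z, Real.exp (-(x * ℓ)) * ‖z‖ ≤ ‖L n z‖

/-- The products `L (m-1) ∘ ... ∘ L 0 ∘ M`. -/
noncomputable def La (L : ℕ → E2 ≃L[ℂ] E2) (M : E2 ≃L[ℂ] E2) : ℕ → E2 ≃L[ℂ] E2
  | 0 => M
  | m + 1 => (La L M m).trans (L m)

/-- `L (j+k-1) ∘ ... ∘ L j`. -/
noncomputable def Lp (L : ℕ → E2 ≃L[ℂ] E2) (j : ℕ) : ℕ → E2 ≃L[ℂ] E2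
  | 0 => ContinuousLinearEquiv.refl ℂ E2
  | k + 1 => (Lp L j k).trans (L (j + k))

/-- `A m` for the products. -/
noncomputable def LA (L : ℕ → E2 ≃L[ℂ] E2) (M : E2 ≃L[ℂ] E2) (m : ℕ) : ℝ := eA (La L M m)

/-- `B m` for the products. -/
noncomputable def LB (L : ℕ → E2 ≃L[ℂ] E2) (M : E2 ≃L[ℂ] E2) (m : ℕ) : ℝ := eB (La L M m)

/-- `i` steps of the orbit of `z`, starting at the time `m`. -/
def orbE (f : ℕ → E2 → E2) (m : ℕ) : ℕ → E2 → E2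
  | 0, z => z
  | i + 1, z => f (m + i) (orbE f m i z)

/-! ## Numbers -/

/-- The exponent `γ`. -/
noncomputable def gam (x : ℝ) : ℝ := (x + 5) / 4

/-- `η = 2 - γ`. -/
noncomputable def eta (x : ℝ) : ℝ := (3 - x) / 4

/-- The positive part. -/
noncomputable def pp (a : ℝ) : ℝ := max a 0

/-- The slopes of `A`, `B` are in `[ℓ, x ℓ]`. -/
structure Slp (x ℓ : ℝ) (A B : ℕ → ℝ) : Prop where
  A_ge : ∀ m, A m + ℓ ≤ A (m + 1)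
  A_le : ∀ m, A (m + 1) ≤ A m + x * ℓ
  B_ge : ∀ m, B m + ℓ ≤ B (m + 1)
  B_le : ∀ m, B (m + 1) ≤ B m + x * ℓ
  AB : ∀ m, A m ≤ B m

/-- `g m = B m - γ A m`. -/
noncomputable def GG (x : ℝ) (A B : ℕ → ℝ) (m : ℕ) : ℝ := B m - gam x * A m

/-- The state at the time `s` is admissible. -/
structure Inv (x : ℝ) (A B : ℕ → ℝ) (s : ℕ) (P : ℝ) : Prop where
  A_pos : 0 < A s
  P_nonneg : 0 ≤ P
  P_le : P ≤ (x - gam x) * A s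
  BP : B s + P ≤ x * A s

/-- `[s, e)` is a good stage with the centre `t`. -/
structure Good (x : ℝ) (A B : ℕ → ℝ) (s : ℕ) (P : ℝ) (t e : ℕ) : Prop where
  st : s ≤ t
  te : t < e
  mx : ∀ i, s ≤ i → i < e → GG x A B i ≤ GG x A B t
  sep : ∀ k m i, s ≤ k → k ≤ m → m < e → min m t ≤ i → i ≤ max m t →
    pp (GG x A B k) + pp (P + GG x A B m) ≤ B i - A i

/-- A dip after the centre `t` of the stage (the first one). -/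
def Dip (x : ℝ) (A B : ℕ → ℝ) (P : ℝ) (t e : ℕ) : Prop :=
  ∃ i, t ≤ i ∧ i ≤ e ∧ B i - A i < pp (GG x A B t) + pp (P + min (GG x A B t) (GG x A B e)) ∧
    ∀ i', t ≤ i' → i' < i →
      pp (GG x A B t) + pp (P + min (GG x A B t) (GG x A B e)) ≤ B i' - A i'

/-- The change of `A`, `B` by the linear map `u ↦ u`, `v ↦ e^ρ v` at the centre `t`. -/
structure Psd (x : ℝ) (A B A' B' : ℕ → ℝ) (t e : ℕ) (ρ κ : ℝ) : Prop where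
  ρ_eq : ρ = pp (GG x A B t)
  le : ∀ m, A' m ≤ A m
  sum : ∀ m, A' m + B' m = A m + B m - ρ
  at_t : A' t = A t
  low : ∀ m, t ≤ m → m ≤ e → (∀ i, t ≤ i → i < m → ρ ≤ B i - A i) → A m - κ ≤ A' m

/-! ## Stages -/

/-- The constant `C₁`. -/
noncomputable def CC (x ℓ : ℝ) : ℝ := Real.exp ((x - 1) * ℓ)

/-- One step of the construction: the stage `[s, e)` with the centre `t`, from the state `(M, P)` at
the time `s` to the state `(M', P + pp g_t)` at the time `e`. -/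
structure StpR (x ℓ K : ℝ) (L : ℕ → E2 ≃L[ℂ] E2) (s : ℕ) (M : E2 ≃L[ℂ] E2) (P : ℝ) (t e : ℕ)
    (u v : E2) (M' : E2 ≃L[ℂ] E2) (ρ : ℝ) : Prop where
  good : Good x (LA L M) (LB L M) s P t e
  e_le : LA L M e ≤ K * LA L M s + x * ℓ
  cd : K * LA L M s ≤ LA L M e ∨ Dip x (LA L M) (LB L M) P t e
  fr : Fr u v
  M_eq : ∀ z, M' z = M (Rm u v (Real.exp ρ : ℂ) z)
  dv : ∀ k m, s ≤ k → k ≤ m → m < e → ‖La L M m v‖ ≤ CC x ℓ * ((e : ℝ) - s + 1) *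
    Real.exp (-(LA L M m) - pp (GG x (LA L M) (LB L M) k) - pp (P + GG x (LA L M) (LB L M) m))
  du : ∀ k m, s ≤ k → k ≤ m → m < e → ∀ w, ‖inner ℂ u ((La L M m).symm w)‖ ≤
    CC x ℓ * ((e : ℝ) - s + 1) *
    Real.exp (LB L M m - pp (GG x (LA L M) (LB L M) k) - pp (P + GG x (LA L M) (LB L M) m)) * ‖w‖
  psd : Psd x (LA L M) (LB L M) (LA L M') (LB L M') t e ρ
    (Real.log (1 + CC x ℓ * ((e : ℝ) - s + 1)))
  inv : Inv x (LA L M') (LB L M') e (P + ρ)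

/-- A sequence of stages `[s j, s (j+1))`. -/
structure StgS (x ℓ C₅ : ℝ) (L : ℕ → E2 ≃L[ℂ] E2) (s : ℕ → ℕ) (M : ℕ → E2 ≃L[ℂ] E2)
    (P ρ : ℕ → ℝ) (u v : ℕ → E2) : Prop where
  lt : ∀ j, s j < s (j + 1)
  P_nonneg : ∀ j, 0 ≤ P j
  P_succ : ∀ j, P (j + 1) = P j + ρ j
  ρ_nonneg : ∀ j, 0 ≤ ρ j
  fr : ∀ j, Fr (u j) (v j)
  M_succ : ∀ j z, M (j + 1) z = M j (Rm (u j) (v j) (Real.exp (ρ j) : ℂ) z)
  g_le : ∀ j m, s j ≤ m → m < s (j + 1) → GG x (LA L (M j)) (LB L (M j)) m ≤ ρ j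
  BP : ∀ j m, s j ≤ m → LB L (M j) m + P j ≤ x * LA L (M j) m
  dv : ∀ j k m, s j ≤ k → k ≤ m → m < s (j + 1) → ‖La L (M j) m (v j)‖ ≤
    CC x ℓ * ((s (j + 1) : ℝ) - s j + 1) * Real.exp (-(LA L (M j) m) -
      pp (GG x (LA L (M j)) (LB L (M j)) k) - pp (P j + GG x (LA L (M j)) (LB L (M j)) m))
  du : ∀ j k m, s j ≤ k → k ≤ m → m < s (j + 1) → ∀ w, ‖inner ℂ (u j) ((La L (M j) m).symm w)‖ ≤
    CC x ℓ * ((s (j + 1) : ℝ) - s j + 1) * Real.exp (LB L (M j) m -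
      pp (GG x (LA L (M j)) (LB L (M j)) k) - pp (P j + GG x (LA L (M j)) (LB L (M j)) m)) * ‖w‖
  anti : ∀ j m, LA L (M (j + 1)) m ≤ LA L (M j) m
  step : ∀ j, LA L (M j) (s j) + ℓ * ((s (j + 1) : ℝ) - s j) ≤ LA L (M (j + 1)) (s (j + 1))
  len : ∀ j, (s (j + 1) : ℝ) - s j + 1 ≤ C₅ * LA L (M j) (s j)
  one_le : ∀ j, 1 ≤ LA L (M j) (s j)

/-- The number of steps of the stage `j`, plus one. -/
noncomputable def nn (s : ℕ → ℕ) (j : ℕ) : ℝ := (s (j + 1) : ℝ) - s j + 1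

/-- The number `A` at the beginning of the stage `j`. -/
noncomputable def aa (L : ℕ → E2 ≃L[ℂ] E2) (s : ℕ → ℕ) (M : ℕ → E2 ≃L[ℂ] E2) (j : ℕ) : ℝ :=
  LA L (M j) (s j)

/-- The constant `b`. -/
noncomputable def bb (x ℓ C₀ : ℝ) : ℝ := C₀ * Real.exp (x * ℓ)

/-- The constant `C₄`. -/
noncomputable def C4 (x ℓ r C₀ : ℝ) : ℝ := 400 * bb x ℓ C₀ * CC x ℓ ^ 3 + 16 * bb x ℓ C₀ / r

/-! ## Sequences of maps -/

/-- A uniformly attracting sequence of injective holomorphic maps with pinched linear parts. -/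
structure SeqE (x ℓ r C₀ : ℝ) (f : ℕ → E2 → E2) (L : ℕ → E2 ≃L[ℂ] E2) : Prop where
  pin : Pin x ℓ L
  r_pos : 0 < r
  C_pos : 0 < C₀
  diff : ∀ n, DifferentiableOn ℂ (f n) (ball 0 r)
  inj : ∀ n, InjOn (f n) (ball 0 r)
  dinj : ∀ n, ∀ z ∈ ball (0 : E2) r, ∀ w, fderiv ℂ (f n) z w = 0 → w = 0
  contr : ∀ n, ∀ z ∈ ball (0 : E2) r, ‖f n z‖ ≤ Real.exp (-(ℓ / 2)) * ‖z‖
  quad : ∀ n, ∀ z ∈ ball (0 : E2) r, ∀ w ∈ ball (0 : E2) r,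
    ‖(f n z - L n z) - (f n w - L n w)‖ ≤ C₀ * (‖z‖ + ‖w‖) * ‖z - w‖

/-- The basin is biholomorphic to `ℂ²`. -/
def BasinE (r : ℝ) (f : ℕ → E2 → E2) : Prop :=
  ∃ Ψ : ℕ → E2 → E2, (∀ n, DifferentiableOn ℂ (Ψ n) (ball 0 r)) ∧
    (∀ n, ∀ z ∈ ball (0 : E2) r, Ψ (n + 1) (f n z) = Ψ n z) ∧
    (∀ n, InjOn (Ψ n) (ball 0 r)) ∧
    (∀ n, ∀ z ∈ ball (0 : E2) r, ∀ w, fderiv ℂ (Ψ n) z w = 0 → w = 0) ∧
    ∀ u, ∃ n, ∃ z ∈ ball (0 : E2) r, Ψ n z = u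

/-- The maps of the stages, in the linear coordinates. -/
noncomputable def Th (L : ℕ → E2 ≃L[ℂ] E2) (f : ℕ → E2 → E2) (s : ℕ → ℕ) (M : ℕ → E2 ≃L[ℂ] E2)
    (j : ℕ) (z : E2) : E2 :=
  (La L (M (j + 1)) (s (j + 1))).symm (orbE f (s j) (s (j + 1) - s j) (La L (M j) (s j) z))

/-- The domain of the map of the stage `j`. -/
def Dm (r : ℝ) (L : ℕ → E2 ≃L[ℂ] E2) (s : ℕ → ℕ) (M : ℕ → E2 ≃L[ℂ] E2) (j : ℕ) : Set E2 :=
  {z | ‖La L (M j) (s j) z‖ < r}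

/-- A train: maps `Θ j : dom j → dom (j+1)` very close to the polynomial automorphisms `S j` (with
inverse `T j`) on huge balls. -/
structure Trn (dom : ℕ → Set E2) (Θ S T : ℕ → E2 → E2) (P ρ R e : ℕ → ℝ) : Prop where
  open_dom : ∀ j, IsOpen (dom j)
  diff : ∀ j, DifferentiableOn ℂ (Θ j) (dom j)
  maps : ∀ j, MapsTo (Θ j) (dom j) (dom (j + 1))
  inj : ∀ j, InjOn (Θ j) (dom j)
  dinj : ∀ j, ∀ z ∈ dom j, ∀ w, fderiv ℂ (Θ j) z w = 0 → w = 0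
  S_diff : ∀ j, Differentiable ℂ (S j)
  T_diff : ∀ j, Differentiable ℂ (T j)
  ST : ∀ j z, S j (T j z) = z
  TS : ∀ j z, T j (S j z) = z
  S_le : ∀ j z, ‖S j z‖ ≤ ‖z‖ + ‖z‖ ^ 2
  T_lip : ∀ j z z', ‖T j z - T j z'‖ ≤ Real.exp (ρ j) * (1 + ‖z‖ + ‖z'‖) * ‖z - z'‖
  ball_dom : ∀ j z, ‖z‖ ≤ R j → z ∈ dom j
  near : ∀ j z, ‖z‖ ≤ R j → ‖T j (Θ j z) - z‖ ≤ e j
  P_nonneg : ∀ j, 0 ≤ P j
  P_succ : ∀ j, P (j + 1) = P j + ρ j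
  R_big : ∀ C : ℝ, ∀ᶠ j in atTop, Real.exp (C * 2 ^ j) ≤ R j
  e_small : ∀ C : ℝ, ∀ᶠ j in atTop, e j ≤ Real.exp (-(P j) - C * 2 ^ j)
  bdd : ∀ l, ∀ z ∈ dom l, ∃ B : ℝ, ∀ i, ‖orbE Θ l i z‖ ≤ B

/-- `T l ∘ ... ∘ T (l+i-1)`. -/
def bk (T : ℕ → E2 → E2) : ℕ → ℕ → E2 → E2
  | 0, _, z => z
  | i + 1, l, z => T l (bk T i (l + 1) z)

/-- `Φ l` is the limit of `T 0 ∘ ... ∘ T (l+i-1) ∘ Θ (l+i-1) ∘ ... ∘ Θ l`, and `Φ l = T 0 ∘ ... ∘ T (l-1) ∘ H`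
with `H` very close to the identity on a huge ball, for large `l`. -/
structure IsPhi (dom : ℕ → Set E2) (Θ T Φ : ℕ → E2 → E2) : Prop where
  lim : ∀ l, ∀ z ∈ dom l,
    Tendsto (fun i => bk T (l + i) 0 (orbE Θ l i z)) atTop (𝓝 (Φ l z))
  H : ∀ C : ℝ, 1 ≤ C → ∃ l₀, ∀ l ≥ l₀, ∃ H : E2 → E2,
    DifferentiableOn ℂ H {z | ‖z‖ + 3 < Real.exp (C * 2 ^ l)} ∧
    ∀ z, ‖z‖ + 3 < Real.exp (C * 2 ^ l) →
      z ∈ dom l ∧ ‖H z - z‖ ≤ Real.exp (-(2 * 2 ^ l)) ∧ Φ l z = bk T l 0 (H z)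

/-- The conclusion of the train lemma: the abstract basin of the maps `Θ j` is biholomorphic to `ℂ²`. -/
def TrnC (dom : ℕ → Set E2) (Θ : ℕ → E2 → E2) : Prop :=
  ∃ Φ : ℕ → E2 → E2, (∀ l, DifferentiableOn ℂ (Φ l) (dom l)) ∧
    (∀ l, ∀ z ∈ dom l, Φ (l + 1) (Θ l z) = Φ l z) ∧ (∀ l, InjOn (Φ l) (dom l)) ∧
    (∀ l, ∀ z ∈ dom l, ∀ w, fderiv ℂ (Φ l) z w = 0 → w = 0) ∧
    ∀ u, ∃ l, ∃ z ∈ dom l, Φ l z = u

/-! ## Condition (D) -/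

/-- Uniform pinching with an exponent smaller than three, for a sequence of linear maps of `ℂ²`. -/
def DCond (Λ : ℕ → (Fin 2 → ℂ) →L[ℂ] (Fin 2 → ℂ)) : Prop :=
  ∃ C lam mu : ℝ, 0 < C ∧ 0 < lam ∧ lam < 1 ∧ 0 < mu ∧ lam ^ 3 < mu ∧
    ∀ n q z, mu ^ q * ‖Λ n z‖ ≤ C * ‖Λ (n + q) z‖ ∧ ‖Λ (n + q) z‖ ≤ C * lam ^ q * ‖Λ n z‖

open scoped Manifold in
/-- Condition (D) at `p`: `dim Es p = 2`, and along the forward orbit of `p` all vectors of `Es` are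
contracted with rates between `mu` and `lam`, where `lam ^ 3 < mu`. -/
def PtD {E : Type} [NormedAddCommGroup E] [NormedSpace ℂ E] {X : Type} [MetricSpace X]
    [ChartedSpace E X] (nrm : (x : X) → TangentSpace 𝓘(ℂ, E) x → ℝ) (f : X ≃ X) (p : X)
    (Ep : Submodule ℂ (TangentSpace 𝓘(ℂ, E) p)) : Prop :=
  Module.finrank ℂ Ep = 2 ∧ ∃ C lam mu : ℝ, 0 < C ∧ 0 < lam ∧ lam < 1 ∧ 0 < mu ∧ lam ^ 3 < mu ∧
    ∀ n m : ℕ, ∀ v ∈ Ep, mu ^ m * Bed.nit nrm f p n v ≤ C * Bed.nit nrm f p (n + m) v ∧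
      Bed.nit nrm f p (n + m) v ≤ C * lam ^ m * Bed.nit nrm f p n v

/-- `ℂ²` with the Euclidean norm and `ℂ²` with the sup norm. -/
noncomputable def io : E2 ≃L[ℂ] (Fin 2 → ℂ) := EuclideanSpace.equiv (Fin 2) ℂ

/-- The compositions of `q` steps, as maps of `E2`. -/
noncomputable def qst (F : ℕ → (Fin 2 → ℂ) → (Fin 2 → ℂ)) (q n : ℕ) (z : E2) : E2 :=
  io.symm (Bed.orb F (q * n) q (io z))

end Pool.Agent.Lib.BedD
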