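import Pool.Agent.Lib.BedD.SpecL

/-! # MP_6f050a_an, theorem D: the determinant -/

set_option autoImplicit false

open scoped Topology
open Set Filter Metric

namespace Pool.Agent.Lib.BedD

theorem sDet : S_Det := by
  intro hSVD T z w
  obtain ⟨u, v, hf, hu, hv, ho⟩ := hSVD T
  have key : ∀ a b α β α' β' : ℂ, ∀ p q : E2, wd (α • p + β • q) (α' • p + β' • q) =
      (α * β' - β * α') * wd p q := by
    intro _ _ α β α' β' p q
    rw [wd_add_left, wd_add_right, wd_add_right, wd_smul_left, wd_smul_left, wd_smul_left, wd_smul_left,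
      wd_smul_right, wd_smul_right, wd_smul_right, wd_smul_right, wd_self, wd_self, wd_swap q p]
    ring
  have h1 : wd z w = (inner ℂ u z * inner ℂ v w - inner ℂ v z * inner ℂ u w) * wd u v := by
    conv_lhs => rw [hf.expand z, hf.expand w]
    exact key 0 0 _ _ _ _ u v
  have h2 : wd (T z) (T w) = (inner ℂ u z * inner ℂ v w - inner ℂ v z * inner ℂ u w) * wd (T u) (T v) := by
    conv_lhs => rw [hf.expand z, hf.expand w]
    rw [map_add, map_add, map_smul, map_smul, map_smul, map_smul]
    exact key 0 0 _ _ _ _ (T u) (T v)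
  have h3 : ‖wd (T u) (T v)‖ = ‖T u‖ * ‖T v‖ := by
    have h4 := lagrange (T u) (T v)
    rw [ho, norm_zero] at h4
    have h5 : ‖wd (T u) (T v)‖ ^ 2 = (‖T u‖ * ‖T v‖) ^ 2 := by
      rw [mul_pow]
      linarith
    exact (pow_left_inj₀ (norm_nonneg _) (by positivity) (by norm_num)).1 h5
  rw [h1, h2, norm_mul, norm_mul, h3, hf.wd_eq, hu, hv, Real.exp_sub, Real.exp_neg (eB T)]
  rw [mul_one, div_eq_mul_inv]
  ring

end Pool.Agent.Lib.BedD
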