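import Pool.Agent.Lib.BedD.SpecL

/-!
# MP_6f050a_an, theorem D: the most contracted direction at other times
-/

set_option autoImplicit false

open scoped Topology
open Set Filter Metric

namespace Pool.Agent.Lib.BedD

namespace sDrcAux

theorem step (hDet : ∀ (T : E2 ≃L[ℂ] E2) (z w : E2),
    ‖wd (T z) (T w)‖ = Real.exp (-(eA T) - eB T) * ‖wd z w‖)
    {x ℓ : ℝ} {L : ℕ → E2 ≃L[ℂ] E2} (hp : Pin x ℓ L) {M : E2 ≃L[ℂ] E2}
    (hs : Slp x ℓ (LA L M) (LB L M)) (i : ℕ) {v v' : E2}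
    (hv : ‖La L M i v‖ = Real.exp (-(LB L M i)))
    (hv' : ‖La L M (i + 1) v'‖ = Real.exp (-(LB L M (i + 1)))) :
    ‖wd v v'‖ ≤ CC x ℓ * Real.exp (-(LB L M i - LA L M i)) := by
  have h1 := hDet (La L M (i + 1)) v v'
  have h2 := wd_le (La L M (i + 1) v) (La L M (i + 1) v')
  have h3 : ‖La L M (i + 1) v‖ ≤ Real.exp (-ℓ) * Real.exp (-(LB L M i)) := by
    rw [La_succ_apply, ← hv]
    exact hp.up i _
  have h4 : Real.exp (-(LA L M (i + 1)) - LB L M (i + 1)) * ‖wd v v'‖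
      ≤ Real.exp (-ℓ) * Real.exp (-(LB L M i)) * Real.exp (-(LB L M (i + 1))) := by
    rw [← hv']
    calc Real.exp (-(LA L M (i + 1)) - LB L M (i + 1)) * ‖wd v v'‖
        = ‖wd (La L M (i + 1) v) (La L M (i + 1) v')‖ := h1.symm
      _ ≤ ‖La L M (i + 1) v‖ * ‖La L M (i + 1) v'‖ := h2
      _ ≤ _ := mul_le_mul_of_nonneg_right h3 (norm_nonneg _)
  have h5 : ‖wd v v'‖ ≤ Real.exp (LA L M (i + 1) + LB L M (i + 1)) *
      (Real.exp (-ℓ) * Real.exp (-(LB L M i)) * Real.exp (-(LB L M (i + 1)))) := by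
    have h6 : ‖wd v v'‖ = Real.exp (LA L M (i + 1) + LB L M (i + 1)) *
        (Real.exp (-(LA L M (i + 1)) - LB L M (i + 1)) * ‖wd v v'‖) := by
      rw [← mul_assoc, ← Real.exp_add]
      have : LA L M (i + 1) + LB L M (i + 1) + (-(LA L M (i + 1)) - LB L M (i + 1)) = 0 := by ring
      rw [this, Real.exp_zero, one_mul]
    rw [h6]
    exact mul_le_mul_of_nonneg_left h4 (Real.exp_pos _).le
  refine h5.trans ?_
  unfold CC
  rw [← Real.exp_add, ← Real.exp_add, ← Real.exp_add, ← Real.exp_add, Real.exp_le_exp]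
  have := hs.A_le i
  nlinarith

theorem chain {D : ℕ → ℝ} {v : ℕ → E2} {c d : ℝ} (hc : 0 ≤ c) (hv : ∀ i, ‖v i‖ = 1)
    (h : ∀ i, ‖wd (v i) (v (i + 1))‖ ≤ c * Real.exp (-(D i))) (a b : ℕ) (hab : a ≤ b)
    (hd : ∀ i, a ≤ i → i < b → d ≤ D i) :
    ‖wd (v a) (v b)‖ ≤ ((b : ℝ) - a) * (c * Real.exp (-d)) := by
  induction b, hab using Nat.le_induction with
  | base => rw [wd_self, norm_zero, sub_self, zero_mul]
  | succ b hb ih =>
    have h1 := ih fun i hi hi' => hd i hi (hi'.trans (Nat.lt_succ_self b))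
    have h2 := wd_tri (v a) (v b) (v (b + 1)) (hv a) (hv b) (hv (b + 1))
    have h3 : c * Real.exp (-(D b)) ≤ c * Real.exp (-d) := by
      apply mul_le_mul_of_nonneg_left _ hc
      rw [Real.exp_le_exp]
      have := hd b hb (Nat.lt_succ_self b)
      linarith
    have h4 := h b
    push_cast
    have h5 : ((b : ℝ) + 1 - a) * (c * Real.exp (-d))
        = ((b : ℝ) - a) * (c * Real.exp (-d)) + c * Real.exp (-d) := by ring
    rw [h5]
    linarith

end sDrcAux

open sDrcAux in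
theorem sDrc : S_Drc := by
  intro hSVD hDet' hSlo x ℓ L hp M t u v huv m d hdt hd
  have hDet := hDet' hSVD
  have hs := hSlo x ℓ L hp M
  have hfr : ∀ i, ∃ p : E2 × E2, SFr (La L M i) p.1 p.2 ∧ (i = t → p = (u, v)) := by
    intro i
    by_cases hi : i = t
    · subst hi
      exact ⟨(u, v), huv, fun _ => rfl⟩
    · obtain ⟨a, b, hab⟩ := hSVD (La L M i)
      exact ⟨(a, b), hab, fun h => absurd h hi⟩
  choose p hp1 hp2 using hfr
  have hvt : (p t).2 = v := by rw [hp2 t rfl]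
  have hc : 0 < CC x ℓ := Real.exp_pos _
  have hst : ∀ i, ‖wd (p i).2 (p (i + 1)).2‖
      ≤ CC x ℓ * Real.exp (-(LB L M i - LA L M i)) := fun i =>
    step hDet hp hs i (hp1 i).Tv (hp1 (i + 1)).Tv
  have hnv : ∀ i, ‖(p i).2‖ = 1 := fun i => (hp1 i).fr.nv
  have hwd : ‖wd (p m).2 v‖ ≤ (((max m t : ℕ) : ℝ) - ((min m t : ℕ) : ℝ)) *
      (CC x ℓ * Real.exp (-d)) := by
    rcases le_total m t with h | h
    · rw [max_eq_right h, min_eq_left h] at *
      have := chain (D := fun i => LB L M i - LA L M i) (v := fun i => (p i).2) (d := d) hc.le hnv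
        hst m t h hd
      simp only [hvt] at this
      exact this
    · rw [max_eq_left h, min_eq_right h] at *
      have := chain (D := fun i => LB L M i - LA L M i) (v := fun i => (p i).2) (d := d) hc.le hnv
        hst t m h hd
      simp only [hvt] at this
      rw [wd_swap, norm_neg]
      exact this
  have hB : Real.exp (-(LB L M m)) ≤ CC x ℓ * Real.exp (-(LA L M m) - d) := by
    unfold CC
    rw [← Real.exp_add, Real.exp_le_exp]
    have hx := hp.x_gt
    have hl := hp.ℓ_pos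
    rcases lt_trichotomy m t with h | h | h
    · have h1 := hd m (min_le_left _ _) (lt_of_lt_of_le h (le_max_right _ _))
      nlinarith
    · subst h
      nlinarith
    · obtain ⟨k, rfl⟩ : ∃ k, m = k + 1 := ⟨m - 1, by omega⟩
      have h1 := hd k (by rw [min_eq_right h.le]; omega) (by rw [max_eq_left h.le]; omega)
      have h2 := hs.A_le k
      have h3 := hs.B_ge k
      nlinarith
  have hv1 : ‖La L M m v‖ ≤ CC x ℓ * (((max m t : ℕ) : ℝ) - ((min m t : ℕ) : ℝ) + 1) *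
      Real.exp (-(LA L M m) - d) := by
    have hsf := hp1 m
    have h1 : ‖La L M m v‖ ≤ ‖(inner ℂ (p m).1 v : ℂ)‖ * Real.exp (-(LA L M m))
        + ‖(inner ℂ (p m).2 v : ℂ)‖ * Real.exp (-(LB L M m)) := by
      conv_lhs => rw [hsf.fr.expand v]
      rw [map_add, map_smul, map_smul]
      refine (norm_add_le _ _).trans ?_
      rw [norm_smul, norm_smul, hsf.Tu, hsf.Tv]
      exact le_rfl
    have h2 : ‖(inner ℂ (p m).2 v : ℂ)‖ ≤ 1 := by
      have := hsf.fr.le_v v
      rwa [huv.fr.nv] at this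
    have h3 : ‖(inner ℂ (p m).1 v : ℂ)‖ = ‖wd (p m).2 v‖ := (hsf.fr.norm_wd_v v).symm
    rw [h3] at h1
    have h4 : ‖(inner ℂ (p m).2 v : ℂ)‖ * Real.exp (-(LB L M m))
        ≤ CC x ℓ * Real.exp (-(LA L M m) - d) := by
      calc ‖(inner ℂ (p m).2 v : ℂ)‖ * Real.exp (-(LB L M m))
          ≤ 1 * Real.exp (-(LB L M m)) := mul_le_mul_of_nonneg_right h2 (Real.exp_pos _).le
        _ = Real.exp (-(LB L M m)) := one_mul _
        _ ≤ _ := hB
    have h5 : ‖wd (p m).2 v‖ * Real.exp (-(LA L M m))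
        ≤ (((max m t : ℕ) : ℝ) - ((min m t : ℕ) : ℝ)) * (CC x ℓ * Real.exp (-d)) *
          Real.exp (-(LA L M m)) := mul_le_mul_of_nonneg_right hwd (Real.exp_pos _).le
    have h6 : Real.exp (-(LA L M m) - d) = Real.exp (-d) * Real.exp (-(LA L M m)) := by
      rw [← Real.exp_add]
      congr 1
      ring
    rw [h6] at h4 ⊢
    calc ‖La L M m v‖ ≤ _ := h1
      _ ≤ (((max m t : ℕ) : ℝ) - ((min m t : ℕ) : ℝ)) * (CC x ℓ * Real.exp (-d)) *
          Real.exp (-(LA L M m)) + CC x ℓ * (Real.exp (-d) * Real.exp (-(LA L M m))) :=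
        add_le_add h5 h4
      _ = _ := by ring
  refine ⟨hv1, fun w => ?_⟩
  rw [← huv.fr.norm_wd_v]
  have h1 := hDet (La L M m) v ((La L M m).symm w)
  rw [(La L M m).apply_symm_apply] at h1
  have h2 := wd_le (La L M m v) w
  have h3 : ‖wd v ((La L M m).symm w)‖ = Real.exp (LA L M m + LB L M m) *
      ‖wd (La L M m v) w‖ := by
    rw [h1, ← mul_assoc, ← Real.exp_add]
    have : LA L M m + LB L M m + (-(eA (La L M m)) - eB (La L M m)) = 0 := by
      unfold LA LB
      ring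
    rw [this, Real.exp_zero, one_mul]
  rw [h3]
  calc Real.exp (LA L M m + LB L M m) * ‖wd (La L M m v) w‖
      ≤ Real.exp (LA L M m + LB L M m) * (‖La L M m v‖ * ‖w‖) :=
        mul_le_mul_of_nonneg_left h2 (Real.exp_pos _).le
    _ ≤ Real.exp (LA L M m + LB L M m) *
        ((CC x ℓ * (((max m t : ℕ) : ℝ) - ((min m t : ℕ) : ℝ) + 1) *
          Real.exp (-(LA L M m) - d)) * ‖w‖) :=
        mul_le_mul_of_nonneg_left (mul_le_mul_of_nonneg_right hv1 (norm_nonneg _))
          (Real.exp_pos _).le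
    _ = CC x ℓ * (((max m t : ℕ) : ℝ) - ((min m t : ℕ) : ℝ) + 1) *
        (Real.exp (LA L M m + LB L M m) * Real.exp (-(LA L M m) - d)) * ‖w‖ := by ring
    _ = _ := by
        rw [← Real.exp_add]
        congr 3
        ring

end Pool.Agent.Lib.BedD
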