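import Pool.Agent.Lib.BedD.SpecT
import Pool.Agent.Lib.Bed.Str

/-!
# MP_6f050a_an, theorem D: the final statement
-/

set_option autoImplicit false

open scoped Manifold ContDiff Topology
open Set Filter Metric

namespace Pool.Agent.Lib.BedD

/-- **Theorem D.** -/
def BedfordD : Prop := ∀ (E : Type) [NormedAddCommGroup E] [NormedSpace ℂ E] [FiniteDimensional ℂ E] (X : Type)
  [MetricSpace X] [ChartedSpace E X] [IsManifold 𝓘(ℂ, E) 1 X] (nrm : (x : X) → TangentSpace 𝓘(ℂ, E) x → ℝ) (f : X ≃ X)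
  (K : Set X) (Es Eu : (x : X) → Submodule ℂ (TangentSpace 𝓘(ℂ, E) x)) (C lam : ℝ), Bed.IsFinsler nrm →
  Bed.IsHyp nrm f K Es Eu C lam → ∀ p ∈ K, PtD nrm f p (Es p) → Bed.StabCk E 2 f p

theorem sFinD (hSet : Bed.SetupC2) (hS : SeqDC) (hPD : S_PD) : BedfordD := by
  intro E _ _ _ X _ _ _ nrm f K Es Eu C lam hF hH p hp hD
  obtain ⟨N, k, A, F, j, r, C', c, a₁, b₁, C₂, c₂, hk, hseq, hck, hcmp, -⟩ :=
    hSet E X nrm f K Es Eu C lam p hF hH hp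
  have h2 : k = 2 := by
    rw [← hk]
    exact hD.1
  subst h2
  exact hck (hS r (1 / 4) C' c F A hseq (hPD E X nrm f p (Es p) N j _ a₁ b₁ hcmp hD))

/-- The train lemma, from its parts. -/
theorem trnC (hW : Bed.S_Wei) (hTLi : S_TLi) (hTPh : S_TPh) (hCau : S_Cau) (hTFa : S_TFa)
    (hTFb : S_TFb) : ∀ (dom : ℕ → Set E2) (Θ S T : ℕ → E2 → E2) (P ρ R e : ℕ → ℝ),
    Trn dom Θ S T P ρ R e → TrnC dom Θ := by
  intro dom Θ S T P ρ R e h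
  obtain ⟨Φ, hΦ⟩ := hTPh hW hTLi dom Θ S T P ρ R e h
  obtain ⟨h1, h2, h3, h4⟩ := hTFa hCau dom Θ S T P ρ R e h Φ hΦ
  exact ⟨Φ, h1, h2, h3, h4, hTFb hCau dom Θ S T P ρ R e h Φ hΦ⟩

theorem seqDC (hQL : S_QL) (hQB : S_QB) (hE : SeqEC) : SeqDC := by
  intro r D C c F A hF hD
  obtain ⟨q, x, ℓ, r', C₀, L, hq, hr, hS⟩ := hQL r D C c F A hF hD
  exact hQB r D C c F A hF q r' hq hS.r_pos hr (hE x ℓ r' C₀ _ L hS)

end Pool.Agent.Lib.BedD
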