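import Pool.Agent.Lib.BedD.SpecL

/-! # MP_6f050a_an, theorem D: the growth -/

set_option autoImplicit false

open scoped Topology
open Set Filter Metric

namespace Pool.Agent.Lib.BedD

theorem sGr : S_Gr := by
  intro K c₀ a N Z V hc hc6 hK ha haN hNa hZ0 hZN hnV hVV
  have key : ∀ j : ℕ, c₀ / 18 * a 0 * 3 ^ j ≤ a j ∧
      ((j = 0 ∨ ∃ i, j = i + 1 ∧ ¬ V i) → a 0 * 3 ^ j ≤ a j) ∧
      ((∃ i, j = i + 1 ∧ V i ∧ V j) → c₀ / 6 * a 0 * 3 ^ j ≤ Z j) := by
    intro j
    induction j with
    | zero =>
      refine ⟨?_, fun _ => by simp, ?_⟩
      · rw [pow_zero, mul_one]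
        nlinarith
      · rintro ⟨i, hi, _⟩
        omega
    | succ j ih =>
      obtain ⟨i1, i2, i3⟩ := ih
      have hb : (0 : ℝ) < 3 ^ j := by positivity
      have hab : 0 < a 0 * 3 ^ j := mul_pos ha hb
      have hcab : c₀ * (a 0 * 3 ^ j) ≤ 6 * (a 0 * 3 ^ j) := mul_le_mul_of_nonneg_right hc6 hab.le
      have hcab0 : 0 < c₀ * (a 0 * 3 ^ j) := mul_pos hc hab
      have haj : 0 < a j := by
        refine lt_of_lt_of_le ?_ i1
        positivity
      rw [pow_succ]
      by_cases hV : V j
      · by_cases hp : j = 0 ∨ ∃ i, j = i + 1 ∧ ¬ V i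
        · have h1 := i2 hp
          have h2 : c₀ / 18 * a 0 * (3 ^ j * 3) ≤ a (j + 1) := by
            have := haN j
            have := hNa j
            nlinarith
          refine ⟨h2, ?_, ?_⟩
          · rintro (h | ⟨i, hi, hVi⟩)
            · omega
            · have : i = j := by omega
              subst this
              exact absurd hV hVi
          · rintro ⟨i, hi, hVi, hVj⟩
            have h3 := hVV j hV hVj
            have h4 := hZ0 j
            have h5 : c₀ / 2 * (a 0 * 3 ^ j) ≤ c₀ / 2 * N j :=
              mul_le_mul_of_nonneg_left (h1.trans (haN j)) (by positivity)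
            nlinarith
        · have hj : ∃ i, j = i + 1 ∧ V i ∧ V j := by
            rcases Nat.eq_zero_or_pos j with h0 | h0
            · exact absurd (Or.inl h0) hp
            · refine ⟨j - 1, by omega, ?_, hV⟩
              by_contra h
              exact hp (Or.inr ⟨j - 1, by omega, h⟩)
          have h1 := i3 hj
          have h2 : c₀ / 18 * a 0 * (3 ^ j * 3) ≤ a (j + 1) := by
            have := hZN j
            have := hNa j
            nlinarith
          refine ⟨h2, ?_, ?_⟩
          · rintro (h | ⟨i, hi, hVi⟩)
            · omega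
            · have : i = j := by omega
              subst this
              exact absurd hV hVi
          · rintro ⟨i, hi, hVi, hVj⟩
            have h3 := hVV j hV hVj
            have h4 : 0 ≤ c₀ / 2 * N j := by
              have := haN j
              have : 0 ≤ N j := by linarith
              positivity
            nlinarith
      · have h1 := hnV j hV
        have h2 : 3 * (a 0 * 3 ^ j) ≤ a (j + 1) := by
          refine le_trans ?_ h1
          have h3 : 54 / c₀ ≤ K / 2 := by
            have : 54 / c₀ = 108 / c₀ / 2 := by ring
            rw [this]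
            linarith
          calc 3 * (a 0 * 3 ^ j) = 54 / c₀ * (c₀ / 18 * a 0 * 3 ^ j) := by
                field_simp
                ring
            _ ≤ 54 / c₀ * a j := mul_le_mul_of_nonneg_left i1 (by positivity)
            _ ≤ K / 2 * a j := mul_le_mul_of_nonneg_right h3 haj.le
        refine ⟨by nlinarith, fun _ => by linarith, ?_⟩
        rintro ⟨i, hi, hVi, hVj⟩
        have : i = j := by omega
        subst this
        exact absurd hVi hV
  intro j
  exact (key j).1

end Pool.Agent.Lib.BedD
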