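import Pool.Agent.Lib.BedD.SpecL

/-!
# MP_6f050a_an, theorem D: the choice of a good stage
-/

set_option autoImplicit false

open scoped Topology
open Set Filter Metric

namespace Pool.Agent.Lib.BedD

namespace sGrdAux

/-- later states are admissible -/
theorem inv {x ℓ : ℝ} {A B : ℕ → ℝ} {s : ℕ} {P : ℝ} (hl : 0 < ℓ) (hx : 2 < x)
    (hs : Slp x ℓ A B) (hi : Inv x A B s P) (m : ℕ) (hm : s ≤ m) : Inv x A B m P := by
  obtain ⟨k, rfl⟩ := Nat.exists_eq_add_of_le hm
  have h1 := hs.A_add s k
  have hk : (0 : ℝ) ≤ k := Nat.cast_nonneg k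
  have h2 : A s ≤ A (s + k) := by nlinarith
  have h3 := hs.I1 (by linarith) hm
  have hP := hi.P_le
  have hB := hi.BP
  refine ⟨lt_of_lt_of_le hi.A_pos h2, hi.P_nonneg, hP.trans ?_, by linarith⟩
  apply mul_le_mul_of_nonneg_left h2
  unfold gam
  linarith

theorem good_one (hSng : S_Sng) {x ℓ : ℝ} {A B : ℕ → ℝ} {s : ℕ} {P : ℝ} (hx : 2 < x) (hx3 : x < 3)
    (hs : Slp x ℓ A B) (hi : Inv x A B s P) : Good x A B s P s (s + 1) := by
  refine ⟨le_rfl, Nat.lt_succ_self s, ?_, ?_⟩
  · intro i h1 h2
    have : i = s := by omega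
    rw [this]
  · intro k m i hk hkm hm h1 h2
    have e1 : m = s := by omega
    have e2 : k = s := by omega
    subst e1
    subst e2
    rw [min_self] at h1
    rw [max_self] at h2
    have e3 : i = k := by omega
    subst e3
    exact hSng x A B i P hx hx3 (hs.AB i) hi

end sGrdAux

open sGrdAux in
theorem sGrd : S_Grd := by
  classical
  intro hSng x ℓ A B s P K hl hx hx3 hK hs hi
  have hAs := hi.A_pos
  -- the times with large `A`
  have hex : ∃ e, s ≤ e ∧ K * A s ≤ A e := by
    obtain ⟨k, hk⟩ := exists_nat_gt ((K * A s - A s) / ℓ)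
    refine ⟨s + k, Nat.le_add_right _ _, ?_⟩
    have h1 := hs.A_add s k
    rw [div_lt_iff₀ hl] at hk
    nlinarith
  obtain ⟨ec, hec, hmin⟩ : ∃ ec, (s ≤ ec ∧ K * A s ≤ A ec) ∧ ∀ e, e < ec → ¬(s ≤ e ∧ K * A s ≤ A e) :=
    ⟨Nat.find hex, Nat.find_spec hex, fun e he => Nat.find_min hex he⟩
  have hsec : s < ec := by
    rcases hec.1.lt_or_eq with h | h
    · exact h
    · exfalso
      have h2 := hec.2
      rw [← h] at h2
      nlinarith
  have hAle : ∀ e, s < e → e ≤ ec → A e ≤ K * A s + x * ℓ := by
    intro e he hee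
    obtain ⟨j, rfl⟩ : ∃ j, e = j + 1 := ⟨e - 1, by omega⟩
    have h1 := hmin j (by omega)
    have h2 : A j < K * A s := by
      by_contra h
      exact h1 ⟨by omega, not_lt.1 h⟩
    have h3 := hs.A_le j
    linarith
  -- the largest possible end of the stage
  let Q : ℕ → Prop := fun e => s < e ∧ ∃ t, Good x A B s P t e
  have hQ1 : Q (s + 1) := ⟨Nat.lt_succ_self s, s, good_one hSng hx hx3 hs hi⟩
  have hspec : Q (Nat.findGreatest Q ec) := Nat.findGreatest_spec (m := s + 1) hsec hQ1
  have hle : Nat.findGreatest Q ec ≤ ec := Nat.findGreatest_le ec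
  have hgr : ∀ k, Nat.findGreatest Q ec < k → k ≤ ec → ¬Q k := fun k h1 h2 =>
    Nat.findGreatest_is_greatest h1 h2
  generalize Nat.findGreatest Q ec = e at hspec hle hgr
  obtain ⟨hse, t, hG⟩ := hspec
  refine ⟨t, e, hG, hAle e hse hle, ?_⟩
  rcases hle.lt_or_eq with hlt | heq
  swap
  · left
    rw [heq]
    exact hec.2
  right
  have hn : ¬∃ t', Good x A B s P t' (e + 1) := fun h => hgr (e + 1) (Nat.lt_succ_self e) hlt
    ⟨by omega, h⟩
  have hst := hG.st
  have hte := hG.te
  have hclaim : ∃ i, t ≤ i ∧ i ≤ e ∧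
      B i - A i < pp (GG x A B t) + pp (P + min (GG x A B t) (GG x A B e)) := by
    by_contra hcon
    push Not at hcon
    rcases le_or_gt (GG x A B e) (GG x A B t) with hge | hge
    · apply hn
      refine ⟨t, hst, by omega, ?_, ?_⟩
      · intro i h1 h2
        rcases Nat.lt_succ_iff_lt_or_eq.1 h2 with h | h
        · exact hG.mx i h1 h
        · rw [h]
          exact hge
      · intro k m i hk hkm hm h1 h2
        rcases Nat.lt_succ_iff_lt_or_eq.1 hm with h | h
        · exact hG.sep k m i hk hkm h h1 h2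
        · subst h
          rw [min_eq_right hte.le] at h1
          rw [max_eq_left hte.le] at h2
          have h3 := hcon i h1 h2
          rw [min_eq_right hge] at h3
          refine le_trans (add_le_add (pp_mono ?_) le_rfl) h3
          rcases hkm.lt_or_eq with h | h
          · exact hG.mx k hk h
          · rw [h]
            exact hge
    · apply hn
      have hmx : ∀ i, s ≤ i → i < e + 1 → GG x A B i ≤ GG x A B e := by
        intro i h1 h2
        rcases Nat.lt_succ_iff_lt_or_eq.1 h2 with h | h
        · exact (hG.mx i h1 h).trans hge.le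
        · rw [h]
      refine ⟨e, by omega, Nat.lt_succ_self e, hmx, ?_⟩
      intro k m i hk hkm hm h1 h2
      have hme : m ≤ e := Nat.lt_succ_iff.1 hm
      rw [min_eq_left hme] at h1
      rw [max_eq_right hme] at h2
      rcases hme.lt_or_eq with h | h
      · rcases lt_or_ge i t with hit | hit
        · exact hG.sep k m i hk hkm h (by rw [min_eq_left (by omega)]; exact h1)
            (by rw [max_eq_right (by omega)]; exact hit.le)
        · have h3 := hcon i hit h2
          rw [min_eq_left hge.le] at h3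
          refine le_trans (add_le_add (pp_mono ?_) (pp_mono ?_)) h3
          · exact hG.mx k hk (by omega)
          · have := hG.mx m (by omega) h
            linarith
      · subst h
        have e3 : i = m := by omega
        subst e3
        refine le_trans (add_le_add (pp_mono (hmx k hk (by omega))) le_rfl) ?_
        exact hSng x A B i P hx hx3 (hs.AB i) (inv hl hx hs hi i (by omega))
  refine ⟨Nat.find hclaim, (Nat.find_spec hclaim).1, (Nat.find_spec hclaim).2.1,
    (Nat.find_spec hclaim).2.2, ?_⟩
  intro i' h1 h2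
  have h3 := Nat.find_min hclaim h2
  by_contra h4
  have h5 : i' ≤ e := by
    have := (Nat.find_spec hclaim).2.1
    omega
  exact h3 ⟨h1, h5, not_le.1 h4⟩

end Pool.Agent.Lib.BedD
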