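import Pool.Agent.Lib.BedD.SpecL

/-! # MP_6f050a_an, theorem D: the state after a good stage -/

set_option autoImplicit false

open scoped Topology
open Set Filter Metric

namespace Pool.Agent.Lib.BedD

theorem Slp.A_le' {x ℓ : ℝ} {A B : ℕ → ℝ} (h : Slp x ℓ A B) {m n : ℕ} (hmn : m ≤ n) :
    A m + ℓ * ((n : ℝ) - m) ≤ A n := by
  obtain ⟨k, rfl⟩ := Nat.exists_eq_add_of_le hmn
  have := h.A_add m k
  push_cast
  rw [add_sub_cancel_left]
  exact this

theorem sInh : S_Inh := by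
  intro x ℓ A B A' B' s t e P ρ κ hℓ hx2 hx3 hS hS' hI hG hP
  obtain ⟨i1, i2, i3, i4⟩ := hI
  have hst := hG.st
  have hte : t ≤ e := hG.te.le
  have hst' : (0 : ℝ) ≤ (t : ℝ) - s := by
    have : (s : ℝ) ≤ t := by exact_mod_cast hst
    linarith
  have hte' : (0 : ℝ) ≤ (e : ℝ) - t := by
    have : (t : ℝ) ≤ e := by exact_mod_cast hte
    linarith
  have a1 := hS.A_le' hst
  have a2 := hS'.A_le' hte
  have b1 := hS.I1 (by linarith) hst
  have b2 := hS'.I1 (by linarith) hte
  have c1 := hP.at_t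
  have c2 := hP.sum t
  have hρ := hP.ρ_eq
  have hρ0 : 0 ≤ ρ := by rw [hρ]; exact pp_nonneg _
  have m1 : 0 ≤ ℓ * ((t : ℝ) - s) := mul_nonneg hℓ.le hst'
  have m2 : 0 ≤ ℓ * ((e : ℝ) - t) := mul_nonneg hℓ.le hte'
  have hAt : A s ≤ A t := by linarith
  have hA'e : A t ≤ A' e := by linarith
  have hxg : 0 < x - gam x := by unfold gam; linarith
  have hPr : P + ρ ≤ (x - gam x) * A t := by
    rcases le_total (GG x A B t) 0 with h | h
    · rw [hρ, pp_of_nonpos h, add_zero]
      exact i3.trans (mul_le_mul_of_nonneg_left hAt hxg.le)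
    · rw [hρ, pp_of_nonneg h]
      unfold GG
      nlinarith
  refine ⟨⟨by linarith, by linarith, hPr.trans (mul_le_mul_of_nonneg_left hA'e hxg.le), ?_⟩, hPr, ?_, hA'e,
    ?_⟩
  · rw [c1] at b2 c2
    linarith
  · nlinarith
  · refine hP.low e hte le_rfl fun i hi hie => ?_
    have h1 := hG.sep t i i hst hi hie (by rw [min_eq_right hi]; exact hi)
      (by rw [max_eq_left hi])
    have h2 := pp_nonneg (P + GG x A B i)
    rw [hρ]
    linarith

end Pool.Agent.Lib.BedD
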