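import Pool.Agent.Lib.BedD.SpecA

/-!
# MP_6f050a_an, theorem D: products over several stages
-/

set_option autoImplicit false

open scoped Topology
open Set Filter Metric

namespace Pool.Agent.Lib.BedD

namespace sKLDAux

/-- The change of the coordinates at the end of a stage. -/
theorem step_coord {u v : E2} (hf : Fr u v) {ρ : ℝ} (M M' : E2 ≃L[ℂ] E2)
    (hM : ∀ z, M' z = M (Rm u v (Real.exp ρ : ℂ) z)) (z : E2) :
    ∃ y : E2, M' y = M z ∧ ‖(inner ℂ u y : ℂ)‖ = ‖(inner ℂ u z : ℂ)‖ ∧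
      ‖(inner ℂ v y : ℂ)‖ = Real.exp (-ρ) * ‖(inner ℂ v z : ℂ)‖ := by
  refine ⟨M'.symm (M z), M'.apply_symm_apply _, ?_⟩
  have h1 := hM (M'.symm (M z))
  rw [M'.apply_symm_apply] at h1
  have h2 : z = Rm u v (Real.exp ρ : ℂ) (M'.symm (M z)) := M.injective h1
  generalize M'.symm (M z) = y at h2
  rw [Rm_apply] at h2
  rw [h2, hf.inner_u, hf.inner_v]
  refine ⟨rfl, ?_⟩
  rw [norm_mul, Complex.norm_real, Real.norm_of_nonneg (Real.exp_pos _).le, ← mul_assoc,
    ← Real.exp_add, neg_add_cancel, Real.exp_zero, one_mul]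

theorem norm_le_of {u v : E2} (hf : Fr u v) {ρ : ℝ} (hρ : 0 ≤ ρ) {y z : E2}
    (h1 : ‖(inner ℂ u y : ℂ)‖ = ‖(inner ℂ u z : ℂ)‖)
    (h2 : ‖(inner ℂ v y : ℂ)‖ = Real.exp (-ρ) * ‖(inner ℂ v z : ℂ)‖) : ‖y‖ ≤ ‖z‖ := by
  have h3 : ‖(inner ℂ v y : ℂ)‖ ≤ ‖(inner ℂ v z : ℂ)‖ := by
    rw [h2]
    exact mul_le_of_le_one_left (norm_nonneg _) (Real.exp_le_one_iff.mpr (by linarith))
  have h4 : ‖(inner ℂ v y : ℂ)‖ ^ 2 ≤ ‖(inner ℂ v z : ℂ)‖ ^ 2 := by gcongr
  have h5 : ‖y‖ ^ 2 ≤ ‖z‖ ^ 2 := by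
    rw [hf.norm_sq y, hf.norm_sq z, h1]
    linarith
  exact (abs_le_of_sq_le_sq' h5 (norm_nonneg _)).2

/-- The vector in the coordinates of a later stage. -/
theorem later {x ℓ C₅ : ℝ} {L : ℕ → E2 ≃L[ℂ] E2} {s : ℕ → ℕ} {M : ℕ → E2 ≃L[ℂ] E2}
    {P ρ : ℕ → ℝ} {u v : ℕ → E2} (hS : StgS x ℓ C₅ L s M P ρ u v) (i : ℕ) (z : E2) (k : ℕ) :
    ∃ y : E2, M (i + 1 + k) y = M i z ∧
      ‖y‖ ≤ ‖(inner ℂ (u i) z : ℂ)‖ + Real.exp (-(ρ i)) * ‖(inner ℂ (v i) z : ℂ)‖ := by
  induction k with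
  | zero =>
    obtain ⟨y, h1, h2, h3⟩ := step_coord (hS.fr i) (M i) (M (i + 1)) (hS.M_succ i) z
    refine ⟨y, h1, ?_⟩
    rw [← h2, ← h3]
    exact (hS.fr i).norm_le y
  | succ k ih =>
    obtain ⟨y, h1, h2⟩ := ih
    obtain ⟨y', h3, h4, h5⟩ := step_coord (hS.fr (i + 1 + k)) (M (i + 1 + k)) (M (i + 1 + k + 1))
      (hS.M_succ (i + 1 + k)) y
    exact ⟨y', h3.trans h1,
      (norm_le_of (hS.fr (i + 1 + k)) (hS.ρ_nonneg (i + 1 + k)) h4 h5).trans h2⟩

end sKLDAux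

open sKLDAux in
theorem sKLD : S_KLD := by
  intro _ x ℓ L hp C₅ s M P ρ u v hS i i' j m hii h1 h2 h3 h4 hjm w
  have hC1 : 1 ≤ CC x ℓ := by
    unfold CC
    exact Real.one_le_exp (mul_nonneg (by linarith [hp.x_gt]) hp.ℓ_pos.le)
  have hn1 : 1 ≤ nn s i := by
    unfold nn
    have : (s i : ℝ) < s (i + 1) := by exact_mod_cast hS.lt i
    linarith
  have hCn : 1 ≤ CC x ℓ * nn s i := one_le_mul_of_one_le_of_one_le hC1 hn1
  have hg : GG x (LA L (M i)) (LB L (M i)) j = LB L (M i) j - gam x * LA L (M i) j := rfl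
  have hgl := hS.g_le i j h1 h2
  have hw : La L (M i) m ((La L (M i) j).symm w) = Lp L j (m - j) w := by
    have e1 := La_add L (M i) j (m - j) ((La L (M i) j).symm w)
    rw [Nat.add_sub_cancel' hjm, (La L (M i) j).apply_symm_apply] at e1
    exact e1
  -- the coordinates
  have hX : ‖(inner ℂ (u i) ((La L (M i) j).symm w) : ℂ)‖ ≤
      CC x ℓ * nn s i * Real.exp (gam x * LA L (M i) j) * ‖w‖ := by
    refine (hS.du i j j h1 le_rfl h2 w).trans ?_
    have e1 := le_pp (GG x (LA L (M i)) (LB L (M i)) j)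
    have e2 := pp_nonneg (P i + GG x (LA L (M i)) (LB L (M i)) j)
    rw [hg] at e1
    unfold nn
    unfold nn at hCn
    have e3 : Real.exp (LB L (M i) j - pp (GG x (LA L (M i)) (LB L (M i)) j) -
        pp (P i + GG x (LA L (M i)) (LB L (M i)) j)) ≤ Real.exp (gam x * LA L (M i) j) := by
      rw [Real.exp_le_exp, hg]
      rw [hg] at e2
      linarith
    have e4 : 0 ≤ CC x ℓ * ((s (i + 1) : ℝ) - s i + 1) := by linarith
    exact mul_le_mul_of_nonneg_right (mul_le_mul_of_nonneg_left e3 e4) (norm_nonneg _)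
  have hY : ‖(inner ℂ (v i) ((La L (M i) j).symm w) : ℂ)‖ ≤ Real.exp (LB L (M i) j) * ‖w‖ :=
    ((hS.fr i).le_v _).trans (symm_le _ w)
  generalize hz : (La L (M i) j).symm w = z at hX hY hw
  rcases hii.eq_or_lt with he | hlt
  · -- the same stage
    subst he
    rw [← hw]
    have e0 : La L (M i) m z = (inner ℂ (u i) z : ℂ) • La L (M i) m (u i) +
        (inner ℂ (v i) z : ℂ) • La L (M i) m (v i) := by
      conv_lhs => rw [(hS.fr i).expand z]
      rw [map_add, map_smul, map_smul]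
    have e1 : ‖La L (M i) m (u i)‖ ≤ Real.exp (-(LA L (M i) m)) := by
      have := le_eA (La L (M i) m) (u i)
      rwa [(hS.fr i).nu, mul_one] at this
    have e2 : ‖La L (M i) m (v i)‖ ≤ CC x ℓ * nn s i *
        Real.exp (-(LA L (M i) m) - GG x (LA L (M i)) (LB L (M i)) j) := by
      refine (hS.dv i j m h1 hjm h4).trans ?_
      have e3 := le_pp (GG x (LA L (M i)) (LB L (M i)) j)
      have e4 := pp_nonneg (P i + GG x (LA L (M i)) (LB L (M i)) m)
      have e5 : Real.exp (-(LA L (M i) m) - pp (GG x (LA L (M i)) (LB L (M i)) j) -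
        pp (P i + GG x (LA L (M i)) (LB L (M i)) m)) ≤
        Real.exp (-(LA L (M i) m) - GG x (LA L (M i)) (LB L (M i)) j) := by
        rw [Real.exp_le_exp]
        linarith
      have e6 : 0 ≤ CC x ℓ * ((s (i + 1) : ℝ) - s i + 1) := by
        unfold nn at hCn
        linarith
      exact mul_le_mul_of_nonneg_left e5 e6
    rw [e0]
    refine (norm_add_le _ _).trans ?_
    rw [norm_smul, norm_smul]
    have hCn0 : 0 ≤ CC x ℓ * nn s i := by linarith
    have f1 : ‖(inner ℂ (u i) z : ℂ)‖ * ‖La L (M i) m (u i)‖ ≤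
        CC x ℓ * nn s i * Real.exp (-(LA L (M i) m) + gam x * LA L (M i) j) * ‖w‖ := by
      calc _ ≤ (CC x ℓ * nn s i * Real.exp (gam x * LA L (M i) j) * ‖w‖) *
            Real.exp (-(LA L (M i) m)) := by gcongr
        _ = _ := by
          rw [Real.exp_add]
          ring
    have f2 : ‖(inner ℂ (v i) z : ℂ)‖ * ‖La L (M i) m (v i)‖ ≤
        CC x ℓ * nn s i * Real.exp (-(LA L (M i) m) + gam x * LA L (M i) j) * ‖w‖ := by
      calc _ ≤ (Real.exp (LB L (M i) j) * ‖w‖) * (CC x ℓ * nn s i *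
            Real.exp (-(LA L (M i) m) - GG x (LA L (M i)) (LB L (M i)) j)) := by gcongr
        _ = CC x ℓ * nn s i * (Real.exp (LB L (M i) j) *
            Real.exp (-(LA L (M i) m) - GG x (LA L (M i)) (LB L (M i)) j)) * ‖w‖ := by ring
        _ = _ := by
          rw [← Real.exp_add, hg]
          congr 3
          ring
    calc _ ≤ CC x ℓ * nn s i * Real.exp (-(LA L (M i) m) + gam x * LA L (M i) j) * ‖w‖ +
          CC x ℓ * nn s i * Real.exp (-(LA L (M i) m) + gam x * LA L (M i) j) * ‖w‖ :=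
          add_le_add f1 f2
      _ = _ := by ring
  · -- a later stage
    obtain ⟨k, rfl⟩ : ∃ k, i' = i + 1 + k := ⟨i' - (i + 1), by omega⟩
    obtain ⟨y, hy1, hy2⟩ := later hS i z k
    have e0 : La L (M (i + 1 + k)) m y = La L (M i) m z := La_congr L _ _ z y hy1 m
    rw [← hw, ← e0]
    have e1 : ‖y‖ ≤ 2 * CC x ℓ * nn s i * Real.exp (gam x * LA L (M i) j) * ‖w‖ := by
      refine hy2.trans ?_
      have f1 : Real.exp (-(ρ i)) * ‖(inner ℂ (v i) z : ℂ)‖ ≤
          CC x ℓ * nn s i * Real.exp (gam x * LA L (M i) j) * ‖w‖ := by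
        calc _ ≤ Real.exp (-(ρ i)) * (Real.exp (LB L (M i) j) * ‖w‖) := by gcongr
          _ = Real.exp (-(ρ i) + LB L (M i) j) * ‖w‖ := by
            rw [Real.exp_add]
            ring
          _ ≤ Real.exp (gam x * LA L (M i) j) * ‖w‖ := by
            gcongr
            rw [hg] at hgl
            linarith
          _ ≤ CC x ℓ * nn s i * (Real.exp (gam x * LA L (M i) j) * ‖w‖) :=
            le_mul_of_one_le_left (by positivity) hCn
          _ = _ := by ring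
      linarith
    calc ‖La L (M (i + 1 + k)) m y‖ ≤ Real.exp (-(LA L (M (i + 1 + k)) m)) * ‖y‖ := le_eA _ y
      _ ≤ Real.exp (-(LA L (M (i + 1 + k)) m)) *
          (2 * CC x ℓ * nn s i * Real.exp (gam x * LA L (M i) j) * ‖w‖) := by gcongr
      _ = _ := by
        rw [Real.exp_add]
        ring

end Pool.Agent.Lib.BedD
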