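import Pool.Agent.Lib.BedD.SpecT

/-!
# MP_6f050a_an, theorem D: large numbers
-/

set_option autoImplicit false

open scoped Topology
open Set Filter Metric

namespace Pool.Agent.Lib.BedD

namespace sLrgAux

theorem ev (k : ℕ) (C κ δ : ℝ) (hκ : 0 < κ) (hδ : 0 < δ) :
    ∀ᶠ a : ℝ in atTop, C * a ^ k * Real.exp (-(κ * a)) < δ := by
  have h1 := (Real.tendsto_pow_mul_exp_neg_atTop_nhds_zero k).comp
    (tendsto_id.const_mul_atTop hκ)
  have h2 := h1.const_mul (C / κ ^ k)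
  rw [mul_zero] at h2
  filter_upwards [h2.eventually (gt_mem_nhds hδ)] with a ha
  simp only [Function.comp_apply, id_eq] at ha
  refine lt_of_eq_of_lt ?_ ha
  rw [mul_pow]
  have : κ ^ k ≠ 0 := pow_ne_zero _ hκ.ne'
  field_simp

end sLrgAux

open sLrgAux in
theorem sLrg : S_Lrg := by
  intro b C₁ C₄ C₅ r η hb h1 h4 h5 hr hη hη4
  have e1 := ev 1 (b * C₅) η 1 hη one_pos
  have e2 := ev 1 (8 * C₁ * C₅) (1 - η / 10) r (by linarith) hr
  have e3 := ev 0 2 (1 - η / 20) r (by linarith) hr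
  have e4 := ev 4 (C₄ * C₅ ^ 4) (3 * η / 4) 1 (by linarith) one_pos
  have e5 := ev 4 (2 * C₄ * C₅ ^ 4) (η / 4) 1 (by linarith) one_pos
  obtain ⟨a₀, ha₀⟩ := eventually_atTop.1 (e1.and (e2.and (e3.and (e4.and e5))))
  refine ⟨max 1 a₀, le_max_left _ _, fun a n ha hn hna => ?_⟩
  obtain ⟨f1, f2, f3, f4, f5⟩ := ha₀ a ((le_max_right _ _).trans ha)
  have ha1 : 1 ≤ a := (le_max_left _ _).trans ha
  have hn4 : n ^ 4 ≤ (C₅ * a) ^ 4 := pow_le_pow_left₀ hn hna 4
  have hR5 : Real.exp (η / 20 * a) ^ 5 = Real.exp (η / 4 * a) := by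
    rw [← Real.exp_nat_mul]
    congr 1
    push_cast
    ring
  have hR2 : Real.exp (η / 20 * a) ^ 2 = Real.exp (η / 10 * a) := by
    rw [← Real.exp_nat_mul]
    congr 1
    push_cast
    ring
  rw [hR5, hR2]
  refine ⟨?_, ?_, ?_, ?_, ?_⟩
  · refine le_trans ?_ f1.le
    apply mul_le_mul_of_nonneg_right _ (Real.exp_pos _).le
    rw [pow_one, mul_assoc]
    exact mul_le_mul_of_nonneg_left hna hb.le
  · refine lt_of_le_of_lt ?_ f2
    have g1 : Real.exp (-((1 - η / 10) * a)) = Real.exp (η / 10 * a) * Real.exp (-a) := by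
      rw [← Real.exp_add]
      congr 1
      ring
    rw [g1, ← mul_assoc (8 * C₁ * C₅ * a ^ 1)]
    apply mul_le_mul_of_nonneg_right _ (Real.exp_pos _).le
    apply mul_le_mul_of_nonneg_right _ (Real.exp_pos _).le
    rw [pow_one]
    calc 8 * (C₁ * n) ≤ 8 * (C₁ * (C₅ * a)) := by gcongr
      _ = _ := by ring
  · have g1 : Real.exp (η / 20 * a) = Real.exp (-((1 - η / 20) * a)) * Real.exp a := by
      rw [← Real.exp_add]
      congr 1
      ring
    rw [g1, ← mul_assoc]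
    apply mul_lt_mul_of_pos_right _ (Real.exp_pos _)
    rw [pow_zero, mul_one] at f3
    exact f3
  · refine le_trans ?_ f4.le
    have g1 : Real.exp (-(3 * η / 4 * a)) = Real.exp (η / 4 * a) * Real.exp (-(η * a)) := by
      rw [← Real.exp_add]
      congr 1
      ring
    rw [g1, ← mul_assoc]
    apply mul_le_mul_of_nonneg_right _ (Real.exp_pos _).le
    apply mul_le_mul_of_nonneg_right _ (Real.exp_pos _).le
    calc C₄ * n ^ 4 ≤ C₄ * (C₅ * a) ^ 4 := mul_le_mul_of_nonneg_left hn4 h4.le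
      _ = _ := by ring
  · have g1 : Real.exp (-(η / 2 * a)) = 1 * Real.exp (-(η / 2 * a)) := (one_mul _).symm
    rw [g1]
    have g2 : 2 * C₄ * n ^ 4 * Real.exp (η / 4 * a) * Real.exp (-(η * a))
        = 2 * C₄ * n ^ 4 * Real.exp (-(η / 4 * a)) * Real.exp (-(η / 2 * a)) := by
      rw [mul_assoc, mul_assoc (2 * C₄ * n ^ 4), ← Real.exp_add, ← Real.exp_add]
      congr 2
      ring
    rw [g2]
    apply mul_le_mul_of_nonneg_right _ (Real.exp_pos _).le
    refine le_trans ?_ f5.le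
    apply mul_le_mul_of_nonneg_right _ (Real.exp_pos _).le
    calc 2 * C₄ * n ^ 4 ≤ 2 * C₄ * (C₅ * a) ^ 4 := mul_le_mul_of_nonneg_left hn4 (by linarith)
      _ = _ := by ring

end Pool.Agent.Lib.BedD
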