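import Pool.Agent.Lib.BedD.SpecT
import Pool.Agent.Lib.BedD.Basic

/-!
# MP_6f050a_an, theorem D: the stage maps form a train (Mk)
-/

set_option autoImplicit false

open scoped Topology
open Set Filter Metric

namespace Pool.Agent.Lib.BedD

namespace sMkAux

/-- `C 2^j ≤ k 3^j` eventually, for `k > 0`. -/
theorem two_three (C k : ℝ) (hk : 0 < k) : ∀ᶠ j : ℕ in atTop, C * 2 ^ j ≤ k * 3 ^ j := by
  have h1 : Tendsto (fun j : ℕ => C * (2 / 3 : ℝ) ^ j) atTop (𝓝 (C * 0)) :=
    (tendsto_pow_atTop_nhds_zero_of_lt_one (by norm_num) (by norm_num)).const_mul C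
  rw [mul_zero] at h1
  have h2 := h1.eventually (gt_mem_nhds hk)
  filter_upwards [h2] with j hj
  have h3 : (0 : ℝ) < 3 ^ j := by positivity
  have h4 : C * (2 / 3 : ℝ) ^ j * 3 ^ j ≤ k * 3 ^ j := by
    exact mul_le_mul_of_nonneg_right hj.le h3.le
  have h5 : C * (2 / 3 : ℝ) ^ j * 3 ^ j = C * 2 ^ j := by
    rw [div_pow, mul_assoc, div_mul_cancel₀ _ h3.ne']
  rwa [h5] at h4

end sMkAux

open sMkAux in
theorem sMk : S_Mk := by
  intro hSt hAcc hOb hOrb hTh hST hLrg x ℓ r C₀ f L hf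
  have hpin := hf.pin
  have hη0 : 0 < eta x := by
    unfold eta
    have := hpin.x_lt
    linarith
  have hη1 : eta x ≤ 1 / 4 := by
    unfold eta
    have := hpin.x_gt
    linarith
  have hb0 : 0 < bb x ℓ C₀ := mul_pos hf.C_pos (Real.exp_pos _)
  have hC1 : 0 < CC x ℓ := Real.exp_pos _
  have hC4 : 0 < C4 x ℓ r C₀ := by
    have := hf.r_pos
    unfold C4
    positivity
  obtain ⟨C₅, hC5, hstg⟩ := hSt x ℓ L hpin
  obtain ⟨a₀, ha₀, hlrg⟩ := hLrg (bb x ℓ C₀) (CC x ℓ) (C4 x ℓ r C₀) C₅ r (eta x) hb0 hC1 hC4 hC5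
    hf.r_pos hη0 hη1
  obtain ⟨s, M, P, ρ, u, v, c, hc, hS, hge, hgrow⟩ := hstg a₀
  have hT := hTh hOrb x ℓ r C₀ f L hf s M
  -- the numbers
  have hn0 : ∀ j, 0 ≤ nn s j := by
    intro j
    have h1 : (s j : ℝ) < s (j + 1) := by exact_mod_cast hS.lt j
    unfold nn
    linarith
  have hn : ∀ j, nn s j ≤ C₅ * aa L s M j := hS.len
  have hnum := fun j => hlrg (aa L s M j) (nn s j) (hge j) (hn0 j) (hn j)
  let R : ℕ → ℝ := fun j => Real.exp (eta x / 20 * aa L s M j)
  have haa : ∀ j, 1 ≤ aa L s M j := fun j => hS.one_le j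
  have hR1 : ∀ j, 1 ≤ R j := by
    intro j
    have h1 : 0 ≤ eta x / 20 * aa L s M j := by
      have := haa j
      positivity
    exact Real.one_le_exp h1
  have hacc := fun j => hAcc x ℓ r C₀ f L hf C₅ s M P ρ u v hS j (R j) (hR1 j) (hnum j).1
    (hnum j).2.1 (hnum j).2.2.1 (hnum j).2.2.2.1
  choose Q hQ hacc' using hacc
  have hst := fun j => hST (u j) (v j) (ρ j) (Q j) (hS.fr j) (hS.ρ_nonneg j) (hQ j)
  choose S T hSd hTd hSTi hTSi hSle hTlip hTeq using hst
  let e : ℕ → ℝ := fun j => 2 * C4 x ℓ r C₀ * nn s j ^ 4 * R j ^ 5 *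
    Real.exp (-(P j) - eta x * aa L s M j)
  refine ⟨s, M, P, ρ, R, e, S, T, hS.lt, ?_⟩
  constructor
  · exact hT.1
  · exact hT.2.1
  · exact hT.2.2.1
  · exact hT.2.2.2.1
  · exact hT.2.2.2.2
  · exact hSd
  · exact hTd
  · exact hSTi
  · exact hTSi
  · exact hSle
  · exact hTlip
  · intro j z hz
    exact (hacc' j z hz).1
  · -- near
    intro j z hz
    have h1 := (hacc' j z hz).2 _ rfl
    set z' : E2 := (La L (M j) (s (j + 1))).symm
      (orbE f (s j) (s (j + 1) - s j) (La L (M j) (s j) z)) with hz'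
    set y : E2 := Th L f s M j z with hy
    have hfr := hS.fr j
    have h2 : La L (M (j + 1)) (s (j + 1)) y = La L (M j) (s (j + 1)) z' := by
      rw [hy, hz']
      unfold Th
      rw [(La L (M (j + 1)) (s (j + 1))).apply_symm_apply, (La L (M j) (s (j + 1))).apply_symm_apply]
    have h3 : La L (M (j + 1)) (s (j + 1)) y =
        La L (M j) (s (j + 1)) (Rm (u j) (v j) (Real.exp (ρ j) : ℂ) y) :=
      La_congr L (M j) (M (j + 1)) _ _ (hS.M_succ j y) _
    have h4 : z' = Rm (u j) (v j) (Real.exp (ρ j) : ℂ) y := by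
      apply (La L (M j) (s (j + 1))).injective
      rw [← h2, h3]
    rw [Rm_apply] at h4
    have h5 : inner ℂ (u j) z' = inner ℂ (u j) y := by
      rw [h4, hfr.inner_u]
    have h6 : inner ℂ (v j) z' = (Real.exp (ρ j) : ℂ) * inner ℂ (v j) y := by
      rw [h4, hfr.inner_v]
    have h7 : T j y - z = (inner ℂ (u j) z' - inner ℂ (u j) z : ℂ) • u j +
        (inner ℂ (v j) z' - Q j * (inner ℂ (u j) z') ^ 2 - inner ℂ (v j) z : ℂ) • v j := by
      rw [hTeq, h5, h6]
      conv_lhs => rw [hfr.expand z]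
      module
    have h8 : ‖T j y - z‖ ≤ ‖(inner ℂ (u j) z' - inner ℂ (u j) z : ℂ)‖ +
        ‖(inner ℂ (v j) z' - Q j * (inner ℂ (u j) z') ^ 2 - inner ℂ (v j) z : ℂ)‖ := by
      rw [h7]
      refine (norm_add_le _ _).trans ?_
      rw [norm_smul, norm_smul, hfr.nu, hfr.nv, mul_one, mul_one]
    exact h8.trans h1
  · exact hS.P_nonneg
  · exact hS.P_succ
  · -- R_big
    intro C
    filter_upwards [two_three C (eta x / 20 * c) (by positivity)] with j hj
    show Real.exp (C * 2 ^ j) ≤ Real.exp (eta x / 20 * aa L s M j)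
    rw [Real.exp_le_exp]
    have h1 := hgrow j
    have h2 : eta x / 20 * (c * 3 ^ j) ≤ eta x / 20 * aa L s M j :=
      mul_le_mul_of_nonneg_left h1 (by positivity)
    nlinarith
  · -- e_small
    intro C
    filter_upwards [two_three C (eta x / 2 * c) (by positivity)] with j hj
    have h1 : e j = Real.exp (-(P j)) * (2 * C4 x ℓ r C₀ * nn s j ^ 4 *
        Real.exp (eta x / 20 * aa L s M j) ^ 5 * Real.exp (-(eta x * aa L s M j))) := by
      show 2 * C4 x ℓ r C₀ * nn s j ^ 4 * Real.exp (eta x / 20 * aa L s M j) ^ 5 *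
        Real.exp (-(P j) - eta x * aa L s M j) = _
      rw [sub_eq_add_neg, Real.exp_add]
      ring
    have h2 := (hnum j).2.2.2.2
    have h3 := hgrow j
    have h4 : eta x / 2 * (c * 3 ^ j) ≤ eta x / 2 * aa L s M j :=
      mul_le_mul_of_nonneg_left h3 (by positivity)
    calc e j ≤ Real.exp (-(P j)) * Real.exp (-(eta x / 2 * aa L s M j)) := by
          rw [h1]
          exact mul_le_mul_of_nonneg_left h2 (Real.exp_pos _).le
      _ = Real.exp (-(P j) - eta x / 2 * aa L s M j) := by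
          rw [← Real.exp_add, sub_eq_add_neg]
      _ ≤ Real.exp (-(P j) - C * 2 ^ j) := by
          rw [Real.exp_le_exp]
          nlinarith
  · exact hOb x ℓ r C₀ f L hf C₅ s M P ρ u v hS

end Pool.Agent.Lib.BedD
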