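import Pool.Agent.Lib.BedD.SpecA

/-!
# MP_6f050a_an, theorem D: the orbits decay like `e^{-A}` (helper73)
-/

set_option autoImplicit false

open scoped Topology
open Set Filter Metric

namespace Pool.Agent.Lib.BedD

namespace sOb1Aux

/-- the nonlinear part -/
noncomputable def Nl (f : ℕ → E2 → E2) (L : ℕ → E2 ≃L[ℂ] E2) (m : ℕ) (w : E2) : E2 := f m w - L m w

/-- the formula of Duhamel -/
theorem duhamel (f : ℕ → E2 → E2) (L : ℕ → E2 ≃L[ℂ] E2) (m₀ : ℕ) (w : E2) (i : ℕ) :
    orbE f m₀ i w = Lp L m₀ i w +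
      ∑ j ∈ Finset.range i, Lp L (m₀ + j + 1) (i - j - 1) (Nl f L (m₀ + j) (orbE f m₀ j w)) := by
  induction i with
  | zero => simp [orbE_zero, Lp_zero]
  | succ i ih =>
    rw [Finset.sum_range_succ, orbE_succ, Lp_succ]
    have h1 : i + 1 - i - 1 = 0 := by omega
    rw [h1, Lp_zero]
    have h2 : f (m₀ + i) (orbE f m₀ i w) =
        L (m₀ + i) (orbE f m₀ i w) + Nl f L (m₀ + i) (orbE f m₀ i w) := by
      unfold Nl
      abel
    rw [h2]
    conv_lhs => rw [ih]
    rw [map_add, map_sum, ← ih, ← add_assoc]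
    congr 2
    refine Finset.sum_congr rfl fun j hj => ?_
    have hj' : j < i := Finset.mem_range.mp hj
    have h3 : i + 1 - j - 1 = (i - j - 1) + 1 := by omega
    have h4 : m₀ + i = m₀ + j + 1 + (i - j - 1) := by omega
    rw [h3, Lp_succ, ← h4]

theorem Lp_le {x ℓ : ℝ} {L : ℕ → E2 ≃L[ℂ] E2} (h : Pin x ℓ L) (j k : ℕ) (z : E2) :
    ‖Lp L j k z‖ ≤ ‖z‖ := by
  induction k with
  | zero => exact le_rfl
  | succ k ih =>
    rw [Lp_succ]
    have h1 := h.up (j + k) (Lp L j k z)
    have h2 : Real.exp (-ℓ) ≤ 1 := Real.exp_le_one_iff.mpr (by have := h.ℓ_pos; linarith)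
    have h3 := norm_nonneg (Lp L j k z)
    nlinarith

theorem mul_exp_le {a τ : ℝ} (ha : 0 < a) : τ * Real.exp (-(a * τ)) ≤ 1 / a := by
  have h1 : a * τ ≤ Real.exp (a * τ) := by
    have := Real.add_one_le_exp (a * τ)
    linarith
  rw [le_div_iff₀ ha, Real.exp_neg]
  have h2 := Real.exp_pos (a * τ)
  rw [mul_assoc, mul_comm _ a, ← mul_assoc, mul_comm τ a, ← div_eq_mul_inv, div_le_one h2]
  exact h1

end sOb1Aux

open sOb1Aux

theorem sOb1 : S_Ob1 := by
  intro hSlo hBoot hKLD hOrb x ℓ r C₀ f L h C₅ s M P ρ u v hS l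
  have hp := h.pin
  have hℓ := hp.ℓ_pos
  have hx2 := hp.x_gt
  have hx3 := hp.x_lt
  have hslp : ∀ M : E2 ≃L[ℂ] E2, Slp x ℓ (LA L M) (LB L M) := fun M => hSlo x ℓ L hp M
  have hη : 0 < eta x := by unfold eta; linarith
  have hC₁ : 0 < CC x ℓ := Real.exp_pos _
  -- monotonicity of `s`
  have smono : StrictMono s := strictMono_nat_of_lt_succ hS.lt
  have huniq : ∀ j j' m, s j ≤ m → m < s (j' + 1) → j ≤ j' := by
    intro j j' m h1 h2
    have := smono.lt_iff_lt.mp (h1.trans_lt h2)
    omega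
  -- the stage of a time
  have hex : ∀ i, ∃ J, l ≤ J ∧ s J ≤ s l + i ∧ s l + i < s (J + 1) := by
    intro i
    induction i with
    | zero => exact ⟨l, le_rfl, by simp, by simpa using hS.lt l⟩
    | succ i ih =>
      obtain ⟨J, h1, h2, h3⟩ := ih
      by_cases h4 : s l + (i + 1) < s (J + 1)
      · exact ⟨J, h1, by omega, h4⟩
      · refine ⟨J + 1, by omega, by omega, ?_⟩
        have := hS.lt (J + 1)
        omega
  choose J hJl hJs hJe using hex
  have hJeq : ∀ i j, s j ≤ s l + i → s l + i < s (j + 1) → j = J i := fun i j h1 h2 =>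
    le_antisymm (huniq j (J i) _ h1 (hJe i)) (huniq (J i) j _ (hJs i) h2)
  set Ah : ℕ → ℝ := fun i => LA L (M (J i)) (s l + i) with hAh
  -- (a)
  have hAaa : ∀ i, aa L s M (J i) + ℓ * ((s l : ℝ) + i - s (J i)) ≤ Ah i := by
    intro i
    obtain ⟨k, hk⟩ := Nat.exists_eq_add_of_le (hJs i)
    have h1 := (hslp (M (J i))).A_add (s (J i)) k
    rw [← hk] at h1
    have h2 : ((s l : ℝ) + i) = s (J i) + k := by exact_mod_cast hk
    change LA L (M (J i)) (s (J i)) + ℓ * ((s l : ℝ) + i - s (J i)) ≤ LA L (M (J i)) (s l + i)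
    rw [h2]
    linarith
  have hJs' : ∀ i, (s (J i) : ℝ) ≤ (s l : ℝ) + i := fun i => by exact_mod_cast hJs i
  have hAa : ∀ i, aa L s M (J i) ≤ Ah i := by
    intro i
    have h1 := hAaa i
    have h2 := hJs' i
    nlinarith
  have hA1 : ∀ i, 1 ≤ Ah i := fun i => (hS.one_le (J i)).trans (hAa i)
  have haa : ∀ j, l ≤ j → ℓ * ((s j : ℝ) - s l) ≤ aa L s M j := by
    intro j hj
    induction j, hj using Nat.le_induction with
    | base =>
      have := hS.one_le l
      change ℓ * ((s l : ℝ) - s l) ≤ LA L (M l) (s l)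
      rw [sub_self, mul_zero]
      linarith
    | succ j hj ih =>
      have h1 := hS.step j
      change ℓ * ((s (j + 1) : ℝ) - s l) ≤ LA L (M (j + 1)) (s (j + 1))
      change ℓ * ((s j : ℝ) - s l) ≤ LA L (M j) (s j) at ih
      linarith
  have hAi : ∀ i : ℕ, ℓ * (i : ℝ) ≤ Ah i := by
    intro i
    have h1 := hAaa i
    have h2 := haa (J i) (hJl i)
    linarith
  -- (b)
  have hAs : ∀ i, Ah (i + 1) ≤ Ah i + x * ℓ := by
    intro i
    have h1 := (hslp (M (J i))).A_le (s l + i)
    by_cases h4 : s l + (i + 1) < s (J i + 1)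
    · have h5 : J i = J (i + 1) := hJeq (i + 1) (J i) (by have := hJs i; omega) h4
      change LA L (M (J (i + 1))) (s l + (i + 1)) ≤ LA L (M (J i)) (s l + i) + x * ℓ
      rw [← h5]
      exact h1
    · have h6 : J i + 1 = J (i + 1) := hJeq (i + 1) (J i + 1) (by omega)
        (by have := hS.lt (J i + 1); have := hJe i; omega)
      change LA L (M (J (i + 1))) (s l + (i + 1)) ≤ LA L (M (J i)) (s l + i) + x * ℓ
      rw [← h6]
      exact (hS.anti (J i) _).trans h1
  set om : ℕ → ℝ := fun i => Real.exp (-(Ah i)) with hom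
  have hom0 : ∀ i, 0 < om i := fun i => Real.exp_pos _
  have hom1 : ∀ i, om i ≤ 1 := fun i => Real.exp_le_one_iff.mpr (by have := hA1 i; linarith)
  have homs : ∀ i, Real.exp (-(x * ℓ)) * om i ≤ om (i + 1) := by
    intro i
    change Real.exp (-(x * ℓ)) * Real.exp (-(Ah i)) ≤ Real.exp (-(Ah (i + 1)))
    rw [← Real.exp_add, Real.exp_le_exp]
    have := hAs i
    linarith
  -- (c)
  have hnn : ∀ j, 1 ≤ nn s j := by
    intro j
    have h1 : (s j : ℝ) ≤ s (j + 1) := by exact_mod_cast (hS.lt j).le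
    unfold nn
    linarith
  have hC₅ : 0 < C₅ := by
    by_contra hc
    push Not at hc
    have h1 := hS.len 0
    have h2 := hS.one_le 0
    have h3 := hnn 0
    change nn s 0 ≤ C₅ * LA L (M 0) (s 0) at h1
    nlinarith
  have hnA : ∀ i, nn s (J i) ≤ C₅ * Ah i := by
    intro i
    have h1 := hS.len (J i)
    change nn s (J i) ≤ C₅ * aa L s M (J i) at h1
    exact h1.trans (mul_le_mul_of_nonneg_left (hAa i) hC₅.le)
  have hne : ∀ i, nn s (J i) * Real.exp (gam x * Ah i) ≤
      C₅ * (2 / eta x) * Real.exp ((2 - eta x / 2) * Ah i) := by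
    intro i
    have h1 : nn s (J i) * Real.exp (gam x * Ah i) ≤ C₅ * Ah i * Real.exp (gam x * Ah i) :=
      mul_le_mul_of_nonneg_right (hnA i) (Real.exp_pos _).le
    have h2 : Real.exp (gam x * Ah i) =
        Real.exp (-(eta x / 2 * Ah i)) * Real.exp ((2 - eta x / 2) * Ah i) := by
      rw [← Real.exp_add]
      congr 1
      rw [gam_eq]
      ring
    have h3 : Ah i * Real.exp (-(eta x / 2 * Ah i)) ≤ 1 / (eta x / 2) := mul_exp_le (by positivity)
    have h4 : 1 / (eta x / 2) = 2 / eta x := by field_simp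
    rw [h4] at h3
    refine h1.trans ?_
    rw [h2]
    have h5 : C₅ * Ah i * (Real.exp (-(eta x / 2 * Ah i)) * Real.exp ((2 - eta x / 2) * Ah i)) =
        C₅ * (Ah i * Real.exp (-(eta x / 2 * Ah i))) * Real.exp ((2 - eta x / 2) * Ah i) := by ring
    rw [h5]
    exact mul_le_mul_of_nonneg_right (mul_le_mul_of_nonneg_left h3 hC₅.le) (Real.exp_pos _).le
  -- constants
  have hr := h.r_pos
  have hC₀ := h.C_pos
  set K₁ : ℝ := 2 * CC x ℓ * nn s l * Real.exp (gam x * LA L (M l) (s l)) * r with hK₁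
  set K₂ : ℝ := 2 * CC x ℓ * Real.exp (x * ℓ) * C₀ * (C₅ * (2 / eta x)) with hK₂
  have hnl := hnn l
  have hK₁0 : 0 < K₁ := by positivity
  have hK₂0 : 0 < K₂ := by positivity
  set C : ℝ := max (max r C₀) (max K₁ K₂) with hC
  have hCr : r ≤ C := (le_max_left _ _).trans (le_max_left _ _)
  have hCC₀ : C₀ ≤ C := (le_max_right _ _).trans (le_max_left _ _)
  have hCK₁ : K₁ ≤ C := (le_max_left _ _).trans (le_max_right _ _)
  have hCK₂ : K₂ ≤ C := (le_max_right _ _).trans (le_max_right _ _)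
  have hC0 : 0 < C := hr.trans_le hCr
  have hxℓ : 0 < x * ℓ := by positivity
  obtain ⟨C', hC'⟩ := hBoot C (Real.exp (-(ℓ / 2))) (Real.exp (-(x * ℓ))) (eta x * ℓ / 2) om hC0
    (Real.exp_pos _) (Real.exp_lt_one_iff.mpr (by linarith)) (Real.exp_pos _) (Real.exp_lt_one_iff.mpr (by linarith))
    (by positivity) hom0 hom1 homs
  refine ⟨max C' 1, lt_of_lt_of_le one_pos (le_max_right _ _), fun w hw => ?_⟩
  have hwr : ‖w‖ < r := by simpa using hw
  have horb : ∀ k, orbE f (s l) k w ∈ ball (0 : E2) r := fun k => (hOrb x ℓ r C₀ f L h (s l) k).2.1 hw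
  have hy := hC' (fun i => ‖orbE f (s l) i w‖) (fun i => norm_nonneg _) ?_ ?_
  · intro j m hlj hjm hmj
    have h1 : s l ≤ m := (smono.monotone hlj).trans hjm
    obtain ⟨i, rfl⟩ := Nat.exists_eq_add_of_le h1
    have h2 : j = J i := hJeq i j hjm hmj
    rw [Nat.add_sub_cancel_left, h2]
    refine (hy i).trans ?_
    exact mul_le_mul_of_nonneg_right (le_max_left _ _) (Real.exp_pos _).le
  · intro i
    have h1 := (hOrb x ℓ r C₀ f L h (s l) i).2.2.2.2 w hw
    refine h1.trans ?_
    rw [mul_comm]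
    exact mul_le_mul_of_nonneg_right (hwr.le.trans hCr) (by positivity)
  · intro i
    change ‖orbE f (s l) i w‖ ≤ C * om i + C * ∑ j ∈ Finset.range i,
      min 1 (om i * Real.exp (-(eta x * ℓ / 2 * j)) / om j ^ 2) * ‖orbE f (s l) j w‖ ^ 2
    rw [duhamel f L (s l) w i]
    refine (norm_add_le _ _).trans (add_le_add ?_ ?_)
    · have h1 := hKLD hSlo x ℓ L hp C₅ s M P ρ u v hS l (J i) (s l) (s l + i) (hJl i) le_rfl (hS.lt l)
        (hJs i) (hJe i) (by omega) w
      rw [Nat.add_sub_cancel_left] at h1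
      refine h1.trans ?_
      have h2 : Real.exp (-(LA L (M (J i)) (s l + i)) + gam x * LA L (M l) (s l)) =
          om i * Real.exp (gam x * LA L (M l) (s l)) := Real.exp_add _ _
      rw [h2]
      have h3 : 2 * CC x ℓ * nn s l * (om i * Real.exp (gam x * LA L (M l) (s l))) * ‖w‖ ≤
          2 * CC x ℓ * nn s l * (om i * Real.exp (gam x * LA L (M l) (s l))) * r := by
        have := hom0 i
        exact mul_le_mul_of_nonneg_left hwr.le (by positivity)
      refine h3.trans ?_
      have h4 : 2 * CC x ℓ * nn s l * (om i * Real.exp (gam x * LA L (M l) (s l))) * r = K₁ * om i := by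
        rw [hK₁]; ring
      rw [h4]
      exact mul_le_mul_of_nonneg_right hCK₁ (hom0 i).le
    · refine (norm_sum_le _ _).trans ?_
      rw [Finset.mul_sum]
      refine Finset.sum_le_sum fun j hj => ?_
      have hji : j < i := Finset.mem_range.mp hj
      set y := orbE f (s l) j w with hyj
      have hyb : y ∈ ball (0 : E2) r := horb j
      have h0b : (0 : E2) ∈ ball (0 : E2) r := mem_ball_self hr
      have hf0 : f (s l + j) 0 = 0 := by
        have := h.contr (s l + j) 0 h0b
        simpa using this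
      have hN : ‖Nl f L (s l + j) y‖ ≤ C₀ * ‖y‖ ^ 2 := by
        have h1 := h.quad (s l + j) y hyb 0 h0b
        rw [hf0, map_zero, sub_zero, sub_zero, sub_zero, norm_zero, add_zero] at h1
        unfold Nl
        calc ‖f (s l + j) y - L (s l + j) y‖ ≤ C₀ * ‖y‖ * ‖y‖ := h1
          _ = C₀ * ‖y‖ ^ 2 := by ring
      have hb1 : ‖Lp L (s l + j + 1) (i - j - 1) (Nl f L (s l + j) y)‖ ≤ C * ‖y‖ ^ 2 :=
        ((Lp_le hp _ _ _).trans hN).trans (mul_le_mul_of_nonneg_right hCC₀ (by positivity))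
      have hb2 : ‖Lp L (s l + j + 1) (i - j - 1) (Nl f L (s l + j) y)‖ ≤
          C * (om i * Real.exp (-(eta x * ℓ / 2 * j)) / om j ^ 2) * ‖y‖ ^ 2 := by
        set N' := (L (s l + j)).symm (Nl f L (s l + j) y) with hN'
        have e1 : Lp L (s l + j + 1) (i - j - 1) (Nl f L (s l + j) y) =
            Lp L (s l + j) (s l + i - (s l + j)) N' := by
          have e2 : s l + i - (s l + j) = 1 + (i - j - 1) := by omega
          rw [e2, Lp_add]
          congr 1
          rw [show (1 : ℕ) = 0 + 1 from rfl, Lp_succ, Lp_zero, hN', Nat.add_zero,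
            (L (s l + j)).apply_symm_apply]
        rw [e1]
        have hJJ : J j ≤ J i := huniq (J j) (J i) (s l + i) ((hJs j).trans (by omega)) (hJe i)
        have h1 := hKLD hSlo x ℓ L hp C₅ s M P ρ u v hS (J j) (J i) (s l + j) (s l + i) hJJ (hJs j)
          (hJe j) (hJs i) (hJe i) (by omega) N'
        refine h1.trans ?_
        have h2 : ‖N'‖ ≤ Real.exp (x * ℓ) * (C₀ * ‖y‖ ^ 2) :=
          (hp.symm _ _).trans (mul_le_mul_of_nonneg_left hN (Real.exp_pos _).le)
        have h3 : Real.exp (-(LA L (M (J i)) (s l + i)) + gam x * LA L (M (J j)) (s l + j)) =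
            om i * Real.exp (gam x * Ah j) := Real.exp_add _ _
        rw [h3]
        have hnj := hnn (J j)
        have hoi := hom0 i
        have hoj := hom0 j
        calc 2 * CC x ℓ * nn s (J j) * (om i * Real.exp (gam x * Ah j)) * ‖N'‖
            ≤ 2 * CC x ℓ * nn s (J j) * (om i * Real.exp (gam x * Ah j)) *
              (Real.exp (x * ℓ) * (C₀ * ‖y‖ ^ 2)) := mul_le_mul_of_nonneg_left h2 (by positivity)
          _ = 2 * CC x ℓ * Real.exp (x * ℓ) * C₀ * ‖y‖ ^ 2 * om i *
              (nn s (J j) * Real.exp (gam x * Ah j)) := by ring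
          _ ≤ 2 * CC x ℓ * Real.exp (x * ℓ) * C₀ * ‖y‖ ^ 2 * om i *
              (C₅ * (2 / eta x) * Real.exp ((2 - eta x / 2) * Ah j)) :=
              mul_le_mul_of_nonneg_left (hne j) (by positivity)
          _ = K₂ * ‖y‖ ^ 2 * om i * Real.exp ((2 - eta x / 2) * Ah j) := by rw [hK₂]; ring
          _ = K₂ * ‖y‖ ^ 2 * om i * (Real.exp (-(eta x / 2 * Ah j)) * Real.exp (2 * Ah j)) := by
              rw [← Real.exp_add]
              congr 2
              ring
          _ ≤ K₂ * ‖y‖ ^ 2 * om i * (Real.exp (-(eta x * ℓ / 2 * j)) * Real.exp (2 * Ah j)) := by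
              refine mul_le_mul_of_nonneg_left (mul_le_mul_of_nonneg_right ?_ (Real.exp_pos _).le)
                (by positivity)
              rw [Real.exp_le_exp]
              have := hAi j
              nlinarith
          _ = K₂ * ‖y‖ ^ 2 * om i * (Real.exp (-(eta x * ℓ / 2 * j)) / om j ^ 2) := by
              congr 2
              change Real.exp (2 * Ah j) = (Real.exp (-(Ah j)) ^ 2)⁻¹
              rw [← Real.exp_nat_mul, ← Real.exp_neg]
              congr 1
              push_cast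
              ring
          _ ≤ C * ‖y‖ ^ 2 * om i * (Real.exp (-(eta x * ℓ / 2 * j)) / om j ^ 2) := by
              have : 0 ≤ ‖y‖ ^ 2 * om i * (Real.exp (-(eta x * ℓ / 2 * j)) / om j ^ 2) := by
                positivity
              have h5 := mul_le_mul_of_nonneg_right hCK₂ this
              calc K₂ * ‖y‖ ^ 2 * om i * (Real.exp (-(eta x * ℓ / 2 * j)) / om j ^ 2)
                  = K₂ * (‖y‖ ^ 2 * om i * (Real.exp (-(eta x * ℓ / 2 * j)) / om j ^ 2)) := by ring
                _ ≤ C * (‖y‖ ^ 2 * om i * (Real.exp (-(eta x * ℓ / 2 * j)) / om j ^ 2)) := h5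
                _ = C * ‖y‖ ^ 2 * om i * (Real.exp (-(eta x * ℓ / 2 * j)) / om j ^ 2) := by ring
          _ = C * (om i * Real.exp (-(eta x * ℓ / 2 * j)) / om j ^ 2) * ‖y‖ ^ 2 := by ring
      rcases le_total (1 : ℝ) (om i * Real.exp (-(eta x * ℓ / 2 * j)) / om j ^ 2) with h1 | h1
      · rw [min_eq_left h1, one_mul]
        exact hb1
      · rw [min_eq_right h1, ← mul_assoc]
        exact hb2

end Pool.Agent.Lib.BedD
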