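import Pool.Agent.Lib.BedD.SpecA

/-!
# MP_6f050a_an, theorem D, part A: the orbits of the stage maps are bounded
-/

set_option autoImplicit false

open scoped Topology
open Set Filter Metric

namespace Pool.Agent.Lib.BedD

namespace sOb2Aux

theorem N_le {x ℓ r C₀ : ℝ} {f : ℕ → E2 → E2} {L : ℕ → E2 ≃L[ℂ] E2} (h : SeqE x ℓ r C₀ f L)
    (m : ℕ) {w : E2} (hw : w ∈ ball (0 : E2) r) : ‖f m w - L m w‖ ≤ C₀ * ‖w‖ ^ 2 := by
  have h0 : (0 : E2) ∈ ball (0 : E2) r := mem_ball_self h.r_pos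
  have h1 : f m 0 = 0 := by
    have := h.contr m 0 h0
    rw [norm_zero, mul_zero] at this
    exact norm_le_zero_iff.mp this
  have h2 := h.quad m w hw 0 h0
  rw [h1, map_zero, sub_zero, sub_zero, sub_zero, norm_zero, add_zero] at h2
  calc _ ≤ _ := h2
    _ = _ := by ring

theorem norm_exp (t : ℝ) : ‖((Real.exp t : ℝ) : ℂ)‖ = Real.exp t := by
  rw [Complex.norm_real, Real.norm_eq_abs, abs_of_pos (Real.exp_pos t)]

theorem Rm_le' {u v : E2} (h : Fr u v) (ρ : ℝ) (z : E2) :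
    ‖Rm u v ((Real.exp (-ρ) : ℝ) : ℂ) z‖ ≤
      ‖(inner ℂ u z : ℂ)‖ + Real.exp (-ρ) * ‖(inner ℂ v z : ℂ)‖ := by
  rw [Rm_apply]
  refine (norm_add_le _ _).trans ?_
  rw [norm_smul, norm_smul, h.nu, h.nv, mul_one, mul_one, norm_mul, norm_exp]

theorem Rm_le {u v : E2} (h : Fr u v) {ρ : ℝ} (hρ : 0 ≤ ρ) (z : E2) :
    ‖Rm u v ((Real.exp (-ρ) : ℝ) : ℂ) z‖ ≤ ‖z‖ := by
  have h1 := h.norm_sq (Rm u v ((Real.exp (-ρ) : ℝ) : ℂ) z)
  rw [Rm_apply, h.inner_u, h.inner_v, norm_mul, norm_exp] at h1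
  rw [Rm_apply]
  have h2 := h.norm_sq z
  have h3 : Real.exp (-ρ) ≤ 1 := by
    rw [Real.exp_le_one_iff]
    linarith
  have h4 : 0 < Real.exp (-ρ) := Real.exp_pos _
  have h5 : (Real.exp (-ρ) * ‖(inner ℂ v z : ℂ)‖) ^ 2 ≤ ‖(inner ℂ v z : ℂ)‖ ^ 2 := by
    apply pow_le_pow_left₀ (by positivity)
    exact mul_le_of_le_one_left (norm_nonneg _) h3
  refine abs_le_of_sq_le_sq' ?_ (norm_nonneg _) |>.2
  rw [h1, h2]
  linarith

theorem Rm_inv {u v : E2} (h : Fr u v) (ρ : ℝ) (z : E2) :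
    Rm u v ((Real.exp (-ρ) : ℝ) : ℂ) (Rm u v ((Real.exp ρ : ℝ) : ℂ) z) = z := by
  rw [Rm_apply u v _ z, Rm_apply, h.inner_u, h.inner_v, ← mul_assoc, ← Complex.ofReal_mul,
    ← Real.exp_add, neg_add_cancel, Real.exp_zero, Complex.ofReal_one, one_mul]
  exact (h.expand z).symm

theorem one_le_CC {x ℓ : ℝ} {L : ℕ → E2 ≃L[ℂ] E2} (h : Pin x ℓ L) : 1 ≤ CC x ℓ := by
  unfold CC
  have h1 := h.ℓ_pos
  have h2 := h.x_gt
  exact Real.one_le_exp (by nlinarith)

/-- one step in a stage -/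
theorem one_step {x ℓ r C₀ : ℝ} {f : ℕ → E2 → E2} {L : ℕ → E2 ≃L[ℂ] E2} (hS : SeqE x ℓ r C₀ f L)
    {C₅ : ℝ} {s : ℕ → ℕ} {M : ℕ → E2 ≃L[ℂ] E2} {P ρ : ℕ → ℝ} {u v : ℕ → E2}
    (hG : StgS x ℓ C₅ L s M P ρ u v) (j m : ℕ) (h1 : s j ≤ m) (h2 : m < s (j + 1))
    (w : E2) (hw : w ∈ ball (0 : E2) r) (C' : ℝ) (hC' : 0 < C')
    (hw' : ‖w‖ ≤ C' * Real.exp (-(LA L (M j) m))) :
    ‖Rm (u j) (v j) ((Real.exp (-(ρ j)) : ℝ) : ℂ) ((La L (M j) (m + 1)).symm (f m w))‖ ≤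
      ‖Rm (u j) (v j) ((Real.exp (-(ρ j)) : ℝ) : ℂ) ((La L (M j) m).symm w)‖ +
      2 * CC x ℓ * nn s j * bb x ℓ C₀ * C' ^ 2 * Real.exp (-(eta x * LA L (M j) m)) := by
  obtain ⟨N, hN⟩ : ∃ N, N = f m w - L m w := ⟨_, rfl⟩
  obtain ⟨q, hq⟩ : ∃ q, q = (L m).symm N := ⟨_, rfl⟩
  obtain ⟨I, hI⟩ : ∃ I, I = (La L (M j) m).symm q := ⟨_, rfl⟩
  obtain ⟨A, hA⟩ : ∃ A, A = LA L (M j) m := ⟨_, rfl⟩
  obtain ⟨B, hB⟩ : ∃ B, B = LB L (M j) m := ⟨_, rfl⟩
  have hZ : (La L (M j) (m + 1)).symm (f m w) = (La L (M j) m).symm w + I := by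
    rw [La_succ_symm, hI, hq, ← map_add]
    congr 1
    have h3 : w = (L m).symm (L m w) := ((L m).symm_apply_apply w).symm
    conv_rhs => rw [h3]
    rw [← map_add]
    congr 1
    rw [hN]
    abel
  rw [hZ, map_add]
  refine (norm_add_le _ _).trans (add_le_add le_rfl ?_)
  refine (Rm_le' (hG.fr j) (ρ j) I).trans ?_
  have hb : 0 < bb x ℓ C₀ := mul_pos hS.C_pos (Real.exp_pos _)
  have hn : 1 ≤ nn s j := by
    unfold nn
    have := hG.lt j
    have h3 : (s j : ℝ) < s (j + 1) := by exact_mod_cast this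
    linarith
  have hCC := one_le_CC hS.pin
  -- the bound for `q`
  have hq1 : ‖q‖ ≤ bb x ℓ C₀ * C' ^ 2 * Real.exp (-(2 * A)) := by
    have e1 : ‖q‖ ≤ Real.exp (x * ℓ) * ‖N‖ := by
      rw [hq]
      exact hS.pin.symm m N
    have e2 : ‖N‖ ≤ C₀ * ‖w‖ ^ 2 := by
      rw [hN]
      exact N_le hS m hw
    have e3 : ‖w‖ ^ 2 ≤ (C' * Real.exp (-A)) ^ 2 := by
      rw [hA]
      exact pow_le_pow_left₀ (norm_nonneg _) hw' 2
    have e4 : (C' * Real.exp (-A)) ^ 2 = C' ^ 2 * Real.exp (-(2 * A)) := by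
      rw [mul_pow, ← Real.exp_nat_mul]
      congr 2
      push_cast
      ring
    rw [e4] at e3
    have e5 : ‖N‖ ≤ C₀ * (C' ^ 2 * Real.exp (-(2 * A))) :=
      e2.trans (mul_le_mul_of_nonneg_left e3 hS.C_pos.le)
    refine e1.trans ((mul_le_mul_of_nonneg_left e5 (Real.exp_pos _).le).trans (le_of_eq ?_))
    unfold bb
    ring
  -- the bound of the exponent
  have hg : B - GG x (LA L (M j)) (LB L (M j)) m = gam x * A := by
    rw [hA, hB]
    unfold GG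
    ring
  have hexp : Real.exp (gam x * A) * Real.exp (-(2 * A)) = Real.exp (-(eta x * A)) := by
    rw [← Real.exp_add]
    congr 1
    rw [gam_eq]
    ring
  have hu : ‖(inner ℂ (u j) I : ℂ)‖ ≤
      CC x ℓ * nn s j * bb x ℓ C₀ * C' ^ 2 * Real.exp (-(eta x * A)) := by
    have e1 := hG.du j m m h1 le_rfl h2 q
    rw [← hI, ← hB] at e1
    have e2 : Real.exp (B - pp (GG x (LA L (M j)) (LB L (M j)) m) -
        pp (P j + GG x (LA L (M j)) (LB L (M j)) m)) ≤ Real.exp (gam x * A) := by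
      rw [Real.exp_le_exp, ← hg]
      have := le_pp (GG x (LA L (M j)) (LB L (M j)) m)
      have := pp_nonneg (P j + GG x (LA L (M j)) (LB L (M j)) m)
      linarith
    have e3 : 0 ≤ CC x ℓ * nn s j := by positivity
    refine e1.trans ?_
    change CC x ℓ * nn s j * _ * _ ≤ _
    calc CC x ℓ * nn s j * Real.exp (B - pp (GG x (LA L (M j)) (LB L (M j)) m) -
          pp (P j + GG x (LA L (M j)) (LB L (M j)) m)) * ‖q‖
        ≤ CC x ℓ * nn s j * Real.exp (gam x * A) * (bb x ℓ C₀ * C' ^ 2 * Real.exp (-(2 * A))) :=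
          mul_le_mul (mul_le_mul_of_nonneg_left e2 e3) hq1 (norm_nonneg _) (by positivity)
      _ = CC x ℓ * nn s j * bb x ℓ C₀ * C' ^ 2 * (Real.exp (gam x * A) * Real.exp (-(2 * A))) := by
          ring
      _ = _ := by rw [hexp]
  have hv : Real.exp (-(ρ j)) * ‖(inner ℂ (v j) I : ℂ)‖ ≤
      CC x ℓ * nn s j * bb x ℓ C₀ * C' ^ 2 * Real.exp (-(eta x * A)) := by
    have e1 : ‖(inner ℂ (v j) I : ℂ)‖ ≤ Real.exp B * ‖q‖ := by
      refine ((hG.fr j).le_v I).trans ?_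
      rw [hI, hB]
      exact symm_le (La L (M j) m) q
    have e2 : Real.exp (-(ρ j)) * Real.exp B ≤ Real.exp (gam x * A) := by
      rw [← Real.exp_add, Real.exp_le_exp, ← hg]
      have := hG.g_le j m h1 h2
      linarith
    calc Real.exp (-(ρ j)) * ‖(inner ℂ (v j) I : ℂ)‖
        ≤ Real.exp (-(ρ j)) * (Real.exp B * ‖q‖) :=
          mul_le_mul_of_nonneg_left e1 (Real.exp_pos _).le
      _ = Real.exp (-(ρ j)) * Real.exp B * ‖q‖ := by ring
      _ ≤ Real.exp (gam x * A) * (bb x ℓ C₀ * C' ^ 2 * Real.exp (-(2 * A))) :=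
          mul_le_mul e2 hq1 (norm_nonneg _) (Real.exp_pos _).le
      _ = bb x ℓ C₀ * C' ^ 2 * (Real.exp (gam x * A) * Real.exp (-(2 * A))) := by ring
      _ = 1 * (bb x ℓ C₀ * C' ^ 2 * Real.exp (-(eta x * A))) := by rw [hexp, one_mul]
      _ ≤ CC x ℓ * nn s j * (bb x ℓ C₀ * C' ^ 2 * Real.exp (-(eta x * A))) := by
          apply mul_le_mul_of_nonneg_right _ (by positivity)
          nlinarith
      _ = _ := by ring
  rw [← hA]
  calc _ ≤ _ := add_le_add hu hv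
    _ = _ := by ring

/-- one stage -/
theorem stage (hslo : S_Slo) {x ℓ r C₀ : ℝ} {f : ℕ → E2 → E2} {L : ℕ → E2 ≃L[ℂ] E2}
    (hS : SeqE x ℓ r C₀ f L)
    {C₅ : ℝ} {s : ℕ → ℕ} {M : ℕ → E2 ≃L[ℂ] E2} {P ρ : ℕ → ℝ} {u v : ℕ → E2}
    (hG : StgS x ℓ C₅ L s M P ρ u v) (j : ℕ) (W : ℕ → E2) (C' : ℝ) (hC' : 0 < C')
    (hW1 : ∀ m, s j ≤ m → m < s (j + 1) → W (m + 1) = f m (W m))
    (hW2 : ∀ m, s j ≤ m → m < s (j + 1) → W m ∈ ball (0 : E2) r)
    (hW3 : ∀ m, s j ≤ m → m < s (j + 1) → ‖W m‖ ≤ C' * Real.exp (-(LA L (M j) m))) :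
    ‖(La L (M (j + 1)) (s (j + 1))).symm (W (s (j + 1)))‖ ≤
      ‖(La L (M j) (s j)).symm (W (s j))‖ +
      2 * CC x ℓ * nn s j ^ 2 * bb x ℓ C₀ * C' ^ 2 * Real.exp (-(eta x * aa L s M j)) := by
  have hsl := hslo x ℓ L hS.pin (M j)
  have hη : 0 < eta x := by
    unfold eta
    have := hS.pin.x_lt
    linarith
  have hb : 0 < bb x ℓ C₀ := mul_pos hS.C_pos (Real.exp_pos _)
  have hn : 1 ≤ nn s j := by
    unfold nn
    have := hG.lt j
    have h3 : (s j : ℝ) < s (j + 1) := by exact_mod_cast this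
    linarith
  have hCC := one_le_CC hS.pin
  obtain ⟨δ, hδ⟩ : ∃ δ, δ = 2 * CC x ℓ * nn s j * bb x ℓ C₀ * C' ^ 2 *
    Real.exp (-(eta x * aa L s M j)) := ⟨_, rfl⟩
  have hδ0 : 0 ≤ δ := by
    rw [hδ]
    positivity
  have key : ∀ k : ℕ, s j + k ≤ s (j + 1) →
      ‖Rm (u j) (v j) ((Real.exp (-(ρ j)) : ℝ) : ℂ) ((La L (M j) (s j + k)).symm (W (s j + k)))‖ ≤
      ‖Rm (u j) (v j) ((Real.exp (-(ρ j)) : ℝ) : ℂ) ((La L (M j) (s j)).symm (W (s j)))‖ +
        k * δ := by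
    intro k
    induction k with
    | zero =>
      intro _
      simp
    | succ k ih =>
      intro hk
      have h1 := ih (by omega)
      have h2 : s j ≤ s j + k := by omega
      have h3 : s j + k < s (j + 1) := by omega
      have h4 := one_step hS hG j (s j + k) h2 h3 (W (s j + k)) (hW2 _ h2 h3) C' hC' (hW3 _ h2 h3)
      rw [← hW1 _ h2 h3] at h4
      have h5 : 2 * CC x ℓ * nn s j * bb x ℓ C₀ * C' ^ 2 *
          Real.exp (-(eta x * LA L (M j) (s j + k))) ≤ δ := by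
        rw [hδ]
        apply mul_le_mul_of_nonneg_left _ (by positivity)
        rw [Real.exp_le_exp]
        have h6 := hsl.A_add (s j) k
        have h7 : (0 : ℝ) ≤ ℓ * k := by
          have := hS.pin.ℓ_pos
          positivity
        have h8 : aa L s M j ≤ LA L (M j) (s j + k) := by
          unfold aa
          linarith
        have := mul_le_mul_of_nonneg_left h8 hη.le
        linarith
      rw [← Nat.add_assoc, Nat.cast_succ]
      linarith
  obtain ⟨ζ', hζ'⟩ : ∃ ζ', ζ' = (La L (M (j + 1)) (s (j + 1))).symm (W (s (j + 1))) := ⟨_, rfl⟩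
  have hW : La L (M (j + 1)) (s (j + 1)) ζ' = W (s (j + 1)) := by
    rw [hζ']
    exact (La L (M (j + 1)) (s (j + 1))).apply_symm_apply _
  have h1 := La_congr L (M j) (M (j + 1)) (Rm (u j) (v j) (Real.exp (ρ j) : ℂ) ζ') ζ'
    (hG.M_succ j ζ') (s (j + 1))
  rw [hW] at h1
  have h2 : Rm (u j) (v j) ((Real.exp (-(ρ j)) : ℝ) : ℂ)
      ((La L (M j) (s (j + 1))).symm (W (s (j + 1)))) = ζ' := by
    rw [h1, ContinuousLinearEquiv.symm_apply_apply]
    exact Rm_inv (hG.fr j) (ρ j) ζ'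
  have hlt := hG.lt j
  have h3 := key (s (j + 1) - s j) (by omega)
  have h4 : s j + (s (j + 1) - s j) = s (j + 1) := by omega
  rw [h4, h2] at h3
  rw [← hζ']
  have h5 := Rm_le (hG.fr j) (hG.ρ_nonneg j) ((La L (M j) (s j)).symm (W (s j)))
  have h6 : ((s (j + 1) - s j : ℕ) : ℝ) ≤ nn s j := by
    rw [Nat.cast_sub hlt.le]
    unfold nn
    linarith
  have h7 := mul_le_mul_of_nonneg_right h6 hδ0
  have h8 : nn s j * δ = 2 * CC x ℓ * nn s j ^ 2 * bb x ℓ C₀ * C' ^ 2 *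
      Real.exp (-(eta x * aa L s M j)) := by
    rw [hδ]
    ring
  linarith

/-- a quadratic polynomial and an exponential function -/
theorem sq_le {η τ : ℝ} (hη : 0 < η) (hτ : 0 ≤ τ) :
    τ ^ 2 * Real.exp (-(η * τ)) ≤ 16 / η ^ 2 * Real.exp (-(η / 2 * τ)) := by
  have h1 : η / 4 * τ ≤ Real.exp (η / 4 * τ) := by
    have := Real.add_one_le_exp (η / 4 * τ)
    linarith
  have h2 : (η / 4 * τ) ^ 2 ≤ Real.exp (η / 4 * τ) ^ 2 := pow_le_pow_left₀ (by positivity) h1 2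
  rw [← Real.exp_nat_mul] at h2
  have h3 : τ ^ 2 ≤ 16 / η ^ 2 * Real.exp (η / 2 * τ) := by
    have e1 : ((2 : ℕ) : ℝ) * (η / 4 * τ) = η / 2 * τ := by
      push_cast
      ring
    rw [e1] at h2
    rw [div_mul_eq_mul_div, le_div_iff₀ (by positivity)]
    nlinarith
  calc τ ^ 2 * Real.exp (-(η * τ)) ≤ 16 / η ^ 2 * Real.exp (η / 2 * τ) * Real.exp (-(η * τ)) :=
        mul_le_mul_of_nonneg_right h3 (Real.exp_pos _).le
    _ = 16 / η ^ 2 * Real.exp (-(η / 2 * τ)) := by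
        rw [mul_assoc, ← Real.exp_add]
        congr 2
        ring

end sOb2Aux

open sOb2Aux

theorem sOb2 : S_Ob2 := by
  intro hslo horb hob x ℓ r C₀ f L hS C₅ s M P ρ u v hG l z hz
  obtain ⟨C', hC', hC1⟩ := hob x ℓ r C₀ f L hS C₅ s M P ρ u v hG l
  have hη : 0 < eta x := by
    unfold eta
    have := hS.pin.x_lt
    linarith
  have hℓ := hS.pin.ℓ_pos
  have hb : 0 < bb x ℓ C₀ := mul_pos hS.C_pos (Real.exp_pos _)
  have hCC := one_le_CC hS.pin
  have hmono : StrictMono s := strictMono_nat_of_lt_succ hG.lt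
  obtain ⟨w, hw⟩ : ∃ w, w = La L (M l) (s l) z := ⟨_, rfl⟩
  have hwb : w ∈ ball (0 : E2) r := by
    rw [hw, mem_ball_zero_iff]
    exact hz
  obtain ⟨W, hW⟩ : ∃ W : ℕ → E2, W = fun m => orbE f (s l) (m - s l) w := ⟨_, rfl⟩
  have hWs : ∀ m, s l ≤ m → W (m + 1) = f m (W m) := by
    intro m hm
    rw [hW]
    change orbE f (s l) (m + 1 - s l) w = f m (orbE f (s l) (m - s l) w)
    have e1 : m + 1 - s l = (m - s l) + 1 := by omega
    have e2 : s l + (m - s l) = m := by omega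
    rw [e1, orbE_succ, e2]
  have hWb : ∀ m, W m ∈ ball (0 : E2) r := by
    intro m
    rw [hW]
    exact (horb x ℓ r C₀ f L hS (s l) (m - s l)).2.1 hwb
  have hζ : ∀ i : ℕ, orbE (Th L f s M) l i z = (La L (M (l + i)) (s (l + i))).symm (W (s (l + i))) := by
    intro i
    induction i with
    | zero =>
      rw [orbE_zero, Nat.add_zero, hW]
      change z = (La L (M l) (s l)).symm (orbE f (s l) (s l - s l) w)
      rw [Nat.sub_self, orbE_zero, hw, ContinuousLinearEquiv.symm_apply_apply]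
    | succ i ih =>
      rw [orbE_succ, ih]
      unfold Th
      rw [ContinuousLinearEquiv.apply_symm_apply, Nat.add_assoc]
      congr 1
      rw [hW]
      change orbE f (s (l + i)) (s (l + (i + 1)) - s (l + i)) (orbE f (s l) (s (l + i) - s l) w) =
        orbE f (s l) (s (l + (i + 1)) - s l) w
      have e1 : s l ≤ s (l + i) := hmono.monotone (by omega)
      have e2 : s (l + i) ≤ s (l + (i + 1)) := hmono.monotone (by omega)
      have e3 : s (l + (i + 1)) - s l = (s (l + i) - s l) + (s (l + (i + 1)) - s (l + i)) := by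
        omega
      have e4 : s l + (s (l + i) - s l) = s (l + i) := by omega
      rw [e3, orbE_add, e4]
  -- growth of `a`
  have ha : ∀ i : ℕ, ℓ * i ≤ aa L s M (l + i) := by
    intro i
    induction i with
    | zero =>
      have := hG.one_le (l + 0)
      unfold aa
      push_cast
      linarith
    | succ i ih =>
      have h1 := hG.step (l + i)
      have h2 := hG.lt (l + i)
      have h3 : (s (l + i) : ℝ) + 1 ≤ s (l + i + 1) := by exact_mod_cast h2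
      have h4 : ℓ * 1 ≤ ℓ * ((s (l + i + 1) : ℝ) - s (l + i)) :=
        mul_le_mul_of_nonneg_left (by linarith) hℓ.le
      unfold aa at ih ⊢
      rw [← Nat.add_assoc]
      push_cast
      linarith
  -- the increments
  obtain ⟨K, hK⟩ : ∃ K, K = 2 * CC x ℓ * bb x ℓ C₀ * C' ^ 2 * C₅ ^ 2 * (16 / eta x ^ 2) := ⟨_, rfl⟩
  have hK0 : 0 ≤ K := by
    rw [hK]
    positivity
  obtain ⟨q, hq⟩ : ∃ q, q = Real.exp (-(eta x / 2 * ℓ)) := ⟨_, rfl⟩
  have hq0 : 0 < q := by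
    rw [hq]
    exact Real.exp_pos _
  have hq1 : q < 1 := by
    rw [hq, Real.exp_lt_one_iff]
    have : 0 < eta x / 2 * ℓ := by positivity
    linarith
  have hstep : ∀ i : ℕ, ‖orbE (Th L f s M) l (i + 1) z‖ ≤
      ‖orbE (Th L f s M) l i z‖ + K * q ^ i := by
    intro i
    have e0 : s l ≤ s (l + i) := hmono.monotone (by omega)
    have h1 := stage hslo hS hG (l + i) W C' hC' (fun m hm _ => hWs m (e0.trans hm))
      (fun m _ _ => hWb m) (fun m h1 h2 => by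
        rw [hW]
        exact hC1 w hwb (l + i) m (by omega) h1 h2)
    rw [hζ (i + 1), hζ i]
    refine h1.trans (add_le_add le_rfl ?_)
    obtain ⟨a, haa⟩ : ∃ a, a = aa L s M (l + i) := ⟨_, rfl⟩
    have ha1 : 1 ≤ a := by
      rw [haa]
      exact hG.one_le (l + i)
    have hn1 : 0 ≤ nn s (l + i) := by
      unfold nn
      have := hG.lt (l + i)
      have h3 : (s (l + i) : ℝ) < s (l + i + 1) := by exact_mod_cast this
      linarith
    have hn2 : nn s (l + i) ≤ C₅ * a := by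
      rw [haa]
      exact hG.len (l + i)
    have hn3 : nn s (l + i) ^ 2 ≤ (C₅ * a) ^ 2 := pow_le_pow_left₀ hn1 hn2 2
    have h4 := sq_le hη (le_trans zero_le_one ha1)
    have h5 : Real.exp (-(eta x / 2 * a)) ≤ q ^ i := by
      rw [hq, ← Real.exp_nat_mul, Real.exp_le_exp]
      have h6 := ha i
      rw [← haa] at h6
      have h7 := mul_le_mul_of_nonneg_left h6 (by positivity : 0 ≤ eta x / 2)
      have h8 : (i : ℝ) * -(eta x / 2 * ℓ) = -(eta x / 2 * (ℓ * i)) := by ring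
      rw [h8]
      linarith
    rw [← haa]
    calc 2 * CC x ℓ * nn s (l + i) ^ 2 * bb x ℓ C₀ * C' ^ 2 * Real.exp (-(eta x * a))
        = 2 * CC x ℓ * bb x ℓ C₀ * C' ^ 2 * Real.exp (-(eta x * a)) * nn s (l + i) ^ 2 := by ring
      _ ≤ 2 * CC x ℓ * bb x ℓ C₀ * C' ^ 2 * Real.exp (-(eta x * a)) * (C₅ * a) ^ 2 :=
          mul_le_mul_of_nonneg_left hn3 (by positivity)
      _ = 2 * CC x ℓ * bb x ℓ C₀ * C' ^ 2 * C₅ ^ 2 * (a ^ 2 * Real.exp (-(eta x * a))) := by ring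
      _ ≤ 2 * CC x ℓ * bb x ℓ C₀ * C' ^ 2 * C₅ ^ 2 *
            (16 / eta x ^ 2 * Real.exp (-(eta x / 2 * a))) :=
          mul_le_mul_of_nonneg_left h4 (by positivity)
      _ = K * Real.exp (-(eta x / 2 * a)) := by
          rw [hK]
          ring
      _ ≤ K * q ^ i := mul_le_mul_of_nonneg_left h5 hK0
  -- the sum
  refine ⟨‖z‖ + K * (1 - q)⁻¹, fun i => ?_⟩
  have hsum : ∀ i : ℕ, ‖orbE (Th L f s M) l i z‖ ≤ ‖z‖ + K * ∑ k ∈ Finset.range i, q ^ k := by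
    intro i
    induction i with
    | zero => simp [orbE_zero]
    | succ i ih =>
      rw [Finset.sum_range_succ, mul_add]
      have := hstep i
      linarith
  refine (hsum i).trans (add_le_add le_rfl (mul_le_mul_of_nonneg_left ?_ hK0))
  rw [← tsum_geometric_of_lt_one hq0.le hq1]
  exact (summable_geometric_of_lt_one hq0.le hq1).sum_le_tsum _ fun k _ => by positivity

end Pool.Agent.Lib.BedD
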