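import Pool.Agent.Lib.BedD.SpecA

/-!
# MP_6f050a_an, theorem D: orbits, basic facts
-/

set_option autoImplicit false

open scoped Topology
open Set Filter Metric

namespace Pool.Agent.Lib.BedD

theorem sOrb : S_Orb := by
  intro x ℓ r C₀ f L h m k
  have hℓ := h.pin.ℓ_pos
  have he : Real.exp (-(ℓ / 2)) ≤ 1 := Real.exp_le_one_iff.2 (by linarith)
  have he0 : 0 < Real.exp (-(ℓ / 2)) := Real.exp_pos _
  induction k with
  | zero =>
    refine ⟨differentiableOn_id, fun z hz => hz, fun z _ w _ h => h, ?_, fun z _ => ?_⟩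
    · intro z hz w hw
      have e : fderiv ℂ (orbE f m 0) z = ContinuousLinearMap.id ℂ E2 := fderiv_id
      rw [e] at hw
      exact hw
    · rw [orbE_zero, pow_zero, one_mul]
  | succ k ih =>
    obtain ⟨h1, h2, h3, h4, h5⟩ := ih
    have hmap : MapsTo (f (m + k)) (ball 0 r) (ball 0 r) := by
      intro z hz
      have := h.contr (m + k) z hz
      rw [mem_ball_zero_iff] at hz ⊢
      exact lt_of_le_of_lt (this.trans (mul_le_of_le_one_left (norm_nonneg _) he)) hz
    refine ⟨(h.diff (m + k)).comp h1 h2, fun z hz => hmap (h2 hz), (h.inj (m + k)).comp h3 h2,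
      ?_, ?_⟩
    · intro z hz w hw
      have e1 : DifferentiableAt ℂ (orbE f m k) z :=
        h1.differentiableAt (isOpen_ball.mem_nhds hz)
      have e2 : DifferentiableAt ℂ (f (m + k)) (orbE f m k z) :=
        (h.diff _).differentiableAt (isOpen_ball.mem_nhds (h2 hz))
      have e3 : fderiv ℂ (orbE f m (k + 1)) z =
          (fderiv ℂ (f (m + k)) (orbE f m k z)).comp (fderiv ℂ (orbE f m k) z) :=
        fderiv_comp z e2 e1
      rw [e3] at hw
      exact h4 z hz w (h.dinj _ _ (h2 hz) _ hw)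
    · intro z hz
      have e1 := h.contr (m + k) _ (h2 hz)
      have e2 := h5 z hz
      rw [orbE_succ, pow_succ']
      calc ‖f (m + k) (orbE f m k z)‖ ≤ Real.exp (-(ℓ / 2)) * ‖orbE f m k z‖ := e1
        _ ≤ Real.exp (-(ℓ / 2)) * (Real.exp (-(ℓ / 2)) ^ k * ‖z‖) :=
            mul_le_mul_of_nonneg_left e2 he0.le
        _ = Real.exp (-(ℓ / 2)) * Real.exp (-(ℓ / 2)) ^ k * ‖z‖ := by ring

end Pool.Agent.Lib.BedD
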