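import Pool.Agent.Lib.BedD.SVD

/-! # MP_6f050a_an, theorem D: the change of the linear coordinates -/

set_option autoImplicit false

open scoped Topology
open Set Filter Metric

namespace Pool.Agent.Lib.BedD

namespace sPshAux

theorem Rm_Rm {u v : E2} (h : Fr u v) {a b : ℂ} (hab : a * b = 1) (z : E2) :
    Rm u v a (Rm u v b z) = z := by
  rw [Rm_apply u v a, Rm_apply u v b, h.inner_u, h.inner_v, ← mul_assoc, hab, one_mul]
  exact (h.expand z).symm

/-- the linear map as an equivalence -/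
noncomputable def Re {u v : E2} (h : Fr u v) (ρ : ℝ) : E2 ≃L[ℂ] E2 :=
  ContinuousLinearEquiv.equivOfInverse (Rm u v (Real.exp ρ : ℂ)) (Rm u v (Real.exp (-ρ) : ℂ))
    (Rm_Rm h (by
      rw [← Complex.ofReal_mul, ← Real.exp_add]
      simp))
    (Rm_Rm h (by
      rw [← Complex.ofReal_mul, ← Real.exp_add]
      simp))

theorem Re_apply {u v : E2} (h : Fr u v) (ρ : ℝ) (z : E2) : Re h ρ z = Rm u v (Real.exp ρ : ℂ) z := rfl

theorem norm_Re {u v : E2} (h : Fr u v) {ρ : ℝ} (hρ : 0 ≤ ρ) (z : E2) : ‖z‖ ≤ ‖Re h ρ z‖ := by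
  have h1 : ‖z‖ ^ 2 ≤ ‖Re h ρ z‖ ^ 2 := by
    rw [h.norm_sq z, h.norm_sq (Re h ρ z), Re_apply, Rm_apply, h.inner_u, h.inner_v, norm_mul,
      Complex.norm_real, Real.norm_of_nonneg (Real.exp_pos _).le, mul_pow]
    have h2 : (1 : ℝ) ≤ Real.exp ρ ^ 2 := one_le_pow₀ (Real.one_le_exp hρ)
    have h3 := mul_le_mul_of_nonneg_right h2 (sq_nonneg ‖(inner ℂ v z : ℂ)‖)
    linarith
  exact (abs_le_of_sq_le_sq' h1 (norm_nonneg _)).2

end sPshAux

open sPshAux in
theorem sPsh : S_Psh := by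
  intro hSVD hDet hSlo hDrc x ℓ L hPin M t e u v ρ n hS hρ0 hρD hte hn
  have hf := hS.fr
  have hLa : ∀ m z, La L ((Re hf ρ).trans M) m z = La L M m (Re hf ρ z) := fun m z =>
    La_congr L M ((Re hf ρ).trans M) (Re hf ρ z) z rfl m
  have hle : ∀ m, LA L ((Re hf ρ).trans M) m ≤ LA L M m := by
    intro m
    refine eA_ge _ _ fun y => ?_
    obtain ⟨z, rfl⟩ := (Re hf ρ).surjective y
    rw [← hLa]
    refine (le_eA _ z).trans ?_
    exact mul_le_mul_of_nonneg_left (norm_Re hf hρ0 z) (Real.exp_pos _).le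
  refine ⟨(Re hf ρ).trans M, fun z => rfl, hle, fun m => ?_, le_antisymm (hle t) ?_, ?_⟩
  · have h1 := hDet hSVD (La L ((Re hf ρ).trans M) m) u v
    have h2 := hDet hSVD (La L M m) (Re hf ρ u) (Re hf ρ v)
    rw [← hLa, ← hLa, h1, hf.wd_eq, mul_one] at h2
    have h3 : ‖wd (Re hf ρ u) (Re hf ρ v)‖ = Real.exp ρ := by
      have e1 : Re hf ρ u = u := by
        rw [Re_apply, Rm_apply, hf.inner_uu, hf.swap.uv, mul_zero, zero_smul, add_zero, one_smul]
      have e2 : Re hf ρ v = (Real.exp ρ : ℂ) • v := by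
        rw [Re_apply, Rm_apply, hf.uv, hf.swap.inner_uu, mul_one, zero_smul, zero_add]
      rw [e1, e2, wd_smul_right, norm_mul, hf.wd_eq, mul_one, Complex.norm_real,
        Real.norm_of_nonneg (Real.exp_pos _).le]
    rw [h3, ← Real.exp_add, Real.exp_eq_exp] at h2
    unfold LA LB
    linarith
  · refine eA_ge _ _ fun z => ?_
    rw [hLa]
    have h1 : ‖La L M t (Re hf ρ z)‖ ^ 2 ≤ (Real.exp (-(LA L M t)) * ‖z‖) ^ 2 := by
      rw [sSVDAux.norm_img hf hS.orth, hS.Tu, hS.Tv, mul_pow, hf.norm_sq z, Re_apply, Rm_apply, hf.inner_u,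
        hf.inner_v, norm_mul, Complex.norm_real, Real.norm_of_nonneg (Real.exp_pos _).le, mul_pow]
      have h2 : Real.exp ρ ^ 2 * Real.exp (-(eB (La L M t))) ^ 2 ≤ Real.exp (-(LA L M t)) ^ 2 := by
        rw [← mul_pow, ← Real.exp_add]
        refine pow_le_pow_left₀ (Real.exp_pos _).le ?_ 2
        rw [Real.exp_le_exp]
        unfold LA LB at hρD
        unfold LA
        linarith
      have h3 := mul_le_mul_of_nonneg_right h2 (sq_nonneg ‖(inner ℂ v z : ℂ)‖)
      unfold LA at h3 ⊢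
      nlinarith
    exact (abs_le_of_sq_le_sq' h1 (by positivity)).2
  · intro m htm hme hD
    have hCC : 0 < CC x ℓ := Real.exp_pos _
    have hn0 : 0 < n := by
      have : (t : ℝ) ≤ e := by exact_mod_cast hte
      linarith
    have h1 := (hDrc hSVD hDet hSlo x ℓ L hPin M t u v hS m ρ hρD (fun i hi hi' => hD i
      (by rwa [min_eq_right htm] at hi) (by rwa [max_eq_left htm] at hi'))).1
    rw [max_eq_left htm, min_eq_right htm] at h1
    have h2 : ‖La L M m v‖ ≤ CC x ℓ * n * Real.exp (-(LA L M m) - ρ) := by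
      refine h1.trans (mul_le_mul_of_nonneg_right (mul_le_mul_of_nonneg_left ?_ hCC.le) (Real.exp_pos _).le)
      have : (m : ℝ) ≤ e := by exact_mod_cast hme
      linarith
    refine eA_ge _ _ fun z => ?_
    have h3 : Real.exp (-(LA L M m - Real.log (1 + CC x ℓ * n))) =
        Real.exp (-(LA L M m)) * (1 + CC x ℓ * n) := by
      rw [neg_sub, sub_eq_add_neg, add_comm, Real.exp_add, Real.exp_log (by positivity)]
    rw [h3, hLa, Re_apply, Rm_apply, map_add, map_smul, map_smul]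
    refine (norm_add_le _ _).trans ?_
    rw [norm_smul, norm_smul, norm_mul, Complex.norm_real, Real.norm_of_nonneg (Real.exp_pos _).le]
    have h4 : ‖(inner ℂ u z : ℂ)‖ * ‖La L M m u‖ ≤ ‖z‖ * Real.exp (-(LA L M m)) := by
      have h5 := le_eA (La L M m) u
      rw [hf.nu, mul_one] at h5
      exact mul_le_mul (hf.le_u z) h5 (norm_nonneg _) (norm_nonneg _)
    have h5 : Real.exp ρ * ‖(inner ℂ v z : ℂ)‖ * ‖La L M m v‖ ≤
        Real.exp ρ * ‖z‖ * (CC x ℓ * n * Real.exp (-(LA L M m) - ρ)) :=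
      mul_le_mul (mul_le_mul_of_nonneg_left (hf.le_v z) (Real.exp_pos _).le) h2 (norm_nonneg _)
        (by positivity)
    have h6 : Real.exp ρ * ‖z‖ * (CC x ℓ * n * Real.exp (-(LA L M m) - ρ)) =
        Real.exp (-(LA L M m)) * (CC x ℓ * n) * ‖z‖ := by
      have h7 : Real.exp ρ * Real.exp (-(LA L M m) - ρ) = Real.exp (-(LA L M m)) := by
        rw [← Real.exp_add]
        congr 1
        ring
      rw [← h7]
      ring
    rw [h6] at h5
    calc _ ≤ ‖z‖ * Real.exp (-(LA L M m)) + Real.exp (-(LA L M m)) * (CC x ℓ * n) * ‖z‖ := add_le_add h4 h5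
      _ = _ := by ring

end Pool.Agent.Lib.BedD
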