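import Pool.Agent.Lib.BedD.SpecT

/-!
# MP_6f050a_an, theorem D: from the basin of the `q`-step maps to the basin of `F`
-/

set_option autoImplicit false

open scoped Topology
open Set Filter Metric

namespace Pool.Agent.Lib.BedD

namespace sQBAux

theorem io_le (z : E2) : ‖io z‖ ≤ ‖z‖ := by
  rw [pi_norm_le_iff_of_nonneg (norm_nonneg _)]
  intro i
  exact PiLp.norm_apply_le z i

theorem le_io (z : E2) : ‖z‖ ≤ 2 * ‖io z‖ := by
  have h := norm_sq_two z
  have h0 : ‖z 0‖ ≤ ‖io z‖ := norm_le_pi_norm (io z) 0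
  have h1 : ‖z 1‖ ≤ ‖io z‖ := norm_le_pi_norm (io z) 1
  have h2 := norm_nonneg (z 0)
  have h3 := norm_nonneg (z 1)
  have h4 : ‖z‖ ^ 2 ≤ (2 * ‖io z‖) ^ 2 := by nlinarith
  exact (abs_le_of_sq_le_sq' h4 (by positivity)).2

theorem iosymm_le (w : Fin 2 → ℂ) : ‖io.symm w‖ ≤ 2 * ‖w‖ := by
  have h := le_io (io.symm w)
  rwa [io.apply_symm_apply] at h

section

variable {r D C c : ℝ} {F : ℕ → (Fin 2 → ℂ) → (Fin 2 → ℂ)}
  {A : ℕ → (Fin 2 → ℂ) →L[ℂ] (Fin 2 → ℂ)}

theorem orb_succ (F : ℕ → (Fin 2 → ℂ) → (Fin 2 → ℂ)) (m i : ℕ) (z : Fin 2 → ℂ) :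
    Bed.orb F m (i + 1) z = F (m + i) (Bed.orb F m i z) := rfl

theorem orb_add (F : ℕ → (Fin 2 → ℂ) → (Fin 2 → ℂ)) (m i k : ℕ) (z : Fin 2 → ℂ) :
    Bed.orb F m (i + k) z = Bed.orb F (m + i) k (Bed.orb F m i z) := by
  induction k with
  | zero => rfl
  | succ k ih => rw [← Nat.add_assoc, orb_succ, ih, orb_succ, Nat.add_assoc]

theorem orb_succ' (F : ℕ → (Fin 2 → ℂ) → (Fin 2 → ℂ)) (m i : ℕ) (z : Fin 2 → ℂ) :
    Bed.orb F m (i + 1) z = Bed.orb F (m + 1) i (F m z) := by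
  rw [Nat.add_comm i 1, orb_add]
  rfl

theorem orbF (h : Bed.SeqD 2 r D C c F A) (m i : ℕ) :
    DifferentiableOn ℂ (Bed.orb F m i) (ball 0 r) ∧ InjOn (Bed.orb F m i) (ball 0 r) ∧
    (∀ z ∈ ball (0 : Fin 2 → ℂ) r, ∀ w, fderiv ℂ (Bed.orb F m i) z w = 0 → w = 0) ∧
    ∀ z ∈ ball (0 : Fin 2 → ℂ) r, Bed.orb F m i z ∈ ball (0 : Fin 2 → ℂ) r ∧
      ‖Bed.orb F m i z‖ ≤ D ^ i * ‖z‖ := by
  induction i with
  | zero =>
    refine ⟨differentiableOn_id, fun x _ y _ hxy => hxy, fun z _ w hw => ?_, fun z hz => ?_⟩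
    · have e : fderiv ℂ (Bed.orb F m 0) z = ContinuousLinearMap.id ℂ _ := fderiv_id
      rw [e] at hw
      exact hw
    · refine ⟨hz, ?_⟩
      rw [pow_zero, one_mul]
      exact le_rfl
  | succ i ih =>
    obtain ⟨i1, i2, i3, i4⟩ := ih
    have hm : MapsTo (Bed.orb F m i) (ball 0 r) (ball 0 r) := fun z hz => (i4 z hz).1
    refine ⟨(h.diff (m + i)).comp i1 hm, fun x hx y hy hxy => ?_, fun z hz w hw => ?_,
      fun z hz => ?_⟩
    · exact i2 hx hy (h.inj (m + i) (hm hx) (hm hy) hxy)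
    · have d1 : DifferentiableAt ℂ (Bed.orb F m i) z := i1.differentiableAt (isOpen_ball.mem_nhds hz)
      have d2 : DifferentiableAt ℂ (F (m + i)) (Bed.orb F m i z) :=
        (h.diff (m + i)).differentiableAt (isOpen_ball.mem_nhds (hm hz))
      have e : fderiv ℂ (Bed.orb F m (i + 1)) z =
          (fderiv ℂ (F (m + i)) (Bed.orb F m i z)).comp (fderiv ℂ (Bed.orb F m i) z) :=
        fderiv_comp z d2 d1
      rw [e] at hw
      exact i3 z hz w (h.dinj (m + i) _ (hm hz) _ hw)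
    · obtain ⟨k1, k2⟩ := i4 z hz
      have e1 := h.contr (m + i) _ k1
      have e2 : ‖Bed.orb F m (i + 1) z‖ ≤ D ^ (i + 1) * ‖z‖ := by
        calc ‖Bed.orb F m (i + 1) z‖ ≤ D * ‖Bed.orb F m i z‖ := e1
          _ ≤ D * (D ^ i * ‖z‖) := mul_le_mul_of_nonneg_left k2 h.D_pos.le
          _ = _ := by ring
      refine ⟨?_, e2⟩
      rw [mem_ball_zero_iff] at hz ⊢
      have e3 : D ^ (i + 1) ≤ 1 := pow_le_one₀ h.D_pos.le h.D_lt.le
      have e4 : D ^ (i + 1) * ‖z‖ ≤ 1 * ‖z‖ := mul_le_mul_of_nonneg_right e3 (norm_nonneg _)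
      linarith

end

/-- the identity theorem on a ball of `E2`, along the lines through the origin -/
theorem ident {r₀ : ℝ} {g₁ g₂ : E2 → E2} (h1 : DifferentiableOn ℂ g₁ (ball 0 r₀))
    (h2 : DifferentiableOn ℂ g₂ (ball 0 r₀)) {δ : ℝ} (hδ : 0 < δ)
    (h : ∀ z ∈ ball (0 : E2) δ, g₁ z = g₂ z) {x : E2} (hx : x ∈ ball (0 : E2) r₀) :
    g₁ x = g₂ x := by
  have hr₀ : 0 < r₀ := by
    rw [mem_ball_zero_iff] at hx
    exact (norm_nonneg x).trans_lt hx
  obtain ⟨ρ, hρ1, hρ2⟩ : ∃ ρ : ℝ, 1 < ρ ∧ ρ * ‖x‖ < r₀ := by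
    rw [mem_ball_zero_iff] at hx
    by_cases h0 : ‖x‖ = 0
    · exact ⟨2, by norm_num, by rw [h0, mul_zero]; exact hr₀⟩
    · have h3 : 0 < ‖x‖ := lt_of_le_of_ne (norm_nonneg x) (Ne.symm h0)
      have h4 : 1 < r₀ / ‖x‖ := by rwa [one_lt_div h3]
      obtain ⟨ρ, h5, h6⟩ := exists_between h4
      exact ⟨ρ, h5, by rwa [lt_div_iff₀ h3] at h6⟩
  have hmap : MapsTo (fun t : ℂ => t • x) (ball 0 ρ) (ball 0 r₀) := by
    intro t ht
    rw [mem_ball_zero_iff] at ht ⊢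
    rw [norm_smul]
    exact (mul_le_mul_of_nonneg_right ht.le (norm_nonneg x)).trans_lt hρ2
  have hlin : DifferentiableOn ℂ (fun t : ℂ => t • x) (ball 0 ρ) :=
    (differentiable_id.smul_const x).differentiableOn
  have a1 : AnalyticOnNhd ℂ (fun t : ℂ => g₁ (t • x)) (ball 0 ρ) :=
    (h1.comp hlin hmap).analyticOnNhd isOpen_ball
  have a2 : AnalyticOnNhd ℂ (fun t : ℂ => g₂ (t • x)) (ball 0 ρ) :=
    (h2.comp hlin hmap).analyticOnNhd isOpen_ball
  have hev : (fun t : ℂ => g₁ (t • x)) =ᶠ[𝓝 0] fun t : ℂ => g₂ (t • x) := by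
    have hc : Tendsto (fun t : ℂ => t • x) (𝓝 0) (𝓝 0) := by
      have h3 : Continuous fun t : ℂ => t • x := continuous_id.smul continuous_const
      have h4 := h3.tendsto 0
      rwa [zero_smul] at h4
    filter_upwards [hc (ball_mem_nhds (0 : E2) hδ)] with t ht
    exact h _ ht
  have hpre : IsPreconnected (ball (0 : ℂ) ρ) := (convex_ball _ _).isPreconnected
  have h0 : (0 : ℂ) ∈ ball (0 : ℂ) ρ := mem_ball_self (by linarith)
  have key := a1.eqOn_of_preconnected_of_eventuallyEq a2 hpre h0 hev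
  have h3 := key (show (1 : ℂ) ∈ ball (0 : ℂ) ρ by
    rw [mem_ball_zero_iff, norm_one]
    exact hρ1)
  simpa using h3

end sQBAux

open sQBAux in
theorem sQB : S_QB := by
  intro r D C c F A hF q r' hq hr' hrr hB
  obtain ⟨Ψ, b1, b2, b3, b4, b5⟩ := hB
  have hr := hF.r_pos
  obtain ⟨N₀, hN₀⟩ : ∃ N₀ : ℕ, ∀ i, N₀ ≤ i → 2 * (D ^ i * r) < r' := by
    have h1 : Tendsto (fun i : ℕ => 2 * (D ^ i * r)) atTop (𝓝 (2 * (0 * r))) :=
      ((tendsto_pow_atTop_nhds_zero_of_lt_one hF.D_pos.le hF.D_lt).mul_const r).const_mul 2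
    rw [zero_mul, mul_zero] at h1
    have h2 := h1.eventually_lt_const hr'
    rw [eventually_atTop] at h2
    exact h2
  have hin : ∀ m i, N₀ ≤ i → ∀ z ∈ ball (0 : Fin 2 → ℂ) r,
      io.symm (Bed.orb F m i z) ∈ ball (0 : E2) r' := by
    intro m i hi z hz
    rw [mem_ball_zero_iff]
    have e1 := ((orbF hF m i).2.2.2 z hz).2
    rw [mem_ball_zero_iff] at hz
    have e2 : D ^ i * ‖z‖ ≤ D ^ i * r := mul_le_mul_of_nonneg_left hz.le (pow_nonneg hF.D_pos.le i)
    have e3 := iosymm_le (Bed.orb F m i z)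
    have e4 := hN₀ i hi
    linarith
  obtain ⟨T, hT⟩ : ∃ T : ℕ → ℕ → (Fin 2 → ℂ) → (Fin 2 → ℂ), ∀ m n z, T m n z =
      io (Ψ n (io.symm (Bed.orb F m (q * n - m) z))) := ⟨_, fun _ _ _ => rfl⟩
  have hqn : ∀ n, n ≤ q * n := fun n => Nat.le_mul_of_pos_left n hq
  have hsub : ∀ m n, m + N₀ ≤ n → N₀ ≤ q * n - m := by
    intro m n h
    have := hqn n
    omega
  -- independence of `n`
  have hT1 : ∀ m n, m + N₀ ≤ n → ∀ z ∈ ball (0 : Fin 2 → ℂ) r, T m (n + 1) z = T m n z := by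
    intro m n h z hz
    have e0 := hqn n
    have e1 : q * (n + 1) - m = (q * n - m) + q := by
      rw [Nat.mul_succ]
      omega
    have e2 : m + (q * n - m) = q * n := by omega
    rw [hT, hT, e1, orb_add, e2]
    have e3 := b2 n (io.symm (Bed.orb F m (q * n - m) z)) (hin m _ (hsub m n h) z hz)
    rw [← e3]
    congr 2
  have hTeq : ∀ m n, (fun z => T m n z) =
      io ∘ Ψ n ∘ io.symm ∘ Bed.orb F m (q * n - m) := by
    intro m n
    funext z
    exact hT m n z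
  refine ⟨fun m z => T m (m + N₀) z, fun m => ?_, fun m z hz => ?_, fun m => ?_,
    fun m z hz w hw => ?_, fun u => ?_⟩
  · show DifferentiableOn ℂ (fun z => T m (m + N₀) z) (ball 0 r)
    rw [hTeq]
    have d0 := (orbF hF m (q * (m + N₀) - m)).1
    have d1 : DifferentiableOn ℂ (io.symm ∘ Bed.orb F m (q * (m + N₀) - m)) (ball 0 r) :=
      io.symm.differentiable.comp_differentiableOn d0
    have d2 : DifferentiableOn ℂ (Ψ (m + N₀) ∘ io.symm ∘ Bed.orb F m (q * (m + N₀) - m))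
        (ball 0 r) := (b1 (m + N₀)).comp d1 fun z hz => hin m _ (hsub m _ le_rfl) z hz
    exact io.differentiable.comp_differentiableOn d2
  · show T (m + 1) (m + 1 + N₀) (F m z) = T m (m + N₀) z
    have e0 := hqn (m + 1 + N₀)
    have e1 : q * (m + 1 + N₀) - m = (q * (m + 1 + N₀) - (m + 1)) + 1 := by omega
    have e2 : T (m + 1) (m + 1 + N₀) (F m z) = T m (m + 1 + N₀) z := by
      rw [hT, hT, e1, orb_succ']
    rw [e2, show m + 1 + N₀ = (m + N₀) + 1 by ring, hT1 m (m + N₀) le_rfl z hz]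
  · intro x hx y hy hxy
    have hxy' : T m (m + N₀) x = T m (m + N₀) y := hxy
    rw [hT, hT] at hxy'
    have e1 := b3 (m + N₀) (hin m _ (hsub m _ le_rfl) x hx) (hin m _ (hsub m _ le_rfl) y hy)
      (io.injective hxy')
    exact (orbF hF m (q * (m + N₀) - m)).2.1 hx hy (io.symm.injective e1)
  · obtain ⟨d0, -, d4, -⟩ := orbF hF m (q * (m + N₀) - m)
    have hy := hin m _ (hsub m _ le_rfl) z hz
    have c0 : DifferentiableAt ℂ (Bed.orb F m (q * (m + N₀) - m)) z :=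
      d0.differentiableAt (isOpen_ball.mem_nhds hz)
    have c1 : DifferentiableAt ℂ (Ψ (m + N₀)) (io.symm (Bed.orb F m (q * (m + N₀) - m) z)) :=
      (b1 (m + N₀)).differentiableAt (isOpen_ball.mem_nhds hy)
    have e0 := c0.hasFDerivAt
    have e1 : HasFDerivAt (fun z => T m (m + N₀) z)
        ((io : E2 →L[ℂ] (Fin 2 → ℂ)).comp ((fderiv ℂ (Ψ (m + N₀))
          (io.symm (Bed.orb F m (q * (m + N₀) - m) z))).comp
          ((io.symm : (Fin 2 → ℂ) →L[ℂ] E2).comp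
            (fderiv ℂ (Bed.orb F m (q * (m + N₀) - m)) z)))) z := by
      rw [hTeq]
      exact io.hasFDerivAt.comp z (c1.hasFDerivAt.comp z (io.symm.hasFDerivAt.comp z e0))
    have hw' : fderiv ℂ (fun z => T m (m + N₀) z) z w = 0 := hw
    rw [e1.fderiv] at hw'
    have e2 : fderiv ℂ (Ψ (m + N₀)) (io.symm (Bed.orb F m (q * (m + N₀) - m) z))
        (io.symm (fderiv ℂ (Bed.orb F m (q * (m + N₀) - m)) z w)) = 0 :=
      io.injective (by rw [map_zero]; exact hw')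
    have e3 := b4 _ _ hy _ e2
    have e4 : fderiv ℂ (Bed.orb F m (q * (m + N₀) - m)) z w = 0 :=
      io.symm.injective (by rw [map_zero]; exact e3)
    exact d4 z hz w e4
  · obtain ⟨n, x, hx, hxu⟩ := b5 (io.symm u)
    have hball : ∀ y ∈ ball (0 : E2) r', io y ∈ ball (0 : Fin 2 → ℂ) r := by
      intro y hy
      rw [mem_ball_zero_iff] at hy ⊢
      exact (io_le y).trans_lt (hy.trans_le hrr)
    -- the orbit in `E2`
    have hsmall : ∀ k, ∀ y ∈ ball (0 : E2) (r' / 2),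
        io.symm (Bed.orb F (q * n) (q * k) (io y)) ∈ ball (0 : E2) r' := by
      intro k y hy
      have hy' : y ∈ ball (0 : E2) r' := ball_subset_ball (by linarith) hy
      rw [mem_ball_zero_iff] at hy ⊢
      have e1 := iosymm_le (Bed.orb F (q * n) (q * k) (io y))
      have e2 := ((orbF hF (q * n) (q * k)).2.2.2 (io y) (hball y hy')).2
      have e3 : D ^ (q * k) * ‖io y‖ ≤ 1 * ‖y‖ :=
        mul_le_mul (pow_le_one₀ hF.D_pos.le hF.D_lt.le) (io_le y) (norm_nonneg _) zero_le_one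
      linarith
    have hloc : ∀ k, ∀ y ∈ ball (0 : E2) (r' / 2),
        Ψ (n + k) (io.symm (Bed.orb F (q * n) (q * k) (io y))) = Ψ n y := by
      intro k y hy
      induction k with
      | zero =>
        show Ψ n (io.symm (io y)) = Ψ n y
        rw [io.symm_apply_apply]
      | succ k ih =>
        rw [← ih, ← b2 (n + k) _ (hsmall k y hy), qst, io.apply_symm_apply, Nat.mul_succ, orb_add,
          Nat.mul_add]
        rfl
    have hn1 := hqn n
    refine ⟨q * n, io x, hball x hx, ?_⟩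
    show T (q * n) (q * n + N₀) (io x) = u
    obtain ⟨k, hk⟩ : ∃ k, q * n + N₀ = n + k := ⟨q * n + N₀ - n, by omega⟩
    have hk' : q * (n + k) - q * n = q * k := by
      rw [Nat.mul_add]
      omega
    have hk2 : N₀ ≤ q * k := by
      rw [← hk', ← hk]
      exact hsub _ _ le_rfl
    have hglob : Ψ (n + k) (io.symm (Bed.orb F (q * n) (q * k) (io x))) = Ψ n x := by
      refine ident (r₀ := r') (δ := r' / 2)
        (g₁ := fun y => Ψ (n + k) (io.symm (Bed.orb F (q * n) (q * k) (io y)))) (g₂ := Ψ n)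
        ?_ (b1 n) (by linarith) (hloc k) hx
      have d0 := (orbF hF (q * n) (q * k)).1
      have d1 : DifferentiableOn ℂ (Bed.orb F (q * n) (q * k) ∘ io) (ball 0 r') :=
        d0.comp io.differentiable.differentiableOn hball
      have d2 : DifferentiableOn ℂ (io.symm ∘ (Bed.orb F (q * n) (q * k) ∘ io)) (ball 0 r') :=
        io.symm.differentiable.comp_differentiableOn d1
      exact (b1 (n + k)).comp d2 fun y hy => hin _ _ hk2 _ (hball y hy)
    rw [hT, hk, hk', hglob, hxu, io.apply_symm_apply]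

end Pool.Agent.Lib.BedD
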