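import Pool.Agent.Lib.BedD.SpecT

/-!
# MP_6f050a_an, theorem D, part R: the linear parts of `q` steps, for large `q` (`S_QL`)
-/

set_option autoImplicit false

open scoped Topology
open Set Filter Metric

namespace Pool.Agent.Lib.BedD

namespace sQLAux

/-- The sup-norm plane. -/
abbrev V : Type := Fin 2 → ℂ

/-- `A (n + q - 1) ∘ ... ∘ A n`. -/
noncomputable def Aq (A : ℕ → V →L[ℂ] V) (n : ℕ) : ℕ → V →L[ℂ] V
  | 0 => ContinuousLinearMap.id ℂ V
  | q + 1 => (A (n + q)).comp (Aq A n q)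

theorem Aq_succ (A : ℕ → V →L[ℂ] V) (n q : ℕ) (z : V) :
    Aq A n (q + 1) z = A (n + q) (Aq A n q z) := rfl

theorem prodL_add (A : ℕ → V →L[ℂ] V) (n q : ℕ) (z : V) :
    Bed.prodL A (ContinuousLinearMap.id ℂ V) (n + q) z =
      Aq A n q (Bed.prodL A (ContinuousLinearMap.id ℂ V) n z) := by
  induction q with
  | zero => rfl
  | succ q ih =>
    rw [Aq_succ, ← ih]
    rfl

theorem A_inj {r D C c : ℝ} {F : ℕ → V → V} {A : ℕ → V →L[ℂ] V} (h : Bed.SeqD 2 r D C c F A)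
    (n : ℕ) (z : V) (hz : A n z = 0) : z = 0 := by
  have h1 := h.low n z
  rw [hz, norm_zero] at h1
  have h2 : ‖z‖ ≤ 0 := by
    by_contra hc
    push Not at hc
    have := mul_pos h.c_pos hc
    linarith
  exact norm_le_zero_iff.1 h2

theorem Aq_inj {r D C c : ℝ} {F : ℕ → V → V} {A : ℕ → V →L[ℂ] V} (h : Bed.SeqD 2 r D C c F A)
    (n q : ℕ) (z : V) (hz : Aq A n q z = 0) : z = 0 := by
  induction q with
  | zero => exact hz
  | succ q ih => exact ih (A_inj h _ _ hz)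

theorem prodL_inj {r D C c : ℝ} {F : ℕ → V → V} {A : ℕ → V →L[ℂ] V} (h : Bed.SeqD 2 r D C c F A)
    (n : ℕ) (z : V) (hz : Bed.prodL A (ContinuousLinearMap.id ℂ V) n z = 0) : z = 0 := by
  induction n with
  | zero => exact hz
  | succ n ih => exact ih (A_inj h _ _ hz)

theorem surj_of_inj (T : V →L[ℂ] V) (hT : ∀ z, T z = 0 → z = 0) : Function.Surjective T := by
  have h1 : Function.Injective (T : V →ₗ[ℂ] V) := by
    rw [injective_iff_map_eq_zero]
    exact hT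
  exact LinearMap.injective_iff_surjective.1 h1

theorem exists_equiv (T : V →L[ℂ] V) (hT : ∀ z, T z = 0 → z = 0) :
    ∃ e : V ≃L[ℂ] V, ∀ z, e z = T z := by
  have h1 : Function.Injective (T : V →ₗ[ℂ] V) := by
    rw [injective_iff_map_eq_zero]
    exact hT
  exact ⟨(LinearEquiv.ofInjectiveEndo (T : V →ₗ[ℂ] V) h1).toContinuousLinearEquiv, fun z => rfl⟩

/-- The bounds for the products, from the condition (D). -/
theorem bounds {r D C c : ℝ} {F : ℕ → V → V} {A : ℕ → V →L[ℂ] V} (h : Bed.SeqD 2 r D C c F A)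
    (hD : DCond (Bed.prodL A (ContinuousLinearMap.id ℂ V))) :
    ∃ K lam mu : ℝ, 1 ≤ K ∧ 0 < lam ∧ lam < 1 ∧ 0 < mu ∧ lam ^ 3 < mu ∧
      ∀ n q w, mu ^ q * ‖w‖ ≤ K * ‖Aq A n q w‖ ∧ ‖Aq A n q w‖ ≤ K * lam ^ q * ‖w‖ := by
  obtain ⟨C₁, lam, mu, hC, hl, hl1, hm, hlm, hb⟩ := hD
  refine ⟨max C₁ 1, lam, mu, le_max_right _ _, hl, hl1, hm, hlm, fun n q w => ?_⟩
  obtain ⟨z, hz⟩ := surj_of_inj _ (prodL_inj h n) w
  have hK : C₁ ≤ max C₁ 1 := le_max_left _ _
  have h1 := hb n q z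
  rw [prodL_add, hz] at h1
  refine ⟨h1.1.trans ?_, h1.2.trans ?_⟩
  · exact mul_le_mul_of_nonneg_right hK (norm_nonneg _)
  · exact mul_le_mul_of_nonneg_right (mul_le_mul_of_nonneg_right hK (by positivity))
      (norm_nonneg _)

/-! ## The norms -/

theorem io_apply (z : E2) (i : Fin 2) : io z i = z i := rfl

theorem io_le (z : E2) : ‖io z‖ ≤ ‖z‖ := by
  rw [pi_norm_le_iff_of_nonneg (norm_nonneg _)]
  intro i
  exact PiLp.norm_apply_le z i

theorem le_io (z : E2) : ‖z‖ ≤ 2 * ‖io z‖ := by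
  have h0 : ‖z 0‖ ≤ ‖io z‖ := norm_le_pi_norm (io z) 0
  have h1 : ‖z 1‖ ≤ ‖io z‖ := norm_le_pi_norm (io z) 1
  have h2 := norm_sq_two z
  have h3 : ‖z‖ ^ 2 ≤ (2 * ‖io z‖) ^ 2 := by
    nlinarith [norm_nonneg (z 0), norm_nonneg (z 1), norm_nonneg (io z)]
  exact (abs_le_of_sq_le_sq' h3 (by positivity)).2

theorem io_symm_le (w : V) : ‖io.symm w‖ ≤ 2 * ‖w‖ := by
  have := le_io (io.symm w)
  rwa [io.apply_symm_apply] at this

theorem le_io_symm (w : V) : ‖w‖ ≤ ‖io.symm w‖ := by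
  have := io_le (io.symm w)
  rwa [io.apply_symm_apply] at this

theorem io_mem {r : ℝ} {z : E2} (hz : z ∈ ball (0 : E2) r) : io z ∈ ball (0 : V) r := by
  rw [mem_ball_zero_iff] at hz ⊢
  exact (io_le z).trans_lt hz

/-! ## Orbits -/

section
variable {r D C c : ℝ} {F : ℕ → V → V} {A : ℕ → V →L[ℂ] V}

theorem orb_le (h : Bed.SeqD 2 r D C c F A) (n i : ℕ) (z : V) (hz : z ∈ ball (0 : V) r) :
    ‖Bed.orb F n i z‖ ≤ ‖z‖ := by
  induction i with
  | zero => exact le_rfl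
  | succ i ih =>
    have hm : Bed.orb F n i z ∈ ball (0 : V) r := by
      rw [mem_ball_zero_iff] at hz ⊢
      exact ih.trans_lt hz
    have h1 := h.contr (n + i) _ hm
    have h2 : D * ‖Bed.orb F n i z‖ ≤ 1 * ‖Bed.orb F n i z‖ :=
      mul_le_mul_of_nonneg_right h.D_lt.le (norm_nonneg _)
    rw [one_mul] at h2
    exact (h1.trans h2).trans ih

theorem orb_mem (h : Bed.SeqD 2 r D C c F A) (n i : ℕ) (z : V) (hz : z ∈ ball (0 : V) r) :
    Bed.orb F n i z ∈ ball (0 : V) r := by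
  have h1 := orb_le h n i z hz
  rw [mem_ball_zero_iff] at hz ⊢
  exact h1.trans_lt hz

theorem orb_zero' (h : Bed.SeqD 2 r D C c F A) (n i : ℕ) : Bed.orb F n i 0 = 0 := by
  have h1 := orb_le h n i 0 (mem_ball_self h.r_pos)
  rw [norm_zero] at h1
  exact norm_le_zero_iff.1 h1

theorem F_diffAt (h : Bed.SeqD 2 r D C c F A) (n : ℕ) (z : V) (hz : z ∈ ball (0 : V) r) :
    DifferentiableAt ℂ (F n) z :=
  (h.diff n).differentiableAt (isOpen_ball.mem_nhds hz)

theorem orb_diffAt (h : Bed.SeqD 2 r D C c F A) (n i : ℕ) (z : V) (hz : z ∈ ball (0 : V) r) :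
    DifferentiableAt ℂ (Bed.orb F n i) z := by
  induction i with
  | zero => exact differentiableAt_id
  | succ i ih => exact (F_diffAt h (n + i) _ (orb_mem h n i z hz)).comp z ih

theorem orb_inj (h : Bed.SeqD 2 r D C c F A) (n i : ℕ) :
    InjOn (Bed.orb F n i) (ball (0 : V) r) := by
  induction i with
  | zero => exact fun a _ b _ hab => hab
  | succ i ih =>
    intro a ha b hb hab
    exact ih ha hb (h.inj (n + i) (orb_mem h n i a ha) (orb_mem h n i b hb) hab)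

theorem orb_dinj (h : Bed.SeqD 2 r D C c F A) (n i : ℕ) (z : V) (hz : z ∈ ball (0 : V) r)
    (w : V) (hw : fderiv ℂ (Bed.orb F n i) z w = 0) : w = 0 := by
  induction i with
  | zero =>
    have h1 : fderiv ℂ (Bed.orb F n 0) z = ContinuousLinearMap.id ℂ V := fderiv_id
    rw [h1] at hw
    exact hw
  | succ i ih =>
    have h1 : fderiv ℂ (Bed.orb F n (i + 1)) z =
        (fderiv ℂ (F (n + i)) (Bed.orb F n i z)).comp (fderiv ℂ (Bed.orb F n i) z) :=
      fderiv_comp z (F_diffAt h (n + i) _ (orb_mem h n i z hz)) (orb_diffAt h n i z hz)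
    rw [h1] at hw
    exact ih (h.dinj (n + i) _ (orb_mem h n i z hz) _ hw)

theorem Aq_le (h : Bed.SeqD 2 r D C c F A) (n i : ℕ) (z : V) : ‖Aq A n i z‖ ≤ ‖z‖ := by
  induction i with
  | zero => exact le_rfl
  | succ i ih =>
    have h1 := h.contrL (n + i) (Aq A n i z)
    have h2 : D * ‖Aq A n i z‖ ≤ 1 * ‖Aq A n i z‖ :=
      mul_le_mul_of_nonneg_right h.D_lt.le (norm_nonneg _)
    rw [one_mul] at h2
    exact (h1.trans h2).trans ih

/-- The quadratic estimate for `q` steps. -/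
theorem quadq (h : Bed.SeqD 2 r D C c F A) (q : ℕ) : ∃ Cq : ℝ, 0 ≤ Cq ∧
    ∀ n, ∀ z ∈ ball (0 : V) r, ∀ w ∈ ball (0 : V) r,
      ‖(Bed.orb F n q z - Aq A n q z) - (Bed.orb F n q w - Aq A n q w)‖ ≤
        Cq * (‖z‖ + ‖w‖) * ‖z - w‖ := by
  induction q with
  | zero =>
    refine ⟨0, le_rfl, fun n z _ w _ => ?_⟩
    have h1 : Bed.orb F n 0 z - Aq A n 0 z = 0 := sub_self z
    have h2 : Bed.orb F n 0 w - Aq A n 0 w = 0 := sub_self w
    rw [h1, h2]
    simp
  | succ q ih =>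
    obtain ⟨Cq, hC0, hCq⟩ := ih
    have hr := h.r_pos
    have hC := h.C_pos
    refine ⟨C * (1 + 2 * Cq * r) + Cq, by positivity, fun n z hz w hw => ?_⟩
    have hzr : ‖z‖ < r := mem_ball_zero_iff.1 hz
    have hwr : ‖w‖ < r := mem_ball_zero_iff.1 hw
    have e0 := hCq n z hz w hw
    have hy := orb_le h n q z hz
    have hy' := orb_le h n q w hw
    have hA := Aq_le h n q (z - w)
    rw [map_sub] at hA
    have e1 : ‖Bed.orb F n q z - Bed.orb F n q w‖ ≤ (1 + 2 * Cq * r) * ‖z - w‖ := by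
      have e2 : Bed.orb F n q z - Bed.orb F n q w =
          ((Bed.orb F n q z - Aq A n q z) - (Bed.orb F n q w - Aq A n q w)) +
          (Aq A n q z - Aq A n q w) := by abel
      rw [e2]
      refine (norm_add_le _ _).trans ((add_le_add e0 hA).trans ?_)
      have e3 : Cq * (‖z‖ + ‖w‖) * ‖z - w‖ ≤ Cq * (r + r) * ‖z - w‖ := by
        gcongr
      linarith
    have e4 : (Bed.orb F n (q + 1) z - Aq A n (q + 1) z) -
        (Bed.orb F n (q + 1) w - Aq A n (q + 1) w) =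
        ((F (n + q) (Bed.orb F n q z) - A (n + q) (Bed.orb F n q z)) -
          (F (n + q) (Bed.orb F n q w) - A (n + q) (Bed.orb F n q w))) +
        A (n + q) ((Bed.orb F n q z - Aq A n q z) - (Bed.orb F n q w - Aq A n q w)) := by
      rw [Aq_succ, Aq_succ, map_sub, map_sub, map_sub]
      show (F (n + q) (Bed.orb F n q z) - _) - (F (n + q) (Bed.orb F n q w) - _) = _
      abel
    have e5 := h.quad (n + q) _ (orb_mem h n q z hz) _ (orb_mem h n q w hw)
    have e6 := h.contrL (n + q)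
      ((Bed.orb F n q z - Aq A n q z) - (Bed.orb F n q w - Aq A n q w))
    rw [e4]
    refine (norm_add_le _ _).trans ?_
    have e7 : C * (‖Bed.orb F n q z‖ + ‖Bed.orb F n q w‖) *
        ‖Bed.orb F n q z - Bed.orb F n q w‖ ≤
        C * (‖z‖ + ‖w‖) * ((1 + 2 * Cq * r) * ‖z - w‖) := by
      gcongr
    have e8 : D * ‖(Bed.orb F n q z - Aq A n q z) - (Bed.orb F n q w - Aq A n q w)‖ ≤
        1 * ‖(Bed.orb F n q z - Aq A n q z) - (Bed.orb F n q w - Aq A n q w)‖ :=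
      mul_le_mul_of_nonneg_right h.D_lt.le (norm_nonneg _)
    rw [one_mul] at e8
    calc _ ≤ C * (‖z‖ + ‖w‖) * ((1 + 2 * Cq * r) * ‖z - w‖) +
          Cq * (‖z‖ + ‖w‖) * ‖z - w‖ := add_le_add (e5.trans e7) (e6.trans (e8.trans e0))
      _ = _ := by ring

end

/-! ## The numbers -/

theorem numbers (K lam mu : ℝ) (hK : 1 ≤ K) (hl : 0 < lam) (hl1 : lam < 1) (hm : 0 < mu)
    (hlm : lam ^ 3 < mu) : ∃ (q : ℕ) (x ℓ : ℝ), 0 < q ∧ 2 < x ∧ x < 3 ∧ 0 < ℓ ∧
      2 * K * lam ^ q ≤ Real.exp (-ℓ) ∧ 2 * K * Real.exp (-(x * ℓ)) ≤ mu ^ q := by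
  set a : ℝ := -Real.log lam with ha
  set b : ℝ := -Real.log mu with hb
  have ha0 : 0 < a := by
    have := Real.log_neg hl hl1
    linarith
  have hba : b < 3 * a := by
    have h1 := Real.log_lt_log (by positivity) hlm
    rw [Real.log_pow] at h1
    push_cast at h1
    linarith
  have hba' : b / a < 3 := by
    rw [div_lt_iff₀ ha0]
    exact hba
  set x : ℝ := max (5 / 2) ((b / a + 3) / 2) with hx
  have hx2 : 2 < x := lt_of_lt_of_le (by norm_num) (le_max_left _ _)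
  have hx3 : x < 3 := max_lt (by norm_num) (by linarith)
  have hxb : b < x * a := by
    have h1 : (b / a + 3) / 2 ≤ x := le_max_right _ _
    have h2 : b / a < x := by linarith
    rwa [div_lt_iff₀ ha0] at h2
  set k : ℝ := Real.log (2 * K) with hk
  have hk0 : 0 < k := Real.log_pos (by linarith)
  have hexpk : Real.exp k = 2 * K := Real.exp_log (by linarith)
  obtain ⟨q, hq⟩ := exists_nat_gt (max (k / a) ((x + 1) * k / (x * a - b)))
  have hq1 : k / a < q := (le_max_left _ _).trans_lt hq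
  have hq2 : (x + 1) * k / (x * a - b) < q := (le_max_right _ _).trans_lt hq
  rw [div_lt_iff₀ ha0] at hq1
  rw [div_lt_iff₀ (by linarith)] at hq2
  have hq0 : 0 < q := by
    rcases Nat.eq_zero_or_pos q with h0 | h0
    · exfalso
      rw [h0] at hq1
      simp at hq1
      linarith
    · exact h0
  have hlamq : lam ^ q = Real.exp (-(q * a)) := by
    rw [ha, show -((q : ℝ) * -Real.log lam) = q * Real.log lam by ring, Real.exp_nat_mul,
      Real.exp_log hl]
  have hmuq : mu ^ q = Real.exp (-(q * b)) := by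
    rw [hb, show -((q : ℝ) * -Real.log mu) = q * Real.log mu by ring, Real.exp_nat_mul,
      Real.exp_log hm]
  refine ⟨q, x, q * a - k, hq0, hx2, hx3, by linarith, ?_, ?_⟩
  · rw [hlamq, ← hexpk, ← Real.exp_add, Real.exp_le_exp]
    linarith
  · rw [hmuq, ← hexpk, ← Real.exp_add, Real.exp_le_exp]
    nlinarith

end sQLAux

open sQLAux

theorem sQL : S_QL := by
  intro r D C c F A h hD
  obtain ⟨K, lam, mu, hK, hl, hl1, hm, hlm, hb⟩ := bounds h hD
  obtain ⟨q, x, ℓ, hq, hx2, hx3, hℓ, hup, hlow⟩ := numbers K lam mu hK hl hl1 hm hlm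
  obtain ⟨Cq, hCq0, hCq⟩ := quadq h q
  choose e he using fun n => exists_equiv (Aq A (q * n) q) (Aq_inj h (q * n) q)
  set L : ℕ → E2 ≃L[ℂ] E2 := fun n => (io.trans (e n)).trans io.symm with hL
  have hLa : ∀ n z, L n z = io.symm (Aq A (q * n) q (io z)) := fun n z => by
    rw [← he]
    rfl
  have hexp : Real.exp (-ℓ) < Real.exp (-(ℓ / 2)) := by
    rw [Real.exp_lt_exp]
    linarith
  set C₀ : ℝ := 2 * Cq + 1 with hC₀
  have hC₀p : 0 < C₀ := by positivity
  set r' : ℝ := min r ((Real.exp (-(ℓ / 2)) - Real.exp (-ℓ)) / C₀) with hr'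
  have hr'p : 0 < r' := lt_min h.r_pos (div_pos (by linarith) hC₀p)
  have hr'r : r' ≤ r := min_le_left _ _
  have hr'e : Real.exp (-ℓ) + C₀ * r' ≤ Real.exp (-(ℓ / 2)) := by
    have h1 : r' ≤ (Real.exp (-(ℓ / 2)) - Real.exp (-ℓ)) / C₀ := min_le_right _ _
    rw [le_div_iff₀ hC₀p] at h1
    linarith
  have hLup : ∀ n z, ‖L n z‖ ≤ Real.exp (-ℓ) * ‖z‖ := by
    intro n z
    rw [hLa]
    have h1 := (hb (q * n) q (io z)).2
    have h2 := io_symm_le (Aq A (q * n) q (io z))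
    have h3 := io_le z
    have h4 : K * lam ^ q * ‖io z‖ ≤ K * lam ^ q * ‖z‖ :=
      mul_le_mul_of_nonneg_left h3 (by positivity)
    have h5 := mul_le_mul_of_nonneg_right hup (norm_nonneg z)
    linarith
  have hLlow : ∀ n z, Real.exp (-(x * ℓ)) * ‖z‖ ≤ ‖L n z‖ := by
    intro n z
    rw [hLa]
    have h1 := (hb (q * n) q (io z)).1
    have h2 := le_io_symm (Aq A (q * n) q (io z))
    have h3 := le_io z
    have h4 : 2 * K * Real.exp (-(x * ℓ)) * ‖io z‖ ≤ mu ^ q * ‖io z‖ :=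
      mul_le_mul_of_nonneg_right hlow (norm_nonneg _)
    have h5 : K * (Real.exp (-(x * ℓ)) * ‖z‖) ≤ K * (Real.exp (-(x * ℓ)) * (2 * ‖io z‖)) := by
      gcongr
    have h6 : K * ‖Aq A (q * n) q (io z)‖ ≤ K * ‖io.symm (Aq A (q * n) q (io z))‖ := by
      gcongr
    have h7 : K * (Real.exp (-(x * ℓ)) * ‖z‖) ≤ K * ‖io.symm (Aq A (q * n) q (io z))‖ := by
      linarith
    exact le_of_mul_le_mul_left h7 (by linarith)
  have hquad : ∀ n, ∀ z ∈ ball (0 : E2) r, ∀ w ∈ ball (0 : E2) r,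
      ‖(qst F q n z - L n z) - (qst F q n w - L n w)‖ ≤ C₀ * (‖z‖ + ‖w‖) * ‖z - w‖ := by
    intro n z hz w hw
    have e1 : (qst F q n z - L n z) - (qst F q n w - L n w) =
        io.symm ((Bed.orb F (q * n) q (io z) - Aq A (q * n) q (io z)) -
          (Bed.orb F (q * n) q (io w) - Aq A (q * n) q (io w))) := by
      rw [hLa, hLa, map_sub, map_sub, map_sub]
      rfl
    rw [e1]
    refine (io_symm_le _).trans ?_
    have e2 := hCq (q * n) (io z) (io_mem hz) (io w) (io_mem hw)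
    rw [← map_sub io z w] at e2
    have e3 : Cq * (‖io z‖ + ‖io w‖) * ‖io (z - w)‖ ≤ Cq * (‖z‖ + ‖w‖) * ‖z - w‖ := by
      have := io_le z
      have := io_le w
      have := io_le (z - w)
      gcongr
    have e4 : 0 ≤ (‖z‖ + ‖w‖) * ‖z - w‖ := by positivity
    calc _ ≤ 2 * (Cq * (‖z‖ + ‖w‖) * ‖z - w‖) := by linarith
      _ ≤ 2 * (Cq * (‖z‖ + ‖w‖) * ‖z - w‖) + (‖z‖ + ‖w‖) * ‖z - w‖ := by linarith
      _ = _ := by ring
  have hsub : ball (0 : E2) r' ⊆ ball (0 : E2) r := ball_subset_ball hr'r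
  have hq0 : ∀ n, qst F q n 0 = 0 := by
    intro n
    show io.symm (Bed.orb F (q * n) q (io 0)) = 0
    rw [map_zero, orb_zero' h, map_zero]
  have hda : ∀ n, ∀ z ∈ ball (0 : E2) r,
      HasFDerivAt (qst F q n) (((io.symm : V ≃L[ℂ] E2) : V →L[ℂ] E2).comp
        ((fderiv ℂ (Bed.orb F (q * n) q) (io z)).comp (io : E2 →L[ℂ] V))) z := by
    intro n z hz
    have h1 : HasFDerivAt (Bed.orb F (q * n) q) (fderiv ℂ (Bed.orb F (q * n) q) (io z)) (io z) :=
      (orb_diffAt h (q * n) q (io z) (io_mem hz)).hasFDerivAt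
    have h2 : HasFDerivAt (fun y : E2 => io y) (io : E2 →L[ℂ] V) z := io.hasFDerivAt
    have h3 : HasFDerivAt (fun y : V => io.symm y) ((io.symm : V ≃L[ℂ] E2) : V →L[ℂ] E2)
      (Bed.orb F (q * n) q (io z)) := io.symm.hasFDerivAt
    exact h3.comp z (h1.comp z h2)
  refine ⟨q, x, ℓ, r', C₀, L, hq, hr'r, ⟨⟨hℓ, hx2, hx3, hLup, hLlow⟩, hr'p, hC₀p, ?_, ?_, ?_, ?_, ?_⟩⟩
  · intro n z hz
    exact (hda n z (hsub hz)).differentiableAt.differentiableWithinAt
  · intro n z hz w hw hzw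
    have h1 := io.symm.injective hzw
    exact io.injective (orb_inj h (q * n) q (io_mem (hsub hz)) (io_mem (hsub hw)) h1)
  · intro n z hz w hw
    rw [(hda n z (hsub hz)).fderiv] at hw
    have h1 : io.symm (fderiv ℂ (Bed.orb F (q * n) q) (io z) (io w)) = 0 := hw
    have h2 : fderiv ℂ (Bed.orb F (q * n) q) (io z) (io w) = 0 := by
      rwa [map_eq_zero_iff _ io.symm.injective] at h1
    have h3 := orb_dinj h (q * n) q (io z) (io_mem (hsub hz)) (io w) h2
    rwa [map_eq_zero_iff _ io.injective] at h3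
  · intro n z hz
    have h1 := hquad n z (hsub hz) 0 (mem_ball_self h.r_pos)
    rw [hq0, map_zero, sub_zero, sub_zero, sub_zero, norm_zero, add_zero] at h1
    have h2 := hLup n z
    have h3 : ‖qst F q n z‖ ≤ ‖qst F q n z - L n z‖ + ‖L n z‖ := by
      have := norm_add_le (qst F q n z - L n z) (L n z)
      rwa [sub_add_cancel] at this
    have h4 : ‖z‖ ≤ r' := (mem_ball_zero_iff.1 hz).le
    have h5 : C₀ * ‖z‖ * ‖z‖ ≤ C₀ * r' * ‖z‖ := by gcongr
    have h6 := mul_le_mul_of_nonneg_right hr'e (norm_nonneg z)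
    linarith
  · intro n z hz w hw
    exact hquad n z (hsub hz) w (hsub hw)

end Pool.Agent.Lib.BedD
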