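import Pool.Agent.Lib.BedD.SpecL

/-! # MP_6f050a_an, theorem D: the recursion for two consecutive stages with dips -/

set_option autoImplicit false

open scoped Topology
open Set Filter Metric

namespace Pool.Agent.Lib.BedD

theorem sRec : S_Rec := by
  intro x ℓ A B A' B' s t e t' e' P ρ κ hℓ hx2 hx3 hP0 hκ0 hS hS' hG hD hPs hG' hD'
  obtain ⟨i, hti, hie, hDi, hmin⟩ := hD
  obtain ⟨i', hti', hie', hDi', -⟩ := hD'
  have hρ := hPs.ρ_eq
  have hρ0 : 0 ≤ ρ := by rw [hρ]; exact pp_nonneg _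
  -- (1)
  have h1 : A i - κ ≤ A' i := hPs.low i hti hie fun j hj hji => by
    have h2 := hmin j hj hji
    have h3 := pp_nonneg (P + min (GG x A B t) (GG x A B e))
    rw [hρ]
    linarith
  have h2 := hPs.sum i
  have h3 : B' i - A' i ≤ pp (P + min (GG x A B t) (GG x A B e)) + 2 * κ := by
    rw [← hρ] at hDi
    linarith
  -- (2)
  obtain ⟨θ, hθ⟩ : ∃ θ, θ = GG x A B t := ⟨_, rfl⟩
  obtain ⟨θ', hθ'⟩ : ∃ θ', θ' = GG x A' B' t' := ⟨_, rfl⟩
  have hg'e : GG x A B e - ρ ≤ θ' := by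
    have h4 := hG'.mx e le_rfl (lt_of_le_of_lt hG'.st hG'.te)
    have h5 := hPs.sum e
    have h6 := hPs.le e
    have h7 : GG x A B e - ρ ≤ GG x A' B' e := by
      unfold GG gam
      nlinarith
    rw [hθ']
    linarith
  obtain ⟨m, hm⟩ : ∃ m, m = min (GG x A B t) (GG x A B e) := ⟨_, rfl⟩
  have hm1 : m ≤ θ := by rw [hm, hθ]; exact min_le_left _ _
  have hm2 : m ≤ GG x A B e := by rw [hm]; exact min_le_right _ _
  rw [← hm] at h3 hDi
  rw [← hθ] at hDi hρ
  have hDi0 : 0 ≤ B i - A i := by linarith [hS.AB i]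
  have hDi0' : 0 ≤ B' i' - A' i' := by linarith [hS'.AB i']
  -- `μ` and `μ'`
  obtain ⟨μ, hμ0, hμθ, hμr⟩ : ∃ μ, 0 ≤ μ ∧ ρ - μ = θ ∧ (θ < 0 → ρ = 0) := by
    rcases le_or_gt 0 θ with h | h
    · exact ⟨0, le_rfl, by rw [hρ, pp_of_nonneg h, sub_zero], fun h' => absurd h (not_le.2 h')⟩
    · exact ⟨-θ, by linarith, by rw [hρ, pp_of_nonpos h.le]; ring, fun _ => by
        rw [hρ, pp_of_nonpos h.le]⟩
  obtain ⟨μ', hμ0', hμθ', hμz⟩ : ∃ μ', 0 ≤ μ' ∧ pp θ' - μ' = θ' ∧ (0 < μ' → θ' = -μ') := by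
    rcases le_or_gt 0 θ' with h | h
    · exact ⟨0, le_rfl, by rw [pp_of_nonneg h, sub_zero], fun h' => absurd h' (lt_irrefl _)⟩
    · exact ⟨-θ', by linarith, by rw [pp_of_nonpos h.le]; ring, fun _ => by ring⟩
  have hmm : P + m ≤ P + ρ - μ := by linarith
  have hmm' : P + m ≤ P + ρ - μ' := by
    rcases hμ0'.eq_or_lt with h | h
    · rw [← h]
      linarith
    · have := hμz h
      linarith
  -- (3)
  have hμP : μ ≤ P + ρ := by
    rcases le_or_gt 0 θ with h | h
    · linarith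
    · by_contra hlt
      have h4 : P + m ≤ 0 := by linarith
      rw [pp_of_nonpos h.le, pp_of_nonpos h4] at hDi
      linarith
  have hμP' : μ' ≤ P + ρ := by
    rcases hμ0'.eq_or_lt with h | h
    · linarith
    · have h5 := hμz h
      by_contra hlt
      have h6 : P + ρ + min (GG x A' B' t') (GG x A' B' e') ≤ 0 := by
        have := min_le_left (GG x A' B' t') (GG x A' B' e')
        rw [← hθ'] at this
        rw [← hθ']
        linarith
      rw [← hθ'] at hDi' h6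
      rw [pp_of_nonpos (by linarith : θ' ≤ 0), pp_of_nonpos h6] at hDi'
      linarith
  have hD1 : B' i - A' i ≤ P + ρ - μ + 2 * κ := by
    have := pp_le hmm (by linarith)
    linarith
  have hD2 : B' i - A' i ≤ P + ρ - μ' + 2 * κ := by
    have := pp_le hmm' (by linarith)
    linarith
  -- (4)
  have h4 : B' t = gam x * A t - μ := by
    have h5 := hPs.sum t
    rw [hPs.at_t] at h5
    unfold GG at hθ
    linarith
  have h5 := hS'.I2 (by linarith) hti
  rw [h4, hPs.at_t] at h5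
  -- (5)
  have h6 := hS'.I1 (by linarith) (hie.trans hG'.st)
  have h7 : B' t' = gam x * A' t' + θ' := by
    unfold GG at hθ'
    linarith
  rw [h7] at h6
  -- (6)
  rw [← hθ']
  have e1 : (x + 1) * (B' i - A' i) ≤ x * (P + ρ - μ + 2 * κ) + (P + ρ - μ' + 2 * κ) := by
    have := mul_le_mul_of_nonneg_left hD1 (by linarith : 0 ≤ x)
    linarith
  unfold gam at *
  nlinarith

end Pool.Agent.Lib.BedD
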