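import Pool.Agent.Lib.BedD.SpecT
import Pool.Agent.Lib.BedD.Basic

/-!
# MP_6f050a_an, theorem D: the basin (SE)
-/

set_option autoImplicit false

open scoped Topology
open Set Filter Metric

namespace Pool.Agent.Lib.BedD

namespace sSEAux

theorem le_s (s : ℕ → ℕ) (h : ∀ j, s j < s (j + 1)) (j : ℕ) : j ≤ s j := by
  induction j with
  | zero => exact Nat.zero_le _
  | succ j ih => exact Nat.succ_le_of_lt (lt_of_le_of_lt ih (h j))

theorem mono_s (s : ℕ → ℕ) (h : ∀ j, s j < s (j + 1)) {i j : ℕ} (hij : i ≤ j) : s i ≤ s j := by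
  induction j, hij using Nat.le_induction with
  | base => exact le_rfl
  | succ j hj ih => exact ih.trans (h j).le

/-- Two orbits one after the other. -/
theorem orbE_join (f : ℕ → E2 → E2) (a b c : ℕ) (hab : a ≤ b) (hbc : b ≤ c) (w : E2) :
    orbE f b (c - b) (orbE f a (b - a) w) = orbE f a (c - a) w := by
  have h1 : c - a = (b - a) + (c - b) := by omega
  have h2 : a + (b - a) = b := by omega
  rw [h1, orbE_add, h2]

theorem orbE_first (f : ℕ → E2 → E2) (m c : ℕ) (h : m + 1 ≤ c) (w : E2) :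
    orbE f (m + 1) (c - (m + 1)) (f m w) = orbE f m (c - m) w := by
  have h1 : c - m = (c - (m + 1)) + 1 := by omega
  rw [h1, orbE_succ']

end sSEAux

open sSEAux in
theorem sSE : S_SE := by
  intro hMk hTr hOrb x ℓ r C₀ f L hf
  obtain ⟨s, M, P, ρ, R, e, S, T, hs, htr⟩ := hMk x ℓ r C₀ f L hf
  obtain ⟨Φ, hd, hc, hi, hdi, ho⟩ := hTr _ _ _ _ _ _ _ _ htr
  have hO := hOrb x ℓ r C₀ f L hf
  have hopen : IsOpen (ball (0 : E2) r) := isOpen_ball
  -- the change of coordinates
  let g : ℕ → E2 → E2 := fun m w => (La L (M m) (s m)).symm (orbE f m (s m - m) w)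
  have hLg : ∀ m w, La L (M m) (s m) (g m w) = orbE f m (s m - m) w := fun m w =>
    (La L (M m) (s m)).apply_symm_apply _
  have hmem : ∀ j m w, w ∈ ball (0 : E2) r → ∀ k,
      (La L (M j) (s j)).symm (orbE f m k w) ∈ Dm r L s M j := by
    intro j m w hw k
    have h1 := (hO m k).2.1 hw
    rw [mem_ball_zero_iff] at h1
    show ‖La L (M j) (s j) ((La L (M j) (s j)).symm (orbE f m k w))‖ < r
    rw [(La L (M j) (s j)).apply_symm_apply]
    exact h1
  have hgm : ∀ m, MapsTo (g m) (ball 0 r) (Dm r L s M m) := fun m w hw => hmem m m w hw _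
  have hgd : ∀ m, DifferentiableOn ℂ (g m) (ball 0 r) := fun m =>
    (La L (M m) (s m)).symm.differentiable.comp_differentiableOn (hO m (s m - m)).1
  have hgi : ∀ m, InjOn (g m) (ball 0 r) := by
    intro m a ha b hb hab
    exact (hO m (s m - m)).2.2.1 ha hb ((La L (M m) (s m)).symm.injective hab)
  have hgdi : ∀ m, ∀ z ∈ ball (0 : E2) r, ∀ w, fderiv ℂ (g m) z w = 0 → w = 0 := by
    intro m z hz w hw
    have h1 : DifferentiableAt ℂ (orbE f m (s m - m)) z :=
      (hO m (s m - m)).1.differentiableAt (hopen.mem_nhds hz)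
    have h2 : fderiv ℂ (g m) z w = (La L (M m) (s m)).symm (fderiv ℂ (orbE f m (s m - m)) z w) := by
      have h3 : g m = (La L (M m) (s m)).symm ∘ orbE f m (s m - m) := rfl
      rw [h3, (La L (M m) (s m)).symm.comp_fderiv]
      rfl
    rw [h2] at hw
    have h4 : fderiv ℂ (orbE f m (s m - m)) z w = 0 := by
      apply (La L (M m) (s m)).symm.injective
      rw [hw, map_zero]
    exact (hO m (s m - m)).2.2.2.1 z hz w h4
  have hopD : ∀ j, IsOpen (Dm r L s M j) := htr.open_dom
  refine ⟨fun m w => Φ m (g m w), ?_, ?_, ?_, ?_, ?_⟩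
  · intro m
    exact (hd m).comp (hgd m) (hgm m)
  · intro m w hw
    have h1 : g (m + 1) (f m w) = Th L f s M m (g m w) := by
      show (La L (M (m + 1)) (s (m + 1))).symm (orbE f (m + 1) (s (m + 1) - (m + 1)) (f m w)) =
        (La L (M (m + 1)) (s (m + 1))).symm
          (orbE f (s m) (s (m + 1) - s m) (La L (M m) (s m) (g m w)))
      rw [hLg, orbE_first f m _ (le_s s hs (m + 1)), orbE_join f m (s m) (s (m + 1)) (le_s s hs m)
        (hs m).le]
    show Φ (m + 1) (g (m + 1) (f m w)) = Φ m (g m w)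
    rw [h1]
    exact hc m _ (hgm m hw)
  · intro m a ha b hb hab
    exact hgi m ha hb (hi m (hgm m ha) (hgm m hb) hab)
  · intro m z hz w hw
    have h1 : DifferentiableAt ℂ (g m) z := (hgd m).differentiableAt (hopen.mem_nhds hz)
    have h2 : DifferentiableAt ℂ (Φ m) (g m z) :=
      (hd m).differentiableAt ((hopD m).mem_nhds (hgm m hz))
    have h3 : fderiv ℂ (fun w => Φ m (g m w)) z = (fderiv ℂ (Φ m) (g m z)).comp (fderiv ℂ (g m) z) :=
      fderiv_comp z h2 h1
    rw [h3] at hw
    exact hgdi m z hz w (hdi m _ (hgm m hz) _ hw)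
  · intro u
    obtain ⟨l, z, hz, hu⟩ := ho u
    have hw : La L (M l) (s l) z ∈ ball (0 : E2) r := by
      rw [mem_ball_zero_iff]
      exact hz
    refine ⟨s l, La L (M l) (s l) z, hw, ?_⟩
    have key : ∀ j, l ≤ j →
        Φ j ((La L (M j) (s j)).symm (orbE f (s l) (s j - s l) (La L (M l) (s l) z))) = u := by
      intro j hj
      induction j, hj using Nat.le_induction with
      | base =>
        rw [Nat.sub_self, orbE_zero, (La L (M l) (s l)).symm_apply_apply, hu]
      | succ j hj ih =>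
        rw [← ih, ← hc j _ (hmem j (s l) _ hw _)]
        congr 1
        show _ = (La L (M (j + 1)) (s (j + 1))).symm (orbE f (s j) (s (j + 1) - s j)
          (La L (M j) (s j) ((La L (M j) (s j)).symm
            (orbE f (s l) (s j - s l) (La L (M l) (s l) z)))))
        rw [(La L (M j) (s j)).apply_symm_apply, orbE_join f (s l) (s j) (s (j + 1))
          (mono_s s hs hj) (hs j).le]
    exact key (s l) (le_s s hs l)

end Pool.Agent.Lib.BedD
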