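import Pool.Agent.Lib.BedD.SpecL

/-!
# MP_6f050a_an, theorem D: the sequence of stages (helper73)
-/

set_option autoImplicit false

open scoped Topology
open Set Filter Metric

namespace Pool.Agent.Lib.BedD

namespace sSSAux

theorem log_lin (a b : ℝ) (ha : 0 < a) (hb : 0 < b) :
    ∃ A₁ : ℝ, 1 ≤ A₁ ∧ ∀ τ, A₁ ≤ τ → Real.log (1 + a * τ) ≤ b * τ := by
  have hN : 1 < 2 * a / b + 1 := by
    have : 0 < 2 * a / b := by positivity
    linarith
  set N := 2 * a / b + 1 with hNdef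
  have hN0 : 0 < N := by linarith
  refine ⟨max 1 (2 * Real.log N / b), le_max_left _ _, fun τ hτ => ?_⟩
  have h1 : 1 ≤ τ := (le_max_left _ _).trans hτ
  have h2 : 2 * Real.log N / b ≤ τ := (le_max_right _ _).trans hτ
  have h3 : 2 * Real.log N ≤ τ * b := (div_le_iff₀ hb).mp h2
  have hy : 0 < 1 + a * τ := by
    have : 0 < a * τ := by positivity
    linarith
  have h4 : Real.log ((1 + a * τ) / N) ≤ (1 + a * τ) / N - 1 :=
    Real.log_le_sub_one_of_pos (by positivity)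
  rw [Real.log_div hy.ne' hN0.ne'] at h4
  have h5 : (1 + a * τ) / N ≤ 1 + b * τ / 2 := by
    rw [div_le_iff₀ hN0, hNdef]
    have e1 : (1 + b * τ / 2) * (2 * a / b + 1) = 2 * a / b + 1 + a * τ + b * τ / 2 := by
      field_simp
      ring
    rw [e1]
    have e2 : 0 < 2 * a / b := by positivity
    have e3 : 0 < b * τ := by positivity
    linarith
  nlinarith

theorem eA_refl : eA (ContinuousLinearEquiv.refl ℂ E2) = 0 := by
  obtain ⟨z, hz⟩ := exists_unit
  refine le_antisymm (eA_le_of _ 0 z hz ?_) (eA_ge _ 0 fun w => ?_)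
  · simp [hz]
  · simp

theorem eB_refl : eB (ContinuousLinearEquiv.refl ℂ E2) = 0 := by
  obtain ⟨z, hz⟩ := exists_unit
  refine le_antisymm (eB_le _ 0 fun w => ?_) (eB_ge_of _ 0 z hz ?_)
  · simp
  · simp [hz]

/-- states -/
structure St (x As : ℝ) (L : ℕ → E2 ≃L[ℂ] E2) where
  s : ℕ
  M : E2 ≃L[ℂ] E2
  P : ℝ
  inv : Inv x (LA L M) (LB L M) s P
  big : As ≤ LA L M s

/-- the data of a step -/
structure Dt where
  t : ℕ
  e : ℕ
  u : E2
  v : E2
  M' : E2 ≃L[ℂ] E2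
  ρ : ℝ

theorem A_mono {x ℓ : ℝ} {A B : ℕ → ℝ} (h : Slp x ℓ A B) (hℓ : 0 ≤ ℓ) {m n : ℕ} (hmn : m ≤ n) :
    A m + ℓ * ((n : ℝ) - m) ≤ A n := by
  obtain ⟨k, rfl⟩ := Nat.exists_eq_add_of_le hmn
  have := h.A_add m k
  push_cast
  linarith

end sSSAux

open sSSAux

theorem sSS : S_SS := by
  intro hSlo hInh hRec hGr hStp x ℓ L hp
  have hx2 := hp.x_gt
  have hx3 := hp.x_lt
  have hℓ := hp.ℓ_pos
  set c₀ : ℝ := (x + 1) * (3 - x) / 2 with hc₀
  have hc₀pos : 0 < c₀ := by rw [hc₀]; nlinarith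
  have hc₀le : c₀ ≤ 6 := by rw [hc₀]; nlinarith
  have hc₀lt : c₀ < 108 := by linarith
  set K : ℝ := 108 / c₀ with hK
  have hK1 : 1 < K := by rw [hK, lt_div_iff₀ hc₀pos]; linarith
  have hC₁ : 0 < CC x ℓ := Real.exp_pos _
  set C₅ : ℝ := K / ℓ + x + 1 with hC₅
  have hC₅pos : 0 < C₅ := by
    have : 0 < K / ℓ := by positivity
    rw [hC₅]; linarith
  refine ⟨C₅, hC₅pos, fun Astar => ?_⟩
  have hx1 : 0 < x + 1 := by linarith
  obtain ⟨A₁, hA₁, hA₁'⟩ := log_lin (CC x ℓ * C₅) (c₀ / (4 * (x + 1))) (by positivity) (by positivity)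
  obtain ⟨A₂, hA₂, hA₂'⟩ := log_lin (CC x ℓ * C₅) (K / 2) (by positivity) (by linarith)
  set As : ℝ := max Astar (max A₁ A₂) with hAs
  have hAs0 : Astar ≤ As := le_max_left _ _
  have hAs1 : A₁ ≤ As := (le_max_left _ _).trans (le_max_right _ _)
  have hAs2 : A₂ ≤ As := (le_max_right _ _).trans (le_max_right _ _)
  have hslp : ∀ M : E2 ≃L[ℂ] E2, Slp x ℓ (LA L M) (LB L M) := fun M => hSlo x ℓ L hp M
  -- the initial state
  have hγ : 0 < x - gam x := by unfold gam; linarith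
  have hγ1 : x - gam x ≤ 1 := by unfold gam; linarith
  have hst0 : Nonempty (St x As L) := by
    set M₀ := ContinuousLinearEquiv.refl ℂ E2 with hM₀
    have hA0 : LA L M₀ 0 = 0 := eA_refl
    have hB0 : LB L M₀ 0 = 0 := eB_refl
    obtain ⟨s₀, hs₀⟩ := exists_nat_ge (As / ℓ)
    have h1 : As ≤ s₀ * ℓ := (div_le_iff₀ hℓ).mp hs₀
    have h2 := (hslp M₀).A_add 0 s₀
    rw [Nat.zero_add, hA0] at h2
    have h3 : As ≤ LA L M₀ s₀ := by linarith
    have h4 := (hslp M₀).I1 (by linarith) (Nat.zero_le s₀)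
    rw [hA0, hB0] at h4
    refine ⟨⟨s₀, M₀, 0, ⟨by linarith, le_rfl, ?_, by linarith⟩, h3⟩⟩
    have : 0 < LA L M₀ s₀ := by linarith
    positivity
  obtain ⟨σ₀⟩ := hst0
  -- one step
  have hstep : ∀ σ : St x As L, ∃ d : Dt, StpR x ℓ K L σ.s σ.M σ.P d.t d.e d.u d.v d.M' d.ρ := by
    intro σ
    obtain ⟨t, e, u, v, M', ρ, h⟩ := hStp x ℓ K L hp hK1 σ.s σ.M σ.P σ.inv
    exact ⟨⟨t, e, u, v, M', ρ⟩, h⟩
  choose D hD using hstep
  have hbig : ∀ σ : St x As L, As ≤ LA L (D σ).M' (D σ).e := by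
    intro σ
    have h1 := (hInh x ℓ _ _ _ _ _ _ _ _ _ _ hℓ hx2 hx3 (hslp σ.M) (hslp (D σ).M') σ.inv (hD σ).good
      (hD σ).psd).2.2.1
    have h2 : σ.s ≤ (D σ).e := (hD σ).good.st.trans (hD σ).good.te.le
    have h3 : (σ.s : ℝ) ≤ ((D σ).e : ℝ) := by exact_mod_cast h2
    have h4 := σ.big
    nlinarith
  let nxt : St x As L → St x As L := fun σ => ⟨(D σ).e, (D σ).M', σ.P + (D σ).ρ, (hD σ).inv, hbig σ⟩
  let q : ℕ → St x As L := fun j => nxt^[j] σ₀
  have hq : ∀ j, q (j + 1) = nxt (q j) := fun j => Function.iterate_succ_apply' nxt j σ₀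
  -- the sequences
  obtain ⟨s, M, P, t, u, v, ρ, hinv, hbg, hS, hP⟩ : ∃ (s : ℕ → ℕ) (M : ℕ → E2 ≃L[ℂ] E2)
      (P : ℕ → ℝ) (t : ℕ → ℕ) (u v : ℕ → E2) (ρ : ℕ → ℝ),
      (∀ j, Inv x (LA L (M j)) (LB L (M j)) (s j) (P j)) ∧ (∀ j, As ≤ LA L (M j) (s j)) ∧
      (∀ j, StpR x ℓ K L (s j) (M j) (P j) (t j) (s (j + 1)) (u j) (v j) (M (j + 1)) (ρ j)) ∧
      ∀ j, P (j + 1) = P j + ρ j := by
    refine ⟨fun j => (q j).s, fun j => (q j).M, fun j => (q j).P, fun j => (D (q j)).t,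
      fun j => (D (q j)).u, fun j => (D (q j)).v, fun j => (D (q j)).ρ, fun j => (q j).inv,
      fun j => (q j).big, fun j => ?_, fun j => ?_⟩
    · have h1 := hD (q j)
      have h2 : (q (j + 1)).s = (D (q j)).e := by rw [hq]
      have h3 : (q (j + 1)).M = (D (q j)).M' := by rw [hq]
      simp only [h2, h3]
      exact h1
    · have h2 : (q (j + 1)).P = (q j).P + (D (q j)).ρ := by rw [hq]
      simp only [h2]
  have hI := fun j => hInh x ℓ _ _ _ _ _ _ _ _ _ _ hℓ hx2 hx3 (hslp (M j)) (hslp (M (j + 1)))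
    (hinv j) (hS j).good (hS j).psd
  have hle : ∀ j, s j ≤ t j := fun j => (hS j).good.st
  have hlt : ∀ j, t j < s (j + 1) := fun j => (hS j).good.te
  have hlt' : ∀ j, s j < s (j + 1) := fun j => (hle j).trans_lt (hlt j)
  have hone : ∀ j, 1 ≤ LA L (M j) (s j) := fun j => by
    have := hbg j
    linarith
  have hlen : ∀ j, (s (j + 1) : ℝ) - s j + 1 ≤ C₅ * LA L (M j) (s j) := by
    intro j
    have h1 := A_mono (hslp (M j)) hℓ.le (hlt' j).le
    have h2 := (hS j).e_le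
    have h3 := hone j
    have h4 : ((s (j + 1) : ℝ) - s j) * ℓ ≤ (K / ℓ * LA L (M j) (s j) + x) * ℓ := by
      have e1 : (K / ℓ * LA L (M j) (s j) + x) * ℓ = K * LA L (M j) (s j) + x * ℓ := by
        field_simp
      rw [e1]
      nlinarith
    have h5 := le_of_mul_le_mul_right h4 hℓ
    rw [hC₅]
    nlinarith
  have hρ : ∀ j, ρ j = pp (GG x (LA L (M j)) (LB L (M j)) (t j)) := fun j => (hS j).psd.ρ_eq
  have hn0 : ∀ j, (0 : ℝ) ≤ (s (j + 1) : ℝ) - s j + 1 := by
    intro j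
    have : (s j : ℝ) ≤ s (j + 1) := by exact_mod_cast (hlt' j).le
    linarith
  have hκ0 : ∀ j, 0 ≤ Real.log (1 + CC x ℓ * ((s (j + 1) : ℝ) - s j + 1)) := by
    intro j
    refine Real.log_nonneg ?_
    have := hn0 j
    have : 0 ≤ CC x ℓ * ((s (j + 1) : ℝ) - s j + 1) := by positivity
    linarith
  have hκ : ∀ j, Real.log (1 + CC x ℓ * ((s (j + 1) : ℝ) - s j + 1)) ≤
      Real.log (1 + CC x ℓ * C₅ * LA L (M j) (s j)) := by
    intro j
    have h1 := hn0 j
    have h2 : 0 ≤ CC x ℓ * ((s (j + 1) : ℝ) - s j + 1) := by positivity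
    refine Real.log_le_log (by linarith) ?_
    have h3 := mul_le_mul_of_nonneg_left (hlen j) hC₁.le
    linarith
  have hN : ∀ j, LA L (M j) (s j) ≤ LA L (M j) (t j) := by
    intro j
    have h1 := A_mono (hslp (M j)) hℓ.le (hle j)
    have h2 : (s j : ℝ) ≤ t j := by exact_mod_cast hle j
    nlinarith
  have hρ0 : ∀ j, 0 ≤ ρ j := fun j => by rw [hρ j]; exact pp_nonneg _
  refine ⟨s, M, P, ρ, u, v, c₀ / 18 * LA L (M 0) (s 0), ?_, ?_, ?_, ?_⟩
  · have := hone 0
    positivity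
  · refine ⟨hlt', fun j => (hinv j).P_nonneg, hP, hρ0, fun j => (hS j).fr, fun j => (hS j).M_eq, ?_, ?_,
      fun j => (hS j).dv, fun j => (hS j).du, fun j => (hS j).psd.le, fun j => (hI j).2.2.1, hlen, hone⟩
    · intro j m hm hm'
      rw [hρ j]
      exact ((hS j).good.mx m hm hm').trans (le_pp _)
    · intro j m hm
      have h1 := (hslp (M j)).I1 (by linarith : (0 : ℝ) ≤ x) hm
      have h2 := (hinv j).BP
      linarith
  · intro j
    exact hAs0.trans (hbg j)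
  · -- the growth
    refine hGr K c₀ (fun j => LA L (M j) (s j)) (fun j => LA L (M j) (t j))
      (fun j => (x - gam x) * LA L (M j) (t j) - P (j + 1))
      (fun j => Dip x (LA L (M j)) (LB L (M j)) (P j) (t j) (s (j + 1))) hc₀pos hc₀le le_rfl ?_ hN ?_ ?_ ?_
      ?_ ?_
    · have := hone 0
      exact lt_of_lt_of_le one_pos this
    · intro j
      exact (hI j).2.2.2.1
    · intro j
      have := (hI j).2.1
      change 0 ≤ (x - gam x) * LA L (M j) (t j) - P (j + 1)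
      rw [hP j]
      linarith
    · intro j
      change (x - gam x) * LA L (M j) (t j) - P (j + 1) ≤ LA L (M j) (t j)
      have h1 := (hinv (j + 1)).P_nonneg
      have h2 := hN j
      have h3 := hone j
      nlinarith
    · intro j hV
      change K / 2 * LA L (M j) (s j) ≤ LA L (M (j + 1)) (s (j + 1))
      have h1 : K * LA L (M j) (s j) ≤ LA L (M j) (s (j + 1)) := ((hS j).cd).resolve_right hV
      have h2 := (hI j).2.2.2.2
      have h3 := hκ j
      have h4 := hA₂' _ (hAs2.trans (hbg j))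
      linarith
    · intro j hV hV'
      change 3 * ((x - gam x) * LA L (M j) (t j) - P (j + 1)) + c₀ / 2 * LA L (M j) (t j) ≤
        (x - gam x) * LA L (M (j + 1)) (t (j + 1)) - P (j + 1 + 1)
      have h0 : Good x (LA L (M (j + 1))) (LB L (M (j + 1))) (s (j + 1)) (P j + ρ j) (t (j + 1))
          (s (j + 1 + 1)) := by
        rw [← hP j]
        exact (hS (j + 1)).good
      have h0' : Dip x (LA L (M (j + 1))) (LB L (M (j + 1))) (P j + ρ j) (t (j + 1))
          (s (j + 1 + 1)) := by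
        rw [← hP j]
        exact hV'
      have h1 := hRec x ℓ _ _ _ _ _ _ _ _ _ _ _ _ hℓ hx2 hx3 (hinv j).P_nonneg (hκ0 j) (hslp (M j))
        (hslp (M (j + 1))) (hS j).good hV (hS j).psd h0 h0'
      have h2 := hκ j
      have h3 := hA₁' _ (hAs1.trans (hbg j))
      have h4 := (hI j).2.1
      have h5 := hN j
      have h6 : Real.log (1 + CC x ℓ * ((s (j + 1) : ℝ) - s j + 1)) ≤
          c₀ / (4 * (x + 1)) * LA L (M j) (t j) := by
        refine (h2.trans h3).trans ?_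
        exact mul_le_mul_of_nonneg_left h5 (by positivity)
      have h7 : 2 * (x + 1) * Real.log (1 + CC x ℓ * ((s (j + 1) : ℝ) - s j + 1)) ≤
          c₀ / 2 * LA L (M j) (t j) := by
        have e1 : c₀ / 2 * LA L (M j) (t j) =
            2 * (x + 1) * (c₀ / (4 * (x + 1)) * LA L (M j) (t j)) := by
          field_simp
          ring
        rw [e1]
        exact mul_le_mul_of_nonneg_left h6 (by positivity)
      rw [hP (j + 1), hρ (j + 1), hP j]
      have h8 : 0 ≤ (x - gam x) * LA L (M j) (t j) - (P j + ρ j) := by linarith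
      have h9 : 3 * ((x - gam x) * LA L (M j) (t j) - (P j + ρ j)) ≤
          (x + 2) * ((x - gam x) * LA L (M j) (t j) - (P j + ρ j)) :=
        mul_le_mul_of_nonneg_right (by linarith) h8
      rw [← hc₀] at h1
      linarith

end Pool.Agent.Lib.BedD
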