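import Pool.Agent.Lib.BedD.SpecL

/-! # MP_6f050a_an, theorem D: singular frames -/

set_option autoImplicit false

open scoped Topology
open Set Filter Metric

namespace Pool.Agent.Lib.BedD

namespace sSVDAux

/-- the orthogonal unit vector -/
theorem exists_orth (u : E2) (hu : ‖u‖ = 1) : ∃ v : E2, Fr u v := by
  refine ⟨WithLp.toLp 2 ![-(starRingEnd ℂ) (u 1), (starRingEnd ℂ) (u 0)], hu, ?_, ?_⟩
  · have h1 : ‖(WithLp.toLp 2 ![-(starRingEnd ℂ) (u 1), (starRingEnd ℂ) (u 0)] : E2)‖ ^ 2 = 1 := by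
      rw [norm_sq_two]
      have h2 := norm_sq_two u
      rw [hu] at h2
      simp
      linarith
    nlinarith [norm_nonneg (WithLp.toLp 2 ![-(starRingEnd ℂ) (u 1), (starRingEnd ℂ) (u 0)] : E2)]
  · rw [inner_two]
    simp
    ring

/-- the norm of the image in an orthogonal situation -/
theorem norm_img {T : E2 ≃L[ℂ] E2} {u v : E2} (h : Fr u v) (ho : inner ℂ (T u) (T v) = 0) (z : E2) :
    ‖T z‖ ^ 2 = ‖(inner ℂ u z : ℂ)‖ ^ 2 * ‖T u‖ ^ 2 + ‖(inner ℂ v z : ℂ)‖ ^ 2 * ‖T v‖ ^ 2 := by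
  have h1 : T z = (inner ℂ u z : ℂ) • T u + (inner ℂ v z : ℂ) • T v := by
    conv_lhs => rw [h.expand z]
    rw [map_add, map_smul, map_smul]
  rw [h1, @norm_add_sq ℂ, inner_smul_left, inner_smul_right, ho, norm_smul, norm_smul]
  simp
  ring

end sSVDAux

open sSVDAux in
theorem sSVD : S_SVD := by
  intro T
  have hne : (sphere (0 : E2) 1).Nonempty := by
    obtain ⟨z, hz⟩ := exists_unit
    exact ⟨z, by simpa using hz⟩
  obtain ⟨u, hu, hmax⟩ := (isCompact_sphere (0 : E2) 1).exists_isMaxOn hne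
    (f := fun z => ‖T z‖) T.continuous.norm.continuousOn
  have hu1 : ‖u‖ = 1 := by simpa using hu
  obtain ⟨v, hf⟩ := exists_orth u hu1
  have hbd : ∀ z, ‖T z‖ ≤ ‖T u‖ * ‖z‖ := by
    intro z
    rcases eq_or_ne z 0 with rfl | hz
    · simp
    · have hz0 : 0 < ‖z‖ := norm_pos_iff.2 hz
      have h1 : ‖T (((‖z‖⁻¹ : ℝ) : ℂ) • z)‖ ≤ ‖T u‖ := by
        refine hmax ?_
        rw [mem_sphere_zero_iff_norm, norm_smul, Complex.norm_real, norm_inv, norm_norm]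
        exact inv_mul_cancel₀ hz0.ne'
      rw [map_smul, norm_smul, Complex.norm_real, norm_inv, norm_norm, inv_mul_le_iff₀ hz0] at h1
      linarith
  have horth : inner ℂ (T u) (T v) = (0 : ℂ) := by
    by_contra hc
    obtain ⟨c, hcd⟩ : ∃ c : ℂ, c = inner ℂ (T u) (T v) := ⟨_, rfl⟩
    rw [← hcd] at hc
    have hc0 : 0 < ‖c‖ ^ 2 := by
      have := norm_pos_iff.2 hc
      positivity
    have key : ∀ s : ℝ, 0 < s → 2 ≤ s * ‖T u‖ ^ 2 := by
      intro s hs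
      have h1 := hbd (u + ((s : ℂ) * (starRingEnd ℂ) c) • v)
      have h2 : ‖T (u + ((s : ℂ) * (starRingEnd ℂ) c) • v)‖ ^ 2 =
          ‖T u‖ ^ 2 + 2 * (s * ‖c‖ ^ 2) + s ^ 2 * ‖c‖ ^ 2 * ‖T v‖ ^ 2 := by
        rw [map_add, map_smul, @norm_add_sq ℂ, inner_smul_right, ← hcd, norm_smul, norm_mul,
          Complex.norm_real, RCLike.norm_conj, Real.norm_of_nonneg hs.le]
        have h3 : ((s : ℂ) * (starRingEnd ℂ) c * c) = ((s * ‖c‖ ^ 2 : ℝ) : ℂ) := by
          rw [mul_assoc, Complex.conj_mul']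
          push_cast
          ring
        rw [h3]
        simp only [RCLike.re_to_complex, Complex.ofReal_re]
        ring
      have h4 : ‖u + ((s : ℂ) * (starRingEnd ℂ) c) • v‖ ^ 2 = 1 + s ^ 2 * ‖c‖ ^ 2 := by
        rw [@norm_add_sq ℂ, inner_smul_right, hf.uv, norm_smul, norm_mul,
          Complex.norm_real, RCLike.norm_conj, Real.norm_of_nonneg hs.le, hf.nu, hf.nv]
        simp
        ring
      have h5 : ‖T (u + ((s : ℂ) * (starRingEnd ℂ) c) • v)‖ ^ 2 ≤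
          (‖T u‖ * ‖u + ((s : ℂ) * (starRingEnd ℂ) c) • v‖) ^ 2 :=
        pow_le_pow_left₀ (norm_nonneg _) h1 2
      rw [mul_pow, h2, h4] at h5
      have h6 : 0 ≤ s ^ 2 * ‖c‖ ^ 2 * ‖T v‖ ^ 2 := by positivity
      have h7 : (s * ‖c‖ ^ 2) * 2 ≤ (s * ‖c‖ ^ 2) * (s * ‖T u‖ ^ 2) := by nlinarith
      exact le_of_mul_le_mul_left h7 (by positivity)
    have h1 := key (1 / (‖T u‖ ^ 2 + 1)) (by positivity)
    have h2 : 1 / (‖T u‖ ^ 2 + 1) * ‖T u‖ ^ 2 ≤ 1 := by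
      rw [one_div, inv_mul_le_iff₀ (by positivity)]
      linarith
    linarith
  have hu0 : 0 < ‖T u‖ := by
    rw [norm_pos_iff]
    intro h
    have : u = 0 := by simpa using h
    rw [this, norm_zero] at hu1
    exact zero_ne_one hu1
  have hv0 : 0 < ‖T v‖ := by
    rw [norm_pos_iff]
    intro h
    have h1 : v = 0 := by simpa using h
    have h2 := hf.nv
    rw [h1, norm_zero] at h2
    exact zero_ne_one h2
  have hvu : ‖T v‖ ≤ ‖T u‖ := by
    have := hbd v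
    rwa [hf.nv, mul_one] at this
  have hlow : ∀ z, ‖T v‖ * ‖z‖ ≤ ‖T z‖ := by
    intro z
    have h1 : (‖T v‖ * ‖z‖) ^ 2 ≤ ‖T z‖ ^ 2 := by
      rw [norm_img hf horth z, mul_pow, hf.norm_sq z]
      have h2 : ‖T v‖ ^ 2 ≤ ‖T u‖ ^ 2 := pow_le_pow_left₀ hv0.le hvu 2
      have h3 := mul_le_mul_of_nonneg_left h2 (sq_nonneg ‖(inner ℂ u z : ℂ)‖)
      nlinarith
    exact (abs_le_of_sq_le_sq' h1 (norm_nonneg _)).2
  refine ⟨u, v, hf, ?_, ?_, horth⟩
  · have h1 : Real.exp (-(-Real.log ‖T u‖)) = ‖T u‖ := by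
      rw [neg_neg, Real.exp_log hu0]
    have h2 := eA_ge T (-Real.log ‖T u‖) (fun z => by rw [h1]; exact hbd z)
    have h3 := eA_le_of T (-Real.log ‖T u‖) u hu1 h1.le
    rw [le_antisymm h3 h2, h1]
  · have h1 : Real.exp (-(-Real.log ‖T v‖)) = ‖T v‖ := by
      rw [neg_neg, Real.exp_log hv0]
    have h2 := eB_le T (-Real.log ‖T v‖) (fun z => by rw [h1]; exact hlow z)
    have h3 := eB_ge_of T (-Real.log ‖T v‖) v hf.nv h1.ge
    rw [le_antisymm h2 h3, h1]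

end Pool.Agent.Lib.BedD
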