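import Pool.Agent.Lib.BedD.SpecL

/-! # MP_6f050a_an, theorem D: the slopes -/

set_option autoImplicit false

open scoped Topology
open Set Filter Metric

namespace Pool.Agent.Lib.BedD

theorem sSlo : S_Slo := by
  intro x ℓ L hP M
  refine ⟨fun m => ?_, fun m => ?_, fun m => ?_, fun m => ?_, fun m => eA_le_eB _⟩
  · refine eA_ge _ _ fun z => ?_
    rw [La_succ_apply]
    refine (hP.up m _).trans ?_
    have h1 := mul_le_mul_of_nonneg_left (le_eA (La L M m) z) (Real.exp_pos (-ℓ)).le
    refine h1.trans (le_of_eq ?_)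
    rw [← mul_assoc, ← Real.exp_add]
    congr 2
    unfold LA
    ring
  · have h1 : LA L M (m + 1) - x * ℓ ≤ LA L M m := by
      refine eA_ge _ _ fun z => ?_
      have h2 := hP.low m (La L M m z)
      rw [← La_succ_apply] at h2
      have h3 := h2.trans (le_eA (La L M (m + 1)) z)
      rw [Real.exp_neg (x * ℓ), inv_mul_le_iff₀ (Real.exp_pos _), ← mul_assoc, ← Real.exp_add] at h3
      refine h3.trans (le_of_eq ?_)
      congr 2
      unfold LA
      ring
    linarith
  · have h1 : LB L M m ≤ LB L M (m + 1) - ℓ := by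
      refine eB_le _ _ fun z => ?_
      have h2 := hP.up m (La L M m z)
      rw [← La_succ_apply] at h2
      have h3 := (low_eB (La L M (m + 1)) z).trans h2
      rw [Real.exp_neg ℓ, ← div_eq_inv_mul, le_div_iff₀ (Real.exp_pos _)] at h3
      refine (le_of_eq ?_).trans h3
      rw [mul_right_comm, ← Real.exp_add]
      congr 2
      unfold LB
      ring
    linarith
  · refine eB_le _ _ fun z => ?_
    rw [La_succ_apply]
    refine le_trans ?_ (hP.low m _)
    have h1 := mul_le_mul_of_nonneg_left (low_eB (La L M m) z) (Real.exp_pos (-(x * ℓ))).le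
    refine (le_of_eq ?_).trans h1
    rw [← mul_assoc, ← Real.exp_add]
    congr 2
    unfold LB
    ring

end Pool.Agent.Lib.BedD
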