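import Pool.Agent.Lib.BedD.SpecL

/-! # MP_6f050a_an, theorem D: a single time is a good stage -/

set_option autoImplicit false

open scoped Topology
open Set Filter Metric

namespace Pool.Agent.Lib.BedD

theorem sSng : S_Sng := by
  intro x A B s P hx2 hx3 hAB hI
  obtain ⟨h1, h2, h3, h4⟩ := hI
  have e1 : 0 ≤ (3 - x) * A s := mul_nonneg (by linarith) h1.le
  have e2 : 0 ≤ (x - 2) * A s := mul_nonneg (by linarith) h1.le
  unfold gam at h3
  unfold GG gam pp
  rcases max_cases (B s - (x + 5) / 4 * A s) 0 with ⟨h5, _⟩ | ⟨h5, _⟩ <;>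
  rcases max_cases (P + (B s - (x + 5) / 4 * A s)) 0 with ⟨h6, _⟩ | ⟨h6, _⟩ <;>
  rw [h5, h6] <;> nlinarith

end Pool.Agent.Lib.BedD
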