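import Pool.Agent.Lib.BedD.SpecL

/-! # MP_6f050a_an, theorem D: one step of the construction -/

set_option autoImplicit false

open scoped Topology
open Set Filter Metric

namespace Pool.Agent.Lib.BedD

theorem sStp : S_Stp := by
  intro hSVD hDet hSlo hDrc hPsh hSng hGrd hInh x ℓ K L hPin hK s M P hInv
  have hSlp := hSlo x ℓ L hPin M
  obtain ⟨t, e, hG, hAe, hcd⟩ := hGrd hSng x ℓ (LA L M) (LB L M) s P K hPin.ℓ_pos hPin.x_gt hPin.x_lt hK
    hSlp hInv
  obtain ⟨u, v, hS⟩ := hSVD (La L M t)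
  have hst := hG.st
  have hte := hG.te
  have hρD : pp (GG x (LA L M) (LB L M) t) ≤ LB L M t - LA L M t := by
    have h1 := hG.sep t t t hst le_rfl hte (min_le_left _ _) (le_max_left _ _)
    have h2 := pp_nonneg (P + GG x (LA L M) (LB L M) t)
    linarith
  have hn : (e : ℝ) - t + 1 ≤ (e : ℝ) - s + 1 := by
    have : (s : ℝ) ≤ t := by exact_mod_cast hst
    linarith
  obtain ⟨M', hM', hle, hsum, hat, hlow⟩ := hPsh hSVD hDet hSlo hDrc x ℓ L hPin M t e u v
    (pp (GG x (LA L M) (LB L M) t)) ((e : ℝ) - s + 1) hS (pp_nonneg _) hρD hte.le hn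
  have hCC : 0 < CC x ℓ := Real.exp_pos _
  have hpsd : Psd x (LA L M) (LB L M) (LA L M') (LB L M') t e (pp (GG x (LA L M) (LB L M) t))
      (Real.log (1 + CC x ℓ * ((e : ℝ) - s + 1))) := ⟨rfl, hle, hsum, hat, hlow⟩
  have hinv := hInh x ℓ (LA L M) (LB L M) (LA L M') (LB L M') s t e P _ _ hPin.ℓ_pos hPin.x_gt
    hPin.x_lt hSlp (hSlo x ℓ L hPin M') hInv hG hpsd
  have hdist : ∀ m, s ≤ m → m < e → ((max m t : ℕ) : ℝ) - ((min m t : ℕ) : ℝ) + 1 ≤ (e : ℝ) - s + 1 := by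
    intro m hsm hme
    have h1 : max m t ≤ e := max_le hme.le hte.le
    have h2 : s ≤ min m t := le_min hsm hst
    have h3 : ((max m t : ℕ) : ℝ) ≤ e := by exact_mod_cast h1
    have h4 : (s : ℝ) ≤ ((min m t : ℕ) : ℝ) := by exact_mod_cast h2
    linarith
  have hd : ∀ k m, s ≤ k → k ≤ m → m < e → ∀ i, min m t ≤ i → i ≤ max m t →
      pp (GG x (LA L M) (LB L M) k) + pp (P + GG x (LA L M) (LB L M) m) ≤ LB L M i - LA L M i :=
    fun k m hsk hkm hme i hi hi' => hG.sep k m i hsk hkm hme hi hi'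
  refine ⟨t, e, u, v, M', _, ⟨hG, hAe, hcd, hS.fr, hM', ?_, ?_, hpsd, hinv.1⟩⟩
  · intro k m hsk hkm hme
    have h1 := (hDrc hSVD hDet hSlo x ℓ L hPin M t u v hS m _ (hd k m hsk hkm hme t (min_le_right _ _)
      (le_max_right _ _)) (fun i hi hi' => hd k m hsk hkm hme i hi hi'.le)).1
    rw [← sub_sub] at h1
    exact h1.trans (mul_le_mul_of_nonneg_right (mul_le_mul_of_nonneg_left
      (hdist m (hsk.trans hkm) hme) hCC.le) (Real.exp_pos _).le)
  · intro k m hsk hkm hme w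
    have h1 := (hDrc hSVD hDet hSlo x ℓ L hPin M t u v hS m _ (hd k m hsk hkm hme t (min_le_right _ _)
      (le_max_right _ _)) (fun i hi hi' => hd k m hsk hkm hme i hi hi'.le)).2 w
    rw [← sub_sub] at h1
    exact h1.trans (mul_le_mul_of_nonneg_right (mul_le_mul_of_nonneg_right (mul_le_mul_of_nonneg_left
      (hdist m (hsk.trans hkm) hme) hCC.le) (Real.exp_pos _).le) (norm_nonneg _))

end Pool.Agent.Lib.BedD
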