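import Pool.Agent.Lib.BedD.SpecT

/-! # BedD/TFa: the limits of a train are injective immersions -/

set_option autoImplicit false

open scoped Topology
open Set Filter Metric

namespace Pool.Agent.Lib.BedD

namespace sTFaAux

/-- `f` is differentiable at `z` with injective derivative. -/
def Imm (f : E2 → E2) (z : E2) : Prop :=
  DifferentiableAt ℂ f z ∧ ∀ w, fderiv ℂ f z w = 0 → w = 0

theorem Imm.comp {g f : E2 → E2} {z : E2} (hg : Imm g (f z)) (hf : Imm f z) :
    Imm (fun y => g (f y)) z := by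
  have hc : HasFDerivAt (fun y => g (f y)) ((fderiv ℂ g (f z)).comp (fderiv ℂ f z)) z :=
    HasFDerivAt.comp z hg.1.hasFDerivAt hf.1.hasFDerivAt
  refine ⟨hc.differentiableAt, ?_⟩
  intro w hw
  rw [hc.fderiv] at hw
  exact hf.2 w (hg.2 _ hw)

theorem Imm.id (z : E2) : Imm (fun y => y) z := by
  refine ⟨differentiableAt_fun_id, ?_⟩
  intro w hw
  have : fderiv ℂ (fun y : E2 => y) z = ContinuousLinearMap.id ℂ E2 := fderiv_fun_id
  rw [this] at hw
  exact hw

theorem Imm.congr {g f : E2 → E2} {z : E2} (hf : Imm f z) (h : g =ᶠ[𝓝 z] f) : Imm g z := by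
  refine ⟨hf.1.congr_of_eventuallyEq h, ?_⟩
  intro w hw
  rw [h.fderiv_eq] at hw
  exact hf.2 w hw

/-- A differentiable map with a differentiable left inverse is an immersion. -/
theorem Imm.of_leftInv {f G : E2 → E2} {z : E2} (hf : DifferentiableAt ℂ f z)
    (hG : DifferentiableAt ℂ G (f z)) (h : ∀ y, G (f y) = y) : Imm f z := by
  refine ⟨hf, ?_⟩
  intro w hw
  have hc : HasFDerivAt (fun y => G (f y)) ((fderiv ℂ G (f z)).comp (fderiv ℂ f z)) z :=
    HasFDerivAt.comp z hG.hasFDerivAt hf.hasFDerivAt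
  have hid : HasFDerivAt (fun y => G (f y)) (ContinuousLinearMap.id ℂ E2) z := by
    have : (fun y => G (f y)) = fun y => y := funext h
    rw [this]
    exact hasFDerivAt_id z
  have he := hc.unique hid
  have h1 : (fderiv ℂ G (f z)) (fderiv ℂ f z w) = w := by
    have := congrArg (fun A : E2 →L[ℂ] E2 => A w) he
    simpa using this
  rw [hw, map_zero] at h1
  exact h1.symm

/-- The composition of the maps `S j`. -/
def fw (S : ℕ → E2 → E2) : ℕ → E2 → E2
  | 0, z => z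
  | l + 1, z => S l (fw S l z)

theorem fw_diff (S : ℕ → E2 → E2) (hS : ∀ j, Differentiable ℂ (S j)) (l : ℕ) :
    Differentiable ℂ (fw S l) := by
  induction l with
  | zero => exact differentiable_id
  | succ l ih => exact (hS l).comp ih

theorem fw_bk (S T : ℕ → E2 → E2) (hST : ∀ j z, S j (T j z) = z) (l : ℕ) (z : E2) :
    fw S l (bk T l 0 z) = z := by
  induction l generalizing z with
  | zero => rfl
  | succ l ih =>
    rw [bk_succ', Nat.zero_add]
    simp only [fw]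
    rw [ih, hST]

theorem bk_diff (T : ℕ → E2 → E2) (hT : ∀ j, Differentiable ℂ (T j)) (l m : ℕ) :
    Differentiable ℂ (bk T l m) := by
  induction l generalizing m with
  | zero => exact differentiable_id
  | succ l ih => exact (hT m).comp (ih (m + 1))

theorem bk_imm (S T : ℕ → E2 → E2) (hS : ∀ j, Differentiable ℂ (S j))
    (hT : ∀ j, Differentiable ℂ (T j)) (hST : ∀ j z, S j (T j z) = z) (l : ℕ) (z : E2) :
    Imm (bk T l 0) z :=
  Imm.of_leftInv (bk_diff T hT l 0 z) (fw_diff S hS l _) (fw_bk S T hST l)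

theorem bk_inj (S T : ℕ → E2 → E2) (hST : ∀ j z, S j (T j z) = z) (l : ℕ) (z z' : E2)
    (h : bk T l 0 z = bk T l 0 z') : z = z' := by
  rw [← fw_bk S T hST l z, ← fw_bk S T hST l z', h]

/-- The near identity map. -/
theorem near_id (hCau : S_Cau) (H : E2 → E2) (r ε : ℝ) (hr : 0 < r) (hε0 : 0 ≤ ε)
    (hc : 2 * ε / r ≤ 1 / 2) (hd : DifferentiableOn ℂ H (ball 0 r))
    (hn : ∀ z ∈ ball (0 : E2) r, ‖H z - z‖ ≤ ε) :
    (∀ z ∈ ball (0 : E2) (r / 2), Imm H z) ∧ InjOn H (ball (0 : E2) (r / 2)) := by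
  have hcau := hCau (fun z => H z - z) r ε hr hε0 (hd.sub differentiableOn_id) hn
  constructor
  · intro z hz
    have hz2 : z ∈ ball (0 : E2) r := ball_subset_ball (by linarith) hz
    have hdz : DifferentiableAt ℂ H z := hd.differentiableAt (isOpen_ball.mem_nhds hz2)
    refine ⟨hdz, ?_⟩
    intro w hw
    have h1 := hcau.1 z hz w
    have h2 : fderiv ℂ (fun z => H z - z) z = fderiv ℂ H z - ContinuousLinearMap.id ℂ E2 := by
      have := (hdz.hasFDerivAt.sub (hasFDerivAt_id z)).fderiv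
      exact this
    rw [h2] at h1
    have h3 : (fderiv ℂ H z - ContinuousLinearMap.id ℂ E2) w = - w := by
      simp [hw]
    rw [h3, norm_neg] at h1
    have h4 : ‖w‖ ≤ 1 / 2 * ‖w‖ := h1.trans (mul_le_mul_of_nonneg_right hc (norm_nonneg _))
    have h5 : ‖w‖ = 0 := le_antisymm (by linarith) (norm_nonneg _)
    exact norm_eq_zero.mp h5
  · intro z hz z' hz' he
    have h1 := hcau.2 z hz z' hz'
    have h3 : H z - z - (H z' - z') = -(z - z') := by
      rw [he]; abel
    rw [h3, norm_neg] at h1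
    have h4 : ‖z - z'‖ ≤ 1 / 2 * ‖z - z'‖ :=
      h1.trans (mul_le_mul_of_nonneg_right hc (norm_nonneg _))
    have h5 : ‖z - z'‖ = 0 := le_antisymm (by linarith) (norm_nonneg _)
    exact sub_eq_zero.mp (norm_eq_zero.mp h5)

theorem exp_two_pow_ge (l : ℕ) : (l : ℝ) + 1 ≤ Real.exp (1 * 2 ^ l) := by
  have h1 : (l : ℝ) ≤ 2 ^ l := by
    have := (Nat.lt_two_pow_self (n := l)).le
    exact_mod_cast this
  have h2 : (1 * 2 ^ l : ℝ) + 1 ≤ Real.exp (1 * 2 ^ l) := Real.add_one_le_exp _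
  linarith

variable {dom : ℕ → Set E2} {Θ S T : ℕ → E2 → E2} {P ρ R e : ℕ → ℝ} {Φ : ℕ → E2 → E2}

theorem large (hCau : S_Cau) (hT : Trn dom Θ S T P ρ R e) (hΦ : IsPhi dom Θ T Φ) :
    ∃ l₁ : ℕ, ∀ l ≥ l₁, (∀ z ∈ ball (0 : E2) ((Real.exp (1 * 2 ^ l) - 3) / 2), Imm (Φ l) z) ∧
      InjOn (Φ l) (ball (0 : E2) ((Real.exp (1 * 2 ^ l) - 3) / 2)) := by
  obtain ⟨l₀, hl₀⟩ := hΦ.H 1 le_rfl
  refine ⟨max l₀ 6, ?_⟩
  intro l hl
  have hl1 : l₀ ≤ l := le_trans (le_max_left _ _) hl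
  have hl2 : 6 ≤ l := le_trans (le_max_right _ _) hl
  obtain ⟨H, hHd, hH⟩ := hl₀ l hl1
  have hex := exp_two_pow_ge l
  have hl2' : (6 : ℝ) ≤ l := by exact_mod_cast hl2
  set r := Real.exp (1 * 2 ^ l) - 3 with hr
  have hr4 : 4 ≤ r := by linarith
  have hr0 : 0 < r := by linarith
  set ε := Real.exp (-(2 * 2 ^ l)) with hε
  have hε0 : 0 < ε := Real.exp_pos _
  have hε1 : ε ≤ 1 := by
    rw [hε]
    apply Real.exp_le_one_iff.mpr
    have : (0:ℝ) ≤ 2 ^ l := by positivity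
    linarith
  have hbig : ∀ z ∈ ball (0 : E2) r, ‖z‖ + 3 < Real.exp (1 * 2 ^ l) := by
    intro z hz
    rw [mem_ball_zero_iff] at hz
    rw [hr] at hz
    linarith
  have hcoef : 2 * ε / r ≤ 1 / 2 := by
    rw [div_le_iff₀ hr0]
    linarith
  have hni := near_id hCau H r ε hr0 hε0.le hcoef (hHd.mono hbig)
    (fun z hz => (hH z (hbig z hz)).2.1)
  have hsub : ball (0 : E2) (r / 2) ⊆ ball 0 r := ball_subset_ball (by linarith)
  constructor
  · intro z hz
    have h1 : Imm (fun y => bk T l 0 (H y)) z :=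
      Imm.comp (bk_imm S T hT.S_diff hT.T_diff hT.ST l (H z)) (hni.1 z hz)
    apply h1.congr
    filter_upwards [isOpen_ball.mem_nhds hz] with y hy
    exact (hH y (hbig y (hsub hy))).2.2
  · intro z hz z' hz' he
    rw [(hH z (hbig z (hsub hz))).2.2, (hH z' (hbig z' (hsub hz'))).2.2] at he
    exact hni.2 hz hz' (bk_inj S T hT.ST l _ _ he)

theorem compat (hΦ : IsPhi dom Θ T Φ) (hT : Trn dom Θ S T P ρ R e) (l : ℕ) (z : E2)
    (hz : z ∈ dom l) : Φ (l + 1) (Θ l z) = Φ l z := by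
  have h1 := hΦ.lim (l + 1) (Θ l z) (hT.maps l hz)
  have h2 := (tendsto_add_atTop_iff_nat 1).mpr (hΦ.lim l z hz)
  have h3 : (fun i => bk T (l + (i + 1)) 0 (orbE Θ l (i + 1) z)) =
      fun i => bk T (l + 1 + i) 0 (orbE Θ (l + 1) i (Θ l z)) := by
    funext i
    rw [orbE_succ', show l + (i + 1) = l + 1 + i by omega]
  rw [h3] at h2
  exact tendsto_nhds_unique h1 h2

theorem orb_mem (hT : Trn dom Θ S T P ρ R e) (l i : ℕ) (z : E2) (hz : z ∈ dom l) :
    orbE Θ l i z ∈ dom (l + i) := by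
  induction i with
  | zero => exact hz
  | succ i ih => exact hT.maps (l + i) ih

theorem compat' (hΦ : IsPhi dom Θ T Φ) (hT : Trn dom Θ S T P ρ R e) (l i : ℕ) (z : E2)
    (hz : z ∈ dom l) : Φ (l + i) (orbE Θ l i z) = Φ l z := by
  induction i with
  | zero => rfl
  | succ i ih =>
    rw [orbE_succ, ← ih]
    exact compat hΦ hT (l + i) _ (orb_mem hT l i z hz)

theorem orb_imm (hT : Trn dom Θ S T P ρ R e) (l i : ℕ) (z : E2) (hz : z ∈ dom l) :
    Imm (orbE Θ l i) z := by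
  induction i with
  | zero => exact Imm.id z
  | succ i ih =>
    have h1 : orbE Θ l i z ∈ dom (l + i) := orb_mem hT l i z hz
    have h2 : Imm (Θ (l + i)) (orbE Θ l i z) :=
      ⟨(hT.diff (l + i)).differentiableAt ((hT.open_dom (l + i)).mem_nhds h1),
        hT.dinj (l + i) _ h1⟩
    have h3 : Imm (fun y => Θ (l + i) (orbE Θ l i y)) z := Imm.comp h2 ih
    exact h3

theorem orb_inj (hT : Trn dom Θ S T P ρ R e) (l i : ℕ) : InjOn (orbE Θ l i) (dom l) := by
  induction i with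
  | zero =>
    intro z _ z' _ h
    exact h
  | succ i ih =>
    intro z hz z' hz' h
    rw [orbE_succ, orbE_succ] at h
    exact ih hz hz' (hT.inj (l + i) (orb_mem hT l i z hz) (orb_mem hT l i z' hz') h)

/-- A large level at which the orbits of two points are in the good ball. -/
theorem level (hT : Trn dom Θ S T P ρ R e) (l₁ l : ℕ) (z z' : E2) (hz : z ∈ dom l)
    (hz' : z' ∈ dom l) : ∃ i, l₁ ≤ l + i ∧
      orbE Θ l i z ∈ ball (0 : E2) ((Real.exp (1 * 2 ^ (l + i)) - 3) / 2) ∧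
      orbE Θ l i z' ∈ ball (0 : E2) ((Real.exp (1 * 2 ^ (l + i)) - 3) / 2) := by
  obtain ⟨B, hB⟩ := hT.bdd l z hz
  obtain ⟨B', hB'⟩ := hT.bdd l z' hz'
  obtain ⟨n, hn⟩ := exists_nat_gt (2 * max B B' + 3)
  refine ⟨max l₁ n, le_trans (le_max_left _ _) (Nat.le_add_left _ _), ?_, ?_⟩
  all_goals
    rw [mem_ball_zero_iff]
    have h1 := exp_two_pow_ge (l + max l₁ n)
    have h2 : (n : ℝ) ≤ ((l + max l₁ n : ℕ) : ℝ) := by
      have : n ≤ l + max l₁ n := le_trans (le_max_right _ _) (Nat.le_add_left _ _)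
      exact_mod_cast this
    have h3 := le_max_left B B'
    have h4 := le_max_right B B'
  · have h5 := hB (max l₁ n)
    linarith
  · have h5 := hB' (max l₁ n)
    linarith

end sTFaAux

open sTFaAux in
theorem sTFa : S_TFa := by
  intro hCau dom Θ S T P ρ R e hT Φ hΦ
  obtain ⟨l₁, hl₁⟩ := large hCau hT hΦ
  have himm : ∀ l, ∀ z ∈ dom l, Imm (Φ l) z := by
    intro l z hz
    obtain ⟨i, hi, hb, -⟩ := level hT l₁ l z z hz hz
    have h1 : Imm (fun y => Φ (l + i) (orbE Θ l i y)) z :=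
      Imm.comp ((hl₁ (l + i) hi).1 _ hb) (orb_imm hT l i z hz)
    apply h1.congr
    filter_upwards [(hT.open_dom l).mem_nhds hz] with y hy
    exact (compat' hΦ hT l i y hy).symm
  refine ⟨fun l z hz => (himm l z hz).1.differentiableWithinAt,
    fun l z hz => compat hΦ hT l z hz, ?_, fun l z hz => (himm l z hz).2⟩
  intro l z hz z' hz' he
  obtain ⟨i, hi, hb, hb'⟩ := level hT l₁ l z z' hz hz'
  rw [← compat' hΦ hT l i z hz, ← compat' hΦ hT l i z' hz'] at he
  exact orb_inj hT l i hz hz' ((hl₁ (l + i) hi).2 hb hb' he)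

end Pool.Agent.Lib.BedD
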