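import Pool.Agent.Lib.BedD.SpecT

/-! # BedD/TFb: the limits of a train are onto -/

set_option autoImplicit false

open scoped Topology
open Set Filter Metric

namespace Pool.Agent.Lib.BedD

namespace sTFbAux

/-- The forward orbit of `u` under the maps `S j`. -/
def us (S : ℕ → E2 → E2) (u : E2) : ℕ → E2
  | 0 => u
  | l + 1 => S l (us S u l)

theorem us_bound (S : ℕ → E2 → E2) (hS : ∀ j z, ‖S j z‖ ≤ ‖z‖ + ‖z‖ ^ 2) (u : E2) (l : ℕ) :
    ‖us S u l‖ + 3 ≤ Real.exp (Real.log (‖u‖ + 3) * 2 ^ l) := by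
  induction l with
  | zero =>
    have h3 : 0 < ‖u‖ + 3 := by positivity
    simp only [us, pow_zero, mul_one]
    rw [Real.exp_log h3]
  | succ l ih =>
    have h1 : ‖us S u (l + 1)‖ ≤ ‖us S u l‖ + ‖us S u l‖ ^ 2 := hS l _
    have h0 : 0 ≤ ‖us S u l‖ := norm_nonneg _
    have h2 : ‖us S u (l + 1)‖ + 3 ≤ (‖us S u l‖ + 3) ^ 2 := by nlinarith
    have h4 : (‖us S u l‖ + 3) ^ 2 ≤ (Real.exp (Real.log (‖u‖ + 3) * 2 ^ l)) ^ 2 := by
      apply pow_le_pow_left₀ (by positivity) ih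
    have h5 : (Real.exp (Real.log (‖u‖ + 3) * 2 ^ l)) ^ 2
        = Real.exp (Real.log (‖u‖ + 3) * 2 ^ (l + 1)) := by
      rw [← Real.exp_nat_mul]
      congr 1
      push_cast
      ring
    linarith

theorem bk_us (S T : ℕ → E2 → E2) (hTS : ∀ j z, T j (S j z) = z) (u : E2) (l : ℕ) :
    bk T l 0 (us S u l) = u := by
  induction l with
  | zero => rfl
  | succ l ih =>
    rw [bk_succ', Nat.zero_add]
    simp only [us]
    rw [hTS]
    exact ih

/-- A fixed point argument: a small Lipschitz perturbation of the identity attains `c`. -/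
theorem hit (h : E2 → E2) (c : E2)
    (h1 : ∀ z ∈ closedBall c 1, ‖h z‖ ≤ 1)
    (h2 : ∀ z ∈ closedBall c 1, ∀ z' ∈ closedBall c 1, ‖h z - h z'‖ ≤ 1 / 2 * ‖z - z'‖) :
    ∃ z ∈ closedBall c 1, z + h z = c := by
  have hmaps : MapsTo (fun z => c - h z) (closedBall c 1) (closedBall c 1) := by
    intro z hz
    rw [mem_closedBall, dist_eq_norm]
    have : c - h z - c = - h z := by abel
    rw [this, norm_neg]
    exact h1 z hz
  have hcon : ContractingWith (1 / 2 : NNReal) (hmaps.restrict (fun z => c - h z) _ _) := by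
    refine ⟨by
      have : ((1 / 2 : NNReal) : ℝ) < ((1 : NNReal) : ℝ) := by push_cast; norm_num
      exact_mod_cast this, ?_⟩
    apply LipschitzWith.of_dist_le_mul
    intro z z'
    have h3 := h2 z.1 z.2 z'.1 z'.2
    rw [Subtype.dist_eq, Subtype.dist_eq, dist_eq_norm, dist_eq_norm]
    simp only [MapsTo.val_restrict_apply]
    have h4 : c - h z.1 - (c - h z'.1) = - (h z.1 - h z'.1) := by abel
    rw [h4, norm_neg]
    push_cast
    exact h3
  obtain ⟨y, hy, hfix, -⟩ := ContractingWith.exists_fixedPoint' (isClosed_closedBall.isComplete)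
    hmaps hcon (mem_closedBall_self (zero_le_one)) (edist_ne_top _ _)
  refine ⟨y, hy, ?_⟩
  have h5 : c - h y = y := hfix
  rw [← h5]
  have h6 : h (c - h y) = h y := by rw [h5]
  rw [h6]
  abel

end sTFbAux

open sTFbAux in
theorem sTFb : S_TFb := by
  intro hCau dom Θ S T P ρ R e hT Φ hΦ u
  set C₀ := Real.log (‖u‖ + 3) with hC₀
  have hu0 : 0 ≤ ‖u‖ := norm_nonneg _
  have hC0 : 0 ≤ C₀ := Real.log_nonneg (by linarith)
  obtain ⟨l, hl⟩ := hΦ.H (C₀ + 2) (by linarith)
  obtain ⟨H, hHd, hH⟩ := hl l le_rfl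
  have hq : (1 : ℝ) ≤ 2 ^ l := one_le_pow₀ (by norm_num)
  set X := Real.exp (C₀ * 2 ^ l) with hX
  have hXb : ‖us S u l‖ + 3 ≤ X := us_bound S hT.S_le u l
  have hn0 : 0 ≤ ‖us S u l‖ := norm_nonneg _
  have he2 : (7 : ℝ) ≤ Real.exp (2 * 2 ^ l) := by
    have h1 : Real.exp 2 ≤ Real.exp (2 * 2 ^ l) := Real.exp_le_exp.mpr (by linarith)
    have h2 : (7 : ℝ) ≤ Real.exp 2 := by
      have h3 := Real.exp_one_gt_d9
      have h4 : Real.exp 2 = Real.exp 1 * Real.exp 1 := by
        rw [← Real.exp_add]; norm_num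
      rw [h4]
      nlinarith
    linarith
  have hY : Real.exp ((C₀ + 2) * 2 ^ l) = X * Real.exp (2 * 2 ^ l) := by
    rw [hX, ← Real.exp_add]
    congr 1
    ring
  set r := Real.exp ((C₀ + 2) * 2 ^ l) - 3 with hr
  have hX3 : 3 ≤ X := by linarith
  have hr7 : 7 * X - 3 ≤ r := by
    rw [hr, hY]
    nlinarith
  have hr0 : 0 < r := by linarith
  have hbig : ∀ z ∈ ball (0 : E2) r, ‖z‖ + 3 < Real.exp ((C₀ + 2) * 2 ^ l) := by
    intro z hz
    rw [mem_ball_zero_iff] at hz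
    rw [hr] at hz
    linarith
  set ε := Real.exp (-(2 * 2 ^ l)) with hε
  have hε0 : 0 < ε := Real.exp_pos _
  have hε1 : ε ≤ 1 := by
    rw [hε]
    apply Real.exp_le_one_iff.mpr
    have : (0:ℝ) ≤ 2 ^ l := by positivity
    linarith
  have hcau := (hCau (fun z => H z - z) r ε hr0 hε0.le
    ((hHd.mono hbig).sub differentiableOn_id) (fun z hz => (hH z (hbig z hz)).2.1)).2
  have hsub : ∀ z ∈ closedBall (us S u l) 1, z ∈ ball (0 : E2) (r / 2) := by
    intro z hz
    rw [mem_closedBall, dist_eq_norm] at hz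
    rw [mem_ball_zero_iff]
    have h1 : ‖z‖ ≤ ‖z - us S u l‖ + ‖us S u l‖ := by
      have := norm_add_le (z - us S u l) (us S u l)
      simpa using this
    linarith
  have hsub2 : ∀ z ∈ closedBall (us S u l) 1, z ∈ ball (0 : E2) r := by
    intro z hz
    exact ball_subset_ball (by linarith) (hsub z hz)
  have hcoef : 2 * ε / r ≤ 1 / 2 := by
    rw [div_le_iff₀ hr0]
    linarith
  obtain ⟨z, hz, hzc⟩ := hit (fun z => H z - z) (us S u l)
    (fun z hz => ((hH z (hbig z (hsub2 z hz))).2.1).trans hε1)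
    (fun z hz z' hz' => (hcau z (hsub z hz) z' (hsub z' hz')).trans
      (mul_le_mul_of_nonneg_right hcoef (norm_nonneg _)))
  have hz2 := hH z (hbig z (hsub2 z hz))
  refine ⟨l, z, hz2.1, ?_⟩
  rw [hz2.2.2]
  have h7 : H z = us S u l := by
    have : z + (H z - z) = us S u l := hzc
    rw [← this]
    abel
  rw [h7]
  exact bk_us S T hT.TS u l

end Pool.Agent.Lib.BedD
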