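import Pool.Agent.Lib.BedD.SpecT

/-!
# MP_6f050a_an, theorem D: TLi, the estimates for a train (helper50)
-/

set_option autoImplicit false

open scoped Topology
open Set Filter Metric

namespace Pool.Agent.Lib.BedD

namespace sTLiAux

theorem exp_neg_one_le : Real.exp (-1) ≤ 1 / 2 := by
  rw [Real.exp_neg, inv_eq_one_div]
  have h := Real.exp_one_gt_d9
  apply one_div_le_one_div_of_le two_pos
  linarith

theorem pow_add_ge (l k : ℕ) : (2 : ℝ) ^ l + k ≤ 2 ^ (l + k) := by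
  have h1 : (1 : ℝ) ≤ 2 ^ l := one_le_pow₀ one_le_two
  have h2 : (k : ℝ) + 1 ≤ 2 ^ k := by
    have h3 : k + 1 ≤ 2 ^ k := Nat.lt_two_pow_self
    exact_mod_cast h3
  have hk : (0 : ℝ) ≤ k := Nat.cast_nonneg k
  rw [pow_add]
  nlinarith

theorem term_le (l k : ℕ) : Real.exp (-(3 * 2 ^ (l + k))) ≤
    Real.exp (-(2 * 2 ^ l)) * (1 / 2) ^ (k + 1) := by
  have h1 : (1 : ℝ) ≤ 2 ^ l := one_le_pow₀ one_le_two
  have h2 := pow_add_ge l k
  have hk : (0 : ℝ) ≤ k := Nat.cast_nonneg k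
  calc Real.exp (-(3 * 2 ^ (l + k))) ≤ Real.exp (-(2 * 2 ^ l) + ((k + 1 : ℕ) : ℝ) * (-1)) := by
        refine Real.exp_le_exp.2 ?_
        push_cast
        linarith
    _ = Real.exp (-(2 * 2 ^ l)) * Real.exp (-1) ^ (k + 1) := by
        rw [Real.exp_add, Real.exp_nat_mul]
    _ ≤ _ := by
        refine mul_le_mul_of_nonneg_left ?_ (Real.exp_pos _).le
        exact pow_le_pow_left₀ (Real.exp_pos _).le exp_neg_one_le _

theorem tele (g : ℕ → E2) (l n : ℕ)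
    (h : ∀ k, k < n → ‖g (k + 1) - g k‖ ≤ Real.exp (-(3 * 2 ^ (l + k)))) :
    ‖g n - g 0‖ ≤ Real.exp (-(2 * 2 ^ l)) * (1 - (1 / 2) ^ n) := by
  induction n with
  | zero => simp
  | succ n ih =>
    have h1 := ih fun k hk => h k (hk.trans (Nat.lt_succ_self n))
    have h2 := (h n (Nat.lt_succ_self n)).trans (term_le l n)
    have h3 : ‖g (n + 1) - g 0‖ ≤ ‖g (n + 1) - g n‖ + ‖g n - g 0‖ := norm_sub_le_norm_sub_add_norm_sub _ _ _
    have h4 : Real.exp (-(2 * 2 ^ l)) * (1 - (1 / 2) ^ (n + 1)) =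
        Real.exp (-(2 * 2 ^ l)) * (1 / 2) ^ (n + 1) +
          Real.exp (-(2 * 2 ^ l)) * (1 - (1 / 2) ^ n) := by
      rw [pow_succ]
      ring
    rw [h4]
    linarith

theorem tele' (g : ℕ → E2) (l n : ℕ)
    (h : ∀ k, k < n → ‖g (k + 1) - g k‖ ≤ Real.exp (-(3 * 2 ^ (l + k)))) :
    ‖g n - g 0‖ ≤ Real.exp (-(2 * 2 ^ l)) := by
  refine (tele g l n h).trans ?_
  have h1 : (0 : ℝ) ≤ (1 / 2) ^ n := by positivity
  have h2 := Real.exp_pos (-(2 * 2 ^ l))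
  nlinarith

theorem r_sq (C : ℝ) (l : ℕ) : Real.exp (C * 2 ^ l) ^ 2 = Real.exp (C * 2 ^ (l + 1)) := by
  rw [← Real.exp_nat_mul, pow_succ]
  congr 1
  push_cast
  ring

section

variable {dom : ℕ → Set E2} {Θ S T : ℕ → E2 → E2} {P ρ R e : ℕ → ℝ}
  (h : Trn dom Θ S T P ρ R e) {C : ℝ} (hC : 1 ≤ C) {l₀ : ℕ}
  (hR : ∀ l, l₀ ≤ l → Real.exp (C * 2 ^ l) ≤ R l)
  (he : ∀ l, l₀ ≤ l → e l ≤ Real.exp (-(P l) - (4 * C + 3) * 2 ^ l))

include h hC hR he

theorem stepA (l : ℕ) (hl : l₀ ≤ l) (z : E2) (hz : ‖z‖ + 3 ≤ Real.exp (C * 2 ^ l)) :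
    z ∈ dom l ∧ ‖Θ l z‖ + 3 ≤ Real.exp (C * 2 ^ (l + 1)) := by
  have hzR : ‖z‖ ≤ R l := by
    have := hR l hl
    linarith
  refine ⟨h.ball_dom l z hzR, ?_⟩
  have h2 : (1 : ℝ) ≤ 2 ^ l := one_le_pow₀ one_le_two
  have he1 : e l ≤ 1 := by
    refine (he l hl).trans (Real.exp_le_one_iff.2 ?_)
    have := h.P_nonneg l
    nlinarith
  have hn := (h.near l z hzR).trans he1
  have hx : ‖T l (Θ l z)‖ ≤ ‖z‖ + 1 := by
    have h3 : ‖T l (Θ l z)‖ ≤ ‖T l (Θ l z) - z‖ + ‖z‖ := norm_le_norm_sub_add _ _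
    linarith
  have hS := h.S_le l (T l (Θ l z))
  rw [h.ST] at hS
  have h0 := norm_nonneg (T l (Θ l z))
  have hz0 := norm_nonneg z
  have h4 : ‖T l (Θ l z)‖ ^ 2 ≤ (‖z‖ + 1) ^ 2 := pow_le_pow_left₀ h0 hx 2
  have h5 : (‖z‖ + 3) ^ 2 ≤ Real.exp (C * 2 ^ l) ^ 2 := pow_le_pow_left₀ (by linarith) hz 2
  rw [r_sq] at h5
  nlinarith

theorem orbB (l : ℕ) (hl : l₀ ≤ l) (z : E2) (hz : ‖z‖ + 3 ≤ Real.exp (C * 2 ^ l)) (i : ℕ) :
    ‖orbE Θ l i z‖ + 3 ≤ Real.exp (C * 2 ^ (l + i)) := by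
  induction i with
  | zero => exact hz
  | succ i ih =>
    rw [orbE_succ, ← Nat.add_assoc]
    exact (stepA h hC hR he (l + i) (hl.trans (Nat.le_add_right _ _)) _ ih).2

theorem beta_le (l i : ℕ) : Real.exp (-(P l) - 4 * C * 2 ^ l - 3 * 2 ^ (l + i)) ≤
    Real.exp (-(3 * 2 ^ (l + i))) := by
  refine Real.exp_le_exp.2 ?_
  have h1 := h.P_nonneg l
  have h2 : (0 : ℝ) ≤ 4 * C * 2 ^ l := by positivity
  linarith

theorem main (i : ℕ) : ∀ l, l₀ ≤ l → ∀ z : E2, ‖z‖ + 3 ≤ Real.exp (C * 2 ^ l) →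
    ‖bk T (i + 1) l (orbE Θ l (i + 1) z) - bk T i l (orbE Θ l i z)‖ ≤
      Real.exp (-(P l) - 4 * C * 2 ^ l - 3 * 2 ^ (l + i)) := by
  induction i using Nat.strong_induction_on with
  | _ i ih =>
    intro l hl z hz
    rcases i with _ | i
    · have hzR : ‖z‖ ≤ R l := by
        have := hR l hl
        linarith
      have h1 := (h.near l z hzR).trans (he l hl)
      have h2 : bk T (0 + 1) l (orbE Θ l (0 + 1) z) - bk T 0 l (orbE Θ l 0 z) =
          T l (Θ l z) - z := rfl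
      rw [h2]
      refine h1.trans (Real.exp_le_exp.2 ?_)
      rw [Nat.add_zero]
      linarith
    · have hz' := (stepA h hC hR he l hl z hz).2
      set z' := Θ l z with hz'def
      have hl' : l₀ ≤ l + 1 := hl.trans (Nat.le_succ l)
      have hIH : ∀ k, k < i + 1 → ‖bk T (k + 1) (l + 1) (orbE Θ (l + 1) (k + 1) z') -
          bk T k (l + 1) (orbE Θ (l + 1) k z')‖ ≤ Real.exp (-(3 * 2 ^ (l + 1 + k))) :=
        fun k hk => (ih k hk (l + 1) hl' z' hz').trans (beta_le h hC hR he (l + 1) k)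
      have hone : Real.exp (-(2 * 2 ^ (l + 1))) ≤ 1 := by
        refine Real.exp_le_one_iff.2 ?_
        have : (0 : ℝ) < 2 ^ (l + 1) := by positivity
        linarith
      have hx : ‖bk T (i + 1) (l + 1) (orbE Θ (l + 1) (i + 1) z') - z'‖ ≤ 1 :=
        (tele' (fun k => bk T k (l + 1) (orbE Θ (l + 1) k z')) (l + 1) (i + 1) hIH).trans hone
      have hx' : ‖bk T i (l + 1) (orbE Θ (l + 1) i z') - z'‖ ≤ 1 :=
        (tele' (fun k => bk T k (l + 1) (orbE Θ (l + 1) k z')) (l + 1) i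
          (fun k hk => hIH k (hk.trans (Nat.lt_succ_self i)))).trans hone
      have hd := ih i (Nat.lt_succ_self i) (l + 1) hl' z' hz'
      have e1 : bk T (i + 1 + 1) l (orbE Θ l (i + 1 + 1) z) =
          T l (bk T (i + 1) (l + 1) (orbE Θ (l + 1) (i + 1) z')) := by
        rw [orbE_succ', bk_succ]
      have e2 : bk T (i + 1) l (orbE Θ l (i + 1) z) =
          T l (bk T i (l + 1) (orbE Θ (l + 1) i z')) := by
        rw [orbE_succ', bk_succ]
      rw [e1, e2]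
      generalize bk T (i + 1) (l + 1) (orbE Θ (l + 1) (i + 1) z') = x at hx hd ⊢
      generalize bk T i (l + 1) (orbE Θ (l + 1) i z') = x' at hx' hd ⊢
      have hL := h.T_lip l x x'
      have nx : ‖x‖ ≤ ‖z'‖ + 1 := by
        have h3 : ‖x‖ ≤ ‖x - z'‖ + ‖z'‖ := norm_le_norm_sub_add _ _
        linarith
      have nx' : ‖x'‖ ≤ ‖z'‖ + 1 := by
        have h3 : ‖x'‖ ≤ ‖x' - z'‖ + ‖z'‖ := norm_le_norm_sub_add _ _
        linarith
      have hz0 := norm_nonneg z'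
      have h5 : (‖z'‖ + 3) ^ 2 ≤ Real.exp (C * 2 ^ (l + 1)) ^ 2 :=
        pow_le_pow_left₀ (by linarith) hz' 2
      have h6 : 1 + ‖x‖ + ‖x'‖ ≤ Real.exp (C * 2 ^ (l + 1)) ^ 2 := by nlinarith
      have h7 : 0 ≤ 1 + ‖x‖ + ‖x'‖ := by positivity
      calc ‖T l x - T l x'‖ ≤ Real.exp (ρ l) * (1 + ‖x‖ + ‖x'‖) * ‖x - x'‖ := hL
        _ ≤ Real.exp (ρ l) * Real.exp (C * 2 ^ (l + 1)) ^ 2 *
            Real.exp (-(P (l + 1)) - 4 * C * 2 ^ (l + 1) - 3 * 2 ^ (l + 1 + i)) := by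
          refine mul_le_mul ?_ hd (norm_nonneg _) ?_
          · exact mul_le_mul_of_nonneg_left h6 (Real.exp_pos _).le
          · positivity
        _ = Real.exp (-(P l) - 4 * C * 2 ^ l - 3 * 2 ^ (l + (i + 1))) := by
          rw [← Real.exp_nat_mul, ← Real.exp_add, ← Real.exp_add, h.P_succ,
            show l + 1 + i = l + (i + 1) by ring, pow_succ 2 l]
          congr 1
          push_cast
          ring

end

end sTLiAux

open sTLiAux in
/-- **TLi.** The estimates for a train. -/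
theorem sTLi : S_TLi := by
  intro dom Θ S T P ρ R e h C hC
  obtain ⟨l₀, hl₀⟩ := Filter.eventually_atTop.1 ((h.R_big C).and (h.e_small (4 * C + 3)))
  have hR : ∀ l, l₀ ≤ l → Real.exp (C * 2 ^ l) ≤ R l := fun l hl => (hl₀ l hl).1
  have he : ∀ l, l₀ ≤ l → e l ≤ Real.exp (-(P l) - (4 * C + 3) * 2 ^ l) :=
    fun l hl => (hl₀ l hl).2
  refine ⟨l₀, fun l hl z hz => ⟨(stepA h hC hR he l hl z hz).1, orbB h hC hR he l hl z hz, ?_, ?_⟩⟩
  · intro i
    exact (main h hC hR he i l hl z hz).trans (beta_le h hC hR he l i)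
  · intro i
    exact tele' (fun k => bk T k l (orbE Θ l k z)) l i
      (fun k _ => (main h hC hR he k l hl z hz).trans (beta_le h hC hR he l k))

end Pool.Agent.Lib.BedD
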