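import Pool.Agent.Lib.BedD.SpecT

/-!
# MP_6f050a_an, theorem D: the limits of a train
-/

set_option autoImplicit false

open scoped Topology
open Set Filter Metric

namespace Pool.Agent.Lib.BedD

namespace sTPhAux

variable {dom : ℕ → Set E2} {Θ S T : ℕ → E2 → E2} {P ρ R e : ℕ → ℝ}

theorem bk_diff (hT : ∀ j, Differentiable ℂ (T j)) (i : ℕ) :
    ∀ l, Differentiable ℂ (bk T i l) := by
  induction i with
  | zero => exact fun l => differentiable_id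
  | succ i ih => exact fun l => (hT l).comp (ih (l + 1))

theorem orb_maps (h : Trn dom Θ S T P ρ R e) (l i : ℕ) :
    MapsTo (orbE Θ l i) (dom l) (dom (l + i)) := by
  induction i with
  | zero => exact fun z hz => hz
  | succ i ih => exact fun z hz => h.maps (l + i) (ih hz)

theorem orb_diff (h : Trn dom Θ S T P ρ R e) (l i : ℕ) :
    DifferentiableOn ℂ (orbE Θ l i) (dom l) := by
  induction i with
  | zero => exact differentiableOn_id
  | succ i ih => exact (h.diff (l + i)).comp ih (orb_maps h l i)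

theorem tend (hT : ∀ j, Differentiable ℂ (T j)) (m : ℕ) (z w : E2)
    (h : Tendsto (fun k => bk T k m (orbE Θ m k z)) atTop (𝓝 w)) :
    Tendsto (fun k => bk T (m + k) 0 (orbE Θ m k z)) atTop (𝓝 (bk T m 0 w)) := by
  have h1 := ((bk_diff hT m 0).continuous.tendsto w).comp h
  refine h1.congr fun k => ?_
  rw [bk_add, Nat.zero_add]
  rfl

theorem main (hW : Bed.S_Wei) (hL : S_TLi) (h : Trn dom Θ S T P ρ R e) (C : ℝ) (hC : 1 ≤ C) :
    ∃ l₀ : ℕ, ∀ l ≥ l₀, ∃ H : E2 → E2,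
      DifferentiableOn ℂ H {z | ‖z‖ + 3 < Real.exp (C * 2 ^ l)} ∧
      ∀ z, ‖z‖ + 3 < Real.exp (C * 2 ^ l) →
        z ∈ dom l ∧ ‖H z - z‖ ≤ Real.exp (-(2 * 2 ^ l)) ∧
          Tendsto (fun i => bk T i l (orbE Θ l i z)) atTop (𝓝 (H z)) := by
  obtain ⟨l₀, hl₀⟩ := hL dom Θ S T P ρ R e h C hC
  refine ⟨l₀, fun l hl => ?_⟩
  have hopen : IsOpen {z : E2 | ‖z‖ + 3 < Real.exp (C * 2 ^ l)} :=
    isOpen_lt (continuous_norm.add continuous_const) continuous_const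
  have hsub : {z : E2 | ‖z‖ + 3 < Real.exp (C * 2 ^ l)} ⊆ dom l := fun z hz =>
    (hl₀ l hl z (le_of_lt hz)).1
  have hsum : Summable fun i : ℕ => Real.exp (-(3 * 2 ^ (l + i))) := by
    refine Summable.of_nonneg_of_le (fun i => (Real.exp_pos _).le) (fun i => ?_)
      Real.summable_exp_neg_nat
    apply Real.exp_le_exp.mpr
    have h1 : (i : ℝ) < 2 ^ i := by exact_mod_cast Nat.lt_two_pow_self
    have h2 : (2 : ℝ) ^ i ≤ 2 ^ (l + i) := pow_le_pow_right₀ one_le_two (Nat.le_add_left i l)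
    nlinarith [pow_pos (two_pos : (0 : ℝ) < 2) i]
  obtain ⟨H, hH, hlim, -, -⟩ := hW E2 E2 {z : E2 | ‖z‖ + 3 < Real.exp (C * 2 ^ l)}
    (fun i z => bk T i l (orbE Θ l i z)) (fun i => Real.exp (-(3 * 2 ^ (l + i)))) hopen
    (fun i => (bk_diff h.T_diff i l).comp_differentiableOn ((orb_diff h l i).mono hsub)) hsum
    (fun i z hz => (hl₀ l hl z (le_of_lt hz)).2.2.1 i)
  refine ⟨H, hH, fun z hz => ⟨hsub hz, ?_, hlim z hz⟩⟩
  have h1 : Tendsto (fun i => ‖bk T i l (orbE Θ l i z) - z‖) atTop (𝓝 ‖H z - z‖) :=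
    ((hlim z hz).sub_const z).norm
  exact le_of_tendsto' h1 (hl₀ l hl z (le_of_lt hz)).2.2.2

theorem ex_lim (hW : Bed.S_Wei) (hL : S_TLi) (h : Trn dom Θ S T P ρ R e) (l : ℕ) (z : E2)
    (hz : z ∈ dom l) :
    ∃ w, Tendsto (fun i => bk T (l + i) 0 (orbE Θ l i z)) atTop (𝓝 w) := by
  obtain ⟨B, hB⟩ := h.bdd l z hz
  obtain ⟨l₀, hl₀⟩ := main hW hL h 1 le_rfl
  obtain ⟨i₁, hi₁⟩ := exists_nat_gt (B + 3)
  obtain ⟨i₀, hi₀l, hi₀⟩ : ∃ i₀ : ℕ, l₀ ≤ l + i₀ ∧ B + 3 < Real.exp (1 * 2 ^ (l + i₀)) := by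
    refine ⟨max l₀ i₁, (le_max_left _ _).trans (Nat.le_add_left _ _), ?_⟩
    have h1 : (i₁ : ℝ) ≤ (2 : ℝ) ^ (l + max l₀ i₁) := by
      have h2 : i₁ < 2 ^ i₁ := Nat.lt_two_pow_self
      have h3 : 2 ^ i₁ ≤ 2 ^ (l + max l₀ i₁) :=
        Nat.pow_le_pow_right (by norm_num) ((le_max_right _ _).trans (Nat.le_add_left _ _))
      exact_mod_cast (h2.le.trans h3)
    have h4 := Real.add_one_le_exp ((1 : ℝ) * 2 ^ (l + max l₀ i₁))
    linarith
  obtain ⟨H, -, hH⟩ := hl₀ (l + i₀) hi₀l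
  have h1 : ‖orbE Θ l i₀ z‖ + 3 < Real.exp (1 * 2 ^ (l + i₀)) := by
    have := hB i₀
    linarith
  have h2 := tend h.T_diff (l + i₀) _ _ (hH _ h1).2.2
  refine ⟨_, (tendsto_add_atTop_iff_nat i₀).1 (h2.congr fun k => ?_)⟩
  rw [← orbE_add, show l + (k + i₀) = l + i₀ + k by omega, Nat.add_comm i₀ k]

end sTPhAux

open sTPhAux in
theorem sTPh : S_TPh := by
  classical
  intro hW hL dom Θ S T P ρ R e h
  choose w hw using fun l z hz => ex_lim hW hL h l z hz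
  refine ⟨fun l z => if hz : z ∈ dom l then w l z hz else 0, ?_, ?_⟩
  · intro l z hz
    rw [dif_pos hz]
    exact hw l z hz
  · intro C hC
    obtain ⟨l₀, hl₀⟩ := main hW hL h C hC
    refine ⟨l₀, fun l hl => ?_⟩
    obtain ⟨H, hH, hH'⟩ := hl₀ l hl
    refine ⟨H, hH, fun z hz => ?_⟩
    obtain ⟨h1, h2, h3⟩ := hH' z hz
    refine ⟨h1, h2, ?_⟩
    rw [dif_pos h1]
    exact tendsto_nhds_unique (hw l z h1) (tend h.T_diff l z _ h3)

end Pool.Agent.Lib.BedD
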