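import Pool.Agent.Lib.BedD.SpecT

/-!
# MP_6f050a_an, theorem D: the maps of the stages
-/

set_option autoImplicit false

open scoped Topology
open Set Filter Metric

namespace Pool.Agent.Lib.BedD

theorem sTh : S_Th := by
  intro hOrb x ℓ r C₀ f L h s M
  have hD : ∀ j z, z ∈ Dm r L s M j ↔ La L (M j) (s j) z ∈ ball (0 : E2) r := by
    intro j z
    rw [mem_ball_zero_iff]
    rfl
  have hmt : ∀ j, MapsTo (La L (M j) (s j)) (Dm r L s M j) (ball (0 : E2) r) :=
    fun j z hz => (hD j z).1 hz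
  have hop : ∀ j, IsOpen (Dm r L s M j) := by
    intro j
    exact isOpen_lt ((La L (M j) (s j)).continuous.norm) continuous_const
  have hLd : ∀ j, Differentiable ℂ (La L (M j) (s j)) := fun j => (La L (M j) (s j)).differentiable
  refine ⟨hop, fun j => ?_, fun j z hz => ?_, fun j z hz w hw hzw => ?_, fun j z hz w hw => ?_⟩
  · obtain ⟨h1, h2, -⟩ := hOrb x ℓ r C₀ f L h (s j) (s (j + 1) - s j)
    have e1 : DifferentiableOn ℂ (fun z => orbE f (s j) (s (j + 1) - s j) (La L (M j) (s j) z))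
        (Dm r L s M j) := h1.comp (hLd j).differentiableOn (hmt j)
    exact (La L (M (j + 1)) (s (j + 1))).symm.differentiable.comp_differentiableOn e1
  · obtain ⟨h1, h2, -⟩ := hOrb x ℓ r C₀ f L h (s j) (s (j + 1) - s j)
    rw [hD, Th, ContinuousLinearEquiv.apply_symm_apply]
    exact h2 (hmt j hz)
  · obtain ⟨-, -, h3, -⟩ := hOrb x ℓ r C₀ f L h (s j) (s (j + 1) - s j)
    have e1 := (La L (M (j + 1)) (s (j + 1))).symm.injective hzw
    exact (La L (M j) (s j)).injective (h3 (hmt j hz) (hmt j hw) e1)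
  · obtain ⟨h1, -, -, h4, -⟩ := hOrb x ℓ r C₀ f L h (s j) (s (j + 1) - s j)
    have e1 : HasFDerivAt (La L (M j) (s j)) (La L (M j) (s j) : E2 →L[ℂ] E2) z :=
      (La L (M j) (s j)).hasFDerivAt
    have e2 : HasFDerivAt (orbE f (s j) (s (j + 1) - s j))
        (fderiv ℂ (orbE f (s j) (s (j + 1) - s j)) (La L (M j) (s j) z)) (La L (M j) (s j) z) :=
      (h1.differentiableAt (isOpen_ball.mem_nhds (hmt j hz))).hasFDerivAt
    have e3 := (La L (M (j + 1)) (s (j + 1))).symm.hasFDerivAt.comp z (e2.comp z e1)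
    have e4 : fderiv ℂ (Th L f s M j) z w = (La L (M (j + 1)) (s (j + 1))).symm
        (fderiv ℂ (orbE f (s j) (s (j + 1) - s j)) (La L (M j) (s j) z) (La L (M j) (s j) w)) := by
      rw [show fderiv ℂ (Th L f s M j) z = _ from e3.fderiv]
      rfl
    rw [e4] at hw
    have e5 := (La L (M (j + 1)) (s (j + 1))).symm.map_eq_zero_iff.1 hw
    have e6 := h4 _ (hmt j hz) _ e5
    exact (La L (M j) (s j)).map_eq_zero_iff.1 e6

end Pool.Agent.Lib.BedD
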