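import Pool.Agent.Lib.BedD.Fin
import Pool.Agent.Lib.Bed.Main2
import Pool.Agent.Lib.BedD.SVD
import Pool.Agent.Lib.BedD.Det
import Pool.Agent.Lib.BedD.Slo
import Pool.Agent.Lib.BedD.Drc
import Pool.Agent.Lib.BedD.Psh
import Pool.Agent.Lib.BedD.Sng
import Pool.Agent.Lib.BedD.Grd
import Pool.Agent.Lib.BedD.Inh
import Pool.Agent.Lib.BedD.Stp
import Pool.Agent.Lib.BedD.Rec
import Pool.Agent.Lib.BedD.Gr
import Pool.Agent.Lib.BedD.SS
import Pool.Agent.Lib.BedD.Tay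
import Pool.Agent.Lib.BedD.AcQ
import Pool.Agent.Lib.BedD.AcS
import Pool.Agent.Lib.BedD.Acc
import Pool.Agent.Lib.BedD.Orb
import Pool.Agent.Lib.BedD.Boot2
import Pool.Agent.Lib.BedD.KLD
import Pool.Agent.Lib.BedD.Ob1
import Pool.Agent.Lib.BedD.Ob2
import Pool.Agent.Lib.BedD.Cau
import Pool.Agent.Lib.BedD.TLi
import Pool.Agent.Lib.BedD.TPh
import Pool.Agent.Lib.BedD.TFa
import Pool.Agent.Lib.BedD.TFb
import Pool.Agent.Lib.BedD.Th
import Pool.Agent.Lib.BedD.ST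
import Pool.Agent.Lib.BedD.Lrg
import Pool.Agent.Lib.BedD.Mk
import Pool.Agent.Lib.BedD.SE
import Pool.Agent.Lib.BedD.PD
import Pool.Agent.Lib.BedD.QL
import Pool.Agent.Lib.BedD.QB

/-!
# MP_6f050a_an, theorem D: assembly
-/

set_option autoImplicit false

namespace Pool.Agent.Lib.BedD

theorem stgSC : StgSC :=
  sSS sSlo sInh sRec sGr (sStp sSVD sDet sSlo sDrc sPsh sSng sGrd sInh)

theorem accC : AccC := sAcc sSlo sAcS (sAcQ sTay)

theorem ob1C : Ob1C := sOb1 sSlo sBoot2 sKLD sOrb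

theorem ob2C : Ob2C := sOb2 sSlo sOrb ob1C

theorem mkC : MkC := sMk stgSC accC ob2C sOrb sTh sST sLrg

theorem seqEC : SeqEC := sSE mkC (trnC Bed.sWei sTLi sTPh sCau sTFa sTFb) sOrb

/-- Theorem D. -/
theorem bedfordD : BedfordD := sFinD Bed.setupC2 (seqDC sQL sQB seqEC) sPD

end Pool.Agent.Lib.BedD
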