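import Pool.Agent.Lib.BedD.SpecT

/-!
# MP_6f050a_an, theorem D: the polynomial automorphisms
-/

set_option autoImplicit false

open scoped Topology
open Set Filter Metric

namespace Pool.Agent.Lib.BedD

namespace sSTAux

theorem diff_inner (u : E2) : Differentiable ℂ (fun z : E2 => (inner ℂ u z : ℂ)) :=
  (innerSL ℂ u).differentiable

theorem norm_comb {u v : E2} (h : Fr u v) (α β : ℂ) :
    ‖α • u + β • v‖ ^ 2 = ‖α‖ ^ 2 + ‖β‖ ^ 2 := by
  rw [h.norm_sq, h.inner_u, h.inner_v]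

theorem norm_comb_le {u v : E2} (h : Fr u v) (α β : ℂ) (z : E2) (c : ℝ) (hc : 0 ≤ c)
    (hα : ‖α‖ ≤ c * ‖(inner ℂ u z : ℂ)‖) (hβ : ‖β‖ ≤ c * ‖(inner ℂ v z : ℂ)‖) :
    ‖α • u + β • v‖ ≤ c * ‖z‖ := by
  have h1 : ‖α‖ ^ 2 ≤ (c * ‖(inner ℂ u z : ℂ)‖) ^ 2 := by gcongr
  have h2 : ‖β‖ ^ 2 ≤ (c * ‖(inner ℂ v z : ℂ)‖) ^ 2 := by gcongr
  have h3 : ‖α • u + β • v‖ ^ 2 ≤ (c * ‖z‖) ^ 2 := by
    rw [norm_comb h, mul_pow, h.norm_sq z]
    nlinarith
  exact (abs_le_of_sq_le_sq' h3 (by positivity)).2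

end sSTAux

open sSTAux in
theorem sST : S_ST := by
  intro u v ρ Q hf hρ hQ
  have hEn : ‖((Real.exp ρ : ℝ) : ℂ)‖ = Real.exp ρ := by
    rw [Complex.norm_real, Real.norm_of_nonneg (Real.exp_pos _).le]
  have hE0 : ((Real.exp ρ : ℝ) : ℂ) ≠ 0 := by
    rw [← norm_pos_iff, hEn]
    exact Real.exp_pos _
  have hE1 : 1 ≤ Real.exp ρ := Real.one_le_exp hρ
  generalize hE : ((Real.exp ρ : ℝ) : ℂ) = E at hEn hE0
  have hinv : ‖E⁻¹‖ ≤ 1 := by
    rw [norm_inv, hEn]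
    exact inv_le_one_of_one_le₀ hE1
  refine ⟨fun z => (inner ℂ u z : ℂ) • u + (E⁻¹ * (inner ℂ v z + Q * (inner ℂ u z) ^ 2)) • v,
    fun z => (inner ℂ u z : ℂ) • u + (E * inner ℂ v z - Q * (inner ℂ u z) ^ 2) • v,
    ?_, ?_, ?_, ?_, ?_, ?_, fun z => rfl⟩
  · have h1 := diff_inner u
    have h2 := diff_inner v
    exact (h1.smul_const u).add
      ((((h2.add ((h1.pow 2).const_mul Q)).const_mul E⁻¹)).smul_const v)
  · have h1 := diff_inner u
    have h2 := diff_inner v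
    exact (h1.smul_const u).add (((h2.const_mul E).sub ((h1.pow 2).const_mul Q)).smul_const v)
  · intro z
    dsimp only
    rw [hf.inner_u, hf.inner_v]
    conv_rhs => rw [hf.expand z]
    congr 2
    field_simp
    ring
  · intro z
    dsimp only
    rw [hf.inner_u, hf.inner_v]
    conv_rhs => rw [hf.expand z]
    congr 2
    field_simp
    ring
  · intro z
    dsimp only
    have e1 : (inner ℂ u z : ℂ) • u + (E⁻¹ * (inner ℂ v z + Q * (inner ℂ u z) ^ 2)) • v =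
        ((inner ℂ u z : ℂ) • u + (E⁻¹ * inner ℂ v z) • v) +
          (E⁻¹ * Q * (inner ℂ u z) ^ 2) • v := by
      rw [add_assoc, ← add_smul]
      congr 2
      ring
    rw [e1]
    refine (norm_add_le _ _).trans (add_le_add ?_ ?_)
    · have h1 := norm_comb_le hf (inner ℂ u z) (E⁻¹ * inner ℂ v z) z 1 zero_le_one
        (by rw [one_mul]) (by
          rw [one_mul, norm_mul]
          exact mul_le_of_le_one_left (norm_nonneg _) hinv)
      rwa [one_mul] at h1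
    · rw [norm_smul, hf.nv, mul_one, norm_mul, norm_mul, norm_pow]
      have h1 : ‖E⁻¹‖ * ‖Q‖ ≤ 1 := by
        rw [norm_inv, hEn, inv_mul_le_iff₀ (Real.exp_pos _), mul_one]
        exact hQ
      have h2 : ‖(inner ℂ u z : ℂ)‖ ^ 2 ≤ ‖z‖ ^ 2 := by
        gcongr
        exact hf.le_u z
      calc ‖E⁻¹‖ * ‖Q‖ * ‖(inner ℂ u z : ℂ)‖ ^ 2 ≤ 1 * ‖(inner ℂ u z : ℂ)‖ ^ 2 := by gcongr
        _ ≤ ‖z‖ ^ 2 := by rw [one_mul]; exact h2
  · intro z z'
    dsimp only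
    have e1 : ((inner ℂ u z : ℂ) • u + (E * inner ℂ v z - Q * (inner ℂ u z) ^ 2) • v) -
        ((inner ℂ u z' : ℂ) • u + (E * inner ℂ v z' - Q * (inner ℂ u z') ^ 2) • v) =
        ((inner ℂ u (z - z') : ℂ) • u + (E * inner ℂ v (z - z')) • v) +
          (-(Q * (inner ℂ u z + inner ℂ u z') * inner ℂ u (z - z'))) • v := by
      rw [inner_sub_right, inner_sub_right]
      simp only [sub_smul, mul_sub, neg_smul, mul_add, add_mul, add_smul]
      have e2 : Q * (inner ℂ u z) ^ 2 = Q * inner ℂ u z * inner ℂ u z := by ring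
      have e3 : Q * (inner ℂ u z') ^ 2 = Q * inner ℂ u z' * inner ℂ u z' := by ring
      have e4 : Q * inner ℂ u z' * inner ℂ u z = Q * inner ℂ u z * inner ℂ u z' := by ring
      rw [e2, e3, e4]
      abel
    rw [e1]
    have hA : ‖(inner ℂ u (z - z') : ℂ) • u + (E * inner ℂ v (z - z')) • v‖ ≤
        Real.exp ρ * ‖z - z'‖ := by
      refine norm_comb_le hf _ _ (z - z') (Real.exp ρ) (Real.exp_pos _).le ?_ ?_
      · exact le_mul_of_one_le_left (norm_nonneg _) hE1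
      · rw [norm_mul, hEn]
    have hB : ‖(-(Q * (inner ℂ u z + inner ℂ u z') * inner ℂ u (z - z'))) • v‖ ≤
        Real.exp ρ * (‖z‖ + ‖z'‖) * ‖z - z'‖ := by
      rw [norm_smul, hf.nv, mul_one, norm_neg, norm_mul, norm_mul]
      gcongr
      · exact (norm_add_le _ _).trans (add_le_add (hf.le_u z) (hf.le_u z'))
      · exact hf.le_u _
    calc _ ≤ Real.exp ρ * ‖z - z'‖ + Real.exp ρ * (‖z‖ + ‖z'‖) * ‖z - z'‖ :=
          (norm_add_le _ _).trans (add_le_add hA hB)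
      _ = Real.exp ρ * (1 + ‖z‖ + ‖z'‖) * ‖z - z'‖ := by ring

end Pool.Agent.Lib.BedD
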