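import Pool.Agent.Lib.BedD.SpecL

/-!
# MP_6f050a_an, theorem D, part A: accuracy of the stage maps, boundedness of the orbits

Every task: prove `theorem sX : S_X` (namespace `Pool.Agent.Lib.BedD`) in the file named in the task; auxiliary lemmas in the
namespace `Pool.Agent.Lib.BedD.sXAux`.  All proofs are complete in the docstrings.

Notation of the proofs: as in `SpecL.lean`; `b = bb x ℓ C₀ = C₀ e^{xℓ}`, `C₁ = CC x ℓ`, `n = nn s j`, `a = aa L s M j`, `Λ_m = La L (M j) m`,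
`A_m = LA L (M j) m`, `B_m = LB L (M j) m`, `N_m w = f m w - L m w`.  `nn s j` is by definition `(s (j+1) : ℝ) - s j + 1`.
-/

set_option autoImplicit false

open scoped Topology
open Set Filter Metric

namespace Pool.Agent.Lib.BedD

/-- **Tay.** Second Taylor coefficient.

Proof.  `φ 0 = 0`, and `|φ X| ≤ b |X|²` gives `deriv φ 0 = 0`.  `φ₁ = dslope φ 0` is differentiable on the ball, `φ X = X φ₁ X`, `φ₁ 0 = 0`; `ψ = dslope φ₁ 0`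
is differentiable on the ball and `φ X = X² ψ X`.  `|ψ X| ≤ b` for `X ≠ 0`, and by continuity at `0`.  `q = ψ 0`.  For every `ε > 0`, `ψ` maps `ball 0 ρ` into
`ball (ψ 0) (2b+ε)`, so `|ψ X - ψ 0| ≤ (2b+ε)/ρ * |X|` (`Complex.dist_le_div_mul_dist_of_mapsTo_ball`); let `ε → 0`. -/
def S_Tay : Prop := ∀ (φ : ℂ → ℂ) (ρ b : ℝ), 0 < ρ → 0 ≤ b → DifferentiableOn ℂ φ (ball 0 ρ) →
  (∀ X ∈ ball (0 : ℂ) ρ, ‖φ X‖ ≤ b * ‖X‖ ^ 2) →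
  ∃ q : ℂ, ‖q‖ ≤ b ∧ ∀ X ∈ ball (0 : ℂ) ρ, ‖φ X - q * X ^ 2‖ ≤ 2 * b / ρ * ‖X‖ ^ 3

/-- **AcQ.** The quadratic coefficient of one step.  (Uses `S_Tay`.)

Proof.  `φ X = ⟨v, Λ⁻¹ (L m)⁻¹ (N_m (X Λ u))⟩` on `ball 0 (r e^A)`, `A = eA Λ`, `B = eB Λ`: `‖X Λ u‖ ≤ |X| e^{-A} < r`, so `φ` is differentiable there; `f m 0 = 0`
(`contr`), so `quad` gives `‖N_m w‖ ≤ C₀ ‖w‖²`, and `|φ X| ≤ e^{B+xℓ} C₀ e^{-2A} |X|²` (`symm_le`, `Pin.symm`, `Fr.le_v`).  `S_Tay` with `ρ = r e^A`. -/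
def S_AcQ : Prop := S_Tay → ∀ (x ℓ r C₀ : ℝ) (f : ℕ → E2 → E2) (L : ℕ → E2 ≃L[ℂ] E2), SeqE x ℓ r C₀ f L →
  ∀ (m : ℕ) (Λ : E2 ≃L[ℂ] E2) (u v : E2), Fr u v →
  ∃ q : ℂ, ‖q‖ ≤ bb x ℓ C₀ * Real.exp (eB Λ - 2 * eA Λ) ∧ ∀ X : ℂ, ‖X‖ < r * Real.exp (eA Λ) →
    ‖inner ℂ v (Λ.symm ((L m).symm (f m (X • Λ u) - L m (X • Λ u)))) - q * X ^ 2‖ ≤
      2 * bb x ℓ C₀ / r * Real.exp (eB Λ - 3 * eA Λ) * ‖X‖ ^ 3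

/-- **AcS.** One step.

Proof.  `X = ⟨u,z⟩`, `Y = ⟨v,z⟩`, `z = X u + Y v`, `g = B - γ A`, `h = (P + g)⁺`, `N = N_m`, `‖N w‖ ≤ C₀ ‖w‖²` (`f m 0 = 0`).
`‖Λ z - X Λ u‖ = |Y| ‖Λ v‖ ≤ 6 R² c e^{-A-h}` and `‖X Λ u‖ ≤ 2R e^{-A}`, so `‖Λ z‖ ≤ 8 c R² e^{-A} < r`.  As `f m w = L m w + N w`,
`Λ⁻¹ (L m)⁻¹ (f m (Λ z)) = z + I`, `I = Λ⁻¹ (L m)⁻¹ (N (Λ z))`, `‖(L m)⁻¹ (N (Λ z))‖ ≤ b 64 c² R⁴ e^{-2A}`.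
`|⟨u, I⟩| ≤ c e^{B-G-h} b 64 c² R⁴ e^{-2A}`, and `B - 2A - h = g - η A - h ≤ -P - η A`.
`⟨v, I⟩ = ⟨v, Λ⁻¹ (L m)⁻¹ N (X Λ u)⟩ + err`, `|err| ≤ e^{B+xℓ} C₀ (‖Λ z‖ + ‖X Λ u‖) ‖Λ z - X Λ u‖ ≤ b e^B (10 c R² e^{-A}) (6 R² c e^{-A-h}) ≤ 60 b c² R⁴ e^{-P-ηA}`.
The first term is `q X²` up to `(2b/r) e^{B-3A} (2R)³ ≤ (16b/r) R³ e^{-P-(3-x)A} ≤ (16b/r) R³ e^{-P-ηA}` (`B + P ≤ x A`, `3 - x = 4η`, `A ≥ 0`). -/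
def S_AcS : Prop := ∀ (x ℓ r C₀ : ℝ) (f : ℕ → E2 → E2) (L : ℕ → E2 ≃L[ℂ] E2), SeqE x ℓ r C₀ f L →
  ∀ (m : ℕ) (Λ : E2 ≃L[ℂ] E2) (u v : E2) (q : ℂ) (P G c R : ℝ), Fr u v → 0 ≤ P → 0 ≤ G → 1 ≤ c → 1 ≤ R → 0 ≤ eA Λ →
  eB Λ + P ≤ x * eA Λ →
  ‖Λ v‖ ≤ c * Real.exp (-(eA Λ) - G - pp (P + (eB Λ - gam x * eA Λ))) →
  (∀ w, ‖inner ℂ u (Λ.symm w)‖ ≤ c * Real.exp (eB Λ - G - pp (P + (eB Λ - gam x * eA Λ))) * ‖w‖) →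
  (∀ X : ℂ, ‖X‖ < r * Real.exp (eA Λ) →
    ‖inner ℂ v (Λ.symm ((L m).symm (f m (X • Λ u) - L m (X • Λ u)))) - q * X ^ 2‖ ≤
      2 * bb x ℓ C₀ / r * Real.exp (eB Λ - 3 * eA Λ) * ‖X‖ ^ 3) →
  8 * c * R ^ 2 * Real.exp (-(eA Λ)) < r → 2 * R < r * Real.exp (eA Λ) →
  ∀ z : E2, ‖inner ℂ u z‖ ≤ 2 * R → ‖inner ℂ v z‖ ≤ 6 * R ^ 2 * Real.exp G →
    ‖Λ z‖ ≤ 8 * c * R ^ 2 * Real.exp (-(eA Λ)) ∧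
    ‖inner ℂ u (Λ.symm ((L m).symm (f m (Λ z)))) - inner ℂ u z‖ ≤
      64 * bb x ℓ C₀ * c ^ 3 * R ^ 4 * Real.exp (-P - eta x * eA Λ - G) ∧
    ‖inner ℂ v (Λ.symm ((L m).symm (f m (Λ z)))) - inner ℂ v z - q * (inner ℂ u z) ^ 2‖ ≤
      (60 * bb x ℓ C₀ * c ^ 2 * R ^ 4 + 16 * bb x ℓ C₀ / r * R ^ 3) * Real.exp (-P - eta x * eA Λ)

/-- **Acc.** The map of a stage is very close to a quadratic shear followed by the change of the linear coordinates.  (Uses `S_Slo`,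
`S_AcQ` in the form of its conclusion, `S_AcS`.)

Proof.  `s = s j`, `e = s (j+1)`, `n = nn s j ≥ 2`, `c = C₁ n ≥ 1`, `a = A_s ≥ 1`, `A_m ≥ a` (slopes), `P = P j`, `g m = B_m - γ A_m`.  For `s ≤ m < e` let `q_m` be the coefficient
of `S_AcQ` (`Λ = Λ_m`, frame `(u j, v j)`), `Q_m = ∑_{s ≤ i < m} q_i`, `Q = Q_e`; `δ = C₄ n³ R⁵ e^{-P-ηa}`, so `n δ ≤ 1` by the hypothesis `h4` (`P ≥ 0`).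
For `s ≤ m < e` let `k₀ ∈ [s, m]` be such that `g k₀` is maximal and `G_m = (g k₀)⁺`; so `0 ≤ G_m`, `(g i)⁺ ≤ G_m` for `s ≤ i ≤ m`.
`|Q_m|, |Q_{m+1}| ≤ ∑_{s ≤ i ≤ m} b e^{B_i - 2A_i} = ∑ b e^{g i - η A_i} ≤ n b e^{-ηa} e^{G_m} ≤ e^{G_m}` (`h1`; the empty sum for `Q_s`); in particular `|Q| ≤ e^{ρ j}` (`g_le`).
Let `‖z‖ ≤ R`, `w_m = orbE f s (m-s) (Λ_s z)`, `z_m = Λ_m⁻¹ w_m`, `X_m = ⟨u, z_m⟩`, `Y_m = ⟨v, z_m⟩`, `E_m = Y_m - Q_m X_m² - Y_s`.  Claim for `s ≤ m ≤ e`: `|X_m - X_s| ≤ (m-s) δ` and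
`|E_m| ≤ (m-s) δ`.  Step from `m < e` to `m + 1`: `|X_m| ≤ R + 1 ≤ 2R`, `|Y_m| ≤ R + e^{G_m} 4R² + 1 ≤ 6 R² e^{G_m}`.  `S_AcS` applies (`Λ = Λ_m`, `G = G_m`; `dv`, `du` with `k = k₀`;
`h2`, `h3`, `A_m ≥ a`); `Λ_{m+1}⁻¹ (f m w_m) = Λ_m⁻¹ (L m)⁻¹ (f m (Λ_m z_m)) = z_{m+1}` (`La_succ_symm`).  So `|X_{m+1} - X_m| ≤ 64 b c³ R⁴ e^{-P-ηa-G_m} ≤ δ`, and
`E_{m+1} - E_m = (Y_{m+1} - Y_m - q_m X_m²) - Q_{m+1} (X_{m+1}² - X_m²)`, where `|Q_{m+1}| |X_{m+1}² - X_m²| ≤ e^{G_m} 64 b c³ R⁴ e^{-P-ηa-G_m} 4R = 256 b c³ R⁵ e^{-P-ηa}`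
(`|X_{m+1}| ≤ R + n δ ≤ 2R`); the sum of all is `≤ (256 b C₁³ + 60 b C₁² + 16 b / r) n³ R⁵ e^{-P-ηa} ≤ δ`.
`z ∈ Dm`: `‖Λ_s z‖ ≤ e^{-a} R < r` (`h2`).  At `m = e`: the two terms of the claim are `|X_e - X_s| + |E_e| ≤ 2 n δ`. -/
def S_Acc : Prop := S_Slo → S_AcS →
  (∀ (x ℓ r C₀ : ℝ) (f : ℕ → E2 → E2) (L : ℕ → E2 ≃L[ℂ] E2), SeqE x ℓ r C₀ f L →
    ∀ (m : ℕ) (Λ : E2 ≃L[ℂ] E2) (u v : E2), Fr u v →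
    ∃ q : ℂ, ‖q‖ ≤ bb x ℓ C₀ * Real.exp (eB Λ - 2 * eA Λ) ∧ ∀ X : ℂ, ‖X‖ < r * Real.exp (eA Λ) →
      ‖inner ℂ v (Λ.symm ((L m).symm (f m (X • Λ u) - L m (X • Λ u)))) - q * X ^ 2‖ ≤
        2 * bb x ℓ C₀ / r * Real.exp (eB Λ - 3 * eA Λ) * ‖X‖ ^ 3) →
  ∀ (x ℓ r C₀ : ℝ) (f : ℕ → E2 → E2) (L : ℕ → E2 ≃L[ℂ] E2), SeqE x ℓ r C₀ f L →
  ∀ (C₅ : ℝ) (s : ℕ → ℕ) (M : ℕ → E2 ≃L[ℂ] E2) (P ρ : ℕ → ℝ) (u v : ℕ → E2), StgS x ℓ C₅ L s M P ρ u v →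
  ∀ (j : ℕ) (R : ℝ), 1 ≤ R →
  bb x ℓ C₀ * nn s j * Real.exp (-(eta x * aa L s M j)) ≤ 1 →
  8 * (CC x ℓ * nn s j) * R ^ 2 * Real.exp (-(aa L s M j)) < r → 2 * R < r * Real.exp (aa L s M j) →
  C4 x ℓ r C₀ * nn s j ^ 4 * R ^ 5 * Real.exp (-(eta x * aa L s M j)) ≤ 1 →
  ∃ Q : ℂ, ‖Q‖ ≤ Real.exp (ρ j) ∧ ∀ z : E2, ‖z‖ ≤ R → z ∈ Dm r L s M j ∧ ∀ z' : E2,
    z' = (La L (M j) (s (j + 1))).symm (orbE f (s j) (s (j + 1) - s j) (La L (M j) (s j) z)) →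
    ‖inner ℂ (u j) z' - inner ℂ (u j) z‖ +
      ‖inner ℂ (v j) z' - Q * (inner ℂ (u j) z') ^ 2 - inner ℂ (v j) z‖ ≤
      2 * C4 x ℓ r C₀ * nn s j ^ 4 * R ^ 5 * Real.exp (-(P j) - eta x * aa L s M j)

/-! ## Orbits -/

/-- **Orb.** Orbits: basic facts.

Proof.  Induction on `k` (`orbE_succ`): `f (m+k)` is differentiable at the point `orbE f m k z ∈ ball 0 r`, chain rule (`fderiv_comp`), `contr`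
(`e^{-ℓ/2} < 1`; for `r` use `ball 0 r` open: `DifferentiableOn.differentiableAt`). -/
def S_Orb : Prop := ∀ (x ℓ r C₀ : ℝ) (f : ℕ → E2 → E2) (L : ℕ → E2 ≃L[ℂ] E2), SeqE x ℓ r C₀ f L → ∀ m k : ℕ,
  DifferentiableOn ℂ (orbE f m k) (ball 0 r) ∧ MapsTo (orbE f m k) (ball 0 r) (ball 0 r) ∧
  InjOn (orbE f m k) (ball 0 r) ∧ (∀ z ∈ ball (0 : E2) r, ∀ w, fderiv ℂ (orbE f m k) z w = 0 → w = 0) ∧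
  ∀ z ∈ ball (0 : E2) r, ‖orbE f m k z‖ ≤ Real.exp (-(ℓ / 2)) ^ k * ‖z‖

/-- **Boot2.** A bootstrap for a quadratic recursion (as `Bed.S_Boot`, proved in `Bed/Boot.lean`, but `om` is only bounded instead of decreasing).

Proof.  Claim: if `0 < t ≤ 1` and there is `B` with `y m ≤ B (om m)^t` for all `m` and all admissible `y` (`Real.rpow`), then the same
holds with `θ = min 1 (t (1 + η₂))` in place of `t`, where `η₂ = η / (4 log (1/c))`.  Proof: as `0 ≤ θ ≤ 1`, `min 1 a ≤ a^θ` for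
`a > 0` (cases `a ≤ 1`, `a ≥ 1`).  So `min 1 (om m e^{-ηj} / om j ^ 2) * y j ^ 2 ≤ B² (om m)^θ e^{-ηθj} (om j)^{-2(θ-t)}`.  As
`om j ≥ c^j om 0` and `0 ≤ θ - t ≤ t η₂ ≤ θ η₂`, `(om j)^{-2(θ-t)} ≤ (om 0)^{-2(θ-t)} c^{-2(θ-t)j} ≤ (om 0)^{-2(θ-t)} e^{2 θ η₂ log(1/c) j} =
(om 0)^{-2(θ-t)} e^{ηθj/2}`.  So the sum is at most `B² (om 0)^{-2(θ-t)} (om m)^θ ∑_j e^{-ηθj/2}`, a geometric series, and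
`om m ≤ (om m)^θ` (`om m ≤ 1`).
Start: `t = min 1 (log D / log c) > 0`: `D^m ≤ (c^m)^t` (as `c^t ≥ D`) and `c^m ≤ om m / om 0`, so `y m ≤ C (om 0)^{-t} (om m)^t`.
Iterate the claim (`t_n = min 1 (t_0 (1+η₂)^n)`, induction on `n`) until `t_n = 1`. -/
def S_Boot2 : Prop := ∀ (C D c η : ℝ) (om : ℕ → ℝ), 0 < C → 0 < D → D < 1 → 0 < c → c < 1 → 0 < η →
  (∀ m, 0 < om m) → (∀ m, om m ≤ 1) → (∀ m, c * om m ≤ om (m + 1)) →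
  ∃ C' : ℝ, ∀ y : ℕ → ℝ, (∀ m, 0 ≤ y m) → (∀ m, y m ≤ C * D ^ m) →
    (∀ m, y m ≤ C * om m +
      C * ∑ j ∈ Finset.range m, min 1 (om m * Real.exp (-(η * j)) / om j ^ 2) * y j ^ 2) →
    ∀ m, y m ≤ C' * om m

/-- **KLD.** Products over several stages.  (Uses `S_Slo`.)

Proof.  `n = nn s i`, `C₁ = CC x ℓ ≥ 1`, `n ≥ 1`, `γ = gam x`.  Let `z = (La L (M i) j)⁻¹ w`; `Lp L j (m-j) w = La L (M i) m z` (`La_add`).  `X = ⟨u i, z⟩`, `Y = ⟨v i, z⟩`.  By `du` with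
`k = m = j`, `|X| ≤ C₁ n e^{B_j - (g j)⁺} ‖w‖ ≤ C₁ n e^{γ A_j} ‖w‖` (`B_j - g j = γ A_j`; numbers of the stage `i`), and `|Y| ≤ ‖z‖ ≤ e^{B_j} ‖w‖`.
Case `i = i'`: `‖Λ_m z‖ ≤ |X| e^{-A_m} + |Y| ‖Λ_m v‖`, and by `dv` with `k = j ≤ m`: `‖Λ_m v‖ ≤ C₁ n e^{-A_m - (g j)⁺}`, so `|Y| ‖Λ_m v‖ ≤ C₁ n e^{-A_m + γ A_j} ‖w‖`.
Case `i < i'`: let `z_i = z` and `z_{k+1} = (M (k+1))⁻¹ (M k z_k)`, so by `M_succ` `z_k = Rm (u k) (v k) e^{ρ k} z_{k+1}`, that is `⟨u_k, z_{k+1}⟩ = ⟨u_k, z_k⟩`,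
`⟨v_k, z_{k+1}⟩ = e^{-ρ_k} ⟨v_k, z_k⟩`, `‖z_{k+1}‖ ≤ ‖z_k‖`, and `‖z_{i+1}‖ ≤ |X| + e^{-ρ_i} |Y| ≤ (C₁ n + 1) e^{γ A_j} ‖w‖` (`g j ≤ ρ i`).  `La L (M i') m z_{i'} = La L (M i) m z`
(`La_congr`), so the norm is at most `e^{-A'_m} ‖z_{i'}‖ ≤ e^{-A'_m} 2 C₁ n e^{γ A_j} ‖w‖`, `A'_m = LA L (M i') m`. -/
def S_KLD : Prop := S_Slo → ∀ (x ℓ : ℝ) (L : ℕ → E2 ≃L[ℂ] E2), Pin x ℓ L →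
  ∀ (C₅ : ℝ) (s : ℕ → ℕ) (M : ℕ → E2 ≃L[ℂ] E2) (P ρ : ℕ → ℝ) (u v : ℕ → E2), StgS x ℓ C₅ L s M P ρ u v →
  ∀ i i' j m : ℕ, i ≤ i' → s i ≤ j → j < s (i + 1) → s i' ≤ m → m < s (i' + 1) → j ≤ m → ∀ w : E2,
  ‖Lp L j (m - j) w‖ ≤ 2 * CC x ℓ * nn s i * Real.exp (-(LA L (M i') m) + gam x * LA L (M i) j) * ‖w‖

/-- The orbits decay like `e^{-A}`, in the linear coordinates of the stages. -/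
def Ob1C : Prop := ∀ (x ℓ r C₀ : ℝ) (f : ℕ → E2 → E2) (L : ℕ → E2 ≃L[ℂ] E2), SeqE x ℓ r C₀ f L →
  ∀ (C₅ : ℝ) (s : ℕ → ℕ) (M : ℕ → E2 ≃L[ℂ] E2) (P ρ : ℕ → ℝ) (u v : ℕ → E2), StgS x ℓ C₅ L s M P ρ u v →
  ∀ l : ℕ, ∃ C' : ℝ, 0 < C' ∧ ∀ w ∈ ball (0 : E2) r, ∀ j m : ℕ, l ≤ j → s j ≤ m → m < s (j + 1) →
    ‖orbE f (s l) (m - s l) w‖ ≤ C' * Real.exp (-(LA L (M j) m))

/-- **Ob1.** (Uses `S_Slo`, `S_Boot2`, `S_KLD`, `S_Orb`.)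

Proof.  `s` is strictly increasing; for `m ≥ s l` let `J m ≥ l` be the index with `s (J m) ≤ m < s (J m + 1)`, `Ah m = LA L (M (J m)) m`, `m₀ = s l`, `om i = e^{-Ah (m₀+i)}`.
Facts: (a) `Ah m ≥ 1 + ℓ (m - s (J m))` and `Ah m ≥ Ah m₀ + ℓ (m - m₀)` (`step`, `Slp.A_add`, induction on the stage), so `om ≤ 1`.
(b) `Ah (m+1) ≤ Ah m + x ℓ`: slope in the same stage; if `m + 1 = s (J m + 1)`, `Ah (m+1) = LA L (M (J m + 1)) (m+1) ≤ LA L (M (J m)) (m+1)` (`anti`).  So `c om i ≤ om (i+1)`,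
`c = e^{-xℓ} < 1`.
(c) `nn s (J m) ≤ C₅ aa (J m) ≤ C₅ Ah m`, and `τ e^{-(η/2)τ} ≤ C` for `τ ≥ 0`; so `nn s (J m) e^{γ Ah m} ≤ C e^{(2 - η/2) Ah m}`.
Let `w ∈ ball 0 r`, `w_i = orbE f m₀ i w`, `y i = ‖w_i‖ ≤ r e^{-(ℓ/2) i}` (`S_Orb`), `N_m` as above, `‖N_m w‖ ≤ C₀ ‖w‖²`.  By induction on `i`
`w_i = Lp L m₀ i w + ∑_{j<i} Lp L (m₀+j+1) (i-j-1) (N_{m₀+j} w_j)`.  `‖Lp L m₀ i w‖ ≤ C om i` with a constant depending on `l` (`S_KLD`, `j = m₀`).  For `j < i`, with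
`m' = m₀ + j`: the term is at most `‖N‖ ≤ C₀ y_j²` (`Pin.up`), and it is `Lp L m' (i-j) ((L m')⁻¹ N)` (`Lp_add`), so by `S_KLD`, (c) it is at most
`C om i e^{(2-η/2) Ah m'} y_j² = C om i (om j)^{-2} e^{-(η/2) Ah m'} y_j² ≤ C om i (om j)^{-2} e^{-(ηℓ/2) j} y_j²`.  So the term is at most
`C min 1 (om i e^{-η₂ j} / om j ^ 2) y_j²`, `η₂ = ηℓ/2`.  `S_Boot2` with `D = e^{-ℓ/2}`. -/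
def S_Ob1 : Prop := S_Slo → S_Boot2 → S_KLD → S_Orb → Ob1C

/-- **Ob2.** The orbits of the stage maps are bounded.  (Uses `S_Slo`, `S_Orb`, `Ob1C`.)

Proof.  Let `z ∈ Dm r L s M l`, `w = La L (M l) (s l) z ∈ ball 0 r`, `m₀ = s l`, `w_m = orbE f m₀ (m-m₀) w` for `m ≥ m₀`, `‖w_m‖ ≤ C' e^{-A_m}` in the stage `j` (`Ob1C`), and
`ζ_j = orbE (Th L f s M) l (j-l) z`, so `La L (M j) (s j) ζ_j = w_{s j}` (induction on `j`; `orbE_add`).  Fix `j ≥ l` and let `z_m = Λ_m⁻¹ w_m` for `s j ≤ m ≤ s (j+1)`, so `z_{s j} = ζ_j`.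
For `m < s (j+1)`: `z_{m+1} - z_m = I_m = Λ_m⁻¹ (L m)⁻¹ (N_m w_m)`, `‖(L m)⁻¹ (N_m w_m)‖ ≤ b C'² e^{-2A_m}`, `|⟨u,I_m⟩| ≤ C₁ n e^{B_m - (g m)⁺} b C'² e^{-2A_m} ≤
C₁ n b C'² e^{-η A_m}` (`du` with `k = m`; `B_m - g m = γ A_m`, `γ - 2 = -η`), `e^{-ρ} |⟨v,I_m⟩| ≤ e^{B_m - ρ} b C'² e^{-2A_m} ≤ b C'² e^{-η A_m}`.
`ζ_{j+1} = R⁻¹ z_e` where `R⁻¹ = Rm (u j) (v j) e^{-ρ j}` (`M_succ`, as in `S_KLD`), so `‖ζ_{j+1}‖ ≤ ‖R⁻¹ ζ_j‖ + ∑_m ‖R⁻¹ I_m‖ ≤ ‖ζ_j‖ + 2 C₁ n² b C'² e^{-η a_j}`.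
`n_j ≤ C₅ a_j`, `τ² e^{-ητ} ≤ C e^{-(η/2)τ}`, and `a_j ≥ a_l + ℓ (j - l)` (`step`, `lt`), so the increments are summable and the `ζ_j` are bounded. -/
def S_Ob2 : Prop := S_Slo → S_Orb → Ob1C → ∀ (x ℓ r C₀ : ℝ) (f : ℕ → E2 → E2) (L : ℕ → E2 ≃L[ℂ] E2), SeqE x ℓ r C₀ f L →
  ∀ (C₅ : ℝ) (s : ℕ → ℕ) (M : ℕ → E2 ≃L[ℂ] E2) (P ρ : ℕ → ℝ) (u v : ℕ → E2), StgS x ℓ C₅ L s M P ρ u v →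
  ∀ l : ℕ, ∀ z ∈ Dm r L s M l, ∃ B : ℝ, ∀ i, ‖orbE (Th L f s M) l i z‖ ≤ B

end Pool.Agent.Lib.BedD
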