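import Pool.Agent.Lib.BedD.Basic

/-!
# MP_6f050a_an, theorem D, part L: singular frames, good stages, the sequence of stages

Every task: prove `theorem sX : S_X` (namespace `Pool.Agent.Lib.BedD`) in the file named in the task; auxiliary lemmas in the
namespace `Pool.Agent.Lib.BedD.sXAux`.  Statements used in a proof are hypotheses inside the definitions.  All proofs are complete
in the docstrings.  Definitions: `Defs.lean`; the toolkit (`le_eA`, `low_eB`, `eA_ge`, `eB_le`, `eA_le_of`, `eB_ge_of`, `Fr.expand`, `Fr.norm_sq`,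
`Fr.norm_wd_v`, `wd_tri`, `lagrange`, `La_add`, `Slp.I1`, `Slp.I2`, ...) is proved in `Basic.lean`.

Notation of the proofs: `γ = gam x = (x+5)/4`, `η = eta x = 2 - γ = (3-x)/4`, `A m = LA L M m`, `B m = LB L M m`, `D m = B m - A m ≥ 0`,
`g m = B m - γ A m` (`GG`), `a⁺ = pp a`.  Note `1 < γ < 2`, `0 < x - γ = (3x-5)/4 < 1` for `2 < x < 3`.
-/

set_option autoImplicit false

open scoped Topology
open Set Filter Metric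

namespace Pool.Agent.Lib.BedD

/-- **SVD.** Singular frames.

Proof.  Let `S = T† ∘ T` (adjoint of `(T : E2 →L[ℂ] E2)`), a symmetric operator; `LinearMap.IsSymmetric.eigenvectorBasis` with
`finrank ℂ E2 = 2` gives an orthonormal basis `b 0`, `b 1` of eigenvectors.  `⟨T b_0, T b_1⟩ = ⟨S b_0, b_1⟩ = 0`.  Let `u` be the one of
`b 0`, `b 1` with the larger `‖T u‖` and `v` the other one.  `Fr u v`, and for every `z` (`Fr.expand`, `Fr.norm_sq`, orthogonality of `T u`, `T v`)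
`‖T z‖² = |⟨u,z⟩|² ‖T u‖² + |⟨v,z⟩|² ‖T v‖²`, so `‖T v‖ ‖z‖ ≤ ‖T z‖ ≤ ‖T u‖ ‖z‖`.  Hence `‖T u‖ = e^{-eA T}` (`eA_ge`, `le_eA`) and `‖T v‖ = e^{-eB T}`
(`eB_le`, `low_eB`).  (Another way: maximise `‖T z‖` on the compact unit sphere.) -/
def S_SVD : Prop := ∀ T : E2 ≃L[ℂ] E2, ∃ u v : E2, SFr T u v

/-- **Det.** The determinant.  (Uses `S_SVD`.)

Proof.  Let `(u, v)` be a singular frame, `z = α u + β v`, `w = α' u + β' v` (`Fr.expand`).  Then `wd z w = (α β' - β α') wd u v` and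
`wd (T z) (T w) = (α β' - β α') wd (T u) (T v)` (`wd_add_left` etc.), `‖wd u v‖ = 1` (`Fr.wd_eq`) and `‖wd (T u) (T v)‖ = ‖T u‖ ‖T v‖` (`lagrange`,
orthogonality). -/
def S_Det : Prop := S_SVD → ∀ (T : E2 ≃L[ℂ] E2) (z w : E2),
  ‖wd (T z) (T w)‖ = Real.exp (-(eA T) - eB T) * ‖wd z w‖

/-- **Slo.** The slopes.

Proof.  `Λ = La L M m`, `Λ' = La L M (m+1)`, `Λ' z = L m (Λ z)`, `A = eA Λ`, `A' = eA Λ'`, and so on.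
`A_ge`: `‖Λ' z‖ ≤ e^{-ℓ} ‖Λ z‖ ≤ e^{-ℓ-A} ‖z‖` and `eA_ge`.  `A_le`: `‖Λ z‖ ≤ e^{xℓ} ‖Λ' z‖ ≤ e^{xℓ-A'} ‖z‖`, so `A' - xℓ ≤ A`.
`B_ge`: `‖Λ z‖ ≥ e^{ℓ} ‖Λ' z‖ ≥ e^{ℓ-B'} ‖z‖`, so `B ≤ B' - ℓ` (`eB_le`).  `B_le`: `‖Λ' z‖ ≥ e^{-xℓ} ‖Λ z‖ ≥ e^{-xℓ-B} ‖z‖`.  `AB`: `eA_le_eB`. -/
def S_Slo : Prop := ∀ (x ℓ : ℝ) (L : ℕ → E2 ≃L[ℂ] E2), Pin x ℓ L → ∀ M : E2 ≃L[ℂ] E2, Slp x ℓ (LA L M) (LB L M)

/-- **Drc.** The most contracted direction of the time `t`, at other times.  (Uses `S_SVD`, `S_Det`, `S_Slo`.)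

Proof.  `Λ_i = La L M i`, `c = CC x ℓ = e^{(x-1)ℓ} ≥ 1`, `D_i = B_i - A_i`.  For every `i` let `(u_i, v_i)` be a singular frame of `Λ_i`, with `v_t = v`, `u_t = u`.
(1) `|wd v_i v_{i+1}| ≤ c e^{-D_i}`: by `S_Det` for `Λ_{i+1}` and `wd_le`, `|wd v_i v_{i+1}| = e^{A_{i+1}+B_{i+1}} |wd (Λ_{i+1} v_i) (Λ_{i+1} v_{i+1})| ≤
e^{A_{i+1}+B_{i+1}} (e^{-ℓ} e^{-B_i}) e^{-B_{i+1}} ≤ e^{(x-1)ℓ} e^{A_i - B_i}` (`A_{i+1} ≤ A_i + xℓ`).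
(2) by `wd_tri`, `|wd v_m v| ≤ (max m t - min m t) c e^{-d}` (sum over `min m t ≤ i < max m t`; induction on the distance).
(3) `‖Λ_m v‖ ≤ |⟨u_m, v⟩| e^{-A_m} + |⟨v_m, v⟩| e^{-B_m} ≤ |wd v_m v| e^{-A_m} + e^{-B_m}` (`Fr.norm_wd_v`).  Moreover `e^{-B_m} ≤ c e^{-A_m-d}`: if `m ≤ t`, `d ≤ D_m`
(for `m = t` by the first hypothesis on `d`); if `m > t`, `D_m ≥ D_{m-1} - (x-1)ℓ ≥ d - (x-1)ℓ` (slopes).  This is the first claim.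
(4) `|⟨u, Λ_m⁻¹ w⟩| = |wd v (Λ_m⁻¹ w)|` (`Fr.norm_wd_v`) `= e^{A_m+B_m} |wd (Λ_m v) w| ≤ e^{A_m+B_m} ‖Λ_m v‖ ‖w‖`. -/
def S_Drc : Prop := S_SVD → S_Det → S_Slo → ∀ (x ℓ : ℝ) (L : ℕ → E2 ≃L[ℂ] E2), Pin x ℓ L →
  ∀ (M : E2 ≃L[ℂ] E2) (t : ℕ) (u v : E2), SFr (La L M t) u v → ∀ (m : ℕ) (d : ℝ), d ≤ LB L M t - LA L M t →
  (∀ i, min m t ≤ i → i < max m t → d ≤ LB L M i - LA L M i) →
  ‖La L M m v‖ ≤ CC x ℓ * (((max m t : ℕ) : ℝ) - ((min m t : ℕ) : ℝ) + 1) * Real.exp (-(LA L M m) - d) ∧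
  ∀ w, ‖inner ℂ u ((La L M m).symm w)‖ ≤
    CC x ℓ * (((max m t : ℕ) : ℝ) - ((min m t : ℕ) : ℝ) + 1) * Real.exp (LB L M m - d) * ‖w‖

/-- **Psh.** The change of the linear coordinates.  (Uses `S_SVD`, `S_Det`, `S_Slo`, `S_Drc`.)

Proof.  `R = Rm u v e^ρ` is invertible with inverse `Rm u v e^{-ρ}` (`Rm_apply`, `Fr.inner_u`, `Fr.inner_v`, `Fr.expand`; `ContinuousLinearEquiv.equivOfInverse`);
`M' = M ∘ R`, so `Λ'_m = Λ_m ∘ R` (`La_congr`).  `‖z‖ ≤ ‖R z‖` and so `‖Λ_m (R z)‖ ≤ e^{-A'_m} ‖z‖ ≤ e^{-A'_m} ‖R z‖`: `A'_m ≤ A_m` (`R` is onto; `eA_ge`).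
`wd (R z) (R w) = e^ρ wd z w`, so by `S_Det` for `Λ'_m` and `Λ_m` (with `z = u`, `w = v`): `e^{-A'_m-B'_m} = e^{-A_m-B_m+ρ}`.
At `t`: `‖Λ_t R z‖² = |⟨u,z⟩|² e^{-2A_t} + e^{2ρ} |⟨v,z⟩|² e^{-2B_t} ≤ e^{-2A_t} ‖z‖²` as `ρ ≤ B_t - A_t` (orthogonality `SFr.orth`), so `A_t ≤ A'_t`.
Last claim: by `S_Drc` with `d = ρ` (`t ≤ m`, so `min m t = t`, `max m t = m`), `‖Λ_m v‖ ≤ C₁ (m - t + 1) e^{-A_m-ρ} ≤ C₁ n e^{-A_m-ρ}`, hence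
`‖Λ_m R z‖ ≤ |⟨u,z⟩| ‖Λ_m u‖ + e^ρ |⟨v,z⟩| ‖Λ_m v‖ ≤ e^{-A_m} (1 + C₁ n) ‖z‖`, and `eA_ge`. -/
def S_Psh : Prop := S_SVD → S_Det → S_Slo → S_Drc → ∀ (x ℓ : ℝ) (L : ℕ → E2 ≃L[ℂ] E2), Pin x ℓ L →
  ∀ (M : E2 ≃L[ℂ] E2) (t e : ℕ) (u v : E2) (ρ n : ℝ), SFr (La L M t) u v → 0 ≤ ρ → ρ ≤ LB L M t - LA L M t → t ≤ e →
  (e : ℝ) - t + 1 ≤ n →
  ∃ M' : E2 ≃L[ℂ] E2, (∀ z, M' z = M (Rm u v (Real.exp ρ : ℂ) z)) ∧ (∀ m, LA L M' m ≤ LA L M m) ∧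
    (∀ m, LA L M' m + LB L M' m = LA L M m + LB L M m - ρ) ∧ LA L M' t = LA L M t ∧
    ∀ m, t ≤ m → m ≤ e → (∀ i, t ≤ i → i < m → ρ ≤ LB L M i - LA L M i) →
      LA L M m - Real.log (1 + CC x ℓ * n) ≤ LA L M' m

/-- **Sng.** A single time is a good stage.

Proof.  `A s > 0`.  If `g s > 0`: `g s + (P + g s) = 2 B - 2γ A + P ≤ B - A` iff `B + P ≤ (2γ - 1) A`, true as `B + P ≤ x A` and `x ≤ 2γ - 1` (`x < 3`).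
If `g s ≤ 0 < P + g s`: `P + B - γ A ≤ B - A` iff `P ≤ (γ - 1) A`, true as `P ≤ (x - γ) A` and `x - γ ≤ γ - 1`.  If both are `≤ 0`: `A s ≤ B s`. -/
def S_Sng : Prop := ∀ (x : ℝ) (A B : ℕ → ℝ) (s : ℕ) (P : ℝ), 2 < x → x < 3 → A s ≤ B s → Inv x A B s P →
  pp (GG x A B s) + pp (P + GG x A B s) ≤ B s - A s

/-- **Grd.** The choice of a good stage.  (Uses `S_Sng`.)

Proof.  For `m ≥ s` the state at the time `m` is admissible: `Inv x A B m P` (`Slp.I1`, `A` increasing, `x > γ`).  By `Slp.A_add` `A e → ∞`; let `e_c` be the smallest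
`e` with `K * A s ≤ A e`; `e_c > s`, and `A e ≤ K * A s + x ℓ` for `s < e ≤ e_c` (slope at `e - 1`).  `Good s P s (s+1)` holds by `S_Sng` (`k = m = i = s`).  Let `e` be the
largest number in `(s, e_c]` for which there is `t` with `Good x A B s P t e`.  If `e = e_c` we are done.  Let `e < e_c`, so there is no `t'` with
`Good s P t' (e+1)`.  Let `g = GG x A B`, `D = B - A`.  Claim: there is `i ∈ [t, e]` with `D i < thr = (g t)⁺ + (P + min (g t) (g e))⁺`; then take the smallest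
such `i` (`Nat.find`).
Case `g e ≤ g t`: `t' = t` fails although `mx` holds on `[s, e]`, so `sep` fails for some `k ≤ m ≤ e` and `i` between `m` and `t`; as `Good s P t e` this has `m = e`, so
`i ∈ [t, e]` and `D i < (g k)⁺ + (P + g e)⁺ ≤ (g t)⁺ + (P + g e)⁺ = thr` (`g k ≤ g t` for all `k ≤ e`).
Case `g e > g t`: `t' = e` satisfies `mx`, so `sep` fails: `k ≤ m ≤ e`, `m ≤ i ≤ e`, `D i < (g k)⁺ + (P + g m)⁺`.  If `m = e` then `i = e` and `g k ≤ g e`, which contradicts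
`S_Sng` at the time `e`.  So `m < e`, `g k ≤ g t`, `g m ≤ g t`.  If `i < t`, then `m ≤ i ≤ t` contradicts `Good s P t e`.  So `i ≥ t` and
`D i < (g t)⁺ + (P + g t)⁺ = thr`. -/
def S_Grd : Prop := S_Sng → ∀ (x ℓ : ℝ) (A B : ℕ → ℝ) (s : ℕ) (P K : ℝ), 0 < ℓ → 2 < x → x < 3 → 1 < K →
  Slp x ℓ A B → Inv x A B s P →
  ∃ t e, Good x A B s P t e ∧ A e ≤ K * A s + x * ℓ ∧ (K * A s ≤ A e ∨ Dip x A B P t e)

/-- **Inh.** The state after a good stage is admissible.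

Proof.  `ρ = (g t)⁺`, `A' t = A t`, so `B' t = B t - ρ`.  `B' t + (P + ρ) = B t + P ≤ x A t = x A' t` (`Slp.I1` for `A, B` from `s` to `t`), hence by `Slp.I1` for `A', B'` the same at the
time `e`.  `P + ρ ≤ (x - γ) A t`: if `g t ≤ 0`, `ρ = 0` and `P ≤ (x-γ) A s ≤ (x-γ) A t`; otherwise `P + B t - γ A t ≤ (x-γ) A t`.  `A' e ≥ A' t + ℓ (e - t) =
A t + ℓ (e - t) ≥ A s + ℓ (e - s)` (`Slp.A_add` twice).  Last claim: `Psd.low` at `m = e`: `ρ ≤ D i` for `t ≤ i < e` by `Good.sep` with `k = t`, `m = i`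
(`(P + g i)⁺ ≥ 0`). -/
def S_Inh : Prop := ∀ (x ℓ : ℝ) (A B A' B' : ℕ → ℝ) (s t e : ℕ) (P ρ κ : ℝ), 0 < ℓ → 2 < x → x < 3 →
  Slp x ℓ A B → Slp x ℓ A' B' → Inv x A B s P → Good x A B s P t e → Psd x A B A' B' t e ρ κ →
  Inv x A' B' e (P + ρ) ∧ P + ρ ≤ (x - gam x) * A t ∧ A s + ℓ * ((e : ℝ) - s) ≤ A' e ∧ A t ≤ A' e ∧ A e - κ ≤ A' e

/-- **Stp.** One step of the construction.  (Uses the statements above.)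

Proof.  `S_Grd` (for `LA L M`, `LB L M`, with `S_Slo`) gives `t`, `e`; `S_SVD` gives the singular frame `(u, v)` of `La L M t`; `ρ = (g t)⁺ ≤ D t` by `Good.sep` with
`k = m = i = t`.  `S_Psh` with `n = e - s + 1` gives `M'`.  `dv`, `du`: `S_Drc` with `d = (g k)⁺ + (P + g m)⁺`, which is `≤ D i` for all `i` between `m` and `t` (also for `i = t`) by
`Good.sep`; `max m t - min m t + 1 ≤ e - s + 1`.  `psd` is the conclusion of `S_Psh`; `inv` is `S_Inh`. -/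
def S_Stp : Prop := S_SVD → S_Det → S_Slo → S_Drc → S_Psh → S_Sng → S_Grd → S_Inh →
  ∀ (x ℓ K : ℝ) (L : ℕ → E2 ≃L[ℂ] E2), Pin x ℓ L → 1 < K → ∀ (s : ℕ) (M : E2 ≃L[ℂ] E2) (P : ℝ),
  Inv x (LA L M) (LB L M) s P → ∃ (t e : ℕ) (u v : E2) (M' : E2 ≃L[ℂ] E2) (ρ : ℝ), StpR x ℓ K L s M P t e u v M' ρ

/-- **Rec.** The recursion for two consecutive stages with dips.

Proof.  `g = GG x A B`, `g' = GG x A' B'`, `D = B - A`, `D' = B' - A'`, `P' = P + ρ`, `N = A t`, `N' = A' t'`, `θ = g t`, `θ' = g' t'`, `μ = max 0 (-θ)`, `μ' = max 0 (-θ')`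
(so `θ = θ⁺ - μ`, `ρ = θ⁺`).  Let `i` be the first dip of the first stage.
(1) `D' i ≤ D i - ρ + 2κ`: `Psd.low` at `i` (for `t ≤ i' < i`, `ρ ≤ thr ≤ D i'`) gives `A' i ≥ A i - κ`, and `D' i = (A i + B i - ρ) - 2 A' i`.  So
`D' i ≤ (P + min (g t) (g e))⁺ + 2κ`.
(2) `P + min (g t) (g e) ≤ P' - max μ μ'`: `P + g t = P' - μ`; and `g' e = (A e + B e - ρ) - (1+γ) A' e ≥ g e - ρ`, `g' e ≤ θ'` (`Good.mx` of the second stage at `e`), so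
`P + g e ≤ P' + θ'`, which is `P' - μ'` if `θ' ≤ 0`; if `θ' > 0` then `μ' = 0`.
(3) `μ ≤ P'`: if `θ < 0`, the dip of the first stage and `D ≥ 0` give `P + min (g t) (g e) > 0` (`(g t)⁺ = 0`), so `P' - μ > 0`.  `μ' ≤ P'`: if `θ' < 0`, the dip of the second
stage and `D' ≥ 0` give `P' + min (g' t') (g' e') > 0`.  So `D' i ≤ P' - max μ μ' + 2κ`.
(4) `B' t = B t - ρ = γ N + θ - θ⁺ = γ N - μ`, `A' t = N`; `Slp.I2` for `A', B'` from `t` to `i`: `x B' i - A' i ≥ x (γ N - μ) - N`, that is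
`(x-1) A' i ≥ (γx-1) N - x μ - x D' i`.
(5) `Slp.I1` for `A', B'` from `i` to `t'` (`i ≤ e ≤ t'`): `γ N' + θ' - x N' ≤ D' i - (x-1) A' i`, so
`(x-γ) N' ≥ θ' + (γx-1) N - x μ - (x+1) D' i`.
(6) `θ' - θ'⁺ = -μ'`, `μ' + x μ ≤ (x+1) max μ μ'`, so the right side of the claim is at least
`(γx-1) N - P' - μ' - x μ - (x+1) (P' - max μ μ' + 2κ) ≥ (γx-1) N - (x+2) P' - 2(x+1)κ`, and
`γx - 1 - (x+2)(x-γ) = (x+1)(2γ-1-x) = (x+1)(3-x)/2`. -/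
def S_Rec : Prop := ∀ (x ℓ : ℝ) (A B A' B' : ℕ → ℝ) (s t e t' e' : ℕ) (P ρ κ : ℝ), 0 < ℓ → 2 < x → x < 3 → 0 ≤ P → 0 ≤ κ →
  Slp x ℓ A B → Slp x ℓ A' B' → Good x A B s P t e → Dip x A B P t e → Psd x A B A' B' t e ρ κ →
  Good x A' B' e (P + ρ) t' e' → Dip x A' B' (P + ρ) t' e' →
  (x + 2) * ((x - gam x) * A t - (P + ρ)) + (x + 1) * (3 - x) / 2 * A t - 2 * (x + 1) * κ ≤
    (x - gam x) * A' t' - (P + ρ + pp (GG x A' B' t'))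

/-- **Gr.** The growth.

Proof.  `c₁ = a 0`, `c₃ = c₀ c₁ / 6`, `c₂ = c₃ / 3 = c₀ a 0 / 18`; `c₂ ≤ c₃ / 3 ≤ c₁ / 3` (`c₀ ≤ 6`).  By induction on `j`: (i) `c₂ 3^j ≤ a j`; (ii) if `j = 0` or `¬ V (j-1)`: `c₁ 3^j ≤ a j`;
(iii) if `j ≥ 1`, `V (j-1)` and `V j`: `c₃ 3^j ≤ Z j`.  Step to `j + 1`:
if `¬ V j`: `a (j+1) ≥ (K/2) a j ≥ (54/c₀) c₂ 3^j = 3 c₁ 3^j` ((ii) and (i); (iii) is void).  If `V j` and (`j = 0` or `¬ V (j-1)`): `a (j+1) ≥ N j ≥ a j ≥ c₁ 3^j ≥ c₂ 3^{j+1}`, and if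
`V (j+1)`, `Z (j+1) ≥ 3 Z j + (c₀/2) N j ≥ (c₀/2) c₁ 3^j = c₃ 3^{j+1}`.  If `V j`, `j ≥ 1`, `V (j-1)`: `a (j+1) ≥ N j ≥ Z j ≥ c₃ 3^j = c₂ 3^{j+1}`, and if `V (j+1)`,
`Z (j+1) ≥ 3 Z j ≥ c₃ 3^{j+1}`. -/
def S_Gr : Prop := ∀ (K c₀ : ℝ) (a N Z : ℕ → ℝ) (V : ℕ → Prop), 0 < c₀ → c₀ ≤ 6 → 108 / c₀ ≤ K → 0 < a 0 →
  (∀ j, a j ≤ N j) → (∀ j, N j ≤ a (j + 1)) → (∀ j, 0 ≤ Z j) → (∀ j, Z j ≤ N j) →
  (∀ j, ¬ V j → K / 2 * a j ≤ a (j + 1)) → (∀ j, V j → V (j + 1) → 3 * Z j + c₀ / 2 * N j ≤ Z (j + 1)) →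
  ∀ j : ℕ, c₀ / 18 * a 0 * 3 ^ j ≤ a j

/-- The conclusion of part L: there are sequences of stages, starting as late as we want, with exponentially growing `A`. -/
def StgSC : Prop := ∀ (x ℓ : ℝ) (L : ℕ → E2 ≃L[ℂ] E2), Pin x ℓ L → ∃ C₅ : ℝ, 0 < C₅ ∧ ∀ Astar : ℝ,
  ∃ (s : ℕ → ℕ) (M : ℕ → E2 ≃L[ℂ] E2) (P ρ : ℕ → ℝ) (u v : ℕ → E2) (c : ℝ), 0 < c ∧ StgS x ℓ C₅ L s M P ρ u v ∧
    (∀ j, Astar ≤ aa L s M j) ∧ ∀ j : ℕ, c * 3 ^ j ≤ aa L s M j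

/-- **SS.** The sequence of stages.  (Uses the conclusion of `S_Stp`, and `S_Slo`, `S_Inh`, `S_Rec`, `S_Gr`.)

Proof.  `c₀ = (x+1)(3-x)/2 ∈ (0, 2)`, `K = 108 / c₀ > 1`, `C₁ = CC x ℓ`, `C₅ = K/ℓ + x + 1`.  There is `A₁ ≥ 1` with
`log (1 + C₁ C₅ τ) ≤ c₀ τ / (4 (x+1))` and `≤ K τ / 2` for all `τ ≥ A₁`; w.l.o.g. `Astar ≥ A₁` (replace it by the maximum).
Start: `M = id`: `LA L M 0 = LB L M 0 = 0` (`eA refl = eB refl = 0`), `s₀` with `ℓ s₀ ≥ Astar`, `P = 0`: `A s₀ ≥ ℓ s₀ ≥ Astar` (`Slp.A_add`), `B s₀ ≤ x A s₀` (`Slp.I1`), so `Inv`.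
States: triples `(s, M, P)` with `Inv x (LA L M) (LB L M) s P` and `Astar ≤ LA L M s`.  The hypothesis (conclusion of `S_Stp`) gives from a state the next one
`(e, M', P + ρ)` (`StpR.inv`; `A' e ≥ A s` by `S_Inh`), so by choice and recursion we get sequences `s`, `M`, `P`, `t`, `ρ`, `u`, `v` with `StpR` for every `j`,
`e = s (j+1)`.
`StgS`: `lt`: `s ≤ t < e`; `P_nonneg`: `Inv`; `ρ_nonneg`, `g_le`: `Psd.ρ_eq`, `Good.mx`; `BP`: `Inv.BP` and `Slp.I1`; `anti`: `Psd.le`; `step`: `S_Inh`; `len`: `A s + ℓ (e - s) ≤ A e ≤ K A s + xℓ`, so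
`e - s + 1 ≤ K (A s)/ℓ + x + 1 ≤ C₅ A s` (`A s ≥ 1`).
Growth: apply `S_Gr` with `a j = A_j (s j)`, `N j = A_j (t j)`, `Z j = (x-γ) N j - P (j+1)`, `V j` the dip alternative of `StpR.cd` (`Dip`).  `a j ≤ N j`: slopes; `N j ≤ a (j+1)`, `Z j ≥ 0`: `S_Inh`;
`Z j ≤ N j`: `x - γ ≤ 1`, `P ≥ 0`.  Put `κ_j = log (1 + C₁ n_j)`, `n_j ≤ C₅ a j`.  If `¬ V j`: `a (j+1) ≥ A e - κ_j ≥ K a j - κ_j ≥ (K/2) a j` (`S_Inh`).  If `V j`, `V (j+1)`: by `S_Rec`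
`Z (j+1) ≥ (x+2) Z j + c₀ N j - 2(x+1) κ_j ≥ 3 Z j + (c₀/2) N j` (`κ_j ≤ log (1 + C₁ C₅ N j)`).  (`P (j+2) = P (j+1) + pp g'`.) -/
def S_SS : Prop := S_Slo → S_Inh → S_Rec → S_Gr →
  (∀ (x ℓ K : ℝ) (L : ℕ → E2 ≃L[ℂ] E2), Pin x ℓ L → 1 < K → ∀ (s : ℕ) (M : E2 ≃L[ℂ] E2) (P : ℝ),
    Inv x (LA L M) (LB L M) s P →
    ∃ (t e : ℕ) (u v : E2) (M' : E2 ≃L[ℂ] E2) (ρ : ℝ), StpR x ℓ K L s M P t e u v M' ρ) → StgSC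

end Pool.Agent.Lib.BedD
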