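import Pool.Agent.Lib.BedD.SpecA
import Pool.Agent.Lib.Bed.SpecN

/-!
# MP_6f050a_an, theorem D, part T: trains of maps; part E: assembly; part R: reduction

Every task: prove `theorem sX : S_X` (namespace `Pool.Agent.Lib.BedD`) in the file named in the task; auxiliary lemmas in the
namespace `Pool.Agent.Lib.BedD.sXAux`.  All proofs are complete in the docstrings.
`Bed.S_Wei` (proved: `Bed.sWei` in `Pool/Agent/Lib/Bed/Wei.lean`) is the holomorphy of uniform limits in several variables; Cauchy's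
estimate for the derivative is `Osgood.norm_fderiv_le` in `Pool/Agent/Lib/Osgood.lean`.
-/

set_option autoImplicit false

open scoped Topology
open Set Filter Metric

namespace Pool.Agent.Lib.BedD

/-! ## Part T -/

/-- **Cau.** Cauchy's estimate.

Proof.  For `z ∈ ball 0 (ρ/2)` the ball `ball z (ρ/2)` is contained in `ball 0 ρ`, so `‖fderiv ℂ h z‖ ≤ ε / (ρ/2)` (`Osgood.norm_fderiv_le`).  The second part: mean value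
inequality on the convex set `ball 0 (ρ/2)` (`Convex.norm_image_sub_le_of_norm_fderiv_le`). -/
def S_Cau : Prop := ∀ (h : E2 → E2) (ρ ε : ℝ), 0 < ρ → 0 ≤ ε → DifferentiableOn ℂ h (ball 0 ρ) →
  (∀ z ∈ ball (0 : E2) ρ, ‖h z‖ ≤ ε) →
  (∀ z ∈ ball (0 : E2) (ρ / 2), ∀ w, ‖fderiv ℂ h z w‖ ≤ 2 * ε / ρ * ‖w‖) ∧
  ∀ z ∈ ball (0 : E2) (ρ / 2), ∀ z' ∈ ball (0 : E2) (ρ / 2), ‖h z - h z'‖ ≤ 2 * ε / ρ * ‖z - z'‖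

/-- **TLi.** The estimates for a train.

Proof.  Choose `l₀` with `e^{C 2^l} ≤ R l` and `e l ≤ e^{-P l - (4C+3) 2^l} ≤ 1` for `l ≥ l₀` (`R_big`, `e_small`).  Let `r_l = e^{C 2^l}`, so `r_l² = r_{l+1}`.
(1) Let `l ≥ l₀`, `‖z‖ + 3 ≤ r_l`.  Then `z ∈ dom l` and `‖Θ l z‖ + 3 ≤ r_{l+1}`: with `x = T l (Θ l z)`, `‖x‖ ≤ ‖z‖ + 1`, `Θ l z = S l x`, so
`‖Θ l z‖ + 3 ≤ (‖z‖+1) + (‖z‖+1)² + 3 ≤ (‖z‖+3)²`.  This gives the first two claims (induction on `i`).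
(2) Write `h l i z = bk T i l (orbE Θ l i z)`; `h l (i+1) z = T l (h (l+1) i (Θ l z))` (`orbE_succ'`, `bk_succ`), `h l 0 z = z`.  Claim: for all `i`, all `l ≥ l₀` and all `z` with
`‖z‖ + 3 ≤ r_l`: `‖h l (i+1) z - h l i z‖ ≤ β l i = e^{-P l - 4C 2^l - 3 2^{l+i}}`.  Strong induction on `i`.  `i = 0`: `‖T l (Θ l z) - z‖ ≤ e l ≤ β l 0`.  Step to `i + 1`: let
`z' = Θ l z`.  By the induction hypothesis (for `0, ..., i` at `l + 1`, `z'`) both `x = h (l+1) (i+1) z'` and `x' = h (l+1) i z'` are at distance `≤ ∑_{k≥0} β (l+1) k ≤ 1` from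
`z'`, so `1 + ‖x‖ + ‖x'‖ ≤ 2 (‖z'‖ + 3) ≤ (‖z'‖+3)² ≤ e^{4C 2^l}`, and by `T_lip` the difference `T l x - T l x'` has norm at most
`e^{ρ l} e^{4C 2^l} β (l+1) i = e^{-P l - 4C 2^l - 3 2^{l+i+1}} = β l (i+1)` (`P (l+1) = P l + ρ l`).
(3) `β l i ≤ e^{-3 2^{l+i}}`, and `∑_{i≥0} e^{-3 2^{l+i}} ≤ e^{-3 2^l} ∑_i e^{-3i} ≤ 2 e^{-3 2^l} ≤ e^{-2 2^l}` (`2^{l+i} ≥ 2^l + i`, `e^{2^l} ≥ e > 2`). -/
def S_TLi : Prop := ∀ (dom : ℕ → Set E2) (Θ S T : ℕ → E2 → E2) (P ρ R e : ℕ → ℝ), Trn dom Θ S T P ρ R e →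
  ∀ C : ℝ, 1 ≤ C → ∃ l₀ : ℕ, ∀ l ≥ l₀, ∀ z : E2, ‖z‖ + 3 ≤ Real.exp (C * 2 ^ l) →
    z ∈ dom l ∧ (∀ i, ‖orbE Θ l i z‖ + 3 ≤ Real.exp (C * 2 ^ (l + i))) ∧
    (∀ i, ‖bk T (i + 1) l (orbE Θ l (i + 1) z) - bk T i l (orbE Θ l i z)‖ ≤ Real.exp (-(3 * 2 ^ (l + i)))) ∧
    ∀ i, ‖bk T i l (orbE Θ l i z) - z‖ ≤ Real.exp (-(2 * 2 ^ l))

/-- **TPh.** The limits of a train.  (Uses `Bed.S_Wei`, `S_TLi`.)

Proof.  Let `C ≥ 1`, `l₀` from `S_TLi`, `l ≥ l₀`, `U = {z | ‖z‖ + 3 < e^{C 2^l}}`, open.  `h l i z = bk T i l (orbE Θ l i z)` is differentiable on `U` (`orbE Θ l i z ∈ dom (l+i)` by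
`maps`, `Θ` differentiable on the open domains, `T` differentiable), so by `Bed.S_Wei` with `b i = e^{-3 2^{l+i}} ≤ e^{-i}` (summable) it converges on `U` to a differentiable function `H`, and
`‖H z - z‖ ≤ e^{-2 2^l}` (limit of the last claim of `S_TLi`).
`Φ l z`: let `z ∈ dom l`.  By `bdd` there is `B` with `‖orbE Θ l i z‖ ≤ B` for all `i`; choose `i₀` with `B + 3 < e^{2^{l+i₀}}` and `l + i₀ ≥ l₀(1)` (`C = 1`).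
For `i ≥ i₀`, `i = i₀ + k`, `bk T (l+i) 0 (orbE Θ l i z) = bk T (l+i₀) 0 (h (l+i₀) k z₀)`, `z₀ = orbE Θ l i₀ z` (`bk_add`, `orbE_add`), which converges to
`bk T (l+i₀) 0 (H z₀)` (`T` continuous).  So the limit `Φ l z` exists (choose it; `Φ l z = 0` for `z ∉ dom l`).
For `z` with `‖z‖ + 3 < e^{C 2^l}`, `l ≥ l₀(C)`: `z ∈ dom l` and in the same way with `i₀ = 0` `Φ l z = bk T l 0 (H z)` (uniqueness of limits). -/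
def S_TPh : Prop := Bed.S_Wei → S_TLi → ∀ (dom : ℕ → Set E2) (Θ S T : ℕ → E2 → E2) (P ρ R e : ℕ → ℝ),
  Trn dom Θ S T P ρ R e → ∃ Φ : ℕ → E2 → E2, IsPhi dom Θ T Φ

/-- **TFa.** The limits are injective immersions.  (Uses `S_Cau`.)

Proof.  Compatibility: `bk T (l+1+i) 0 (orbE Θ (l+1) i (Θ l z)) = bk T (l+(i+1)) 0 (orbE Θ l (i+1) z)` (`orbE_succ'`), uniqueness of the limit.  So
`Φ (l+i) (orbE Θ l i y) = Φ l y` for `y ∈ dom l` (induction on `i`).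
Let `l₀ = l₀(1)` be from `IsPhi.H` with `C = 1`, `l' ≥ l₀` with `l' ≥ 3`, `H` the map for `l'`, `ρ = e^{2^{l'}} - 3 > 8`, `h = H - id` on `ball 0 ρ`, `‖h‖ ≤ ε = e^{-2 2^{l'}} ≤ 1`, so `2 ε / ρ ≤ 1/2`
and by `S_Cau`: on `ball 0 (ρ/2)`, `H` is injective (`‖H z - H z'‖ ≥ ‖z - z'‖ / 2`) and `fderiv ℂ H z w = 0` implies `w = 0`.
Let `z ∈ dom l` (and `z' ∈ dom l` for the injectivity); by `bdd` there is `i` such that `l' = l + i` is as above and the point(s) `orbE Θ l i z` are in `ball 0 (ρ/2)`.  Near `z` (`y ∈ dom l`,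
`orbE Θ l i y ∈ ball 0 (ρ/2)` by continuity) `Φ l y = bk T l' 0 (H (orbE Θ l i y))`.  `orbE Θ l i` is differentiable at `z` with injective derivative, and injective on `dom l`
(`diff`, `maps`, `inj`, `dinj`, induction on `i`).  `bk T l' 0` is differentiable and has a differentiable left inverse (a composition of the `S j`, by `ST`), so it is injective with injective
derivatives (differentiate `S j (T j z) = z`).  Chain rule. -/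
def S_TFa : Prop := S_Cau → ∀ (dom : ℕ → Set E2) (Θ S T : ℕ → E2 → E2) (P ρ R e : ℕ → ℝ), Trn dom Θ S T P ρ R e →
  ∀ Φ : ℕ → E2 → E2, IsPhi dom Θ T Φ →
  (∀ l, DifferentiableOn ℂ (Φ l) (dom l)) ∧ (∀ l, ∀ z ∈ dom l, Φ (l + 1) (Θ l z) = Φ l z) ∧
    (∀ l, InjOn (Φ l) (dom l)) ∧ ∀ l, ∀ z ∈ dom l, ∀ w, fderiv ℂ (Φ l) z w = 0 → w = 0

/-- **TFb.** The limits are onto.  (Uses `S_Cau`.)

Proof.  Let `u ∈ E2`, `u_0 = u`, `u_{l+1} = S l u_l`.  `‖u_{l+1}‖ + 3 ≤ (‖u_l‖ + 3)²`, so `‖u_l‖ + 3 ≤ (‖u‖+3)^{2^l} = e^{C₀ 2^l}`, `C₀ = log (‖u‖ + 3)`, and `bk T l 0 u_l = u` (`TS`, `bk_succ'`).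
Let `C = C₀ + 2 ≥ 3`, `l ≥ l₀(C)` (`IsPhi.H`), `ρ = e^{C 2^l} - 3 ≥ 17`, `h = H - id`, `‖h‖ ≤ ε = e^{-2 2^l} ≤ e^{-2}` on `ball 0 ρ`; `2ε/ρ ≤ 1/2`.  For `‖z - u_l‖ ≤ 1`, `‖z‖ ≤ e^{C₀ 2^l} - 2 < ρ/2`
(`ρ ≥ e² e^{C₀ 2^l} - 3`).  The map `z ↦ u_l - h z` maps the closed ball of radius `1` with centre `u_l` into itself (`ε ≤ 1`) and is a contraction with the constant `1/2` (`S_Cau`), so it has a fixed point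
(Banach, for instance `ContractingWith.exists_fixedPoint'` on the complete set; or iterate directly): `H z = u_l`.  So `z ∈ dom l` and `Φ l z = bk T l 0 (H z) = u`. -/
def S_TFb : Prop := S_Cau → ∀ (dom : ℕ → Set E2) (Θ S T : ℕ → E2 → E2) (P ρ R e : ℕ → ℝ), Trn dom Θ S T P ρ R e →
  ∀ Φ : ℕ → E2 → E2, IsPhi dom Θ T Φ → ∀ u, ∃ l, ∃ z ∈ dom l, Φ l z = u

/-! ## Part E -/

/-- **Th.** The maps of the stages.  (Uses `S_Orb`.)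

Proof.  `Th L f s M j` is the composition of the linear isomorphism `Λ = La L (M j) (s j)`, which maps `Dm r L s M j` onto `ball 0 r`, of `orbE f (s j) k` (`S_Orb`) and of the linear
isomorphism `(La L (M (j+1)) (s (j+1)))⁻¹`.  `maps`: `La L (M (j+1)) (s (j+1)) (Th z) = orbE f (s j) k (Λ z) ∈ ball 0 r`. -/
def S_Th : Prop := S_Orb → ∀ (x ℓ r C₀ : ℝ) (f : ℕ → E2 → E2) (L : ℕ → E2 ≃L[ℂ] E2), SeqE x ℓ r C₀ f L →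
  ∀ (s : ℕ → ℕ) (M : ℕ → E2 ≃L[ℂ] E2), (∀ j, IsOpen (Dm r L s M j)) ∧
    (∀ j, DifferentiableOn ℂ (Th L f s M j) (Dm r L s M j)) ∧
    (∀ j, MapsTo (Th L f s M j) (Dm r L s M j) (Dm r L s M (j + 1))) ∧
    (∀ j, InjOn (Th L f s M j) (Dm r L s M j)) ∧
    ∀ j, ∀ z ∈ Dm r L s M j, ∀ w, fderiv ℂ (Th L f s M j) z w = 0 → w = 0

/-- **ST.** The polynomial automorphisms.

Proof.  `S z = ⟨u,z⟩ u + e^{-ρ} (⟨v,z⟩ + Q ⟨u,z⟩²) v`, `T z = ⟨u,z⟩ u + (e^ρ ⟨v,z⟩ - Q ⟨u,z⟩²) v` (`Fr.inner_u`, `Fr.inner_v` for the coordinates; `Fr.expand`).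
`‖S z‖ ≤ ‖⟨u,z⟩ u + e^{-ρ} ⟨v,z⟩ v‖ + e^{-ρ} |Q| |⟨u,z⟩|² ≤ ‖z‖ + ‖z‖²` (`Fr.norm_sq`).  With `α = ⟨u,z-z'⟩`, `β = ⟨v,z-z'⟩`:
`T z - T z' = (α u + e^ρ β v) - Q (⟨u,z⟩ + ⟨u,z'⟩) α v`; the first vector has norm `≤ e^ρ ‖z-z'‖` (`Fr.norm_sq`), the second one `≤ e^ρ (‖z‖ + ‖z'‖) ‖z-z'‖`.
`z ↦ ⟨u,z⟩` is the continuous linear map `innerSL ℂ u`. -/
def S_ST : Prop := ∀ (u v : E2) (ρ : ℝ) (Q : ℂ), Fr u v → 0 ≤ ρ → ‖Q‖ ≤ Real.exp ρ → ∃ S T : E2 → E2,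
  Differentiable ℂ S ∧ Differentiable ℂ T ∧ (∀ z, S (T z) = z) ∧ (∀ z, T (S z) = z) ∧
  (∀ z, ‖S z‖ ≤ ‖z‖ + ‖z‖ ^ 2) ∧
  (∀ z z', ‖T z - T z'‖ ≤ Real.exp ρ * (1 + ‖z‖ + ‖z'‖) * ‖z - z'‖) ∧
  ∀ z, T z = (inner ℂ u z : ℂ) • u + ((Real.exp ρ : ℂ) * inner ℂ v z - Q * (inner ℂ u z) ^ 2) • v

/-- The conclusion of `S_Acc`. -/
def AccC : Prop := ∀ (x ℓ r C₀ : ℝ) (f : ℕ → E2 → E2) (L : ℕ → E2 ≃L[ℂ] E2), SeqE x ℓ r C₀ f L →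
  ∀ (C₅ : ℝ) (s : ℕ → ℕ) (M : ℕ → E2 ≃L[ℂ] E2) (P ρ : ℕ → ℝ) (u v : ℕ → E2), StgS x ℓ C₅ L s M P ρ u v →
  ∀ (j : ℕ) (R : ℝ), 1 ≤ R →
  bb x ℓ C₀ * nn s j * Real.exp (-(eta x * aa L s M j)) ≤ 1 →
  8 * (CC x ℓ * nn s j) * R ^ 2 * Real.exp (-(aa L s M j)) < r → 2 * R < r * Real.exp (aa L s M j) →
  C4 x ℓ r C₀ * nn s j ^ 4 * R ^ 5 * Real.exp (-(eta x * aa L s M j)) ≤ 1 →
  ∃ Q : ℂ, ‖Q‖ ≤ Real.exp (ρ j) ∧ ∀ z : E2, ‖z‖ ≤ R → z ∈ Dm r L s M j ∧ ∀ z' : E2,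
    z' = (La L (M j) (s (j + 1))).symm (orbE f (s j) (s (j + 1) - s j) (La L (M j) (s j) z)) →
    ‖inner ℂ (u j) z' - inner ℂ (u j) z‖ +
      ‖inner ℂ (v j) z' - Q * (inner ℂ (u j) z') ^ 2 - inner ℂ (v j) z‖ ≤
      2 * C4 x ℓ r C₀ * nn s j ^ 4 * R ^ 5 * Real.exp (-(P j) - eta x * aa L s M j)

/-- The conclusion of `S_Ob2`. -/
def Ob2C : Prop := ∀ (x ℓ r C₀ : ℝ) (f : ℕ → E2 → E2) (L : ℕ → E2 ≃L[ℂ] E2), SeqE x ℓ r C₀ f L →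
  ∀ (C₅ : ℝ) (s : ℕ → ℕ) (M : ℕ → E2 ≃L[ℂ] E2) (P ρ : ℕ → ℝ) (u v : ℕ → E2), StgS x ℓ C₅ L s M P ρ u v →
  ∀ l : ℕ, ∀ z ∈ Dm r L s M l, ∃ B : ℝ, ∀ i, ‖orbE (Th L f s M) l i z‖ ≤ B

/-- **Lrg.** Large numbers.

Proof.  All expressions are bounded by a constant times `a^4 e^{-κ a}` with `κ > 0`: with `R = e^{(η/20) a}`: `R^2 = e^{(η/10) a}`, `R^5 = e^{(η/4) a}`, `0 < η ≤ 1/4`; every such expression tends to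
zero as `a → ∞` (and `2 R / (r e^a) → 0`). -/
def S_Lrg : Prop := ∀ (b C₁ C₄ C₅ r η : ℝ), 0 < b → 0 < C₁ → 0 < C₄ → 0 < C₅ → 0 < r → 0 < η → η ≤ 1 / 4 →
  ∃ a₀ : ℝ, 1 ≤ a₀ ∧ ∀ a n : ℝ, a₀ ≤ a → 0 ≤ n → n ≤ C₅ * a →
    b * n * Real.exp (-(η * a)) ≤ 1 ∧
    8 * (C₁ * n) * Real.exp (η / 20 * a) ^ 2 * Real.exp (-a) < r ∧
    2 * Real.exp (η / 20 * a) < r * Real.exp a ∧
    C₄ * n ^ 4 * Real.exp (η / 20 * a) ^ 5 * Real.exp (-(η * a)) ≤ 1 ∧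
    2 * C₄ * n ^ 4 * Real.exp (η / 20 * a) ^ 5 * Real.exp (-(η * a)) ≤ Real.exp (-(η / 2 * a))

/-- The sequence of stages and the train for a pinched sequence. -/
def MkC : Prop := ∀ (x ℓ r C₀ : ℝ) (f : ℕ → E2 → E2) (L : ℕ → E2 ≃L[ℂ] E2), SeqE x ℓ r C₀ f L →
  ∃ (s : ℕ → ℕ) (M : ℕ → E2 ≃L[ℂ] E2) (P ρ R e : ℕ → ℝ) (S T : ℕ → E2 → E2),
    (∀ j, s j < s (j + 1)) ∧ Trn (Dm r L s M) (Th L f s M) S T P ρ R e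

/-- **Mk.** The stage maps form a train.  (Uses `StgSC`, `AccC`, `Ob2C`, `S_Orb`, `S_Th`, `S_ST`, `S_Lrg`.)

Proof.  `η = eta x ∈ (0, 1/4)`, `C₅` from `StgSC`, `a₀` from `S_Lrg` (with `b = bb x ℓ C₀`, `C₁ = CC x ℓ`, `C₄ = C4 x ℓ r C₀`), and the stages from `StgSC` with `Astar = a₀`; `a_j = aa L s M j`,
`n_j = nn s j ≤ C₅ a_j` (`len`), `R j = e^{(η/20) a_j} ≥ 1`, `e j = 2 C₄ n_j⁴ R_j⁵ e^{-P_j - η a_j} ≤ e^{-P_j - (η/2) a_j}`.  `AccC` gives `Q_j`, `S_ST` gives `S j`, `T j`.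
`near`: let `y = Th L f s M j z`, `z' = (La L (M j) (s (j+1)))⁻¹ (orbE ...)`, so `La L (M (j+1)) (s (j+1)) y = La L (M j) (s (j+1)) z'`; by `M_succ` (`La_congr`) the left side is
`La L (M j) (s (j+1)) (Rm (u j) (v j) e^{ρ j} y)`, so `z' = Rm (u j) (v j) e^{ρ j} y`, `⟨u,z'⟩ = ⟨u,y⟩`, `⟨v,z'⟩ = e^ρ ⟨v,y⟩`, and `T y - z = (⟨u,z'⟩ - ⟨u,z⟩) u + (⟨v,z'⟩ - Q ⟨u,z'⟩² - ⟨v,z⟩) v`.
`R_big`: `(η/20) c 3^j ≥ C 2^j` eventually.  `e_small`: `e j ≤ e^{-P_j - (η/2) c 3^j}`, and `(η/2) c 3^j ≥ C 2^j` eventually.  `bdd`: `Ob2C`.  The rest: `S_Th`, `StgS`. -/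
def S_Mk : Prop := StgSC → AccC → Ob2C → S_Orb → S_Th → S_ST → S_Lrg → MkC

/-- The theorem for pinched sequences of maps of `E2`. -/
def SeqEC : Prop := ∀ (x ℓ r C₀ : ℝ) (f : ℕ → E2 → E2) (L : ℕ → E2 ≃L[ℂ] E2), SeqE x ℓ r C₀ f L → BasinE r f

/-- **SE.** The basin.  (Uses `MkC`, the train lemma, `S_Orb`.)

Proof.  Let `s`, `M` and the train be from `MkC`, `Φ` from the train lemma (`TrnC`).  `s` is strictly increasing, so `m ≤ s m`.  `Ψ m w = Φ m ((La L (M m) (s m))⁻¹ (orbE f m (s m - m) w))`; the argument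
is in `Dm r L s M m` (`S_Orb`).  Compatibility: `Ψ (m+1) (f m w) = Φ (m+1) ((La L (M (m+1)) (s (m+1)))⁻¹ (orbE f (m+1) (s (m+1) - m - 1) (f m w)))`, and
`orbE f (m+1) (s (m+1) - m - 1) (f m w) = orbE f m (s (m+1) - m) w = orbE f (s m) (s (m+1) - s m) (orbE f m (s m - m) w)` (`orbE_succ'`, `orbE_add`), so this is
`Φ (m+1) (Th L f s M m y) = Φ m y`, `y = (La L (M m) (s m))⁻¹ (orbE f m (s m - m) w)`.  Differentiable, injective, immersion: compositions (`S_Orb`).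
Onto: `u = Φ l z`, `z ∈ Dm r L s M l`, `w = La L (M l) (s l) z ∈ ball 0 r`.  Claim `Ψ (s l) w = Φ l z`: more generally, for `j ≥ l`, `Φ j ((La L (M j) (s j))⁻¹ (orbE f (s l) (s j - s l) w)) = Φ l z`
(induction on `j`, compatibility of `Φ`), for `j = s l ≥ l`. -/
def S_SE : Prop := MkC → (∀ (dom : ℕ → Set E2) (Θ S T : ℕ → E2 → E2) (P ρ R e : ℕ → ℝ), Trn dom Θ S T P ρ R e → TrnC dom Θ) →
  S_Orb → SeqEC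

/-! ## Part R -/

open scoped Manifold in
/-- **PD.** Translation of the condition (D).

Proof.  `lam' = lam^N < 1`, `mu' = mu^N`, `lam'^3 < mu'` (`N > 0`), `C' = C b / a`.  `mu^{Nq} a ‖Λ n z‖ ≤ mu^{Nq} nit (N n) (j z) ≤ C nit (N n + N q) (j z) ≤ C b ‖Λ (n+q) z‖` and
`a ‖Λ (n+q) z‖ ≤ nit (N n + N q) (j z) ≤ C lam^{Nq} nit (N n) (j z) ≤ C lam^{Nq} b ‖Λ n z‖` (`j z ∈ Ep` by `range`). -/
def S_PD : Prop := ∀ (E : Type) [NormedAddCommGroup E] [NormedSpace ℂ E] [FiniteDimensional ℂ E] (X : Type) [MetricSpace X]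
  [ChartedSpace E X] (nrm : (x : X) → TangentSpace 𝓘(ℂ, E) x → ℝ) (f : X ≃ X) (p : X)
  (Ep : Submodule ℂ (TangentSpace 𝓘(ℂ, E) p)) (N : ℕ) (j : (Fin 2 → ℂ) →ₗ[ℂ] TangentSpace 𝓘(ℂ, E) p)
  (Λ : ℕ → (Fin 2 → ℂ) →L[ℂ] (Fin 2 → ℂ)) (a b : ℝ), Bed.Cmp nrm f p Ep N 2 j Λ a b → PtD nrm f p Ep → DCond Λ

/-- **QL.** The linear parts of `q` steps, for large `q`.

Proof.  `Λ n = Bed.prodL A id n`, injective (`low`), hence bijective; let `A_{n,q} = A (n+q-1) ∘ ... ∘ A n`, so `Λ (n+q) = A_{n,q} Λ n` and for all `w` (write `w = Λ n z`)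
`mu^q ‖w‖ ≤ C₁ ‖A_{n,q} w‖`, `‖A_{n,q} w‖ ≤ C₁ lam^q ‖w‖` (w.l.o.g. `C₁ ≥ 1`).  `‖io z‖ ≤ ‖z‖ ≤ 2 ‖io z‖` for `z ∈ E2`.  Let `L n = io⁻¹ A_{qn,q} io`, so `‖L n z‖ ≤ 2 C₁ lam^q ‖z‖`,
`‖L n z‖ ≥ mu^q/(2 C₁) ‖z‖`.  `ℓ = -log (2 C₁ lam^q) = q |log lam| - log (2 C₁) > 0` for large `q`.  As `lam³ < mu` there is `x ∈ (2, 3)` with `-log mu < x (-log lam)`, and for large `q`
`x ℓ ≥ q (-log mu) + log (2 C₁)`, that is `e^{-xℓ} ≤ mu^q/(2 C₁)`.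
Quadratic estimate: for every `q` there is `C_q` with `‖(orb F n q z - A_{n,q} z) - (orb F n q z' - A_{n,q} z')‖ ≤ C_q (‖z‖ + ‖z'‖) ‖z - z'‖` on `ball 0 r`, for all `n`: induction on `q`,
`y = orb F n q z`, `‖y‖ ≤ ‖z‖`, `‖y - y'‖ ≤ (1 + 2 C_q r) ‖z - z'‖`, `F y - A A_{n,q} z = (F y - A y) + A (y - A_{n,q} z)`, so `C_{q+1} = C (1 + 2 C_q r) + C_q` works
(`‖A‖ ≤ D < 1`, `‖A_{n,q}‖ ≤ 1`).  `C₀ = 2 C_q` (w.l.o.g. positive) for `qst F q n - L n` on `ball 0 r ⊆ E2`, as `‖io z‖ ≤ ‖z‖`.  `r' ≤ r` with `e^{-ℓ} + C₀ r' ≤ e^{-ℓ/2}`: `contr`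
(`qst F q n 0 = 0`).  `diff`, `inj`, `dinj`: compositions of the `F m` (which map `ball 0 r` into itself). -/
def S_QL : Prop := ∀ (r D C c : ℝ) (F : ℕ → (Fin 2 → ℂ) → (Fin 2 → ℂ)) (A : ℕ → (Fin 2 → ℂ) →L[ℂ] (Fin 2 → ℂ)),
  Bed.SeqD 2 r D C c F A → DCond (Bed.prodL A (ContinuousLinearMap.id ℂ (Fin 2 → ℂ))) →
  ∃ (q : ℕ) (x ℓ r' C₀ : ℝ) (L : ℕ → E2 ≃L[ℂ] E2), 0 < q ∧ r' ≤ r ∧ SeqE x ℓ r' C₀ (qst F q) L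

/-- **QB.** From the basin of the `q`-step maps to the basin of `F`.

Proof.  `‖io z‖ ≤ ‖z‖ ≤ 2 ‖io z‖`.  `Ψ` from `BasinE`.  `F m` maps `ball 0 r` into itself, `‖Bed.orb F m i z‖ ≤ D^i ‖z‖`.  Let `N₀` be such that `2 D^i r < r'` for `i ≥ N₀`.  For every `m` let
`n(m) = m + N₀`; so `q n ≥ m + N₀` for `n ≥ n(m)`.  For `n ≥ n(m)` and `z ∈ ball 0 r` let `Ψ^n_m z = io (Ψ n (io⁻¹ (Bed.orb F m (q n - m) z)))`; the argument of `Ψ n` is in `ball 0 r'`; it does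
not depend on `n ≥ n(m)` (compatibility of `Ψ` with `qst F q n`, as `Bed.orb F m (q (n+1) - m) z = Bed.orb F (q n) q (Bed.orb F m (q n - m) z)`).  `Ψ' m = Ψ^{n(m)}_m`.
Compatibility: `Ψ' (m+1) (F m z) = Ψ^{n}_{m+1} (F m z) = Ψ^n_m z = Ψ' m z` with `n = n (m+1)`.  Differentiable, injective, immersion: compositions.  Onto: `u ∈ Fin 2 → ℂ`, `io⁻¹ u = Ψ n x`,
`x ∈ ball 0 r'`; `z = io x ∈ ball 0 r`, and `Ψ' (q n) z = io (Ψ n' (io⁻¹ (orb F (q n) (q n' - q n) z))) = io (Ψ n x) = u`, `n' = n (q n)` (compatibility of `Ψ`, `qst`). -/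
def S_QB : Prop := ∀ (r D C c : ℝ) (F : ℕ → (Fin 2 → ℂ) → (Fin 2 → ℂ)) (A : ℕ → (Fin 2 → ℂ) →L[ℂ] (Fin 2 → ℂ)),
  Bed.SeqD 2 r D C c F A → ∀ (q : ℕ) (r' : ℝ), 0 < q → 0 < r' → r' ≤ r → BasinE r' (qst F q) → Bed.BasinCk 2 r F

/-- The conclusion for uniformly attracting sequences with the condition (D). -/
def SeqDC : Prop := ∀ (r D C c : ℝ) (F : ℕ → (Fin 2 → ℂ) → (Fin 2 → ℂ)) (A : ℕ → (Fin 2 → ℂ) →L[ℂ] (Fin 2 → ℂ)),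
  Bed.SeqD 2 r D C c F A → DCond (Bed.prodL A (ContinuousLinearMap.id ℂ (Fin 2 → ℂ))) → Bed.BasinCk 2 r F

end Pool.Agent.Lib.BedD
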