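import Pool.Agent.Lib.BedD.SpecA

/-!
# MP_6f050a_an, theorem D: second Taylor coefficient
-/

set_option autoImplicit false

open scoped Topology
open Set Filter Metric

namespace Pool.Agent.Lib.BedD

namespace sTayAux

/-- a bound at the centre, by continuity -/
theorem at_zero {g : ℂ → ℂ} {ρ b : ℝ} {k : ℕ} (hρ : 0 < ρ) (hg : DifferentiableOn ℂ g (ball 0 ρ))
    (h : ∀ X ∈ ball (0 : ℂ) ρ, X ≠ 0 → ‖g X‖ ≤ b * ‖X‖ ^ k) : ‖g 0‖ ≤ b * ‖(0 : ℂ)‖ ^ k := by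
  have h1 : ContinuousAt g 0 :=
    (hg.continuousOn).continuousAt (ball_mem_nhds _ hρ)
  have h2 : Tendsto (fun X => ‖g X‖) (𝓝[≠] (0 : ℂ)) (𝓝 ‖g 0‖) :=
    (h1.norm.tendsto).mono_left nhdsWithin_le_nhds
  have h3 : Tendsto (fun X : ℂ => b * ‖X‖ ^ k) (𝓝[≠] (0 : ℂ)) (𝓝 (b * ‖(0 : ℂ)‖ ^ k)) := by
    have : Continuous fun X : ℂ => b * ‖X‖ ^ k := by fun_prop
    exact this.continuousAt.tendsto.mono_left nhdsWithin_le_nhds
  apply le_of_tendsto_of_tendsto h2 h3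
  have h4 : ball (0 : ℂ) ρ ∈ 𝓝[≠] (0 : ℂ) := mem_nhdsWithin_of_mem_nhds (ball_mem_nhds _ hρ)
  filter_upwards [h4, self_mem_nhdsWithin] with X hX hX0
  exact h X hX hX0

end sTayAux

open sTayAux in
theorem sTay : S_Tay := by
  intro φ ρ b hρ hb hφ hle
  have hnh : ball (0 : ℂ) ρ ∈ 𝓝 (0 : ℂ) := ball_mem_nhds _ hρ
  have h0m : (0 : ℂ) ∈ ball (0 : ℂ) ρ := mem_ball_self hρ
  have hφ0 : φ 0 = 0 := by
    have := hle 0 h0m
    rw [norm_zero] at this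
    apply norm_eq_zero.1
    apply le_antisymm _ (norm_nonneg _)
    simpa using this
  have hd1 : DifferentiableOn ℂ (dslope φ 0) (ball 0 ρ) :=
    (Complex.differentiableOn_dslope hnh).2 hφ
  have he1 : ∀ X, X * dslope φ 0 X = φ X := by
    intro X
    have := sub_smul_dslope φ 0 X
    rw [sub_zero, hφ0, sub_zero, smul_eq_mul] at this
    exact this
  have hb1 : ∀ X ∈ ball (0 : ℂ) ρ, X ≠ 0 → ‖dslope φ 0 X‖ ≤ b * ‖X‖ ^ 1 := by
    intro X hX hX0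
    have h1 := hle X hX
    rw [← he1 X, norm_mul] at h1
    have h2 : 0 < ‖X‖ := norm_pos_iff.2 hX0
    have h3 : ‖X‖ * ‖dslope φ 0 X‖ ≤ ‖X‖ * (b * ‖X‖ ^ 1) := by
      calc ‖X‖ * ‖dslope φ 0 X‖ ≤ b * ‖X‖ ^ 2 := h1
        _ = _ := by ring
    exact le_of_mul_le_mul_left h3 h2
  have hz1 : dslope φ 0 0 = 0 := by
    have := at_zero hρ hd1 hb1
    apply norm_eq_zero.1
    apply le_antisymm _ (norm_nonneg _)
    simpa using this
  have hd2 : DifferentiableOn ℂ (dslope (dslope φ 0) 0) (ball 0 ρ) :=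
    (Complex.differentiableOn_dslope hnh).2 hd1
  have he2 : ∀ X, X * dslope (dslope φ 0) 0 X = dslope φ 0 X := by
    intro X
    have := sub_smul_dslope (dslope φ 0) 0 X
    rw [sub_zero, hz1, sub_zero, smul_eq_mul] at this
    exact this
  have hb2 : ∀ X ∈ ball (0 : ℂ) ρ, X ≠ 0 → ‖dslope (dslope φ 0) 0 X‖ ≤ b * ‖X‖ ^ 0 := by
    intro X hX hX0
    have h1 := hb1 X hX hX0
    rw [← he2 X, norm_mul] at h1
    have h2 : 0 < ‖X‖ := norm_pos_iff.2 hX0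
    have h3 : ‖X‖ * ‖dslope (dslope φ 0) 0 X‖ ≤ ‖X‖ * (b * ‖X‖ ^ 0) := by
      calc ‖X‖ * ‖dslope (dslope φ 0) 0 X‖ ≤ b * ‖X‖ ^ 1 := h1
        _ = _ := by ring
    exact le_of_mul_le_mul_left h3 h2
  have hb3 : ∀ X ∈ ball (0 : ℂ) ρ, ‖dslope (dslope φ 0) 0 X‖ ≤ b := by
    intro X hX
    by_cases hX0 : X = 0
    · subst hX0
      have := at_zero hρ hd2 hb2
      simpa using this
    · simpa using hb2 X hX hX0
  refine ⟨dslope (dslope φ 0) 0 0, hb3 0 h0m, fun X hX => ?_⟩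
  have hm : MapsTo (dslope (dslope φ 0) 0) (ball 0 ρ)
      (closedBall (dslope (dslope φ 0) 0 0) (2 * b)) := by
    intro Y hY
    rw [mem_closedBall, dist_eq_norm]
    refine (norm_sub_le _ _).trans ?_
    have h1 := hb3 Y hY
    have h2 := hb3 0 h0m
    linarith
  have h1 := Complex.dist_le_div_mul_dist_of_mapsTo_ball hd2 hm hX
  rw [dist_eq_norm, dist_zero_right] at h1
  have h2 : φ X - dslope (dslope φ 0) 0 0 * X ^ 2
      = X ^ 2 * (dslope (dslope φ 0) 0 X - dslope (dslope φ 0) 0 0) := by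
    rw [← he1 X, ← he2 X]
    ring
  rw [h2, norm_mul, norm_pow]
  calc ‖X‖ ^ 2 * ‖dslope (dslope φ 0) 0 X - dslope (dslope φ 0) 0 0‖
      ≤ ‖X‖ ^ 2 * (2 * b / ρ * ‖X‖) := mul_le_mul_of_nonneg_left h1 (by positivity)
    _ = _ := by ring

end Pool.Agent.Lib.BedD
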